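import Pool.Agent.EN45.Evt

/-!
# Many values (module A1)
-/

namespace Pool.Agent.EN45

open Set

variable {I : Type*} [LinearOrder I]

/-- finitely many functions which are different are different before some number -/
private theorem a1_exists_bound {ι : Type*} (S : Finset ι) (f : ι → ℕ → Bool) :
    ∃ N, ∀ i ∈ S, ∀ j ∈ S, f i ≠ f j → ∃ n < N, f i n ≠ f j n := by
  classical
  have h : ∀ p : ι × ι, ∃ n, f p.1 ≠ f p.2 → f p.1 n ≠ f p.2 n := by
    intro p
    by_cases hp : f p.1 = f p.2
    · exact ⟨0, fun h => absurd hp h⟩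
    · obtain ⟨n, hn⟩ := Function.ne_iff.1 hp
      exact ⟨n, fun _ => hn⟩
  choose n hn using h
  refine ⟨(S ×ˢ S).sup fun p => n p + 1, fun i hi j hj hij => ⟨n (i, j), ?_, hn (i, j) hij⟩⟩
  exact Nat.lt_of_succ_le (Finset.le_sup (f := fun p => n p + 1) (Finset.mk_mem_product hi hj))

/-- one box: any number of points which agree below `γ`, with different values.
Induction on `Q`; `Q = 0` and `Q = 1` are trivial (`Bx.pt_mem`).  Given points `z i`, `i < Q`
(`1 ≤ Q`), let `N` be such that the values `g (z i)` differ before `N` (finitely many pairs), and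
let `lam` be the level function of `CtsOn.exists_lam` for `N` and `l = W.lv`.  The box
`V = bx lam _ (z 0)` satisfies `Sub V W` (`sub_bx`).  By `hsplit` there are `y`, `y'` in `V`
which agree below `γ` with `g y ≠ g y'`.  The new points are `y`, `y'` and, for `1 ≤ i < Q`, the
points which are `y` below `γ` and `z i` from `γ` on: they are in `bx lam _ (z i)`, as `z i` and
`z 0` agree below `γ`.  The values agree before `N` with those of the points `z i`
(`g y` and `g y'` with `g (z 0)`). -/
theorem exists_many_one {W : Bx I} {g : (I → X) → ℕ → Bool} (hg : CtsOn W g) {γ : I}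
    (hsplit : ∀ V, Sub V W → ∃ y ∈ V, ∃ y' ∈ V, (∀ δ < γ, y δ = y' δ) ∧ g y ≠ g y') (Q : ℕ) :
    ∃ z : ℕ → I → X, (∀ i < Q, z i ∈ W) ∧ (∀ i < Q, ∀ j < Q, ∀ δ < γ, z i δ = z j δ) ∧
      ∀ i < Q, ∀ j < Q, i ≠ j → g (z i) ≠ g (z j) := by
  classical
  induction Q with
  | zero => exact ⟨fun _ => W.pt, fun i hi => absurd hi (Nat.not_lt_zero _),
      fun i hi => absurd hi (Nat.not_lt_zero _), fun i hi => absurd hi (Nat.not_lt_zero _)⟩
  | succ Q ih =>
    rcases Nat.eq_zero_or_pos Q with hQ | hQ
    · subst hQ
      exact ⟨fun _ => W.pt, fun i _ => W.pt_mem, fun i _ j _ δ _ => rfl,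
        fun i hi j hj hij => absurd (by omega) hij⟩
    · obtain ⟨z, hz1, hz2, hz3⟩ := ih
      obtain ⟨N, hN⟩ := a1_exists_bound (Finset.range Q) fun i => g (z i)
      obtain ⟨lam, hlam, hle, hconst⟩ := hg.exists_lam N W.fin
      have hV : Sub (bx lam hlam (z 0)) W := sub_bx hle (hz1 0 hQ)
      obtain ⟨y, hy, y', hy', hyy, hne⟩ := hsplit _ hV
      rw [mem_bx_iff] at hy hy'
      -- the new points and their centers
      obtain ⟨p, hp⟩ : ∃ p : ℕ → I → X, p = fun i => if i = 0 then y else if i = Q then y'
        else fun δ => if δ < γ then y δ else z i δ := ⟨_, rfl⟩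
      obtain ⟨c, hc⟩ : ∃ c : ℕ → ℕ, c = fun i => if i = Q then 0 else i := ⟨_, rfl⟩
      have hcQ : ∀ i < Q + 1, c i < Q := by
        intro i hi
        rw [hc]
        beta_reduce
        split_ifs <;> omega
      have hlow : ∀ i, ∀ δ < γ, p i δ = y δ := by
        intro i δ hδ
        rw [hp]
        beta_reduce
        split_ifs with h1 h2
        · rfl
        · exact (hyy δ hδ).symm
        · exact if_pos hδ
      have hcen : ∀ i < Q + 1, ∀ δ, Eqn (lam δ) (p i δ) (z (c i) δ) := by
        intro i hi δ
        by_cases h1 : i = 0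
        · have h2 : p i = y := by rw [hp]; exact if_pos h1
          have h3 : c i = 0 := by rw [hc]; beta_reduce; split_ifs <;> omega
          rw [h2, h3]; exact hy δ
        · by_cases h2 : i = Q
          · have h3 : p i = y' := by rw [hp]; beta_reduce; rw [if_neg h1, if_pos h2]
            have h4 : c i = 0 := by rw [hc]; exact if_pos h2
            rw [h3, h4]; exact hy' δ
          · have h3 : p i δ = if δ < γ then y δ else z i δ := by
              rw [hp]; beta_reduce; rw [if_neg h1, if_neg h2]
            have h4 : c i = i := by rw [hc]; exact if_neg h2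
            rw [h3, h4]
            by_cases h5 : δ < γ
            · rw [if_pos h5, hz2 i (by omega) 0 hQ δ h5]; exact hy δ
            · rw [if_neg h5]; exact Eqn.refl _ _
      have hpW : ∀ i < Q + 1, p i ∈ W := fun i hi δ =>
        ((hcen i hi δ).mono (hle δ)).trans (hz1 _ (hcQ i hi) δ)
      refine ⟨p, hpW, fun i _ j _ δ hδ => by rw [hlow i δ hδ, hlow j δ hδ],
        fun i hi j hj hij => ?_⟩
      by_cases hcc : c i = c j
      · have hcases : (i = 0 ∧ j = Q) ∨ (i = Q ∧ j = 0) := by
          rw [hc] at hcc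
          beta_reduce at hcc
          split_ifs at hcc <;> omega
        have hp0 : p 0 = y := by rw [hp]; exact if_pos rfl
        have hpQ : p Q = y' := by
          rw [hp]; beta_reduce; rw [if_neg (by omega), if_pos rfl]
        rcases hcases with ⟨h1, h2⟩ | ⟨h1, h2⟩
        · rw [h1, h2, hp0, hpQ]; exact hne
        · rw [h1, h2, hp0, hpQ]; exact hne.symm
      · obtain ⟨n, hn, hn'⟩ := hN (c i) (Finset.mem_range.2 (hcQ i hi)) (c j)
          (Finset.mem_range.2 (hcQ j hj)) (hz3 _ (hcQ i hi) _ (hcQ j hj) hcc)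
        intro heq
        apply hn'
        rw [← hconst (p i) (hpW i hi) _ (hz1 _ (hcQ i hi)) (hcen i hi) n hn,
          ← hconst (p j) (hpW j hj) _ (hz1 _ (hcQ j hj)) (hcen j hj) n hn, heq]

/-- module A1: finitely many boxes with the same nodes below `γ`.
Induction on the finite set `S`.  For `insert k S` (`S` may be assumed nonempty: for `S = ∅` take
`W k` and its point) let `w` be given for `S`; let `N` be such that the values `g (w i)`, `i ∈ S`,
differ before `N`, and let `lam` be the level function of `CtsOn.exists_lam` for `N` and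
`l = fun δ => S.sup (fun i => (W i).lv δ)`.  Fix `i₀ ∈ S`.  Let `V'` be the box with the levels
`lam` below `γ` and `(W k).lv` from `γ` on, and the point which is `w i₀` below `γ` and
`(W k).pt` from `γ` on.  `Sub V' (W k)`, as the boxes `W k` and `W i₀` have the same nodes below
`γ` and `w i₀ ∈ W i₀`.  By `exists_many_one` for `V'` and `Q = S.card + 1` there are points
`z j`, `j < Q`, in `V'` which agree below `γ` with different values.  Let `w' i`, for `i ∈ S`, be
the point which is `z 0` below `γ` and `w i` from `γ` on; it is in `W i` and agrees with `w i` up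
to the levels `lam`, so that the values `g (w' i)` differ.  The `Q` values `g (z j)` cannot all
be among the `S.card` values `g (w' i)`; choose `j` such that `g (z j)` is not among them, and
let `w' k = z j`. -/
theorem exists_many {u : Bx I} {g : (I → X) → ℕ → Bool} (hg : CtsOn u g) {γ : I}
    (hsplit : ∀ V, Sub V u → ∃ y ∈ V, ∃ y' ∈ V, (∀ δ < γ, y δ = y' δ) ∧ g y ≠ g y')
    {ι : Type*} (S : Finset ι) (W : ι → Bx I) (hW : ∀ i ∈ S, Sub (W i) u)
    (hlow : ∀ i ∈ S, ∀ j ∈ S, ∀ δ < γ, (W i).lv δ = (W j).lv δ ∧
      Eqn ((W i).lv δ) ((W i).pt δ) ((W j).pt δ)) :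
    ∃ w : ι → I → X, (∀ i ∈ S, w i ∈ W i) ∧ (∀ i ∈ S, ∀ j ∈ S, ∀ δ < γ, w i δ = w j δ) ∧
      ∀ i ∈ S, ∀ j ∈ S, i ≠ j → g (w i) ≠ g (w j) := by
  classical
  induction S using Finset.induction_on with
  | empty => exact ⟨fun _ => u.pt, fun i hi => absurd hi (Finset.notMem_empty _),
      fun i hi => absurd hi (Finset.notMem_empty _), fun i hi => absurd hi (Finset.notMem_empty _)⟩
  | insert k S hk ih =>
    have hS : ∀ i ∈ S, i ∈ insert k S := fun i hi => Finset.mem_insert_of_mem hi
    have hkk : k ∈ insert k S := Finset.mem_insert_self k S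
    rcases S.eq_empty_or_nonempty with hE | ⟨i₀, hi₀⟩
    · subst hE
      refine ⟨fun i => (W i).pt, fun i _ => (W i).pt_mem, fun i hi j hj δ _ => ?_,
        fun i hi j hj hij => ?_⟩
      · have h1 : i = k := by simpa using hi
        have h2 : j = k := by simpa using hj
        rw [h1, h2]
      · have h1 : i = k := by simpa using hi
        have h2 : j = k := by simpa using hj
        exact absurd (h1.trans h2.symm) hij
    · obtain ⟨w, hw1, hw2, hw3⟩ := ih (fun i hi => hW i (hS i hi))
        fun i hi j hj => hlow i (hS i hi) j (hS j hj)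
      obtain ⟨N, hN⟩ := a1_exists_bound S fun i => g (w i)
      have hlfin : {δ | (S.sup fun i => (W i).lv δ) ≠ 0}.Finite := by
        refine (S.finite_toSet.biUnion fun i _ => (W i).fin).subset fun δ hδ => ?_
        by_contra hcon
        refine hδ ?_
        rw [← Nat.bot_eq_zero, Finset.sup_eq_bot_iff]
        intro i hi
        by_contra h1
        exact hcon (mem_biUnion (x := i) (Finset.mem_coe.2 hi) h1)
      obtain ⟨lam, hlam, hle, hconst⟩ := hg.exists_lam N hlfin
      have hle' : ∀ i ∈ S, ∀ δ, (W i).lv δ ≤ lam δ := fun i hi δ =>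
        (Finset.le_sup (f := fun i => (W i).lv δ) hi).trans (hle δ)
      obtain ⟨V, hVpt, hVlv⟩ : ∃ V : Bx I,
          (V.pt = fun δ => if δ < γ then w i₀ δ else (W k).pt δ) ∧
          V.lv = fun δ => if δ < γ then lam δ else (W k).lv δ := by
        refine ⟨⟨_, fun δ => if δ < γ then lam δ else (W k).lv δ, ?_⟩, rfl, rfl⟩
        refine (hlam.union (W k).fin).subset fun δ hδ => ?_
        by_contra hcon
        rw [mem_union, not_or] at hcon
        refine hδ ?_
        rw [not_not.1 hcon.1, not_not.1 hcon.2, ite_self]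
      have hVW : Sub V (W k) := by
        refine sub_of_mem (fun δ => ?_) V.pt_mem fun δ => ?_
        · rw [hVlv]
          beta_reduce
          split_ifs with h1
          · rw [(hlow k hkk i₀ (hS i₀ hi₀) δ h1).1]; exact hle' i₀ hi₀ δ
          · exact le_rfl
        · rw [hVpt]
          beta_reduce
          split_ifs with h1
          · have h2 := hlow i₀ (hS i₀ hi₀) k hkk δ h1
            rw [← h2.1]
            exact (hw1 i₀ hi₀ δ).trans h2.2
          · exact Eqn.refl _ _
      have hVu : Sub V u := hVW.trans (hW k hkk)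
      obtain ⟨z, hz1, hz2, hz3⟩ := exists_many_one (hg.mono hVu)
        (fun V' hV' => hsplit V' (hV'.trans hVu)) (S.card + 1)
      obtain ⟨w', hw'⟩ : ∃ w' : ι → I → X, w' = fun i δ => if δ < γ then z 0 δ else w i δ :=
        ⟨_, rfl⟩
      have hw'1 : ∀ i, ∀ δ < γ, w' i δ = z 0 δ := fun i δ hδ => by rw [hw']; exact if_pos hδ
      have hcen : ∀ i ∈ S, ∀ δ, Eqn (lam δ) (w' i δ) (w i δ) := by
        intro i hi δ
        by_cases h1 : δ < γ
        · rw [hw'1 i δ h1, hw2 i hi i₀ hi₀ δ h1]
          have h2 := hz1 0 (Nat.succ_pos _) δ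
          rw [hVlv, hVpt] at h2
          beta_reduce at h2
          rw [if_pos h1, if_pos h1] at h2
          exact h2
        · have h2 : w' i δ = w i δ := by rw [hw']; exact if_neg h1
          rw [h2]; exact Eqn.refl _ _
      have hw'W : ∀ i ∈ S, w' i ∈ W i := fun i hi δ =>
        ((hcen i hi δ).mono (hle' i hi δ)).trans (hw1 i hi δ)
      have hw'g : ∀ i ∈ S, ∀ n < N, g (w' i) n = g (w i) n := fun i hi =>
        hconst (w' i) ((hW i (hS i hi)).2 _ (hw'W i hi)) (w i) ((hW i (hS i hi)).2 _ (hw1 i hi))
          (hcen i hi)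
      have hw'ne : ∀ i ∈ S, ∀ j ∈ S, i ≠ j → g (w' i) ≠ g (w' j) := by
        intro i hi j hj hij heq
        obtain ⟨n, hn, hn'⟩ := hN i hi j hj (hw3 i hi j hj hij)
        apply hn'
        rw [← hw'g i hi n hn, ← hw'g j hj n hn, heq]
      -- a new value
      obtain ⟨j, hj, hjne⟩ : ∃ j < S.card + 1, ∀ i ∈ S, g (z j) ≠ g (w' i) := by
        have h1 : (S.image fun i => g (w' i)).card <
            ((Finset.range (S.card + 1)).image fun j => g (z j)).card := by
          rw [Finset.card_image_of_injOn (s := Finset.range (S.card + 1)) (f := fun j => g (z j)),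
            Finset.card_range]
          · exact Nat.lt_succ_of_le Finset.card_image_le
          · intro a ha b hb hab
            by_contra hne
            exact hz3 a (by simpa using ha) b (by simpa using hb) hne hab
        obtain ⟨e, he, he'⟩ := Finset.exists_mem_notMem_of_card_lt_card h1
        obtain ⟨j, hj, rfl⟩ := Finset.mem_image.1 he
        refine ⟨j, Finset.mem_range.1 hj, fun i hi heq => he' ?_⟩
        exact Finset.mem_image.2 ⟨i, hi, heq.symm⟩
      obtain ⟨w'', hw''⟩ : ∃ w'' : ι → I → X, w'' = fun i => if i = k then z j else w' i :=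
        ⟨_, rfl⟩
      have e1 : w'' k = z j := by rw [hw'']; exact if_pos rfl
      have e2 : ∀ i ∈ S, w'' i = w' i := fun i hi => by
        rw [hw'']
        exact if_neg fun h : i = k => hk (h ▸ hi)
      refine ⟨w'', fun i hi => ?_, fun i hi i' hi' δ hδ => ?_, fun i hi i' hi' hii => ?_⟩
      · rcases Finset.mem_insert.1 hi with rfl | hi
        · rw [e1]; exact hVW.2 _ (hz1 j hj)
        · rw [e2 i hi]; exact hw'W i hi
      · have key : ∀ a ∈ insert k S, w'' a δ = z 0 δ := by
          intro a ha
          rcases Finset.mem_insert.1 ha with rfl | ha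
          · rw [e1]; exact hz2 j hj 0 (Nat.succ_pos _) δ hδ
          · rw [e2 a ha]; exact hw'1 a δ hδ
        rw [key i hi, key i' hi']
      · rcases Finset.mem_insert.1 hi with h1 | h1
        · rcases Finset.mem_insert.1 hi' with h2 | h2
          · exact absurd (h1.trans h2.symm) hii
          · rw [h1, e1, e2 i' h2]; exact hjne i' h2
        · rcases Finset.mem_insert.1 hi' with h2 | h2
          · rw [h2, e1, e2 i h1]; exact (hjne i h1).symm
          · rw [e2 i h1, e2 i' h2]; exact hw'ne i h1 i' h2 hii

end Pool.Agent.EN45
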