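import Pool.Agent.EN45.Dpx

/-!
# Gluing (module GLU)
-/

namespace Pool.Agent.EN45

open Set

variable {I : Type*} [LinearOrder I]

/-! ### gluing -/

/-- the gluing map.  Use `OnB.dpx` for the box `u`, with `l δ = u.lv δ` for `δ ≠ γ` and
`l γ = u.lv γ + 1`, `l' = lam`, and the prefixes `p z δ = w ((z γ).1 (u.lv γ)) δ`.  `hlow`: for
`δ < γ` by `hw1` (all entries are `Ok`, `X.2`), for `δ = γ` as `Eqn (u.lv γ + 1)`, for `δ > γ` as
`z γ = z' γ`.  `hemb`: only `δ = γ`, `n = u.lv γ`; take the place `M` and the embedding `d`.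
`hsupp`: `C = {γ}`. -/
theorem exists_glue {u : Bx I} {γ : I} {M : ℕ} {d : ℕ × ℕ → ℕ × ℕ} (hd : Emb (u.lv γ) M d)
    (hM : u.lv γ ≤ M) {lam : I → ℕ} (hfin : {δ | lam δ ≠ 0}.Finite) (hlam : ∀ δ, u.lv δ ≤ lam δ)
    (hMl : M < lam γ) {w : ℕ × ℕ → I → X}
    (hw1 : ∀ k k', Ok (u.lv γ) k → Ok (u.lv γ) k' → ∀ δ < γ, w k δ = w k' δ)
    (hw2 : ∀ k k', Ok (u.lv γ) k → Ok (u.lv γ) k' → Eqn M (w k γ) (w k' γ))
    (hw3 : ∀ k, Ok (u.lv γ) k → (w k γ).1 M = d k) :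
    ∃ G : (I → X) → I → X, OnB u G ∧ ∀ z ∈ u, ∀ δ,
      Eqn (lam δ) (G z δ) (w ((z γ).1 (u.lv γ)) δ) := by
  obtain ⟨l, hl⟩ : ∃ l : I → ℕ, l = Function.update u.lv γ (u.lv γ + 1) := ⟨_, rfl⟩
  have hlγ : l γ = u.lv γ + 1 := by rw [hl, Function.update_self]
  have hlne : ∀ δ, δ ≠ γ → l δ = u.lv δ := fun δ h => by rw [hl, Function.update_of_ne h]
  have hk : ∀ z z' : I → X, Eqn (u.lv γ + 1) (z γ) (z' γ) →
      (z γ).1 (u.lv γ) = (z' γ).1 (u.lv γ) := fun z z' h => h _ (Nat.lt_succ_self _)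
  refine ⟨fun z δ => dpx (l δ) (lam δ) (w ((z γ).1 (u.lv γ)) δ) (z δ), ?_,
    fun z _ δ => dpx_eqn_left _ _⟩
  refine OnB.dpx (t := u) (l := l) (l' := lam) (p := fun z δ => w ((z γ).1 (u.lv γ)) δ)
    (fun δ => ?_) hfin (fun δ h0 => Nat.le_zero.1 (h0 ▸ hlam δ)) ?_ ?_ ?_ ?_
  · by_cases h : δ = γ
    · rw [h, hlγ]; omega
    · rw [hlne δ h]; exact hlam δ
  · intro δ z _ z' _ hb he
    rcases lt_trichotomy δ γ with h | h | h
    · have h1 := hw1 _ _ ((z γ).2 (u.lv γ)) ((z' γ).2 (u.lv γ)) δ h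
      rw [h1]
      exact Eqn.refl _ _
    · subst h
      rw [hlγ] at he
      rw [hk z z' he]
      exact Eqn.refl _ _
    · beta_reduce
      rw [hb γ h]
      exact Eqn.refl _ _
  · intro δ
    refine ⟨{γ}, u.lv γ + 1, fun z _ z' _ h => ?_⟩
    rw [hk z z' (h γ (Finset.mem_singleton_self γ))]
    exact Eqn.refl _ _
  · intro δ n h1 h2 z _
    have h3 : δ = γ := by
      by_contra h
      rw [hlne δ h] at h2
      omega
    subst h3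
    rw [hlγ] at h2
    have h4 : n = u.lv δ := by omega
    subst h4
    exact ⟨M, hM, hMl, d, hd, fun z' _ _ _ =>
      ⟨hw2 _ _ ((z' δ).2 _) ((z δ).2 _), hw3 _ ((z' δ).2 _)⟩⟩
  · refine ⟨{γ}, countable_singleton γ, fun z _ z' _ h δ => ?_⟩
    rw [h γ rfl]
    exact Eqn.refl _ _

end Pool.Agent.EN45
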