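import Pool.Agent.EN45.A1
import Pool.Agent.EN45.Glu

/-!
# Events exist (module A2)
-/

namespace Pool.Agent.EN45

open Set

variable {I : Type*} [LinearOrder I]

/-- module A2: there is an event at `γ`.
Let `ℓ = u.lv γ` and `M` as in `exists_ram ℓ`.  Let `x₀ = u.pt γ`.  For `k` with `Ok M k` let
`W k` be the box with the point `Function.update u.pt γ (upd x₀ M k _)` and the levels
`Function.update u.lv γ (M + 1)` (for other `k`, let `W k = u`); `Sub (W k) u`.  By `exists_many`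
for the finite set `S` of all `k` with `Ok M k` (for instance
`Finset.range (M + 2) ×ˢ Finset.range (M + 2)`) there are points `w k ∈ W k`
which agree below `γ` with different values `g (w k)`.  Let `v k = g (w k)`; by `exists_ram` there
are `d` and `ε`.  Let `N` be such that the first differences of the `v (d p)`, `p ∈ L ℓ`, are
`< N` (finitely many pairs), and let `lam` be the level function of `CtsOn.exists_lam` for `N` and
`l = Function.update u.lv γ (M + 1)`.  Apply `exists_glue` to the points `w (d k)`; they agree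
below `γ`, and `w (d k) γ` has the first `M` entries of `x₀` and the entry `d k` at the place `M`.
The map `G` works: for `z ∈ u` with `k = (z γ).1 ℓ` the point `G z` agrees with `w (d k)` up to
the levels `lam`, so it is in `W (d k)`, hence in `u`, and `g (G z)` agrees with `v (d k)`
before `N`. -/
theorem exists_event {u : Bx I} {g : (I → X) → ℕ → Bool} (hg : CtsOn u g) {γ : I}
    (hsplit : ∀ V, Sub V u → ∃ y ∈ V, ∃ y' ∈ V, (∀ δ < γ, y δ = y' δ) ∧ g y ≠ g y') :
    ∃ ε K, Mp u u K ∧ Ev ε γ u fun z => g (K z) := by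
  classical
  obtain ⟨M, hM, hram⟩ := exists_ram (u.lv γ)
  have hup : ∀ δ, u.lv δ ≤ Function.update u.lv γ (M + 1) δ := by
    intro δ
    by_cases h : δ = γ
    · subst h
      rw [Function.update_self]
      omega
    · rw [Function.update_of_ne h]
  have hupfin : {δ | Function.update u.lv γ (M + 1) δ ≠ 0}.Finite := by
    refine (u.fin.union (Set.finite_singleton γ)).subset fun δ hδ => ?_
    by_cases h : δ = γ
    · exact Or.inr h
    · left
      have h2 : Function.update u.lv γ (M + 1) δ ≠ 0 := hδ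
      rw [Function.update_of_ne h] at h2
      exact h2
  obtain ⟨W, hWdef⟩ : ∃ W : ℕ × ℕ → Bx I, ∀ k (hk : Ok M k), W k =
      ⟨Function.update u.pt γ (upd (u.pt γ) M k hk), Function.update u.lv γ (M + 1), hupfin⟩ :=
    ⟨fun k => if hk : Ok M k then
      ⟨Function.update u.pt γ (upd (u.pt γ) M k hk), Function.update u.lv γ (M + 1), hupfin⟩
      else u, fun k hk => dif_pos hk⟩
  have hWlv : ∀ k, Ok M k → (W k).lv = Function.update u.lv γ (M + 1) := by
    intro k hk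
    rw [hWdef k hk]
  have hWpt : ∀ k (hk : Ok M k), (W k).pt = Function.update u.pt γ (upd (u.pt γ) M k hk) := by
    intro k hk
    rw [hWdef k hk]
  have hWsub : ∀ k, Ok M k → Sub (W k) u := by
    intro k hk
    refine sub_of_mem (z := (W k).pt) (fun δ => ?_) (Bx.pt_mem _) ?_
    · rw [hWlv k hk]
      exact hup δ
    · rw [hWpt k hk]
      exact update_mem (Bx.pt_mem u) (upd_eqn _ _ _ _ hM)
  obtain ⟨S, hS⟩ : ∃ S : Finset (ℕ × ℕ), ∀ k, k ∈ S ↔ Ok M k :=
    ⟨Finset.range (M + 2) ×ˢ Finset.range (M + 2), fun k => by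
      rw [Finset.mem_product, Finset.mem_range, Finset.mem_range, Ok]
      omega⟩
  obtain ⟨w, hw1, hw2, hw3⟩ := exists_many hg hsplit S W (fun i hi => hWsub i ((hS i).1 hi))
    (fun i hi j hj δ hδ => by
      have hi' := (hS i).1 hi
      have hj' := (hS j).1 hj
      rw [hWlv i hi', hWlv j hj', hWpt i hi', hWpt j hj', Function.update_of_ne hδ.ne,
        Function.update_of_ne hδ.ne, Function.update_of_ne hδ.ne]
      exact ⟨rfl, Eqn.refl _ _⟩)
  obtain ⟨d, hd, ε, hε⟩ := hram (fun k => g (w k)) fun p q hp hq hne =>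
    hw3 p ((hS p).2 hp) q ((hS q).2 hq) hne
  -- the bound for the first differences
  obtain ⟨N, hN⟩ : ∃ N, ∀ p q, Ok (u.lv γ) p → Ok (u.lv γ) q → p ≠ q → ∃ n < N,
      (∀ i < n, g (w (d p)) i = g (w (d q)) i) ∧ g (w (d p)) n ≠ g (w (d q)) n ∧
        (Even n ↔ ε = true) := by
    have h1 : ∀ pq : (ℕ × ℕ) × (ℕ × ℕ), ∃ n, Ok (u.lv γ) pq.1 → Ok (u.lv γ) pq.2 →
        pq.1 ≠ pq.2 → (∀ i < n, g (w (d pq.1)) i = g (w (d pq.2)) i) ∧
          g (w (d pq.1)) n ≠ g (w (d pq.2)) n ∧ (Even n ↔ ε = true) := by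
      intro pq
      by_cases h : Ok (u.lv γ) pq.1 ∧ Ok (u.lv γ) pq.2 ∧ pq.1 ≠ pq.2
      · obtain ⟨n, hn⟩ := hε pq.1 pq.2 h.1 h.2.1 h.2.2
        exact ⟨n, fun _ _ _ => hn⟩
      · exact ⟨0, fun a b c => absurd ⟨a, b, c⟩ h⟩
    choose n hn using h1
    obtain ⟨S', hS'⟩ : ∃ S' : Finset (ℕ × ℕ), ∀ k, k ∈ S' ↔ Ok (u.lv γ) k :=
      ⟨Finset.range (u.lv γ + 2) ×ˢ Finset.range (u.lv γ + 2), fun k => by
        rw [Finset.mem_product, Finset.mem_range, Finset.mem_range, Ok]
        omega⟩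
    refine ⟨(S' ×ˢ S').sup n + 1, fun p q hp hq hne => ⟨n (p, q), ?_, hn (p, q) hp hq hne⟩⟩
    exact Nat.lt_succ_of_le (Finset.le_sup (f := n)
      (Finset.mem_product.2 ⟨(hS' p).2 hp, (hS' q).2 hq⟩))
  obtain ⟨lam, hfin, hlam, hlam2⟩ := hg.exists_lam N hupfin
  have hlam' : ∀ δ, u.lv δ ≤ lam δ := fun δ => (hup δ).trans (hlam δ)
  have hMl : M < lam γ := by
    have := hlam γ
    rw [Function.update_self] at this
    omega
  have hwγ : ∀ k (hk : Ok M k), Eqn (M + 1) (w k γ) (upd (u.pt γ) M k hk) := by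
    intro k hk
    have h1 := hw1 k ((hS k).2 hk) γ
    rw [hWlv k hk, hWpt k hk, Function.update_self, Function.update_self] at h1
    exact h1
  have hwu : ∀ k, Ok M k → w k ∈ u := fun k hk => (hWsub k hk).2 _ (hw1 k ((hS k).2 hk))
  obtain ⟨G, hG, hG2⟩ := exists_glue (w := fun k => w (d k)) hd hM hfin hlam' hMl
    (fun k k' hk hk' δ hδ => hw2 (d k) ((hS _).2 (hd.ok k hk)) (d k') ((hS _).2 (hd.ok k' hk'))
      δ hδ)
    (fun k k' hk hk' => (((hwγ (d k) (hd.ok k hk)).mono (Nat.le_succ M)).trans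
      (upd_eqn _ _ _ _ le_rfl)).trans ((((hwγ (d k') (hd.ok k' hk')).mono (Nat.le_succ M)).trans
      (upd_eqn _ _ _ _ le_rfl)).symm))
    (fun k hk => by
      rw [hwγ (d k) (hd.ok k hk) M (Nat.lt_succ_self M), upd_self])
  have hok : ∀ z : I → X, Ok M (d ((z γ).1 (u.lv γ))) := fun z => hd.ok _ ((z γ).2 _)
  have hmaps : ∀ z ∈ u, G z ∈ u := fun z hz δ =>
    ((hG2 z hz δ).mono (hlam' δ)).trans (hwu _ (hok z) δ)
  refine ⟨ε, G, ⟨hG, hmaps⟩, fun z hz z' hz' hne => ?_⟩
  obtain ⟨n, hnN, h1, h2, h3⟩ := hN ((z γ).1 (u.lv γ)) ((z' γ).1 (u.lv γ)) ((z γ).2 _)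
    ((z' γ).2 _) hne
  have e1 : ∀ i < N, g (G z) i = g (w (d ((z γ).1 (u.lv γ)))) i :=
    hlam2 _ (hmaps z hz) _ (hwu _ (hok z)) (hG2 z hz)
  have e2 : ∀ i < N, g (G z') i = g (w (d ((z' γ).1 (u.lv γ)))) i :=
    hlam2 _ (hmaps z' hz') _ (hwu _ (hok z')) (hG2 z' hz')
  refine ⟨n, fun i hi => ?_, ?_, h3⟩
  · show g (G z) i = g (G z') i
    rw [e1 i (hi.trans hnN), e2 i (hi.trans hnN)]
    exact h1 i hi
  · show g (G z) n ≠ g (G z') n
    rw [e1 n hnN, e2 n hnN]
    exact h2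

end Pool.Agent.EN45
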