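import Pool.Agent.EN45.Dpx

/-!
# Copying and shifting a digit (module CPY)
-/

namespace Pool.Agent.EN45

open Set

variable {I : Type*} [LinearOrder I]

/-! ### copying a digit -/

/-- the copying map.  If `γ = γ'` take `dp u v` (the entry of `dp u v z γ` at the place
`v.lv γ` is the entry of `z γ` at the place `u.lv γ`, `dpx_ge`).  If `γ < γ'` use `OnB.dpx` with
`l = u.lv`, `l' = Function.update v.lv γ' (v.lv γ' + 1)` and the prefixes
`p z δ = v.pt δ` for `δ ≠ γ'` and `p z γ' = upd (v.pt γ') (v.lv γ') ((z γ).1 (u.lv γ)) _`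
(`Ok.mono hl`); the hypothesis `hemb` is void as `l = u.lv`. -/
theorem exists_cpy {u v : Bx I} (hs : Sub v u) {γ γ' : I} (h : γ ≤ γ') (hl : u.lv γ ≤ v.lv γ') :
    ∃ G : (I → X) → I → X, OnB u G ∧ (∀ z ∈ u, G z ∈ v) ∧ ∀ z ∈ u, ∀ z' ∈ u,
      (z γ).1 (u.lv γ) ≠ (z' γ).1 (u.lv γ) → (G z γ').1 (v.lv γ') ≠ (G z' γ').1 (v.lv γ') := by
  classical
  rcases h.eq_or_lt with heq | hlt
  · subst heq
    refine ⟨dp u v, onB_dp hs.1, fun z _ => dp_mem u v z, fun z _ z' _ hne => ?_⟩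
    have key : ∀ w : I → X, (dp u v w γ).1 (v.lv γ) = (w γ).1 (u.lv γ) := by
      intro w
      have h1 := hs.1 γ
      rw [dp, dpx_ge _ _ le_rfl, show v.lv γ - (v.lv γ - u.lv γ) = u.lv γ by omega]
    rw [key, key]
    exact hne
  · obtain ⟨l', hl'⟩ : ∃ l' : I → ℕ, l' = fun δ => if δ = γ' then v.lv γ' + 1 else v.lv δ := ⟨_, rfl⟩
    have hl1 : l' γ' = v.lv γ' + 1 := by rw [hl']; exact if_pos rfl
    have hl2 : ∀ δ, δ ≠ γ' → l' δ = v.lv δ := fun δ hδ => by rw [hl']; exact if_neg hδ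
    have hvl : ∀ δ, v.lv δ ≤ l' δ := by
      intro δ
      by_cases hδ : δ = γ'
      · rw [hδ, hl1]
        exact Nat.le_succ _
      · rw [hl2 δ hδ]
    have hul : ∀ δ, u.lv δ ≤ l' δ := fun δ => (hs.1 δ).trans (hvl δ)
    obtain ⟨p, hp⟩ : ∃ p : (I → X) → I → X, p = fun z δ => if δ = γ' then
        upd (v.pt γ') (v.lv γ') ((z γ).1 (u.lv γ)) (((z γ).2 (u.lv γ)).mono hl) else v.pt δ := ⟨_, rfl⟩
    have hp1 : ∀ z, p z γ' = upd (v.pt γ') (v.lv γ') ((z γ).1 (u.lv γ))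
        (((z γ).2 (u.lv γ)).mono hl) := fun z => by rw [hp]; exact if_pos rfl
    have hp2 : ∀ z δ, δ ≠ γ' → p z δ = v.pt δ := fun z δ hδ => by rw [hp]; exact if_neg hδ
    have hpe : ∀ z z' : I → X, (z γ).1 (u.lv γ) = (z' γ).1 (u.lv γ) → ∀ δ, p z δ = p z' δ := by
      intro z z' he δ
      by_cases hδ : δ = γ'
      · subst hδ
        rw [hp1, hp1]
        simp only [he]
      · rw [hp2 z δ hδ, hp2 z' δ hδ]
    refine ⟨fun z δ => dpx (u.lv δ) (l' δ) (p z δ) (z δ), ?_, ?_, ?_⟩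
    · refine OnB.dpx (t := u) (l := u.lv) (l' := l') (p := p) hul ?_ ?_ ?_ ?_ ?_ ?_
      · refine (v.fin.union (finite_singleton γ')).subset fun δ hδ => ?_
        by_cases h1 : δ = γ'
        · exact Or.inr h1
        · left
          have h2 : l' δ ≠ 0 := hδ
          rw [hl2 δ h1] at h2
          exact h2
      · intro δ h0
        exact Nat.le_zero.1 (h0 ▸ hul δ)
      · intro δ z _ z' _ hb _
        by_cases hδ : δ = γ'
        · subst hδ
          rw [hpe z z' (by rw [hb γ hlt]) δ]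
          exact Eqn.refl _ _
        · rw [hp2 z δ hδ, hp2 z' δ hδ]
          exact Eqn.refl _ _
      · intro δ
        refine ⟨{γ}, u.lv γ + 1, fun z _ z' _ ha => ?_⟩
        rw [hpe z z' (ha γ (Finset.mem_singleton_self γ) _ (Nat.lt_succ_self _)) δ]
        exact Eqn.refl _ _
      · intro δ n h1 h2
        exact absurd h2 (not_lt.2 h1)
      · refine ⟨{γ}, countable_singleton γ, fun z _ z' _ hz δ => ?_⟩
        rw [hpe z z' (by rw [hz γ rfl]) δ]
        exact Eqn.refl _ _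
    · intro z _ δ
      refine ((dpx_eqn_left (p z δ) (z δ)).mono (hvl δ)).trans ?_
      by_cases hδ : δ = γ'
      · subst hδ
        rw [hp1]
        exact upd_eqn _ _ _ _ le_rfl
      · rw [hp2 z δ hδ]
        exact Eqn.refl _ _
    · intro z _ z' _ hne
      beta_reduce
      have h1 : v.lv γ' < l' γ' := by rw [hl1]; exact Nat.lt_succ_self _
      rw [dpx_lt _ _ h1, dpx_lt _ _ h1, hp1, hp1, upd_self, upd_self]
      exact hne

/-! ### shifting a digit, for all boxes of a level function -/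

/-- the shifting map.  If `γ = γ'` take `E = id` and `Λ = m γ`.  If `γ < γ'` let
`Λ = max (m γ) (m γ')` and use `OnB.dpx` for `t = topB`, with `l δ = l' δ = 0` for `δ ≠ γ'`,
`l γ' = m γ'`, `l' γ' = Λ + 1` and the prefix
`p z γ' = upd (spl (m γ') (z γ') x0) Λ ((z γ).1 (m γ)) _`.  For `hemb` at `δ = γ'` and `n < m γ'`
take the same place `n` and `d = id`.  `E z δ = z δ` for `δ ≠ γ'` by `dpx_zero`. -/
theorem exists_shf (m : I → ℕ) {γ γ' : I} (h : γ ≤ γ') :
    ∃ (E : (I → X) → I → X) (Λ : ℕ), m γ' ≤ Λ ∧ OnB topB E ∧ Pres m E ∧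
      (∀ δ, δ ≠ γ' → ∀ z, E z δ = z δ) ∧ ∀ z z', Eqn (m γ') (z γ') (z' γ') →
        (z γ).1 (m γ) ≠ (z' γ).1 (m γ) → Eqn Λ (E z γ') (E z' γ') ∧
          (E z γ').1 Λ ≠ (E z' γ').1 Λ := by
  classical
  rcases h.eq_or_lt with heq | hlt
  · subst heq
    exact ⟨id, m γ, le_rfl, OnB.id _, Pres.id m, fun _ _ _ => rfl, fun z z' h1 h2 => ⟨h1, h2⟩⟩
  · obtain ⟨Λ, hΛ⟩ : ∃ Λ : ℕ, Λ = max (m γ) (m γ') := ⟨_, rfl⟩
    have hΛ1 : m γ ≤ Λ := by rw [hΛ]; exact le_max_left _ _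
    have hΛ2 : m γ' ≤ Λ := by rw [hΛ]; exact le_max_right _ _
    obtain ⟨l, hl⟩ : ∃ l : I → ℕ, l = fun δ => if δ = γ' then m γ' else 0 := ⟨_, rfl⟩
    have hl1 : l γ' = m γ' := by rw [hl]; exact if_pos rfl
    have hl2 : ∀ δ, δ ≠ γ' → l δ = 0 := fun δ hδ => by rw [hl]; exact if_neg hδ
    obtain ⟨l', hl'⟩ : ∃ l' : I → ℕ, l' = fun δ => if δ = γ' then Λ + 1 else 0 := ⟨_, rfl⟩
    have hl'1 : l' γ' = Λ + 1 := by rw [hl']; exact if_pos rfl
    have hl'2 : ∀ δ, δ ≠ γ' → l' δ = 0 := fun δ hδ => by rw [hl']; exact if_neg hδ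
    obtain ⟨p, hp⟩ : ∃ p : (I → X) → I → X, p = fun z δ => if δ = γ' then
        upd (spl (m γ') (z γ') x0) Λ ((z γ).1 (m γ)) (((z γ).2 (m γ)).mono hΛ1) else x0 := ⟨_, rfl⟩
    have hp1 : ∀ z, p z γ' = upd (spl (m γ') (z γ') x0) Λ ((z γ).1 (m γ))
        (((z γ).2 (m γ)).mono hΛ1) := fun z => by rw [hp]; exact if_pos rfl
    have hp2 : ∀ z δ, δ ≠ γ' → p z δ = x0 := fun z δ hδ => by rw [hp]; exact if_neg hδ
    -- the entries of the prefix
    have hp3 : ∀ (z : I → X) (i : ℕ), i < m γ' → (p z γ').1 i = (z γ').1 i := by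
      intro z i hi
      rw [hp1, upd_ne _ _ _ (by omega), spl_lt _ _ hi]
    have hp4 : ∀ z : I → X, (p z γ').1 Λ = (z γ).1 (m γ) := by
      intro z
      rw [hp1, upd_self]
    have hp5 : ∀ (z : I → X) (i : ℕ), m γ' ≤ i → i ≠ Λ → (p z γ').1 i = x0.1 i := by
      intro z i hi hne
      rw [hp1, upd_ne _ _ _ hne, spl_ge _ _ hi]
    have hpe : ∀ z z' : I → X, (z γ).1 (m γ) = (z' γ).1 (m γ) → Eqn (m γ') (z γ') (z' γ') →
        ∀ δ, p z δ = p z' δ := by
      intro z z' he hE δ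
      by_cases hδ : δ = γ'
      · subst hδ
        refine X.ext fun i => ?_
        by_cases h1 : i < m δ
        · rw [hp3 z i h1, hp3 z' i h1, hE i h1]
        · rw [not_lt] at h1
          by_cases h2 : i = Λ
          · rw [h2, hp4, hp4, he]
          · rw [hp5 z i h1 h2, hp5 z' i h1 h2]
      · rw [hp2 z δ hδ, hp2 z' δ hδ]
    refine ⟨fun z δ => dpx (l δ) (l' δ) (p z δ) (z δ), Λ, hΛ2, ?_, ?_, ?_, ?_⟩
    · refine OnB.dpx (t := topB) (l := l) (l' := l') (p := p) ?_ ?_ ?_ ?_ ?_ ?_ ?_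
      · intro δ
        by_cases hδ : δ = γ'
        · rw [hδ, hl1, hl'1]
          omega
        · rw [hl2 δ hδ]
          exact Nat.zero_le _
      · refine (finite_singleton γ').subset fun δ hδ => ?_
        by_contra h1
        exact hδ (hl'2 δ h1)
      · intro δ _
        rfl
      · intro δ z _ z' _ hb hE
        by_cases hδ : δ = γ'
        · subst hδ
          rw [hl1] at hE
          rw [hpe z z' (by rw [hb γ hlt]) hE δ]
          exact Eqn.refl _ _
        · rw [hp2 z δ hδ, hp2 z' δ hδ]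
          exact Eqn.refl _ _
      · intro δ
        refine ⟨{γ, γ'}, max (m γ + 1) (m γ'), fun z _ z' _ ha => ?_⟩
        have h1 : Eqn (m γ + 1) (z γ) (z' γ) := (ha γ (by simp)).mono (le_max_left _ _)
        have h2 : Eqn (m γ') (z γ') (z' γ') := (ha γ' (by simp)).mono (le_max_right _ _)
        rw [hpe z z' (h1 _ (Nat.lt_succ_self _)) h2 δ]
        exact Eqn.refl _ _
      · intro δ n _ hn z _
        by_cases hδ : δ = γ'
        · subst hδ
          rw [hl1] at hn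
          refine ⟨n, le_rfl, by rw [hl'1]; omega, _root_.id, Emb.id le_rfl, fun z' _ _ he => ⟨?_, ?_⟩⟩
          · intro i hi
            rw [hp3 z' i (hi.trans hn), hp3 z i (hi.trans hn), he i hi]
          · exact hp3 z' n hn
        · rw [hl2 δ hδ] at hn
          exact absurd hn (Nat.not_lt_zero _)
      · refine ⟨{γ, γ'}, (Set.toFinite _).countable, fun z _ z' _ hz δ => ?_⟩
        rw [hpe z z' (by rw [hz γ (by simp)]) (by rw [hz γ' (by simp)]; exact Eqn.refl _ _) δ]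
        exact Eqn.refl _ _
    · intro z δ
      by_cases hδ : δ = γ'
      · subst hδ
        intro i hi
        beta_reduce
        rw [dpx_lt _ _ (by rw [hl'1]; omega), hp3 z i hi]
      · beta_reduce
        rw [hl2 δ hδ, hl'2 δ hδ, dpx_zero]
        exact Eqn.refl _ _
    · intro δ hδ z
      beta_reduce
      rw [hl2 δ hδ, hl'2 δ hδ, dpx_zero]
    · intro z z' hE hne
      beta_reduce
      refine ⟨fun i hi => ?_, ?_⟩
      · have h1 : i < l' γ' := by rw [hl'1]; omega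
        rw [dpx_lt _ _ h1, dpx_lt _ _ h1]
        by_cases h2 : i < m γ'
        · rw [hp3 z i h2, hp3 z' i h2, hE i h2]
        · rw [not_lt] at h2
          rw [hp5 z i h2 (by omega), hp5 z' i h2 (by omega)]
      · have h1 : Λ < l' γ' := by rw [hl'1]; omega
        rw [dpx_lt _ _ h1, dpx_lt _ _ h1, hp4, hp4]
        exact hne

end Pool.Agent.EN45
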