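import Pool.Agent.EN45.A2
import Pool.Agent.EN45.Cpy

/-!
# The same parity everywhere (modules A3 and A4)
-/

namespace Pool.Agent.EN45

open Set

variable {I : Type*} [LinearOrder I]

/-- an event at `γ'` in a smaller box gives an event at `γ ≤ γ'` (`exists_cpy`) -/
theorem Ev.lift {u v : Bx I} (hs : Sub v u) {γ γ' : I} (h : γ ≤ γ') (hl : u.lv γ ≤ v.lv γ')
    {g : (I → X) → ℕ → Bool} {ε : Bool} {K' : (I → X) → I → X} (hK : Mp v u K')
    (hE : Ev ε γ' v fun z => g (K' z)) : ∃ K, Mp u u K ∧ Ev ε γ u fun z => g (K z) := by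
  obtain ⟨G, h1, h2, h3⟩ := exists_cpy hs h hl
  exact ⟨fun z => K' (G z), hK.comp ⟨h1, h2⟩, fun z hz z' hz' hne =>
    hE _ (h2 z hz) _ (h2 z' hz') (h3 z hz z' hz' hne)⟩

/-- the box `v` with the level at `γ` raised to at least `n` -/
theorem exists_deeper (v : Bx I) (γ : I) (n : ℕ) : ∃ w, Sub w v ∧ n ≤ w.lv γ ∧
    ∀ δ ≠ γ, w.lv δ = v.lv δ := by
  classical
  have hfin : {δ | (Function.update v.lv γ (max n (v.lv γ))) δ ≠ 0}.Finite := by
    refine (v.fin.union (finite_singleton γ)).subset fun δ hδ => ?_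
    by_cases h : δ = γ
    · exact Or.inr h
    · left
      rw [mem_setOf_eq, Function.update_of_ne h] at hδ
      exact hδ
  have hle : ∀ δ, v.lv δ ≤ (Function.update v.lv γ (max n (v.lv γ))) δ := by
    intro δ
    by_cases h : δ = γ
    · subst h; rw [Function.update_self]; exact le_max_right _ _
    · rw [Function.update_of_ne h]
  refine ⟨bx _ hfin v.pt, sub_bx hle v.pt_mem, ?_, fun δ hδ => Function.update_of_ne hδ _ _⟩
  show n ≤ (Function.update v.lv γ (max n (v.lv γ))) γ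
  rw [Function.update_self]
  exact le_max_left _ _

/-- events exist below any map, in the situation of a least set of coordinates -/
theorem Mn.exists_event {D : Set I} {t : Bx I} {g : (I → X) → ℕ → Bool} (hg : CtsOn t g)
    (h : Mn D t g) {γ : I} (hγ : γ ∈ D) {u : Bx I} (hu : Sub u t) {B : (I → X) → I → X}
    (hB : Mp u t B) : ∃ ε K, Mp u u K ∧ Ev ε γ u fun z => g (B (K z)) := by
  refine EN45.exists_event (hg.comp hB) fun V hV => ?_
  have h1 := h.min γ hγ V B (hV.trans hu) (hB.mono hV)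
  unfold Dep at h1
  push Not at h1
  obtain ⟨y, hy, y', hy', h2, h3⟩ := h1
  exact ⟨y, hy, y', hy', fun δ hδ => h2 δ hδ, h3⟩

/-- module A4: one parity is available everywhere.
Say that `ε` is available at `(γ', u, B)` (`Sub u t`, `Mp u t B`) if for all `v`, `L` with `Sub v u`
and `Mp v u L` there is `K'` with `Mp v v K'` and `Ev ε γ' v (g ∘ B ∘ L ∘ K')`.
Claim: there are `ε`, `u`, `B` such that for all `γ ∈ D` some `γ' ∈ D`, `γ' ≥ γ`, is such that `ε`
is available at `(γ', u, B)`.  Otherwise, there is no such `(u, B)` for `ε = false`.  Then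
`(u, B) = (t, id)` works for `ε = true` and all `γ' ∈ D`: let `(v, L)` be given (`Sub v t`,
`Mp v t L`), and suppose there is no `K'` with `Ev true γ' v (g ∘ L ∘ K')`.
By the assumption for `(u, B) = (v, L)` there is `γ ∈ D` such that `false` is not available at
`(γ'', v, L)` for any `γ'' ≥ γ` in `D`; take `γ'' = max γ γ'`.  So there are `v'`, `L'` with
`Sub v' v`, `Mp v' v L'` and no `K'` with `Ev false γ'' v' (g ∘ L ∘ L' ∘ K')`.  Let `w` be as in
`exists_deeper` for `v'`, `γ''` and `v.lv γ'`.  By `Mn.exists_event` there are `ε`, `K` with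
`Mp w w K` and `Ev ε γ'' w (g ∘ L ∘ L' ∘ K)`.  If `ε = true`, `Ev.lift` (for `w` and `v`, with the
map `L' ∘ K`) gives an event for `(v, L)` at `γ'`, a contradiction.  If `ε = false`, `Ev.lift`
(for `w` and `v'`, at `γ''` and `γ''`) gives a contradiction.
Finally, every `γ ∈ D` is as good as `γ'`: given `(v, L)`, take `w` from `exists_deeper` for `v`,
`γ'` and `v.lv γ`, take `K'` for `(w, L)` and `γ'`, and use `Ev.lift`; replace the resulting map
`K` by `rs D K` (`Mp.rs`, `act_rs`): the values of `g ∘ B ∘ L` do not change by `Dep.rs` for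
`g ∘ B ∘ L`, which has `Dep D` by `Dep.comp`. -/
theorem exists_avail {D : Set I} (hD : IsLowerSet D) {t : Bx I} {g : (I → X) → ℕ → Bool}
    (hg : CtsOn t g) (h : Mn D t g) :
    ∃ (ε : Bool) (u : Bx I) (B : (I → X) → I → X), Sub u t ∧ Mp u t B ∧
      ∀ γ ∈ D, ∀ v L, Sub v u → Mp v u L → ∃ K', Mp v v K' ∧ Act D v K' ∧
        Ev ε γ v fun z => g (B (L (K' z))) := by
  classical
  have claim : ∃ (ε : Bool) (u : Bx I) (B : (I → X) → I → X), Sub u t ∧ Mp u t B ∧
      ∀ γ ∈ D, ∃ γ' ∈ D, γ ≤ γ' ∧ ∀ v L, Sub v u → Mp v u L → ∃ K', Mp v v K' ∧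
        Ev ε γ' v fun z => g (B (L (K' z))) := by
    by_cases hf : ∃ (u : Bx I) (B : (I → X) → I → X), Sub u t ∧ Mp u t B ∧
        ∀ γ ∈ D, ∃ γ' ∈ D, γ ≤ γ' ∧ ∀ v L, Sub v u → Mp v u L → ∃ K', Mp v v K' ∧
          Ev false γ' v fun z => g (B (L (K' z)))
    · obtain ⟨u, B, h1, h2, h3⟩ := hf
      exact ⟨false, u, B, h1, h2, h3⟩
    · refine ⟨true, t, fun z => z, Sub.refl t, Mp.id (Sub.refl t), fun γ' hγ' =>
        ⟨γ', hγ', le_rfl, fun v L hv hL => ?_⟩⟩
      by_contra hcon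
      -- `false` is not available at `v`, `L`
      obtain ⟨γ, hγ, h4⟩ : ∃ γ ∈ D, ∀ γ'' ∈ D, γ ≤ γ'' → ¬ ∀ v' L', Sub v' v → Mp v' v L' →
          ∃ K', Mp v' v' K' ∧ Ev false γ'' v' fun z => g (L (L' (K' z))) := by
        by_contra hc
        refine hf ⟨v, L, hv, hL, fun γ hγ => ?_⟩
        by_contra hc2
        refine hc ⟨γ, hγ, fun γ'' hγ'' hle hall => hc2 ⟨γ'', hγ'', hle, hall⟩⟩
      have hmax : max γ γ' ∈ D := by
        rcases le_total γ γ' with h5 | h5
        · rw [max_eq_right h5]; exact hγ'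
        · rw [max_eq_left h5]; exact hγ
      have h5 := h4 (max γ γ') hmax (le_max_left _ _)
      push Not at h5
      obtain ⟨v', L', hv', hL', h6⟩ := h5
      obtain ⟨w, hw1, hw2, -⟩ := exists_deeper v' (max γ γ') (v.lv γ')
      have hwv : Sub w v := hw1.trans hv'
      have hwt : Sub w t := hwv.trans hv
      obtain ⟨ε, K, hK, hE⟩ := h.exists_event hg hmax hwt ((hL.comp hL').mono hw1)
      cases ε with
      | true =>
        obtain ⟨K2, hK2, hE2⟩ := Ev.lift (g := fun x => g (L x)) hwv (le_max_right γ γ') hw2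
          ((hL'.mono hw1).comp hK) hE
        exact hcon ⟨K2, hK2, hE2⟩
      | false =>
        obtain ⟨K2, hK2, hE2⟩ := Ev.lift (g := fun x => g (L (L' x))) hw1 (le_refl (max γ γ'))
          (hw1.1 _) (K' := K) ⟨hK.onb, fun z hz => hw1.2 _ (hK.maps z hz)⟩ hE
        exact h6 K2 hK2 hE2
  obtain ⟨ε, u, B, hu, hB, hav⟩ := claim
  refine ⟨ε, u, B, hu, hB, fun γ hγ v L hv hL => ?_⟩
  obtain ⟨γ', hγ', hle, h1⟩ := hav γ hγ
  obtain ⟨w, hw1, hw2, -⟩ := exists_deeper v γ' (v.lv γ)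
  obtain ⟨K', hK', hE⟩ := h1 w L (hw1.trans hv) (hL.mono hw1)
  obtain ⟨K, hK, hE2⟩ := Ev.lift (g := fun x => g (B (L x))) hw1 hle hw2 (K' := K')
    ⟨hK'.onb, fun z hz => hw1.2 _ (hK'.maps z hz)⟩ hE
  have hdep : Dep D v fun z => g (B (L z)) := Dep.comp hD h.dep (hB.comp hL)
  refine ⟨rs D K, hK.rs D, act_rs D v K, fun z hz z' hz' hne => ?_⟩
  have e1 : g (B (L (rs D K z))) = g (B (L (K z))) := Dep.rs (g := fun x => g (B (L x))) hdep hK hz
  have e2 : g (B (L (rs D K z'))) = g (B (L (K z'))) := Dep.rs (g := fun x => g (B (L x))) hdep hK hz'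
  show PD ε (g (B (L (rs D K z)))) (g (B (L (rs D K z'))))
  rw [e1, e2]
  exact hE2 z hz z' hz' hne

end Pool.Agent.EN45
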