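import Pool.Agent.EN45.Jop

/-!
# All boxes of a level function, one after the other (module MAC)
-/

namespace Pool.Agent.EN45

open Set

/-! ### maps between boxes -/

section

variable {I : Type*} [LinearOrder I]

/-- `K` is an admissible map of the box `u` into the box `t` -/
structure Mp (u t : Bx I) (K : (I → X) → I → X) : Prop where
  onb : OnB u K
  maps : ∀ z ∈ u, K z ∈ t

theorem Mp.comp {v u t : Bx I} {B K : (I → X) → I → X} (hB : Mp u t B) (hK : Mp v u K) :
    Mp v t fun z => B (K z) :=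
  ⟨hB.onb.comp hK.onb hK.maps, fun z hz => hB.maps _ (hK.maps z hz)⟩

theorem Mp.id {u t : Bx I} (h : Sub u t) : Mp u t fun z => z := ⟨OnB.id u, h.2⟩

theorem Mp.mono {v u t : Bx I} {K : (I → X) → I → X} (hK : Mp u t K) (h : Sub v u) : Mp v t K :=
  ⟨hK.onb.mono h, fun z hz => hK.maps z (h.2 z hz)⟩

theorem Mp.congr {u t : Bx I} {K K' : (I → X) → I → X} (hK : Mp u t K)
    (h : ∀ z ∈ u, K' z = K z) : Mp u t K' :=
  ⟨hK.onb.congr h, fun z hz => by rw [h z hz]; exact hK.maps z hz⟩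

/-- the box of the level function `m` around the point `z` -/
def bx (m : I → ℕ) (hm : {δ | m δ ≠ 0}.Finite) (z : I → X) : Bx I := ⟨z, m, hm⟩

omit [LinearOrder I] in
theorem mem_bx_iff {m : I → ℕ} {hm : {δ | m δ ≠ 0}.Finite} {z z' : I → X} :
    z' ∈ bx m hm z ↔ ∀ δ, Eqn (m δ) (z' δ) (z δ) := Iff.rfl

omit [LinearOrder I] in
theorem sub_bx {m : I → ℕ} {hm : {δ | m δ ≠ 0}.Finite} {t : Bx I} (h : ∀ δ, t.lv δ ≤ m δ)
    {z : I → X} (hz : z ∈ t) : Sub (bx m hm z) t :=
  sub_of_mem (u := bx m hm z) h (z := z) (fun _ => Eqn.refl _ _) hz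

/-- the good maps: admissible maps of all points which preserve the box `t` -/
structure Gd (t : Bx I) (D : Set I) (B : (I → X) → I → X) : Prop where
  onb : OnB topB B
  pres : Pres t.lv B
  act : Act D topB B

theorem Gd.mp {t : Bx I} {D : Set I} {B : (I → X) → I → X} (h : Gd t D B) {u : Bx I}
    (hu : Sub u t) : Mp u t B :=
  ⟨h.onb.mono (sub_topB u), fun z hz => h.pres.mem (fun _ => le_rfl) (hu.2 z hz)⟩

theorem Gd.id (t : Bx I) (D : Set I) : Gd t D fun z => z :=
  ⟨OnB.id _, fun _ _ => Eqn.refl _ _, fun _ _ _ _ => rfl⟩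

theorem Gd.comp {t : Bx I} {D : Set I} {B K : (I → X) → I → X} (hB : Gd t D B) (hK : Gd t D K) :
    Gd t D fun z => B (K z) :=
  ⟨hB.onb.comp hK.onb fun _ _ => mem_topB _, hB.pres.comp hK.pres, fun γ hγ z hz => by
    rw [hB.act γ hγ _ (mem_topB _), hK.act γ hγ z hz]⟩

end

/-! ### finitely many boxes -/

section

variable {I : Type*}

/-- there are finitely many boxes of each level function.
For instance, the range of the function which maps `z` to the function
`(δ, i) ↦ (z δ).1 i` on the finite set of pairs with `i < m δ` is finite, as `(z δ).1 i` is in the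
finite set of pairs with `Ok i`; choose one point for each value. -/
theorem exists_reps {m : I → ℕ} (hm : {δ | m δ ≠ 0}.Finite) :
    ∃ Z : List (I → X), ∀ z : I → X, ∃ w ∈ Z, ∀ δ, Eqn (m δ) (z δ) (w δ) := by
  classical
  let N : ℕ := hm.toFinset.sup m
  have hN : ∀ δ, m δ ≤ N := fun δ => by
    by_cases h : m δ = 0
    · rw [h]; exact Nat.zero_le _
    · exact Finset.le_sup (f := m) (hm.mem_toFinset.2 h)
  let enc : (I → X) → (hm.toFinset → Fin N → Fin (N + 2) × Fin (N + 2)) := fun z δ i =>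
    (⟨((z δ.1).1 i).1, by have := ((z δ.1).2 i).1; omega⟩,
      ⟨((z δ.1).1 i).2, by have := ((z δ.1).2 i).2; omega⟩)
  let rep : (hm.toFinset → Fin N → Fin (N + 2) × Fin (N + 2)) → (I → X) := fun v =>
    if h : ∃ z, enc z = v then h.choose else fun _ => x0
  refine ⟨(Finset.univ.image rep).toList, fun z => ⟨rep (enc z), ?_, fun δ i hi => ?_⟩⟩
  · rw [Finset.mem_toList]
    exact Finset.mem_image_of_mem _ (Finset.mem_univ _)
  · have h1 : ∃ z', enc z' = enc z := ⟨z, rfl⟩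
    have h2 : enc (rep (enc z)) = enc z := by
      have h3 : rep (enc z) = h1.choose := dif_pos h1
      rw [h3]
      exact h1.choose_spec
    have h4 : δ ∈ hm.toFinset := hm.mem_toFinset.2 (by
      show m δ ≠ 0
      omega)
    have h5 := congrFun (congrFun h2 ⟨δ, h4⟩) ⟨i, hi.trans_le (hN δ)⟩
    have h6 := Prod.mk.inj h5
    exact Prod.ext (Fin.mk.inj h6.1).symm (Fin.mk.inj h6.2).symm

end

section

variable {I : Type*} [LinearOrder I]

/-- module MAC: one box after the other.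
Let `Z` be as in `exists_reps`.  By induction on a list `l` there is a map `K` with `Gd t D K`,
`Pres m K` and `Δ (B ∘ K) z` for all `z ∈ t` which are in the same box as some element of `l`.
For `w :: l`, let `K` be the map for `l`.  If no `z₀ ∈ t` is in the box of `w`, or if some
`z₀ ∈ t` in the box of `w` is also in the box of an element of `l`, then `K` works.  Otherwise
let `z₀ ∈ t` be in the box of `w`; by `hdense` for `B ∘ K` and `z₀` there is `K'`; the map
`K ∘ J (bx m hm z₀) K'` works: `hcongr` for the points of the box of `z₀`, and `hher` for the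
others.  `J` is `Gd` and `Pres m` by `OnB.J`, `pres_J`, `Act.J`. -/
theorem exists_macro {t : Bx I} {D : Set I} {m : I → ℕ} (hm : {δ | m δ ≠ 0}.Finite)
    (hmt : ∀ δ, t.lv δ ≤ m δ) {Δ : ((I → X) → I → X) → (I → X) → Prop}
    (hcongr : ∀ B z z', (∀ δ, Eqn (m δ) (z δ) (z' δ)) → Δ B z → Δ B z')
    (hdense : ∀ B, Gd t D B → ∀ z ∈ t, ∃ K, Mp (bx m hm z) (bx m hm z) K ∧
      Act D (bx m hm z) K ∧ Δ (fun w => B (J (bx m hm z) K w)) z)
    (hher : ∀ B, Gd t D B → ∀ z ∈ t, ∀ z' ∈ t, (∃ δ, ¬ Eqn (m δ) (z δ) (z' δ)) → ∀ K,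
      Mp (bx m hm z) (bx m hm z) K → Act D (bx m hm z) K → Δ B z' →
      Δ (fun w => B (J (bx m hm z) K w)) z')
    {B : (I → X) → I → X} (hB : Gd t D B) :
    ∃ K, Gd t D K ∧ Pres m K ∧ ∀ z ∈ t, Δ (fun w => B (K w)) z := by
  obtain ⟨Z, hZ⟩ := exists_reps hm
  have key : ∀ l : List (I → X), ∃ K, Gd t D K ∧ Pres m K ∧ ∀ z ∈ t,
      (∃ w ∈ l, ∀ δ, Eqn (m δ) (z δ) (w δ)) → Δ (fun w => B (K w)) z := by
    intro l
    induction l with
    | nil => exact ⟨fun z => z, Gd.id t D, Pres.id m, fun z _ ⟨w, hw, _⟩ => by simp at hw⟩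
    | cons w l ih =>
      obtain ⟨K, hK, hKm, hKl⟩ := ih
      by_cases h1 : ∃ z₀ ∈ t, (∀ δ, Eqn (m δ) (z₀ δ) (w δ)) ∧
          ¬ ∃ w' ∈ l, ∀ δ, Eqn (m δ) (z₀ δ) (w' δ)
      · obtain ⟨z₀, hz₀, hw, hl⟩ := h1
        obtain ⟨K', hK', hA', hd⟩ := hdense (fun z => B (K z)) (hB.comp hK) z₀ hz₀
        have hJm : Pres m (J (bx m hm z₀) K') := pres_J hK'.maps
        have hJ : Gd t D (J (bx m hm z₀) K') := ⟨OnB.J hK'.onb hK'.maps, hJm.mono hmt, hA'.J⟩
        refine ⟨fun z => K (J (bx m hm z₀) K' z), hK.comp hJ, hKm.comp hJm, fun z hz hzl => ?_⟩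
        by_cases h2 : ∀ δ, Eqn (m δ) (z₀ δ) (z δ)
        · exact hcongr _ z₀ z h2 hd
        · push Not at h2
          refine hher (fun z => B (K z)) (hB.comp hK) z₀ hz₀ z hz h2 K' hK' hA' (hKl z hz ?_)
          obtain ⟨w', hw', hzw⟩ := hzl
          rcases List.mem_cons.1 hw' with rfl | hw'
          · obtain ⟨δ, hδ⟩ := h2
            exact absurd ((hw δ).trans (hzw δ).symm) hδ
          · exact ⟨w', hw', hzw⟩
      · refine ⟨K, hK, hKm, fun z hz hzl => hKl z hz ?_⟩
        obtain ⟨w', hw', hzw⟩ := hzl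
        rcases List.mem_cons.1 hw' with rfl | hw'
        · by_contra hcon
          exact h1 ⟨z, hz, hzw, hcon⟩
        · exact ⟨w', hw', hzw⟩
  obtain ⟨K, hK, hKm, hKl⟩ := key Z
  exact ⟨K, hK, hKm, fun z hz => hKl z hz (hZ z)⟩

end

end Pool.Agent.EN45
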