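import Pool.Agent.EN45.Lim2
import Pool.Agent.EN45.Mac

/-!
# Fusion (module FUS)
-/

namespace Pool.Agent.EN45

open Set

variable {I : Type*} [LinearOrder I] [WellFoundedLT I]

/-- a level function between the levels of `t` and finite levels, which is that of `t`
outside `D` -/
structure Lvl (t : Bx I) (D : Set I) (m : I → ℕ) : Prop where
  fin : {δ | m δ ≠ 0}.Finite
  le : ∀ δ, t.lv δ ≤ m δ
  out : ∀ δ ∉ D, m δ = t.lv δ

omit [WellFoundedLT I] in
/-- dependent choice with an invariant -/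
private theorem exists_chain {σ : Type*} {Inv : ℕ → σ → Prop} {Step : ℕ → σ → σ → Prop} (s₀ : σ)
    (h₀ : Inv 0 s₀) (h : ∀ n s, Inv n s → ∃ s', Inv (n + 1) s' ∧ Step n s s') :
    ∃ s : ℕ → σ, s 0 = s₀ ∧ ∀ n, Inv n (s n) ∧ Step n (s n) (s (n + 1)) := by
  choose g hg using fun (n : ℕ) (s : {s // Inv n s}) => h n s.1 s.2
  let S : (n : ℕ) → {s // Inv n s} := fun n =>
    Nat.rec (motive := fun n => {s // Inv n s}) ⟨s₀, h₀⟩ (fun n s => ⟨g n s, (hg n s).1⟩) n
  exact ⟨fun n => (S n).1, rfl, fun n => ⟨(S n).2, (hg n (S n)).2⟩⟩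

omit [LinearOrder I] [WellFoundedLT I] in
private theorem exists_enum {D : Set I} (hne : D.Nonempty) {S : Set I} (hS : S.Countable) :
    ∃ e : ℕ → I, (∀ j, e j ∈ D) ∧ ∀ γ ∈ D, γ ∈ S → ∃ j, e j = γ := by
  obtain ⟨d, hd⟩ := hne
  have h1 : (insert d (D ∩ S)).Countable := (hS.mono inter_subset_right).insert d
  obtain ⟨e, he⟩ := h1.exists_eq_range ⟨d, mem_insert _ _⟩
  refine ⟨e, fun j => ?_, fun γ hγ hγS => ?_⟩
  · have h2 : e j ∈ insert d (D ∩ S) := by rw [he]; exact mem_range_self j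
    rcases h2 with h2 | h2
    · rw [h2]; exact hd
    · exact h2.1
  · have h2 : γ ∈ insert d (D ∩ S) := Or.inr ⟨hγ, hγS⟩
    rw [he] at h2
    exact h2

omit [WellFoundedLT I] in
private theorem exists_book {D : Set I} (hne : D.Nonempty) (K : (I → X) → I → X) :
    ∃ (e : ℕ → I) (S : Set I), S.Countable ∧ (∀ j, e j ∈ D) ∧ (∀ γ ∈ D, γ ∈ S → ∃ j, e j = γ) ∧
      (OnB topB K → (∀ γ ∉ S, ∀ z, K z γ = z γ) ∧
        ∀ γ ∈ S, ∀ z z', (∀ δ ∈ S, z δ = z' δ) → K z γ = K z' γ) := by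
  by_cases h : OnB topB K
  · obtain ⟨S, hS, h1, h2⟩ := h.supp
    obtain ⟨e, he, he'⟩ := exists_enum hne hS
    exact ⟨e, S, hS, he, he', fun _ => ⟨fun γ hγ z => (h1 γ hγ).2 z (mem_topB z),
      fun γ hγ z z' hz => h2 γ hγ z (mem_topB z) z' (mem_topB z') hz⟩⟩
  · obtain ⟨e, he, he'⟩ := exists_enum hne (countable_empty (α := I))
    exact ⟨e, ∅, countable_empty, he, he', fun h' => absurd h' h⟩

/-- module FUS: fusion with bookkeeping.
For an admissible map `K` of `topB` let `S K` be a countable set as in `supp` (for other maps, the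
empty set).  Choose by recursion (dependent choice; `ML45.exists_seq_of_step` in
`Pool/Agent/ML45/Str.lean` may be used) maps `K n` and level functions `m n` such that, with
`B n = cmpn K 0 n` and `m 0 = t.lv`: `Gd t D (K n)`, `Pres (m n) (K n)`, `Lvl t D (m n)`,
`m n ≤ m (n + 1)`, `Θ n (B n) (m n)` and `m n (c n) < m (n + 1) (c n)` for a coordinate `c n ∈ D`
given by bookkeeping.  Namely, let `e K : ℕ → I` be a sequence whose range is contained in `D` and
contains `D ∩ S K` (`D` is not empty), and `e'` one whose range is contained in `D` and contains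
`D ∩ C₀`.  Let `c n = e' j` if `n = Nat.pair 0 (Nat.pair j k)`, and `c n = e (K i) j` if
`n = Nat.pair (i + 1) (Nat.pair j k)` (then `i < n`, `Nat.unpair_left_le`).  So each element of
`D ∩ (C₀ ∪ ⋃ n, S (K n))` is `c n` for infinitely many `n`, and its level tends to infinity.  At the
other coordinates all maps `K n` are trivial (`act`, `supp`).  Apply `exists_lim` and let
`H = R 0`, `C = C₀ ∪ ⋃ n, S (K n)`; then `H z = B n (R n z)` by induction on `n`.  The maps `K n`,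
and so the maps `cmpn K 0 N`, preserve the agreement of two points on `C` (`supp`), and so does the
limit `H`. -/
theorem exists_fus {t : Bx I} {D : Set I} (hne : D.Nonempty) {C₀ : Set I} (hC₀ : C₀.Countable)
    {Θ : ℕ → ((I → X) → I → X) → (I → ℕ) → Prop} (hL : Θ 0 (fun z => z) t.lv)
    (hstep : ∀ n B m, Gd t D B → Lvl t D m → Θ n B m → ∀ γ ∈ D, ∃ K m', Gd t D K ∧
      Pres m K ∧ Lvl t D m' ∧ (∀ δ, m δ ≤ m' δ) ∧ m γ < m' γ ∧ Θ (n + 1) (fun z => B (K z)) m') :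
    ∃ (H : (I → X) → I → X) (B R : ℕ → (I → X) → I → X) (m : ℕ → I → ℕ) (C : Set I),
      Gd t D H ∧ C.Countable ∧ C₀ ⊆ C ∧ (∀ γ ∉ C, ∀ z, H z γ = z γ) ∧
      (∀ z z', (∀ δ ∈ C, z δ = z' δ) → ∀ γ ∈ C, H z γ = H z' γ) ∧
      (∀ γ ∈ C, γ ∈ D → ∀ k, ∃ n, k ≤ m n γ) ∧
      ∀ n, Θ n (B n) (m n) ∧ Gd t D (B n) ∧ Gd t D (R n) ∧ Pres (m n) (R n) ∧
        Lvl t D (m n) ∧ (∀ δ, m n δ ≤ m (n + 1) δ) ∧ ∀ z, H z = B n (R n z) := by
  classical
  choose e S hS he heS hsup using exists_book (I := I) (D := D) hne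
  obtain ⟨e', he', heC'⟩ := exists_enum hne hC₀
  -- the sequence of states
  obtain ⟨s, hs0, hs⟩ := exists_chain
    (σ := ((I → X) → I → X) × (I → ℕ) × (ℕ → ℕ → I))
    (Inv := fun n s => Gd t D s.1 ∧ Lvl t D s.2.1 ∧ Θ n s.1 s.2.1 ∧ ∀ i j, s.2.2 i j ∈ D)
    (Step := fun n s s' => ∃ K, Gd t D K ∧ Pres s.2.1 K ∧ (∀ δ, s.2.1 δ ≤ s'.2.1 δ) ∧
      s.2.1 (s.2.2 (Nat.unpair n).1 (Nat.unpair (Nat.unpair n).2).1) <
        s'.2.1 (s.2.2 (Nat.unpair n).1 (Nat.unpair (Nat.unpair n).2).1) ∧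
      s'.1 = (fun z => s.1 (K z)) ∧ s'.2.2 = Function.update s.2.2 (n + 1) (e K))
    (fun z => z, t.lv, fun _ => e')
    ⟨Gd.id t D, ⟨t.fin, fun _ => le_rfl, fun _ _ => rfl⟩, hL, fun _ j => he' j⟩
    (by
      rintro n ⟨B, m, E⟩ ⟨h1, h2, h3, h4⟩
      obtain ⟨K, m', g1, g2, g3, g4, g5, g6⟩ := hstep n B m h1 h2 h3
        (E (Nat.unpair n).1 (Nat.unpair (Nat.unpair n).2).1) (h4 _ _)
      refine ⟨(fun z => B (K z), m', Function.update E (n + 1) (e K)),
        ⟨h1.comp g1, g3, g6, fun i j => ?_⟩, K, g1, g2, g4, g5, rfl, rfl⟩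
      by_cases hi : i = n + 1
      · subst hi
        simp only [Function.update_self]
        exact he K j
      · simp only [Function.update_of_ne hi]
        exact h4 i j)
  choose K hKG hKP hmono hlt hB hE using fun n => (hs n).2
  -- abbreviations
  obtain ⟨m, hm⟩ : ∃ m : ℕ → I → ℕ, ∀ n, m n = (s n).2.1 := ⟨_, fun _ => rfl⟩
  obtain ⟨E, hEE⟩ : ∃ E : ℕ → ℕ → ℕ → I, ∀ n, E n = (s n).2.2 := ⟨_, fun _ => rfl⟩
  have hm0 : m 0 = t.lv := by rw [hm, hs0]
  have hE0 : ∀ n, E n 0 = e' := by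
    intro n
    induction n with
    | zero => rw [hEE, hs0]
    | succ n ih =>
      rw [hEE, hE, Function.update_of_ne (Nat.succ_ne_zero n).symm, ← hEE]
      exact ih
  have hE1 : ∀ i n, i < n → E n (i + 1) = e (K i) := by
    intro i n
    induction n with
    | zero => intro h; exact absurd h (Nat.not_lt_zero i)
    | succ n ih =>
      intro h
      rw [hEE, hE]
      by_cases hi : i = n
      · subst hi; rw [Function.update_self]
      · rw [Function.update_of_ne (by omega), ← hEE]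
        exact ih (by omega)
  have hmm : ∀ n δ, m n δ ≤ m (n + 1) δ := by
    intro n δ
    rw [hm, hm]
    exact hmono n δ
  have hmon : ∀ δ, Monotone fun n => m n δ := fun δ => monotone_nat_of_le_succ fun n => hmm n δ
  have hBc : ∀ n z, (s n).1 z = cmpn K 0 n z := by
    intro n
    induction n with
    | zero => intro z; rw [hs0]; rfl
    | succ n ih =>
      intro z
      rw [hB, cmpn_succ, Nat.zero_add]
      exact ih (K n z)
  -- unboundedness
  have hunb : ∀ γ i₀ j, (∀ n, i₀ ≤ n → E n i₀ j = γ) → ∀ k, ∃ n, k ≤ m n γ := by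
    intro γ i₀ j h k
    induction k with
    | zero => exact ⟨0, Nat.zero_le _⟩
    | succ k ih =>
      obtain ⟨n, hn⟩ := ih
      have h1 : i₀ ≤ Nat.pair i₀ (Nat.pair j n) := Nat.left_le_pair _ _
      have h2 : n ≤ Nat.pair i₀ (Nat.pair j n) :=
        (Nat.right_le_pair j n).trans (Nat.right_le_pair _ _)
      have h3 := hlt (Nat.pair i₀ (Nat.pair j n))
      rw [← hEE, ← hm, ← hm] at h3
      simp only [Nat.unpair_pair] at h3
      rw [h _ h1] at h3
      have h4 : m n γ ≤ m (Nat.pair i₀ (Nat.pair j n)) γ := hmon γ h2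
      exact ⟨Nat.pair i₀ (Nat.pair j n) + 1, by omega⟩
  obtain ⟨C, hC⟩ : ∃ C : Set I, C = C₀ ∪ ⋃ n, S (K n) := ⟨_, rfl⟩
  have hCc : C.Countable := by rw [hC]; exact hC₀.union (countable_iUnion fun n => hS _)
  have hCunb : ∀ γ ∈ C, γ ∈ D → ∀ k, ∃ n, k ≤ m n γ := by
    intro γ hγ hD
    rw [hC] at hγ
    rcases hγ with hγ | hγ
    · obtain ⟨j, hj⟩ := heC' γ hD hγ
      exact hunb γ 0 j fun n _ => by rw [hE0, hj]
    · obtain ⟨i, hi⟩ := mem_iUnion.1 hγ
      obtain ⟨j, hj⟩ := heS (K i) γ hD hi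
      exact hunb γ (i + 1) j fun n hn => by rw [hE1 i n (by omega), hj]
  have htC : ∀ γ ∉ C, ∀ n z, K n z γ = z γ := by
    intro γ hγ n z
    refine (hsup (K n) (hKG n).onb).1 γ (fun h => hγ ?_) z
    rw [hC]
    exact Or.inr (mem_iUnion.2 ⟨n, h⟩)
  have htD : ∀ γ ∉ D, ∀ n z, K n z γ = z γ := fun γ hγ n z => (hKG n).act γ hγ z (mem_topB z)
  obtain ⟨R, hR1, hR2, hR3, hR4, hR5⟩ := exists_lim (K := K) (m := m) (fun n => (hKG n).onb)
    (fun n => by rw [hm]; exact hKP n) hmm (fun γ => by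
      by_cases hγ : γ ∈ C
      · by_cases hD : γ ∈ D
        · exact Or.inr (hCunb γ hγ hD)
        · exact Or.inl (htD γ hD)
      · exact Or.inl (htC γ hγ))
  have hLv : ∀ n, Lvl t D (m n) := fun n => by rw [hm]; exact (hs n).1.2.1
  have hGR : ∀ n, Gd t D (R n) := fun n =>
    ⟨hR1 n, (hR2 n).mono (hLv n).le, fun γ hγ z _ => hR4 γ (htD γ hγ) n z⟩
  have hcC : ∀ N z z', (∀ δ ∈ C, z δ = z' δ) → ∀ δ ∈ C, cmpn K 0 N z δ = cmpn K 0 N z' δ := by
    intro N
    induction N with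
    | zero => intro z z' h; exact h
    | succ N ih =>
      intro z z' h
      rw [cmpn_succ, cmpn_succ]
      refine ih _ _ fun δ hδ => ?_
      obtain ⟨g1, g2⟩ := hsup (K (0 + N)) (hKG _).onb
      by_cases h1 : δ ∈ S (K (0 + N))
      · refine g2 δ h1 z z' fun δ' hδ' => h δ' ?_
        rw [hC]
        exact Or.inr (mem_iUnion.2 ⟨0 + N, hδ'⟩)
      · rw [g1 δ h1, g1 δ h1]
        exact h δ hδ
  refine ⟨R 0, fun n => (s n).1, R, m, C, hGR 0, hCc, by rw [hC]; exact subset_union_left,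
    fun γ hγ z => hR4 γ (htC γ hγ) 0 z, fun z z' h γ hγ => ?_, hCunb, fun n =>
      ⟨by rw [hm]; exact (hs n).1.2.2.1, (hs n).1.1, hGR n, hR2 n, hLv n, hmm n, fun z => ?_⟩⟩
  · refine eq_of_eqn fun j => ?_
    obtain ⟨N₁, hN₁⟩ := hR5 γ 0 j
    have h1 := hN₁ N₁ le_rfl z
    have h2 := hN₁ N₁ le_rfl z'
    rw [hcC N₁ z z' h γ hγ] at h1
    exact h1.trans h2.symm
  · beta_reduce
    rw [hBc]
    induction n with
    | zero => rfl
    | succ n ih =>
      rw [cmpn_succ, Nat.zero_add, ← hR3]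
      exact ih

end Pool.Agent.EN45
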