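import Pool.Agent.EN45.Evt
import Pool.Agent.EN45.Cpy
import Pool.Agent.EN45.Fus

/-!
# The fusion step (module A5)
-/

namespace Pool.Agent.EN45

open Set

variable {I : Type*} [LinearOrder I]

/-- the events with parity `ε` are available at all coordinates in `D` -/
def Avl (ε : Bool) (D : Set I) (t : Bx I) (g : (I → X) → ℕ → Bool) : Prop :=
  ∀ γ ∈ D, ∀ v L, Sub v t → Mp v t L → ∃ K', Mp v v K' ∧ Act D v K' ∧
    Ev ε γ v fun z => g (L (K' z))

/-- points of `t` in different boxes of the level function `m` have values with first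
differences of parity `ε` -/
def Sep (ε : Bool) (t : Bx I) (m : I → ℕ) (g : (I → X) → ℕ → Bool) : Prop :=
  ∀ z ∈ t, ∀ z' ∈ t, (∃ δ, ¬ Eqn (m δ) (z δ) (z' δ)) → PD ε (g z) (g z')

/-- events at `γ'` on all boxes of a level function.
`exists_macro` for `Δ B z = Ev ε γ' (bx m _ z) (g ∘ B)`.  `hdense`: `h` for `v = bx m _ z` and
`L = B` (`Gd.mp`, `sub_bx`); `J = K` on the box (`J_eq`).  `hher`: `z`, `z'` in `t` are in different
boxes, so they differ at a coordinate `δ` up to `m δ`; as they are in `t` and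
`m δ = t.lv δ` for `δ ∉ D`, we have `δ ∈ D` and `m δ ≠ 0`, so `δ ≤ γ'` by `hmax`.  For `w` in the box
of `z'` the value `J (bx m _ z) K w γ'` is `w γ'` (`J_neg`, as `w` and `z` differ at `δ`), and
`J (bx m _ z) K w` is in the box of `z'` (`pres_J`). -/
theorem exists_all_events {ε : Bool} {D : Set I} {t : Bx I} {g : (I → X) → ℕ → Bool}
    (h : Avl ε D t g) {m : I → ℕ} (hm : Lvl t D m) {γ' : I} (hγ' : γ' ∈ D)
    (hmax : ∀ δ ∈ D, m δ ≠ 0 → δ ≤ γ') {B : (I → X) → I → X} (hB : Gd t D B) :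
    ∃ K, Gd t D K ∧ Pres m K ∧ ∀ z ∈ t, Ev ε γ' (bx m hm.fin z) fun w => g (B (K w)) := by
  refine exists_macro hm.fin hm.le
    (Δ := fun B z => Ev ε γ' (bx m hm.fin z) fun w => g (B w)) ?_ ?_ ?_ hB
  · intro B z z' hzz' h1 w hw w' hw' h2
    exact h1 w (fun δ => (hw δ).trans (hzz' δ).symm) w' (fun δ => (hw' δ).trans (hzz' δ).symm) h2
  · intro B hB z hz
    have hs : Sub (bx m hm.fin z) t := sub_bx hm.le hz
    obtain ⟨K', h1, h2, h3⟩ := h γ' hγ' (bx m hm.fin z) B hs (hB.mp hs)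
    refine ⟨K', h1, h2, fun w hw w' hw' h4 => ?_⟩
    have h5 := h3 w hw w' hw' h4
    beta_reduce
    rw [J_eq hw, J_eq hw']
    exact h5
  · intro B hB z hz z' hz' hne K hK _ h1 w hw w' hw' h2
    obtain ⟨δ, hδ⟩ := hne
    have hδ0 : m δ ≠ 0 := fun h0 => hδ (by rw [h0]; exact eqn_zero _ _)
    have hδD : δ ∈ D := by
      by_contra h3
      refine hδ ?_
      rw [hm.out δ h3]
      exact (hz δ).trans (hz' δ).symm
    have hδγ : δ ≤ γ' := hmax δ hδD hδ0
    have key : ∀ v ∈ bx m hm.fin z', J (bx m hm.fin z) K v γ' = v γ' := by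
      intro v hv
      refine J_neg fun h3 => hδ ?_
      have h4 : Eqn (m δ) (v δ) (z δ) := h3 δ hδγ
      have h5 : Eqn (m δ) (v δ) (z' δ) := hv δ
      exact h4.symm.trans h5
    have hpres : Pres m (J (bx m hm.fin z) K) := pres_J (u := bx m hm.fin z) hK.maps
    have hmem : ∀ v ∈ bx m hm.fin z', J (bx m hm.fin z) K v ∈ bx m hm.fin z' :=
      fun v hv δ => (hpres v δ).trans (hv δ)
    refine h1 _ (hmem w hw) _ (hmem w' hw') ?_
    rw [key w hw, key w' hw']
    exact h2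

/-- module A5: the step.
Let `γ'` be the maximum of `γ` and of all `δ ∈ D` with `m δ ≠ 0`; `γ' ∈ D`.  Take `E`, `Λ` from
`exists_shf m` for `γ ≤ γ'`, let `m' = Function.update m γ' Λ` (again `Lvl t D`), and let `K₀` be the
map of `exists_all_events` for `m'`, `γ'` and `B`.  Let `K = K₀ ∘ E`.  Let `z`, `z'` in `t` be in
different boxes of the level function `Function.update m γ (m γ + 1)`.  If they are in different
boxes of `m`, then so are `K z`, `K z'` (`Pres m K`), and `hsep` applies.  Otherwise the entries at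
`γ` at the place `m γ` differ; then `E z` and `E z'` are in the same box of `m'` (they agree with
`z` and `z'` at the coordinates `δ ≠ γ'`) and their entries at `γ'` at the place `Λ` differ, so
the event applies (to the box of `E z`, which is in `t` by `Pres.mem`). -/
theorem exists_step {ε : Bool} {D : Set I} {t : Bx I} {g : (I → X) → ℕ → Bool}
    (h : Avl ε D t g) {m : I → ℕ} (hm : Lvl t D m) {B : (I → X) → I → X} (hB : Gd t D B)
    (hsep : Sep ε t m fun z => g (B z)) {γ : I} (hγ : γ ∈ D) :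
    ∃ K m', Gd t D K ∧ Pres m K ∧ Lvl t D m' ∧ (∀ δ, m δ ≤ m' δ) ∧ m γ < m' γ ∧
      Sep ε t m' fun z => g (B (K z)) := by
  classical
  obtain ⟨γ', hγ'D, hγγ', hmax⟩ : ∃ γ' ∈ D, γ ≤ γ' ∧ ∀ δ ∈ D, m δ ≠ 0 → δ ≤ γ' := by
    let S : Finset I := insert γ (hm.fin.toFinset.filter fun δ => δ ∈ D)
    have hS : S.Nonempty := ⟨γ, Finset.mem_insert_self _ _⟩
    refine ⟨S.max' hS, ?_, S.le_max' γ (Finset.mem_insert_self _ _), fun δ h1 h2 =>
      S.le_max' δ (Finset.mem_insert_of_mem (Finset.mem_filter.2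
        ⟨hm.fin.mem_toFinset.2 h2, h1⟩))⟩
    rcases Finset.mem_insert.1 (S.max'_mem hS) with h1 | h1
    · rw [h1]; exact hγ
    · exact (Finset.mem_filter.1 h1).2
  obtain ⟨E, Λ, hΛ, hE, hEm, hEo, hEs⟩ := exists_shf m hγγ'
  obtain ⟨m', hm'⟩ : ∃ m', m' = Function.update m γ' Λ := ⟨_, rfl⟩
  have hm'1 : m' γ' = Λ := by rw [hm', Function.update_self]
  have hm'2 : ∀ δ, δ ≠ γ' → m' δ = m δ := fun δ hδ => by rw [hm', Function.update_of_ne hδ]
  have hmm' : ∀ δ, m δ ≤ m' δ := by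
    intro δ
    by_cases h1 : δ = γ'
    · rw [h1, hm'1]; exact hΛ
    · rw [hm'2 δ h1]
  have hL' : Lvl t D m' := by
    refine ⟨(hm.fin.union (finite_singleton γ')).subset fun δ hδ => ?_,
      fun δ => (hm.le δ).trans (hmm' δ), fun δ hδ => ?_⟩
    · by_cases h1 : δ = γ'
      · exact Or.inr h1
      · refine Or.inl ?_
        have h2 : m' δ ≠ 0 := hδ
        rw [hm'2 δ h1] at h2
        exact h2
    · have h1 : δ ≠ γ' := fun h2 => hδ (by rw [h2]; exact hγ'D)
      rw [hm'2 δ h1]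
      exact hm.out δ hδ
  have hmax' : ∀ δ ∈ D, m' δ ≠ 0 → δ ≤ γ' := by
    intro δ h1 h2
    by_cases h3 : δ = γ'
    · exact h3.le
    · rw [hm'2 δ h3] at h2
      exact hmax δ h1 h2
  obtain ⟨K₀, hK₀, hK₀m, hK₀e⟩ := exists_all_events h hL' hγ'D hmax' hB
  have hEG : Gd t D E := ⟨hE, hEm.mono hm.le, fun δ hδ z _ =>
    hEo δ (fun h2 => hδ (by rw [h2]; exact hγ'D)) z⟩
  have hKm : Pres m fun z => K₀ (E z) := (hK₀m.mono hmm').comp hEm
  have hKG : Gd t D fun z => K₀ (E z) := hK₀.comp hEG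
  obtain ⟨m'', hm''⟩ : ∃ m'', m'' = Function.update m γ (m γ + 1) := ⟨_, rfl⟩
  have hm''1 : m'' γ = m γ + 1 := by rw [hm'', Function.update_self]
  have hm''2 : ∀ δ, δ ≠ γ → m'' δ = m δ := fun δ hδ => by rw [hm'', Function.update_of_ne hδ]
  have hmm'' : ∀ δ, m δ ≤ m'' δ := by
    intro δ
    by_cases h1 : δ = γ
    · rw [h1, hm''1]; exact Nat.le_succ _
    · rw [hm''2 δ h1]
  refine ⟨fun z => K₀ (E z), m'', hKG, hKm, ?_, hmm'', by rw [hm''1]; exact Nat.lt_succ_self _, ?_⟩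
  · refine ⟨(hm.fin.union (finite_singleton γ)).subset fun δ hδ => ?_,
      fun δ => (hm.le δ).trans (hmm'' δ), fun δ hδ => ?_⟩
    · by_cases h1 : δ = γ
      · exact Or.inr h1
      · refine Or.inl ?_
        have h2 : m'' δ ≠ 0 := hδ
        rw [hm''2 δ h1] at h2
        exact h2
    · have h1 : δ ≠ γ := fun h2 => hδ (by rw [h2]; exact hγ)
      rw [hm''2 δ h1]
      exact hm.out δ hδ
  · intro z hz z' hz' hne
    by_cases h1 : ∃ δ, ¬ Eqn (m δ) (z δ) (z' δ)
    · obtain ⟨δ, hδ⟩ := h1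
      have h2 : ∀ w ∈ t, K₀ (E w) ∈ t := fun w hw => hKm.mem hm.le hw
      refine hsep _ (h2 z hz) _ (h2 z' hz') ⟨δ, fun h3 => hδ ?_⟩
      exact ((hKm z δ).symm.trans h3).trans (hKm z' δ)
    · push Not at h1
      obtain ⟨δ, hδ⟩ := hne
      have h2 : δ = γ := by
        by_contra h3
        rw [hm''2 δ h3] at hδ
        exact hδ (h1 δ)
      rw [h2, hm''1] at hδ
      have h3 : (z γ).1 (m γ) ≠ (z' γ).1 (m γ) := by
        intro h4
        refine hδ fun i hi => ?_
        rcases Nat.lt_succ_iff_lt_or_eq.1 hi with h5 | h5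
        · exact h1 γ i h5
        · rw [h5]; exact h4
      obtain ⟨h4, h5⟩ := hEs z z' (h1 γ') h3
      have h6 : E z ∈ bx m' hL'.fin (E z) := fun _ => Eqn.refl _ _
      have h7 : E z' ∈ bx m' hL'.fin (E z) := by
        intro δ'
        by_cases h8 : δ' = γ'
        · rw [h8]
          have h9 : Eqn (m' γ') (E z' γ') (E z γ') := by rw [hm'1]; exact h4.symm
          exact h9
        · have h9 : Eqn (m' δ') (E z' δ') (E z δ') := by
            rw [hEo δ' h8, hEo δ' h8, hm'2 δ' h8]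
            exact (h1 δ').symm
          exact h9
      refine hK₀e (E z) (hEm.mem hm.le hz) (E z) h6 (E z') h7 ?_
      have h8 : (bx m' hL'.fin (E z)).lv γ' = Λ := hm'1
      rw [h8]
      exact h5

end Pool.Agent.EN45
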