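import Pool.Agent.EN45.A4
import Pool.Agent.EN45.A5

/-!
# The homogeneity theorem (module A6)
-/

namespace Pool.Agent.EN45

open Set

variable {I : Type*} [LinearOrder I] [WellFoundedLT I]

/-- the fusion.
If `D` is empty then `g` is constant on `t` by `hdep`, and `H = id` works.  Otherwise use
`exists_fus` for `Θ n B m = Sep ε t m (g ∘ B)` (for all `n`) and `C₀ = C`; `Θ 0` is void, as two
points of `t` are in the same box of the level function `t.lv`; the step is `exists_step`.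
Let `z`, `z'` in `t` with `g (H z) ≠ g (H z')`.  There is `δ ∈ C' ∩ D` with `z δ ≠ z' δ`, where `C'` is
the countable set of `exists_fus`: otherwise, let `z''` be `z` at the coordinates in `D` and `z'`
at the others; `g (H z) = g (H z'')` by `hdep` (`Gd.mp`, `Dep.comp`), and `H z''` and `H z'` agree on
`C'`, as `z''` and `z'` do, so that `g (H z'') = g (H z')` by `hC`.  Take `n` such that `z δ` and
`z' δ` differ before `m n δ`.  Then `H z = B n (R n z)` and the points `R n z`, `R n z'` are in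
different boxes of `m n` (`Pres`), and `Sep` applies. -/
theorem exists_hom_aux {ε : Bool} {D : Set I} (hD : IsLowerSet D) {t : Bx I}
    {g : (I → X) → ℕ → Bool} (h : Avl ε D t g) (hdep : Dep D t g) {C : Set I}
    (hC : C.Countable) (hCg : Dep C t g) :
    ∃ H, Mp t t H ∧ ∀ z ∈ t, ∀ z' ∈ t, g (H z) ≠ g (H z') → PD ε (g (H z)) (g (H z')) := by
  classical
  rcases D.eq_empty_or_nonempty with hE | hne
  · refine ⟨fun z => z, Mp.id (Sub.refl t), fun z hz z' hz' h1 => absurd ?_ h1⟩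
    exact hdep z hz z' hz' fun δ hδ => by rw [hE] at hδ; exact absurd hδ (notMem_empty δ)
  · obtain ⟨H, B, R, m, C', hH, -, hCC', -, hagree, hlev, hall⟩ :=
      exists_fus (t := t) (D := D) hne hC
        (Θ := fun _ B m => Sep ε t m fun z => g (B z))
        (fun z hz z' hz' ⟨δ, hδ⟩ => absurd ((hz δ).trans (hz' δ).symm) hδ)
        (fun _ B m hB hm hsep γ hγ => exists_step h hm hB hsep hγ)
    refine ⟨H, hH.mp (Sub.refl t), fun z hz z' hz' hgne => ?_⟩
    have hex : ∃ δ ∈ C', δ ∈ D ∧ z δ ≠ z' δ := by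
      by_contra hcon
      push Not at hcon
      refine hgne ?_
      obtain ⟨z'', hz''⟩ : ∃ z'' : I → X, z'' = fun δ => if δ ∈ D then z δ else z' δ := ⟨_, rfl⟩
      have h1 : ∀ δ ∈ D, z'' δ = z δ := fun δ hδ => by rw [hz'']; exact if_pos hδ
      have h2 : ∀ δ, δ ∉ D → z'' δ = z' δ := fun δ hδ => by rw [hz'']; exact if_neg hδ
      have hzt : z'' ∈ t := by rw [hz'']; exact ite_mem hz hz' _
      have h3 : g (H z) = g (H z'') :=
        (hdep.comp hD (hH.mp (Sub.refl t))) z hz z'' hzt fun δ hδ => (h1 δ hδ).symm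
      rw [h3]
      refine hCg _ ((hH.mp (Sub.refl t)).maps z'' hzt) _ ((hH.mp (Sub.refl t)).maps z' hz')
        fun δ hδ => hagree z'' z' (fun δ' hδ' => ?_) δ (hCC' hδ)
      by_cases h4 : δ' ∈ D
      · rw [h1 δ' h4]; exact hcon δ' hδ' h4
      · exact h2 δ' h4
    obtain ⟨δ, hδC, hδD, hδne⟩ := hex
    obtain ⟨i, -, hi⟩ := exists_diff hδne
    obtain ⟨n, hn⟩ := hlev δ hδC hδD (i + 1)
    obtain ⟨hsep, -, -, hpres, hlvl, -, hHn⟩ := hall n
    rw [hHn z, hHn z']
    refine hsep _ (hpres.mem hlvl.le hz) _ (hpres.mem hlvl.le hz') ⟨δ, fun h5 => hi ?_⟩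
    exact (((hpres z δ).symm.trans h5).trans (hpres z' δ)) i (by omega)

/-- module A6, the homogeneity theorem: `exists_Mn`, `exists_avail` and `exists_hom_aux`, and the
map `dp t u` of `t` into the smaller box -/
theorem exists_hom {t : Bx I} {g : (I → X) → ℕ → Bool} (hg : CtsOn t g) {C : Set I}
    (hC : C.Countable) (hCg : Dep C t g) :
    ∃ ε H, Mp t t H ∧ ∀ z ∈ t, ∀ z' ∈ t, g (H z) ≠ g (H z') → PD ε (g (H z)) (g (H z')) := by
  obtain ⟨D, u, K, hD, hu, hK, hMn⟩ := exists_Mn t g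
  obtain ⟨ε, v, B, hv, hB, hav⟩ := exists_avail hD (hg.comp hK) hMn
  have hKB : Mp v t fun z => K (B z) := hK.comp hB
  obtain ⟨C', hC', -, hdC⟩ := hCg.comp_countable hC hKB
  have hdD : Dep D v fun z => g (K (B z)) := hMn.dep.comp hD hB
  obtain ⟨H, hH, h1⟩ := exists_hom_aux hD (t := v) (g := fun z => g (K (B z))) hav hdD hC' hdC
  have hlv : ∀ δ, t.lv δ ≤ v.lv δ := (hv.trans hu).1
  have hdp : Mp t v (dp t v) := ⟨onB_dp hlv, fun z _ => dp_mem t v z⟩
  refine ⟨ε, fun z => K (B (H (dp t v z))), (hKB.comp hH).comp hdp, fun z hz z' hz' hne => ?_⟩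
  exact h1 _ (hdp.maps z hz) _ (hdp.maps z' hz') hne

end Pool.Agent.EN45
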