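import Mathlib

/-!
# Maps of boxes

The points of the space `X` are the sequences `x` of pairs of natural numbers with `x i` in the
finite set `L i` of all pairs of numbers `≤ i + 1`.  Each set `L i` has two linear orders.  The
conditions of the forcing are maps of boxes of `I → X` which are, in each coordinate and given the
smaller coordinates, embeddings of trees which preserve the two orders.
-/

namespace Pool.Agent.EN45

open Set

/-! ### local structures -/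

/-- the set `L n` of pairs of numbers `≤ n + 1` -/
def Ok (n : ℕ) (p : ℕ × ℕ) : Prop := p.1 ≤ n + 1 ∧ p.2 ≤ n + 1

/-- the first order -/
def Lt1 (p q : ℕ × ℕ) : Prop := p.1 < q.1 ∨ p.1 = q.1 ∧ p.2 < q.2

/-- the second order -/
def Lt2 (p q : ℕ × ℕ) : Prop := p.2 < q.2 ∨ p.2 = q.2 ∧ p.1 < q.1

/-- embeddings of `L n` into `L m` -/
structure Emb (n m : ℕ) (d : ℕ × ℕ → ℕ × ℕ) : Prop where
  ok : ∀ p, Ok n p → Ok m (d p)
  lt1 : ∀ p q, Ok n p → Ok n q → Lt1 p q → Lt1 (d p) (d q)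
  lt2 : ∀ p q, Ok n p → Ok n q → Lt2 p q → Lt2 (d p) (d q)

theorem Ok.mono {n m : ℕ} (h : n ≤ m) {p : ℕ × ℕ} (hp : Ok n p) : Ok m p :=
  ⟨hp.1.trans (by omega), hp.2.trans (by omega)⟩

theorem lt1_tri {p q : ℕ × ℕ} (h : p ≠ q) : Lt1 p q ∨ Lt1 q p := by
  rcases lt_trichotomy p.1 q.1 with h1 | h1 | h1
  · exact Or.inl (Or.inl h1)
  · rcases lt_trichotomy p.2 q.2 with h2 | h2 | h2
    · exact Or.inl (Or.inr ⟨h1, h2⟩)
    · exact absurd (Prod.ext h1 h2) h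
    · exact Or.inr (Or.inr ⟨h1.symm, h2⟩)
  · exact Or.inr (Or.inl h1)

theorem lt2_tri {p q : ℕ × ℕ} (h : p ≠ q) : Lt2 p q ∨ Lt2 q p := by
  rcases lt_trichotomy p.2 q.2 with h1 | h1 | h1
  · exact Or.inl (Or.inl h1)
  · rcases lt_trichotomy p.1 q.1 with h2 | h2 | h2
    · exact Or.inl (Or.inr ⟨h1, h2⟩)
    · exact absurd (Prod.ext h2 h1) h
    · exact Or.inr (Or.inr ⟨h1.symm, h2⟩)
  · exact Or.inr (Or.inl h1)

theorem lt1_ne {p q : ℕ × ℕ} (h : Lt1 p q) : p ≠ q := by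
  rintro rfl
  rcases h with h | h
  · exact lt_irrefl _ h
  · exact lt_irrefl _ h.2

theorem Emb.inj {n m : ℕ} {d : ℕ × ℕ → ℕ × ℕ} (hd : Emb n m d) {p q : ℕ × ℕ} (hp : Ok n p)
    (hq : Ok n q) (h : d p = d q) : p = q := by
  by_contra hne
  rcases lt1_tri hne with h1 | h1
  · exact lt1_ne (hd.lt1 p q hp hq h1) h
  · exact lt1_ne (hd.lt1 q p hq hp h1) h.symm

theorem Emb.id {n m : ℕ} (h : n ≤ m) : Emb n m id :=
  ⟨fun _ hp => hp.mono h, fun _ _ _ _ h => h, fun _ _ _ _ h => h⟩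

theorem Emb.comp {n m k : ℕ} {d e : ℕ × ℕ → ℕ × ℕ} (he : Emb m k e) (hd : Emb n m d) :
    Emb n k (e ∘ d) :=
  ⟨fun p hp => he.ok _ (hd.ok p hp),
    fun p q hp hq h => he.lt1 _ _ (hd.ok p hp) (hd.ok q hq) (hd.lt1 p q hp hq h),
    fun p q hp hq h => he.lt2 _ _ (hd.ok p hp) (hd.ok q hq) (hd.lt2 p q hp hq h)⟩

/-! ### the space -/

/-- the space of sequences -/
def X : Type := {x : ℕ → ℕ × ℕ // ∀ i, Ok i (x i)}

/-- `x` and `y` have the same first `n` entries -/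
def Eqn (n : ℕ) (x y : X) : Prop := ∀ i < n, x.1 i = y.1 i

theorem Eqn.refl (n : ℕ) (x : X) : Eqn n x x := fun _ _ => rfl

theorem Eqn.symm {n : ℕ} {x y : X} (h : Eqn n x y) : Eqn n y x := fun i hi => (h i hi).symm

theorem Eqn.trans {n : ℕ} {x y z : X} (h : Eqn n x y) (h' : Eqn n y z) : Eqn n x z :=
  fun i hi => (h i hi).trans (h' i hi)

theorem Eqn.mono {n m : ℕ} {x y : X} (h : Eqn m x y) (hn : n ≤ m) : Eqn n x y :=
  fun i hi => h i (hi.trans_le hn)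

theorem eqn_zero (x y : X) : Eqn 0 x y := fun _ hi => absurd hi (Nat.not_lt_zero _)

theorem X.ext {x y : X} (h : ∀ i, x.1 i = y.1 i) : x = y := Subtype.ext (funext h)

theorem eq_of_eqn {x y : X} (h : ∀ n, Eqn n x y) : x = y :=
  X.ext fun i => h (i + 1) i (Nat.lt_succ_self i)

/-- the first difference -/
theorem exists_diff {x y : X} (h : x ≠ y) : ∃ i, Eqn i x y ∧ x.1 i ≠ y.1 i := by
  classical
  have h1 : ∃ i, x.1 i ≠ y.1 i := by
    by_contra hcon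
    push Not at hcon
    exact h (X.ext hcon)
  exact ⟨Nat.find h1, fun i hi => by
    by_contra hcon
    exact Nat.find_min h1 hi hcon, Nat.find_spec h1⟩

/-- the zero sequence -/
def x0 : X := ⟨fun _ => (0, 0), fun _ => ⟨Nat.zero_le _, Nat.zero_le _⟩⟩

instance : Inhabited X := ⟨x0⟩

/-- the first `n` entries of `x` followed by the remaining entries of `y` -/
def spl (n : ℕ) (x y : X) : X :=
  ⟨fun i => if i < n then x.1 i else y.1 i, fun i => by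
    beta_reduce; split_ifs; exacts [x.2 i, y.2 i]⟩

theorem spl_lt {n i : ℕ} (x y : X) (h : i < n) : (spl n x y).1 i = x.1 i := if_pos h

theorem spl_ge {n i : ℕ} (x y : X) (h : n ≤ i) : (spl n x y).1 i = y.1 i := if_neg (not_lt.2 h)

theorem spl_eqn (n : ℕ) (x y : X) : Eqn n (spl n x y) x := fun _ hi => spl_lt x y hi

theorem spl_self {n : ℕ} {x y : X} (h : Eqn n x y) : spl n x y = y := X.ext fun i => by
  by_cases hi : i < n
  · rw [spl_lt _ _ hi, h i hi]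
  · rw [spl_ge _ _ (not_lt.1 hi)]

/-- `x` with the entry `p` at the place `n` -/
def upd (x : X) (n : ℕ) (p : ℕ × ℕ) (h : Ok n p) : X :=
  ⟨Function.update x.1 n p, fun i => by
    by_cases hi : i = n
    · subst hi; rw [Function.update_self]; exact h
    · rw [Function.update_of_ne hi]; exact x.2 i⟩

theorem upd_self (x : X) (n : ℕ) (p : ℕ × ℕ) (h : Ok n p) : (upd x n p h).1 n = p :=
  Function.update_self _ _ _

theorem upd_ne (x : X) {n i : ℕ} (p : ℕ × ℕ) (h : Ok n p) (hi : i ≠ n) :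
    (upd x n p h).1 i = x.1 i := Function.update_of_ne hi _ _

theorem upd_eqn (x : X) (n : ℕ) (p : ℕ × ℕ) (h : Ok n p) {m : ℕ} (hm : m ≤ n) :
    Eqn m (upd x n p h) x := fun i hi => upd_ne x p h (by omega)

theorem exists_other (n : ℕ) (p : ℕ × ℕ) : ∃ q, Ok n q ∧ q ≠ p := by
  by_cases h : p = (0, 0)
  · exact ⟨(0, 1), ⟨Nat.zero_le _, by simp⟩, by rw [h]; simp⟩
  · exact ⟨(0, 0), ⟨Nat.zero_le _, Nat.zero_le _⟩, fun h' => h h'.symm⟩

/-! ### points and boxes -/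

section

variable {I : Type*}

/-- the points `z` and `z'` have the same first `m` entries at the coordinates in `T` -/
def Agr (T : Finset I) (m : ℕ) (z z' : I → X) : Prop := ∀ δ ∈ T, Eqn m (z δ) (z' δ)

theorem Agr.refl (T : Finset I) (m : ℕ) (z : I → X) : Agr T m z z := fun _ _ => Eqn.refl _ _

theorem Agr.symm {T : Finset I} {m : ℕ} {z z' : I → X} (h : Agr T m z z') : Agr T m z' z :=
  fun δ hδ => (h δ hδ).symm

theorem Agr.trans {T : Finset I} {m : ℕ} {z z' z'' : I → X} (h : Agr T m z z')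
    (h' : Agr T m z' z'') : Agr T m z z'' := fun δ hδ => (h δ hδ).trans (h' δ hδ)

theorem Agr.mono {T T' : Finset I} {m m' : ℕ} {z z' : I → X} (h : Agr T' m' z z')
    (hT : T ⊆ T') (hm : m ≤ m') : Agr T m z z' := fun δ hδ => (h δ (hT hδ)).mono hm

/-- a box: the set of all points `z` such that `z γ` has the same first `lv γ` entries as `pt γ` -/
structure Bx (I : Type*) where
  pt : I → X
  lv : I → ℕ
  fin : {γ | lv γ ≠ 0}.Finite

instance : Membership (I → X) (Bx I) := ⟨fun t z => ∀ γ, Eqn (t.lv γ) (z γ) (t.pt γ)⟩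

theorem mem_bx {t : Bx I} {z : I → X} : z ∈ t ↔ ∀ γ, Eqn (t.lv γ) (z γ) (t.pt γ) := Iff.rfl

theorem Bx.pt_mem (t : Bx I) : t.pt ∈ t := fun _ => Eqn.refl _ _

/-- the box of all points -/
def topB : Bx I := ⟨fun _ => x0, fun _ => 0, by simp⟩

theorem mem_topB (z : I → X) : z ∈ (topB : Bx I) := fun _ => eqn_zero _ _

/-- the point of the box `t` with the entries of `z` after the levels of the box -/
def proj (t : Bx I) (z : I → X) : I → X := fun γ => spl (t.lv γ) (t.pt γ) (z γ)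

theorem proj_mem (t : Bx I) (z : I → X) : proj t z ∈ t := fun _ => spl_eqn _ _ _

theorem proj_apply {t : Bx I} {z : I → X} {γ : I} (h : Eqn (t.lv γ) (z γ) (t.pt γ)) :
    proj t z γ = z γ := spl_self h.symm

theorem proj_self {t : Bx I} {z : I → X} (h : z ∈ t) : proj t z = z :=
  funext fun γ => proj_apply (h γ)

/-- the box `u` is a subset of `t`, with larger levels -/
def Sub (u t : Bx I) : Prop := (∀ γ, t.lv γ ≤ u.lv γ) ∧ ∀ z ∈ u, z ∈ t

theorem Sub.refl (t : Bx I) : Sub t t := ⟨fun _ => le_rfl, fun _ h => h⟩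

theorem Sub.trans {v u t : Bx I} (h : Sub v u) (h' : Sub u t) : Sub v t :=
  ⟨fun γ => (h'.1 γ).trans (h.1 γ), fun z hz => h'.2 z (h.2 z hz)⟩

theorem sub_topB (t : Bx I) : Sub t topB := ⟨fun _ => Nat.zero_le _, fun z _ => mem_topB z⟩

/-- boxes with larger levels which have a common point are subsets -/
theorem sub_of_mem {u t : Bx I} (h : ∀ γ, t.lv γ ≤ u.lv γ) {z : I → X} (hz : z ∈ u)
    (hz' : z ∈ t) : Sub u t :=
  ⟨h, fun w hw γ => (((hw γ).trans (hz γ).symm).mono (h γ)).trans (hz' γ)⟩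

/-- the point of a box at the coordinate `γ` may be changed after its level -/
theorem update_mem [DecidableEq I] {t : Bx I} {z : I → X} (hz : z ∈ t) {γ : I} {x : X}
    (hx : Eqn (t.lv γ) x (z γ)) : Function.update z γ x ∈ t := by
  intro δ
  by_cases h : δ = γ
  · subst h; rw [Function.update_self]; exact hx.trans (hz δ)
  · rw [Function.update_of_ne h]; exact hz δ

/-- the union of parts of two points of a box -/
theorem ite_mem {t : Bx I} {z z' : I → X} (hz : z ∈ t) (hz' : z' ∈ t) (D : I → Prop)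
    [DecidablePred D] : (fun δ => if D δ then z δ else z' δ) ∈ t := by
  intro δ
  by_cases h : D δ
  · simp only [h, if_true]; exact hz δ
  · simp only [h, if_false]; exact hz' δ

end

/-! ### maps -/

section

variable {I : Type*} [LinearOrder I]

/-- `f` is an admissible map of the box `t` -/
structure OnB (t : Bx I) (f : (I → X) → I → X) : Prop where
  low : ∀ γ, ∀ z ∈ t, ∀ z' ∈ t, (∀ δ ≤ γ, z δ = z' δ) → f z γ = f z' γ
  uc : ∀ γ n, ∃ (T : Finset I) (m : ℕ), ∀ z ∈ t, ∀ z' ∈ t, Agr T m z z' → Eqn n (f z γ) (f z' γ)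
  emb : ∀ γ n, t.lv γ ≤ n → ∃ M, ∀ z ∈ t, ∃ m, n ≤ m ∧ m ≤ M ∧ ∃ d, Emb n m d ∧
    ∀ z' ∈ t, (∀ δ < γ, z' δ = z δ) → Eqn n (z' γ) (z γ) →
      Eqn m (f z' γ) (f z γ) ∧ (f z' γ).1 m = d ((z' γ).1 n)
  supp : ∃ C : Set I, C.Countable ∧ (∀ γ ∉ C, t.lv γ = 0 ∧ ∀ z ∈ t, f z γ = z γ) ∧
    ∀ γ ∈ C, ∀ z ∈ t, ∀ z' ∈ t, (∀ δ ∈ C, z δ = z' δ) → f z γ = f z' γ

variable {t u : Bx I} {f g : (I → X) → I → X}

theorem OnB.congr (h : OnB t f) (hg : ∀ z ∈ t, g z = f z) : OnB t g where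
  low γ z hz z' hz' hzz' := by rw [hg z hz, hg z' hz']; exact h.low γ z hz z' hz' hzz'
  uc γ n := by
    obtain ⟨T, m, h1⟩ := h.uc γ n
    exact ⟨T, m, fun z hz z' hz' h2 => by rw [hg z hz, hg z' hz']; exact h1 z hz z' hz' h2⟩
  emb γ n hn := by
    obtain ⟨M, h1⟩ := h.emb γ n hn
    refine ⟨M, fun z hz => ?_⟩
    obtain ⟨m, h2, h3, d, h4, h5⟩ := h1 z hz
    exact ⟨m, h2, h3, d, h4, fun z' hz' h6 h7 => by rw [hg z hz, hg z' hz']; exact h5 z' hz' h6 h7⟩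
  supp := by
    obtain ⟨C, h1, h2, h3⟩ := h.supp
    exact ⟨C, h1, fun γ hγ => ⟨(h2 γ hγ).1, fun z hz => by rw [hg z hz]; exact (h2 γ hγ).2 z hz⟩,
      fun γ hγ z hz z' hz' h4 => by rw [hg z hz, hg z' hz']; exact h3 γ hγ z hz z' hz' h4⟩

theorem OnB.id (t : Bx I) : OnB t id where
  low γ z _ z' _ h := h γ le_rfl
  uc γ n := ⟨{γ}, n, fun _ _ _ _ h => h γ (Finset.mem_singleton_self γ)⟩
  emb γ n _ := ⟨n, fun z _ => ⟨n, le_rfl, le_rfl, _root_.id, Emb.id le_rfl, fun z' _ _ h =>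
    ⟨h, rfl⟩⟩⟩
  supp := ⟨{γ | t.lv γ ≠ 0}, t.fin.countable, fun γ hγ => ⟨not_not.1 hγ, fun _ _ => rfl⟩,
    fun γ hγ z _ z' _ h => h γ hγ⟩

/-- restriction to smaller boxes -/
theorem OnB.mono (h : OnB t f) (hu : Sub u t) : OnB u f where
  low γ z hz z' hz' := h.low γ z (hu.2 z hz) z' (hu.2 z' hz')
  uc γ n := by
    obtain ⟨T, m, h1⟩ := h.uc γ n
    exact ⟨T, m, fun z hz z' hz' => h1 z (hu.2 z hz) z' (hu.2 z' hz')⟩
  emb γ n hn := by
    obtain ⟨M, h1⟩ := h.emb γ n ((hu.1 γ).trans hn)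
    refine ⟨M, fun z hz => ?_⟩
    obtain ⟨m, h2, h3, d, h4, h5⟩ := h1 z (hu.2 z hz)
    exact ⟨m, h2, h3, d, h4, fun z' hz' => h5 z' (hu.2 z' hz')⟩
  supp := by
    obtain ⟨C, h1, h2, h3⟩ := h.supp
    refine ⟨C ∪ {γ | u.lv γ ≠ 0}, h1.union u.fin.countable, fun γ hγ => ?_,
      fun γ hγ z hz z' hz' h4 => ?_⟩
    · rw [mem_union, not_or] at hγ
      exact ⟨not_not.1 hγ.2, fun z hz => (h2 γ hγ.1).2 z (hu.2 z hz)⟩
    · by_cases hC : γ ∈ C
      · exact h3 γ hC z (hu.2 z hz) z' (hu.2 z' hz') fun δ hδ => h4 δ (Or.inl hδ)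
      · rw [(h2 γ hC).2 z (hu.2 z hz), (h2 γ hC).2 z' (hu.2 z' hz')]
        exact h4 γ hγ

/-- the values of an admissible map at points which agree below `γ` and differ at `γ` -/
theorem OnB.split (h : OnB t f) {γ : I} {z z' : I → X} (hz : z ∈ t) (hz' : z' ∈ t)
    (hb : ∀ δ < γ, z' δ = z δ) {n : ℕ} (hn : Eqn n (z' γ) (z γ)) (hne : (z' γ).1 n ≠ (z γ).1 n) :
    ∃ m d, n ≤ m ∧ Emb n m d ∧ Eqn m (f z' γ) (f z γ) ∧ (f z' γ).1 m = d ((z' γ).1 n) ∧
      (f z γ).1 m = d ((z γ).1 n) ∧ (f z' γ).1 m ≠ (f z γ).1 m := by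
  have hn' : t.lv γ ≤ n := by
    by_contra hcon
    exact hne (((hz' γ).trans (hz γ).symm) n (not_le.1 hcon))
  obtain ⟨M, h1⟩ := h.emb γ n hn'
  obtain ⟨m, h2, h3, d, h4, h5⟩ := h1 z hz
  obtain ⟨h6, h7⟩ := h5 z' hz' hb hn
  obtain ⟨-, h8⟩ := h5 z hz (fun _ _ => rfl) (Eqn.refl _ _)
  refine ⟨m, d, h2, h4, h6, h7, h8, fun h9 => hne ?_⟩
  rw [h7, h8] at h9
  exact h4.inj ((z' γ).2 n) ((z γ).2 n) h9

open Classical in
/-- the splitting levels of a map into the box `u` are at least the levels of `u` -/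
theorem OnB.lv_le (h : ∀ z ∈ t, f z ∈ u) {γ : I} {n m : ℕ} (hn : t.lv γ ≤ n)
    {z : I → X} (hz : z ∈ t) {d : ℕ × ℕ → ℕ × ℕ} (hd : Emb n m d)
    (h1 : ∀ z' ∈ t, (∀ δ < γ, z' δ = z δ) → Eqn n (z' γ) (z γ) →
      Eqn m (f z' γ) (f z γ) ∧ (f z' γ).1 m = d ((z' γ).1 n)) : u.lv γ ≤ m := by
  by_contra hcon
  obtain ⟨q, hq, hqne⟩ := exists_other n ((z γ).1 n)
  obtain ⟨z', hz'⟩ : ∃ z', z' = Function.update z γ (upd (z γ) n q hq) := ⟨_, rfl⟩
  have h2 : z' ∈ t := by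
    rw [hz']
    exact update_mem hz (upd_eqn _ _ _ _ hn)
  have h3 : z' γ = upd (z γ) n q hq := by rw [hz', Function.update_self]
  have h4 := h1 z' h2 (fun δ hδ => by rw [hz', Function.update_of_ne hδ.ne])
    (by rw [h3]; exact upd_eqn _ _ _ _ le_rfl)
  have h5 := h1 z hz (fun _ _ => rfl) (Eqn.refl _ _)
  have h6 := ((h z' h2 γ).trans (h z hz γ).symm) m (not_le.1 hcon)
  rw [h4.2, h5.2, h3, upd_self] at h6
  exact hqne (hd.inj hq ((z γ).2 n) h6)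

/-- composition -/
theorem OnB.comp (hg : OnB u g) (hf : OnB t f) (h : ∀ z ∈ t, f z ∈ u) :
    OnB t fun z => g (f z) where
  low γ z hz z' hz' hzz' := hg.low γ _ (h z hz) _ (h z' hz') fun δ hδ =>
    hf.low δ z hz z' hz' fun δ' hδ' => hzz' δ' (hδ'.trans hδ)
  uc γ n := by
    classical
    obtain ⟨T, m, h1⟩ := hg.uc γ n
    choose T' m' h2 using fun δ => hf.uc δ m
    refine ⟨T.biUnion T', T.sup m', fun z hz z' hz' h3 => h1 _ (h z hz) _ (h z' hz') fun δ hδ =>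
      h2 δ z hz z' hz' (h3.mono (Finset.subset_biUnion_of_mem T' hδ) (Finset.le_sup hδ))⟩
  emb γ n hn := by
    obtain ⟨M1, h1⟩ := hf.emb γ n hn
    have h2 : ∀ m, ∃ M, u.lv γ ≤ m → ∀ z ∈ u, ∃ m', m ≤ m' ∧ m' ≤ M ∧ ∃ d, Emb m m' d ∧
        ∀ z' ∈ u, (∀ δ < γ, z' δ = z δ) → Eqn m (z' γ) (z γ) →
          Eqn m' (g z' γ) (g z γ) ∧ (g z' γ).1 m' = d ((z' γ).1 m) := by
      intro m
      by_cases hm : u.lv γ ≤ m
      · obtain ⟨M, hM⟩ := hg.emb γ m hm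
        exact ⟨M, fun _ => hM⟩
      · exact ⟨0, fun h => absurd h hm⟩
    choose M2 h2 using h2
    refine ⟨(Finset.range (M1 + 1)).sup M2, fun z hz => ?_⟩
    obtain ⟨m, h3, h4, d, h5, h6⟩ := h1 z hz
    have h7 := OnB.lv_le h hn hz h5 h6
    obtain ⟨m', h8, h9, d', h10, h11⟩ := h2 m h7 (f z) (h z hz)
    refine ⟨m', h3.trans h8, h9.trans (Finset.le_sup (f := M2)
      (Finset.mem_range.2 (Nat.lt_succ_of_le h4))), d' ∘ d, h10.comp h5, fun z' hz' hb hn' => ?_⟩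
    obtain ⟨h12, h13⟩ := h6 z' hz' hb hn'
    obtain ⟨h14, h15⟩ := h11 (f z') (h z' hz')
      (fun δ hδ => hf.low δ z' hz' z hz fun δ' hδ' => hb δ' (hδ'.trans_lt hδ)) h12
    refine ⟨h14, ?_⟩
    rw [h15, h13]
    rfl
  supp := by
    obtain ⟨C, hC, h1, h2⟩ := hf.supp
    obtain ⟨C', hC', h1', h2'⟩ := hg.supp
    have key : ∀ z ∈ t, ∀ z' ∈ t, (∀ δ ∈ C ∪ C', z δ = z' δ) → ∀ δ ∈ C ∪ C', f z δ = f z' δ := by
      intro z hz z' hz' h3 δ hδ
      by_cases h4 : δ ∈ C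
      · exact h2 δ h4 z hz z' hz' fun δ' hδ' => h3 δ' (Or.inl hδ')
      · rw [(h1 δ h4).2 z hz, (h1 δ h4).2 z' hz']
        exact h3 δ hδ
    refine ⟨C ∪ C', hC.union hC', fun γ hγ => ?_, fun γ hγ z hz z' hz' h3 => ?_⟩
    · rw [mem_union, not_or] at hγ
      refine ⟨(h1 γ hγ.1).1, fun z hz => ?_⟩
      rw [(h1' γ hγ.2).2 _ (h z hz), (h1 γ hγ.1).2 z hz]
    · by_cases h4 : γ ∈ C'
      · exact h2' γ h4 _ (h z hz) _ (h z' hz') fun δ hδ => key z hz z' hz' h3 δ (Or.inr hδ)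
      · rw [(h1' γ h4).2 _ (h z hz), (h1' γ h4).2 _ (h z' hz')]
        exact key z hz z' hz' h3 γ hγ

/-- the value at `γ`, up to `n`, depends on finitely many entries below `γ` and on the first `n`
entries at `γ` -/
theorem OnB.uc_low (hf : OnB t f) (γ : I) (n : ℕ) : ∃ (T : Finset I) (m : ℕ), ∀ z ∈ t, ∀ z' ∈ t,
    (∀ δ ∈ T, δ < γ → Eqn m (z δ) (z' δ)) → Eqn n (z γ) (z' γ) → Eqn n (f z γ) (f z' γ) := by
  classical
  obtain ⟨T, m, h1⟩ := hf.uc γ n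
  refine ⟨T, m, fun z hz z' hz' h2 h3 => ?_⟩
  -- the point which is `z` below `γ` and `z'` from `γ` on
  obtain ⟨w, hw⟩ : ∃ w : I → X, w = fun δ => if δ < γ then z δ else z' δ := ⟨_, rfl⟩
  have hw1 : ∀ δ < γ, w δ = z δ := fun δ hδ => by rw [hw]; exact if_pos hδ
  have hw2 : ∀ δ, γ ≤ δ → w δ = z' δ := fun δ hδ => by rw [hw]; exact if_neg (not_lt.2 hδ)
  have hwt : w ∈ t := by rw [hw]; exact ite_mem hz hz' _
  have h4 : Eqn n (f w γ) (f z' γ) := by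
    refine h1 w hwt z' hz' fun δ hδ => ?_
    by_cases h5 : δ < γ
    · rw [hw1 δ h5]; exact h2 δ hδ h5
    · rw [hw2 δ (not_lt.1 h5)]; exact Eqn.refl _ _
  refine Eqn.trans ?_ h4
  -- the first difference of `w γ` and `z γ` is at least `n`
  by_cases h5 : w γ = z γ
  · rw [hf.low γ w hwt z hz fun δ hδ => ?_]
    · exact Eqn.refl _ _
    · rcases hδ.lt_or_eq with h6 | h6
      · exact hw1 δ h6
      · rw [h6]; exact h5
  · obtain ⟨i, h6, h7⟩ := exists_diff h5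
    obtain ⟨m', d, h8, -, h9, -, -, -⟩ := hf.split hz hwt hw1 h6 h7
    have h10 : n ≤ i := by
      by_contra hcon
      refine h7 ?_
      rw [hw2 γ le_rfl]
      exact (h3 _ (not_le.1 hcon)).symm
    exact (h9.mono (h10.trans h8)).symm

end

end Pool.Agent.EN45
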