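import Pool.Agent.EN45.Nsn

/-!
# Names of all sets of natural numbers (module CCN)
-/

namespace Pool.Agent.EN45

open Classical Set Pool.Agent Pool.Agent.LadderTree Pool.Agent.Forcing Pool.Agent.MAx
open Pool.Agent.BVM (BSet UF eqv memv chk Congr le_of_uf Disc OPair FunOn op on onT)
open Pool.Agent.OG45 Pool.Agent.IN45 Cardinal
open Pool.Agent.ML45 (IM mk_IM mk_Iio_IM bdd_IM WM mk_WM exists_gt_WM countable_Iic_WM)

/-- module CCN: all sets of natural numbers have names `c i`, `i : IM`, densely.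
Let `J` be the type of pairs of a condition in normal form (`NC univ`) and a function in
`CG univ Bool`; `#J ≤ #IM` by `mk_NC_IM`, `mk_CG_IM` and `mul_eq_self`; so there is a surjection of `IM`
onto `J` (as in `exists_sig`), and `c i = rN p g` for the pair `(p, g)` given to `i`.  For a name
`a` and `q` take `s ≤ q`, `g` from `exists_reads_set`, and let `r = nrm s`
(`via_nrm`), `g' z = g (proj s.t z)`; then `CtsOn topB g'` (`spl_eqn_spl`, `Dep`), and `Dep C topB g'`.
`Fc r (a = rN r g')` by `fc_set_ext`: for `n` and `r' ≤ r` take by `exists_decided` a smaller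
condition on which `g' (K z) n` is constant; it decides `n ∈ a` by `Rd` and `n ∈ rN r g'` by
`rN_iff`, with the same result (`g' (K z) = g (K z)` as `K z ∈ r.t`). -/
theorem exists_cc : ∃ c : IM → BSet (RO (Cnd IM)), (∀ i, ∃ p g, c i = rN p g) ∧
    ∀ (a : BSet (RO (Cnd IM))) (q : Cnd IM), SubW q a →
      ∃ r ≤ q, ∃ i, Fc r fun F => nm F a = nm F (c i) := by
  have hJ : #(NC (univ : Set IM) × CG (univ : Set IM) Bool) ≤ #IM := by
    rw [mk_prod, Cardinal.lift_id, Cardinal.lift_id]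
    refine (mul_le_mul' mk_NC_IM mk_CG_IM).trans (mul_eq_self ?_).le
    rw [mk_IM]
    exact aleph0_le_continuum.trans (Order.lt_succ _).le
  have hne : Nonempty (NC (univ : Set IM) × CG (univ : Set IM) Bool) :=
    ⟨(toNC tp fun γ hγ => absurd (mem_univ γ) hγ,
      ⟨fun _ _ => true, fun _ => ⟨∅, 0, fun _ _ _ _ _ => rfl⟩,
        ∅, subset_univ _, countable_empty, fun _ _ _ _ _ => rfl⟩)⟩
  obtain ⟨e⟩ := hJ
  have hsurj : ∀ x, Function.invFun e (e x) = x := Function.leftInverse_invFun e.injective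
  refine ⟨fun i => rN (Function.invFun e i).1.1 (Function.invFun e i).2.1,
    fun i => ⟨_, _, rfl⟩, fun a q ha => ?_⟩
  obtain ⟨s, hs, g, hg, C, hC, hd⟩ := exists_reads_set a q
  have hr : nrm s ≤ s := (via_nrm s).le
  have hg' : CtsOn topB fun z => g (proj s.t z) := by
    intro n
    obtain ⟨T, m, h⟩ := hg.cts n
    exact ⟨T, m, fun z _ z' _ h' => h _ (proj_mem _ _) _ (proj_mem _ _) (Cnt2_agr_proj h')⟩
  have hd' : Dep C topB fun z => g (proj s.t z) := by
    intro z _ z' _ h'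
    refine hd _ (proj_mem _ _) _ (proj_mem _ _) fun δ hδ => ?_
    show spl (s.t.lv δ) (s.t.pt δ) (z δ) = spl (s.t.lv δ) (s.t.pt δ) (z' δ)
    rw [h' δ hδ]
  obtain ⟨x, hx⟩ : ∃ x : NC (univ : Set IM) × CG (univ : Set IM) Bool,
      x = (toNC s fun γ hγ => absurd (mem_univ γ) hγ,
        ⟨fun z => g (proj s.t z), hg', C, subset_univ _, hC, hd'⟩) := ⟨_, rfl⟩
  have hx1 : x.1.1 = nrm s := by rw [hx]; rfl
  have hx2 : x.2.1 = fun z => g (proj s.t z) := by rw [hx]
  refine ⟨nrm s, hr.trans hs, e x, ?_⟩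
  beta_reduce
  rw [hsurj, hx1, hx2]
  refine fc_set_ext (ha.mono (hr.trans hs)) (fun F _ y hy => rN_sub hy) fun n r' hr' => ?_
  obtain ⟨K, hK⟩ := hr'
  obtain ⟨u, hu, -, h1, h2, h3⟩ := exists_decided hK (hg'.mono (v := (nrm s).t)
    ⟨fun _ => Nat.zero_le _, fun _ _ => mem_topB _⟩) (n + 1) r'.t.pt_mem
  have h4 : ∀ z ∈ (r'.res hu).t, g (proj s.t (K z)) n = g (proj s.t (K r'.t.pt)) n :=
    fun z hz => h3 z hz n (Nat.lt_succ_self n)
  have h5 := rN_iff h1 (g := fun z => g (proj s.t z)) h4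
  have h6 := hg.reads _ _ ((via_nrm s).trans h1) n (g (proj s.t (K r'.t.pt)) n) fun z hz => by
    rw [← h4 z hz, proj_self (mem_nbx.1 (h1.mp.maps z hz))]
  refine ⟨r'.res hu, h2, fun F hF => ?_⟩
  exact (h6 F hF).trans (h5 F hF).symm

/-- the names of sets of natural numbers -/
noncomputable def cc : IM → BSet (RO (Cnd IM)) := exists_cc.choose

theorem cc_sub (i : IM) (F : GG (Cnd IM)) : OG45.Sub (In F) (nm F (cc i)) (nm F (onT ℕ)) := by
  obtain ⟨p, g, h⟩ := exists_cc.choose_spec.1 i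
  intro x hx
  rw [cc, h] at hx
  exact rN_sub hx

theorem exists_eq_cc {a : BSet (RO (Cnd IM))} {q : Cnd IM} (h : SubW q a) :
    ∃ r ≤ q, ∃ i, Fc r fun F => nm F a = nm F (cc i) := exists_cc.choose_spec.2 a q h

/-- a family which is covered by at most continuum many names does not have the size of the
continuum.
Otherwise (`Fc.not`) let `r` force it; let `f` be a name of the function (`Fc.name`; as for
`CardLE`).  For each `l` let `a l` be a name with: for all `F`, if there is `y` with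
`Rel (In F) (nm F f) (nm F (x l)) y` then `nm F (a l)` is such a `y` (`exists_name`).  By `exists_new`
there is `β` with `cN true β ≠ a l` for all `l`.  As `r` forces that `cN true β` is a subset of `ω`
(`rN_sub`), it is the image under `f` of an element of `H`; take a name for it (`Fc.name`), and by
`hH` a smaller condition and `l` such that it is `x l`; so `cN true β = a l` is forced, a
contradiction. -/
theorem not_card_of_cover {Λ : Type} (hΛ : #Λ ≤ 𝔠) (x : Λ → BSet (RO (Cnd IM)))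
    {H : BSet (RO (Cnd IM))} {q : Cnd IM} (hH : ∀ y, ∀ r ≤ q, (Fc r fun F =>
      In F (nm F y) (nm F H)) → ∃ s ≤ r, ∃ l, Fc s fun F => nm F y = nm F (x l)) :
    Fc q fun F => ¬ BVM.CardLE (In F) (nm F PwN) (nm F H) := by
  refine Fc.not (rpCard _ _) fun r hr hcard => ?_
  obtain ⟨f, hf⟩ := Fc.name (A := fun F f => (∀ x y y', BVM.Rel (In F) f x y →
    BVM.Rel (In F) f x y' → y' = y) ∧ ∀ y, In F y (nm F PwN) → ∃ x, In F x (nm F H) ∧
      BVM.Rel (In F) f x y) (fun f => RpP.and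
        (RpP.all fun _ => RpP.all fun _ => RpP.all fun _ =>
          (RpP.rel _ _ _).imp ((RpP.rel _ _ _).imp (RpP.eq _ _)))
        (RpP.all fun _ => (RpP.mem _ _).imp (RpP.ex fun _ =>
          (RpP.mem _ _).and (RpP.rel _ _ _)))) hcard
  have ha : ∀ l, ∃ a : BSet (RO (Cnd IM)), ∀ F : GG (Cnd IM),
      (∃ y, BVM.Rel (In F) (nm F f) (nm F (x l)) y) →
        BVM.Rel (In F) (nm F f) (nm F (x l)) (nm F a) := by
    intro l
    refine exists_name (b := (⊤ : RO (Cnd IM))) (P := fun F a =>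
      (∃ y, BVM.Rel (In F) (nm F f) (nm F (x l)) y) →
        BVM.Rel (In F) (nm F f) (nm F (x l)) a) (fun a =>
          (RpP.ex fun _ => RpP.rel _ _ _).imp (RpP.rel _ _ _)) fun F => ?_
    by_cases h : ∃ y, BVM.Rel (In F) (nm F f) (nm F (x l)) y
    · obtain ⟨y, hy⟩ := h
      exact ⟨y, fun _ => hy⟩
    · exact ⟨nm F f, fun h' => absurd h' h⟩
  choose a ha using ha
  obtain ⟨β, -, hβ⟩ := exists_new hΛ a (Classical.arbitrary IM)
  obtain ⟨y, hy⟩ := Fc.name (A := fun F y => In F y (nm F H) ∧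
    BVM.Rel (In F) (nm F f) y (nm F (cN true β))) (fun _ => (RpP.mem _ _).and (RpP.rel _ _ _))
      (q := r) fun F hF => (hf F hF).2 _ ((pow_PwN F _).2 fun z hz => rN_sub hz)
  obtain ⟨s, hs, l, hl⟩ := hH y r hr fun F hF => (hy F hF).1
  refine Fc.false (q := s) fun F hF => ?_
  have h1 := ((hy.mono hs) F hF).2
  have h2 := hl F hF
  beta_reduce at h1 h2
  rw [h2] at h1
  exact hβ true l s F hF (((hf.mono hs) F hF).1 _ _ _ (ha l F ⟨_, h1⟩) h1)

end Pool.Agent.EN45
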