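import Pool.Agent.EN45.Cnt2

/-!
# Closure points (module CLP)
-/

namespace Pool.Agent.EN45

open Set Cardinal
open Pool.Agent.ML45 (IM mk_IM mk_Iio_IM bdd_IM WM mk_WM exists_gt_WM countable_Iic_WM)

/-- module CLP.  Given an index `Ψ p` for each condition, there are arbitrarily large `β` such that
each condition with support in `Iio β` has an equivalent condition `p₀` with support in `Iio β`
and `Ψ p₀ < β`.  Take `p₀ = nrm p`.  The proof is that of `ML45.exists_closure`: by `mk_NC` and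
`bdd_IM` there is for each `α` a bound `φ α` of all `Ψ p`, `p ∈ NC (Iio α)`; `u : WM → IM` is
increasing with `φ (u η) < u ξ` for `η < ξ`, and `β` is the least upper bound.  The support of a
condition with `SuppIn (Iio β) p` may be taken countable (`exists_suppIn`; intersect with
`Iio β`), so it is contained in `Iio (u ξ)` for some `ξ`. -/
theorem exists_closure (Ψ : Cnd IM → IM) (α₀ : IM) : ∃ β, α₀ < β ∧
    (∀ C ⊆ Iio β, C.Countable → ∃ α < β, C ⊆ Iio α) ∧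
      ∀ p : Cnd IM, SuppIn (Iio β) p → Ψ (nrm p) < β := by
  classical
  -- the bound for the conditions below `α`
  have hφ : ∀ α : IM, ∃ b, ∀ p : Cnd IM, SuppIn (Iio α) p → Ψ (nrm p) < b := by
    intro α
    obtain ⟨b, hb⟩ := bdd_IM (mk_NC (mk_Iio_IM α)) fun x : NC (Iio α) => Ψ x.1
    exact ⟨b, fun p hp => hb (toNC p hp)⟩
  choose φ hφ using hφ
  -- one step
  have hstep : ∀ (ξ : WM) (v : ∀ η, η < ξ → IM), ∃ b, α₀ < b ∧
      ∀ η (h : η < ξ), v η h < b ∧ φ (v η h) < b := by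
    intro ξ v
    have h1 : #(Option ({η : WM // η < ξ} ⊕ {η : WM // η < ξ})) ≤ 𝔠 := by
      have h2 : (Iio ξ).Countable := (countable_Iic_WM ξ).mono Iio_subset_Iic_self
      have h3 : Countable {η : WM // η < ξ} := h2.to_subtype
      exact mk_le_aleph0.trans aleph0_le_continuum
    obtain ⟨b, hb⟩ := bdd_IM h1 fun x => match x with
      | none => α₀
      | some (Sum.inl η) => v η.1 η.2
      | some (Sum.inr η) => φ (v η.1 η.2)
    exact ⟨b, hb none, fun η h => ⟨hb (some (Sum.inl ⟨η, h⟩)), hb (some (Sum.inr ⟨η, h⟩))⟩⟩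
  choose stp hstp1 hstp2 using hstep
  let u : WM → IM := (wellFounded_lt (α := WM)).fix fun ξ v => stp ξ v
  have hu : ∀ ξ, u ξ = stp ξ fun η _ => u η := fun ξ => WellFounded.fix_eq _ _ _
  have hu0 : ∀ ξ, α₀ < u ξ := fun ξ => by
    rw [hu]
    exact hstp1 _ _
  have hu1 : ∀ ξ η, η < ξ → u η < u ξ ∧ φ (u η) < u ξ := by
    intro ξ η h
    rw [hu ξ]
    exact hstp2 ξ (fun η _ => u η) η h
  -- the supremum
  have hne : ∃ b, ∀ ξ, u ξ < b := bdd_IM (mk_WM.le.trans aleph_one_le_continuum) u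
  obtain ⟨β, hβ1, hβ2⟩ := (wellFounded_lt (α := IM)).has_min {b | ∀ ξ, u ξ < b} hne
  have hcof : ∀ α < β, ∃ ξ, α ≤ u ξ := by
    intro α hα
    by_contra h
    push Not at h
    exact hβ2 α h hα
  have hbd : ∀ C ⊆ Iio β, C.Countable → ∃ ξ, C ⊆ Iio (u ξ) := by
    intro C hC hCc
    have h1 : ∀ γ : IM, ∃ ξ, γ ∈ C → γ ≤ u ξ := by
      intro γ
      by_cases hγ : γ ∈ C
      · obtain ⟨ξ, hξ⟩ := hcof γ (hC hγ)
        exact ⟨ξ, fun _ => hξ⟩
      · obtain ⟨ξ, _⟩ := exists_gt_WM (countable_empty (α := WM))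
        exact ⟨ξ, fun h => absurd h hγ⟩
    choose r hr using h1
    obtain ⟨ξ, hξ⟩ := exists_gt_WM (hCc.image r)
    refine ⟨ξ, fun γ hγ => ?_⟩
    exact (hr γ hγ).trans_lt (hu1 ξ (r γ) (hξ _ ⟨γ, hγ, rfl⟩)).1
  refine ⟨β, ?_, ?_, ?_⟩
  · obtain ⟨ξ, _⟩ := exists_gt_WM (countable_empty (α := WM))
    exact (hu0 ξ).trans (hβ1 ξ)
  · intro C hC hCc
    obtain ⟨ξ, hξ⟩ := hbd C hC hCc
    exact ⟨u ξ, hβ1 ξ, hξ⟩
  · intro p hp
    obtain ⟨C, hC1, hC2⟩ := exists_suppIn p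
    obtain ⟨ξ, hξ⟩ := hbd (C ∩ Iio β) inter_subset_right (hC1.mono inter_subset_left)
    have h2 : SuppIn (Iio (u ξ)) p := by
      intro γ hγ
      by_cases h3 : γ ∈ C
      · exact hp γ fun h4 => hγ (hξ ⟨h3, h4⟩)
      · exact hC2 γ h3
    obtain ⟨ξ', hξ'⟩ := exists_gt_WM (countable_singleton ξ)
    exact ((hφ (u ξ) p h2).trans (hu1 ξ' ξ (hξ' ξ rfl)).2).trans (hβ1 ξ')

end Pool.Agent.EN45
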