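import Pool.Agent.EN45.Jop

/-!
# Maps given by prefixes (module DPX)
-/

namespace Pool.Agent.EN45

open Set

/-- the first `l'` entries of `p`, followed by the entries of `x` from the place `l` on -/
def dpx (l l' : ℕ) (p x : X) : X :=
  ⟨fun i => if i < l' then p.1 i else x.1 (i - (l' - l)), fun i => by
    beta_reduce; split_ifs; exacts [p.2 i, (x.2 _).mono (Nat.sub_le _ _)]⟩

theorem dpx_lt {l l' i : ℕ} (p x : X) (h : i < l') : (dpx l l' p x).1 i = p.1 i := if_pos h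

theorem dpx_ge {l l' i : ℕ} (p x : X) (h : l' ≤ i) :
    (dpx l l' p x).1 i = x.1 (i - (l' - l)) := if_neg (not_lt.2 h)

theorem dpx_add {l l' n : ℕ} (hl : l ≤ l') (p x : X) (h : l ≤ n) :
    (dpx l l' p x).1 (n + (l' - l)) = x.1 n := by
  rw [dpx_ge _ _ (by omega), show n + (l' - l) - (l' - l) = n by omega]

theorem dpx_eqn_left {l l' : ℕ} (p x : X) : Eqn l' (dpx l l' p x) p := fun _ hi => dpx_lt p x hi

theorem dpx_eqn {l l' n : ℕ} (hl : l ≤ l') {p p' x x' : X} (hp : Eqn l' p p')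
    (hx : Eqn n x x') : Eqn (n + (l' - l)) (dpx l l' p x) (dpx l l' p' x') := by
  intro i hi
  by_cases h : i < l'
  · rw [dpx_lt _ _ h, dpx_lt _ _ h, hp i h]
  · rw [not_lt] at h
    rw [dpx_ge _ _ h, dpx_ge _ _ h]
    exact hx _ (by omega)

theorem dpx_eqn' {l l' n : ℕ} {p p' x x' : X} (hp : Eqn l' p p')
    (hx : Eqn n x x') : Eqn n (dpx l l' p x) (dpx l l' p' x') := by
  intro i hi
  by_cases h : i < l'
  · rw [dpx_lt _ _ h, dpx_lt _ _ h, hp i h]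
  · rw [not_lt] at h
    rw [dpx_ge _ _ h, dpx_ge _ _ h]
    exact hx _ (by omega)

theorem dpx_self {l : ℕ} (p x : X) : dpx l l p x = spl l p x := X.ext fun i => by
  by_cases h : i < l
  · rw [dpx_lt _ _ h, spl_lt _ _ h]
  · rw [not_lt] at h
    rw [dpx_ge _ _ h, spl_ge _ _ h, Nat.sub_self, Nat.sub_zero]

theorem dpx_zero (p x : X) : dpx 0 0 p x = x := X.ext fun i => by
  rw [dpx_ge _ _ (Nat.zero_le i)]
  simp

variable {I : Type*} [LinearOrder I]

/-- module DPX: maps given by prefixes `p z δ`, which replace the first `l δ` entries of `z δ` by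
the first `l' δ` entries of `p z δ`.
`low`: `dpx_eqn'` for all `n` (`eq_of_eqn`), as `hlow` gives `Eqn (l' γ)` for the prefixes.
`uc γ n`: `(T ∪ {γ}, max m n)` with `(T, m)` from `huc`; `dpx_eqn'`.
`emb γ n`: if `n < l γ`, take the `m`, `d` of `hemb` (and the bound `M = l' γ`); at the places
`≤ m < l' γ` the value is that of the prefix.  If `l γ ≤ n`, take `m = n + (l' γ - l γ)` and
`d = id` (`dpx_eqn`, `dpx_add`; the prefixes agree by `hlow`; `Emb.id`).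
`supp`: the set `C ∪ {δ | l' δ ≠ 0}`; for `γ` outside, `l' γ = l γ = 0` and the value is `z γ` by
`dpx_zero`. -/
theorem OnB.dpx {t : Bx I} {l l' : I → ℕ} (hl : ∀ δ, l δ ≤ l' δ) (hfin : {δ | l' δ ≠ 0}.Finite)
    (ht : ∀ δ, l' δ = 0 → t.lv δ = 0) {p : (I → X) → I → X}
    (hlow : ∀ δ, ∀ z ∈ t, ∀ z' ∈ t, (∀ ε < δ, z ε = z' ε) → Eqn (l δ) (z δ) (z' δ) →
      Eqn (l' δ) (p z δ) (p z' δ))
    (huc : ∀ δ, ∃ (T : Finset I) (m : ℕ), ∀ z ∈ t, ∀ z' ∈ t, Agr T m z z' →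
      Eqn (l' δ) (p z δ) (p z' δ))
    (hemb : ∀ δ n, t.lv δ ≤ n → n < l δ → ∀ z ∈ t, ∃ m, n ≤ m ∧ m < l' δ ∧ ∃ d, Emb n m d ∧
      ∀ z' ∈ t, (∀ ε < δ, z' ε = z ε) → Eqn n (z' δ) (z δ) →
        Eqn m (p z' δ) (p z δ) ∧ (p z' δ).1 m = d ((z' δ).1 n))
    (hsupp : ∃ C : Set I, C.Countable ∧ ∀ z ∈ t, ∀ z' ∈ t, (∀ δ ∈ C, z δ = z' δ) →
      ∀ γ, Eqn (l' γ) (p z γ) (p z' γ)) :
    OnB t fun z δ => dpx (l δ) (l' δ) (p z δ) (z δ) where
  low γ z hz z' hz' hzz' := by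
    have h1 := hzz' γ le_rfl
    have h2 := hlow γ z hz z' hz' (fun ε hε => hzz' ε hε.le) (by rw [h1]; exact Eqn.refl _ _)
    refine eq_of_eqn fun n => dpx_eqn' h2 ?_
    rw [h1]
    exact Eqn.refl _ _
  uc γ n := by
    classical
    obtain ⟨T, m, h1⟩ := huc γ
    refine ⟨T ∪ {γ}, max m n, fun z hz z' hz' h2 => dpx_eqn' ?_ ?_⟩
    · exact h1 z hz z' hz' (h2.mono Finset.subset_union_left (le_max_left _ _))
    · exact (h2 γ (Finset.mem_union_right _ (Finset.mem_singleton_self γ))).mono (le_max_right _ _)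
  emb γ n hn := by
    by_cases hlt : n < l γ
    · refine ⟨l' γ, fun z hz => ?_⟩
      obtain ⟨m, h1, h2, d, h3, h4⟩ := hemb γ n hn hlt z hz
      refine ⟨m, h1, h2.le, d, h3, fun z' hz' hb he => ?_⟩
      obtain ⟨h5, h6⟩ := h4 z' hz' hb he
      refine ⟨fun i hi => ?_, ?_⟩
      · rw [dpx_lt _ _ (hi.trans h2), dpx_lt _ _ (hi.trans h2)]
        exact h5 i hi
      · rw [dpx_lt _ _ h2]
        exact h6
    · rw [not_lt] at hlt
      refine ⟨n + (l' γ - l γ), fun z hz => ⟨n + (l' γ - l γ), by omega, le_rfl, _root_.id,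
        Emb.id (by omega), fun z' hz' hb he => ?_⟩⟩
      have h1 := hlow γ z' hz' z hz hb (he.mono hlt)
      refine ⟨dpx_eqn (hl γ) h1 he, ?_⟩
      exact dpx_add (hl γ) _ _ hlt
  supp := by
    obtain ⟨C, hC, h1⟩ := hsupp
    refine ⟨C ∪ {δ | l' δ ≠ 0}, hC.union hfin.countable, fun γ hγ => ?_,
      fun γ hγ z hz z' hz' h2 => ?_⟩
    · rw [mem_union, not_or] at hγ
      have h2 : l' γ = 0 := not_not.1 hγ.2
      have h3 : l γ = 0 := by have := hl γ; omega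
      refine ⟨ht γ h2, fun z _ => ?_⟩
      rw [h2, h3]
      exact dpx_zero _ _
    · have h3 := h1 z hz z' hz' (fun δ hδ => h2 δ (Or.inl hδ)) γ
      have h4 := h2 γ hγ
      refine eq_of_eqn fun n => dpx_eqn' h3 ?_
      rw [h4]
      exact Eqn.refl _ _

/-! ### deepening -/

/-- the map of `u` into `v` which prolongs the nodes of `u` to those of `v` -/
def dp (u v : Bx I) (z : I → X) : I → X := fun δ => dpx (u.lv δ) (v.lv δ) (v.pt δ) (z δ)

omit [LinearOrder I] in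
theorem dp_mem (u v : Bx I) (z : I → X) : dp u v z ∈ v := fun _ => dpx_eqn_left _ _

/-- module DPN: `OnB.dpx` with `l = u.lv`, `l' = v.lv` and the constant prefixes `v.pt` -/
theorem onB_dp {u v : Bx I} (h : ∀ δ, u.lv δ ≤ v.lv δ) : OnB u (dp u v) :=
  OnB.dpx (t := u) (l := u.lv) (l' := v.lv) (p := fun _ δ => v.pt δ) h v.fin
    (fun δ h0 => Nat.le_zero.1 (h0 ▸ h δ))
    (fun _ _ _ _ _ _ _ => Eqn.refl _ _) (fun _ => ⟨∅, 0, fun _ _ _ _ _ => Eqn.refl _ _⟩)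
    (fun _ _ h1 h2 => absurd h2 (not_lt.2 h1))
    ⟨∅, countable_empty, fun _ _ _ _ _ _ => Eqn.refl _ _⟩

omit [LinearOrder I] in
theorem act_dp {u v : Bx I} (hs : Sub v u) {γ : I} (h : v.lv γ = u.lv γ) {z : I → X}
    (hz : z ∈ u) : dp u v z γ = z γ := by
  rw [dp, h, dpx_self]
  refine spl_self ?_
  exact ((hs.2 v.pt v.pt_mem) γ).trans (hz γ).symm

end Pool.Agent.EN45
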