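import Pool.Agent.EN45.Evt
import Pool.Agent.EN45.Dpx
import Pool.Agent.IN45.Names

/-!
# The conditions
-/

namespace Pool.Agent.EN45

open Classical Set Pool.Agent Pool.Agent.LadderTree Pool.Agent.Forcing Pool.Agent.MAx
open Pool.Agent.BVM (BSet UF eqv memv chk Congr le_of_uf Disc OPair FunOn op on onT)
open Pool.Agent.OG45 Pool.Agent.IN45

/-- the conditions: a box and an admissible map of the box -/
structure Cnd (I : Type) [LinearOrder I] where
  /-- the box -/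
  t : Bx I
  /-- the map -/
  f : (I → X) → I → X
  onb : OnB t f

variable {I : Type} [LinearOrder I]

/-- `q` is stronger than `p`, by means of the map `K` -/
structure Via (q p : Cnd I) (K : (I → X) → I → X) : Prop where
  mp : Mp q.t p.t K
  eq : ∀ z ∈ q.t, q.f z = p.f (K z)

theorem Via.refl (p : Cnd I) : Via p p fun z => z := ⟨Mp.id (Sub.refl _), fun _ _ => rfl⟩

theorem Via.trans {r q p : Cnd I} {K L : (I → X) → I → X} (h : Via q p K) (h' : Via r q L) :
    Via r p fun z => K (L z) :=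
  ⟨h.mp.comp h'.mp, fun z hz => by rw [h'.eq z hz, h.eq _ (h'.mp.maps z hz)]⟩

noncomputable instance : Preorder (Cnd I) where
  le q p := ∃ K, Via q p K
  le_refl p := ⟨_, Via.refl p⟩
  le_trans r q p := by
    rintro ⟨L, hL⟩ ⟨K, hK⟩
    exact ⟨_, hK.trans hL⟩

theorem Via.le {q p : Cnd I} {K : (I → X) → I → X} (h : Via q p K) : q ≤ p := ⟨K, h⟩

/-- the largest condition -/
noncomputable def tp : Cnd I := ⟨topB, fun z => z, OnB.id _⟩

theorem via_tp (p : Cnd I) : Via p tp p.f := ⟨⟨p.onb, fun _ _ => mem_topB _⟩, fun _ _ => rfl⟩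

noncomputable instance : Inhabited (Cnd I) := ⟨tp⟩

/-- the condition given by a map into the box of `p` -/
noncomputable def Cnd.app (p : Cnd I) {u : Bx I} {K : (I → X) → I → X} (hK : Mp u p.t K) :
    Cnd I := ⟨u, fun z => p.f (K z), p.onb.comp hK.onb hK.maps⟩

theorem via_app (p : Cnd I) {u : Bx I} {K : (I → X) → I → X} (hK : Mp u p.t K) :
    Via (p.app hK) p K := ⟨hK, fun _ _ => rfl⟩

/-- the restriction of `p` to a smaller box -/
noncomputable def Cnd.res (p : Cnd I) {u : Bx I} (h : Sub u p.t) : Cnd I :=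
  ⟨u, p.f, p.onb.mono h⟩

theorem via_res (p : Cnd I) {u : Bx I} (h : Sub u p.t) : Via (p.res h) p fun z => z :=
  ⟨Mp.id h, fun _ _ => rfl⟩

theorem res_t (p : Cnd I) {u : Bx I} (h : Sub u p.t) : (p.res h).t = u := rfl

theorem res_f (p : Cnd I) {u : Bx I} (h : Sub u p.t) : (p.res h).f = p.f := rfl

/-- admissible maps are injective -/
theorem OnB.inj [WellFoundedLT I] {t : Bx I} {f : (I → X) → I → X} (h : OnB t f) {z z' : I → X}
    (hz : z ∈ t) (hz' : z' ∈ t) (he : f z = f z') : z = z' := by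
  funext γ
  induction γ using WellFoundedLT.induction with
  | ind γ ih =>
    by_contra hne
    obtain ⟨n, h1, h2⟩ := exists_diff fun h => hne h.symm
    obtain ⟨m, d, -, -, -, -, -, h3⟩ := h.split hz hz' (fun δ hδ => (ih δ hδ).symm) h1 h2
    exact h3 (by rw [he])

theorem Via.unique [WellFoundedLT I] {q p : Cnd I} {K K' : (I → X) → I → X} (h : Via q p K)
    (h' : Via q p K') {z : I → X} (hz : z ∈ q.t) : K z = K' z :=
  p.onb.inj (h.mp.maps z hz) (h'.mp.maps z hz) (by rw [← h.eq z hz, ← h'.eq z hz])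

/-! ### Boolean values -/

/-- the value of a property of the generic point of the box of `p` -/
noncomputable def rb (p : Cnd I) (φ : (I → X) → Prop) : RO (Cnd I) :=
  below {q | ∃ K, Via q p K ∧ ∀ z ∈ q.t, φ (K z)}

theorem forc_rb {p q : Cnd I} {K : (I → X) → I → X} (h : Via q p K) {φ : (I → X) → Prop}
    (hφ : ∀ z ∈ q.t, φ (K z)) : Forc q (rb p φ) :=
  forc_below.2 fun r hr => ⟨r, le_rfl, q, ⟨K, h, hφ⟩, hr⟩

theorem forc_rb_compl [WellFoundedLT I] {p q : Cnd I} {K : (I → X) → I → X} (h : Via q p K)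
    {φ : (I → X) → Prop} (hφ : ∀ z ∈ q.t, ¬ φ (K z)) : Forc q (rb p φ)ᶜ := by
  rw [forc_compl]
  rintro r ⟨L, hL⟩ h1
  obtain ⟨s, ⟨M, hM⟩, s', ⟨K', hK', hφ'⟩, ⟨M', hM'⟩⟩ := forc_below.1 h1 r le_rfl
  have h2 := (h.trans (hL.trans hM)).unique (hK'.trans hM') s.t.pt_mem
  refine hφ _ ((hL.trans hM).mp.maps _ s.t.pt_mem) ?_
  rw [h2]
  exact hφ' _ (hM'.mp.maps _ s.t.pt_mem)

/-- if the value of `φ` is forced then `φ` holds in a smaller box; here `φ` is determined by
finitely many entries -/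
theorem rb_mono {p : Cnd I} {φ ψ : (I → X) → Prop} (h : ∀ z ∈ p.t, φ z → ψ z) :
    rb p φ ≤ rb p ψ := by
  rw [forc_le_iff]
  intro q hq
  rw [rb, forc_below] at hq ⊢
  intro r hr
  obtain ⟨s, hs, s', ⟨K, hK, hφ⟩, hs'⟩ := hq r hr
  exact ⟨s, hs, s', ⟨K, hK, fun z hz => h _ (hK.mp.maps z hz) (hφ z hz)⟩, hs'⟩

/-! ### small boxes -/

omit [LinearOrder I] in
/-- a small box around a point -/
theorem exists_small {Y : Type*} {t : Bx I} {g : (I → X) → ℕ → Y} (hg : CtsOn t g) (N : ℕ)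
    {z₀ : I → X} (hz : z₀ ∈ t) : ∃ u, Sub u t ∧ z₀ ∈ u ∧ ∀ z ∈ u, ∀ i < N, g z i = g z₀ i := by
  obtain ⟨lam, h1, h2, h3⟩ := hg.exists_lam N t.fin
  exact ⟨bx lam h1 z₀, sub_bx h2 hz, fun _ => Eqn.refl _ _, fun z hz' i hi =>
    h3 z ((sub_bx h2 hz).2 z hz') z₀ hz hz' i hi⟩

/-- a small box around a point on which the value of an admissible map is in a given box -/
theorem exists_small' {t : Bx I} {K : (I → X) → I → X} (hK : OnB t K) {m : I → ℕ}
    (hm : {δ | m δ ≠ 0}.Finite) {z₀ : I → X} (hz : z₀ ∈ t) :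
    ∃ u, Sub u t ∧ z₀ ∈ u ∧ ∀ z ∈ u, ∀ δ, Eqn (m δ) (K z δ) (K z₀ δ) := by
  choose T k h using fun δ => hK.uc δ (m δ)
  let T' : Finset I := hm.toFinset.biUnion T
  let k' : ℕ := hm.toFinset.sup k
  have hfin : {δ | (fun δ => max (t.lv δ) (if δ ∈ T' then k' else 0)) δ ≠ 0}.Finite := by
    refine (t.fin.union T'.finite_toSet).subset fun δ hδ => ?_
    by_contra h2
    rw [mem_union, not_or] at h2
    refine hδ ?_
    have h3 : t.lv δ = 0 := not_not.1 h2.1
    have h4 : δ ∉ T' := h2.2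
    simp [h3, h4]
  refine ⟨bx _ hfin z₀, sub_bx (fun δ => le_max_left _ _) hz, fun _ => Eqn.refl _ _,
    fun z hz' δ => ?_⟩
  by_cases hδ : m δ = 0
  · rw [hδ]; exact eqn_zero _ _
  · have hδ' : δ ∈ hm.toFinset := hm.mem_toFinset.2 hδ
    refine h δ z ((sub_bx (fun δ => le_max_left _ _) hz).2 z hz') z₀ hz fun ε hε => ?_
    refine (hz' ε).mono ?_
    show k δ ≤ max (t.lv ε) (if ε ∈ T' then k' else 0)
    rw [if_pos (Finset.mem_biUnion.2 ⟨δ, hδ', hε⟩)]
    exact (Finset.le_sup (f := k) hδ').trans (le_max_right _ _)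

/-- below `q ≤ p` finitely many entries of `g` are decided -/
theorem exists_decided {Y : Type*} {q p : Cnd I} {K : (I → X) → I → X} (h : Via q p K)
    {g : (I → X) → ℕ → Y} (hg : CtsOn p.t g) (N : ℕ) {z₀ : I → X} (hz : z₀ ∈ q.t) :
    ∃ (u : Bx I) (hu : Sub u q.t), z₀ ∈ u ∧ Via (q.res hu) p K ∧ q.res hu ≤ q ∧
      ∀ z ∈ u, ∀ i < N, g (K z) i = g (K z₀) i := by
  obtain ⟨u, hu, h1, h2⟩ := exists_small (hg.comp h.mp) N hz
  exact ⟨u, hu, h1, h.trans (via_res q hu), (via_res q hu).le, h2⟩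

/-! ### names of sets of natural numbers -/

/-- the name of the set of all `n` such that the entry `g z n` is `true` at the generic point of
the box of `p` -/
noncomputable def rN (p : Cnd I) (g : (I → X) → ℕ → Bool) : BSet (RO (Cnd I)) :=
  MAx.sN fun n => rb p fun z => g z n = true

theorem rN_sub {p : Cnd I} {g : (I → X) → ℕ → Bool} {F : GG (Cnd I)} {x : Md F}
    (h : In F x (nm F (rN p g))) : In F x (nm F (onT ℕ)) := MAx.sN_sub h

theorem rN_pos {p q : Cnd I} {K : (I → X) → I → X} (h : Via q p K) {g : (I → X) → ℕ → Bool}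
    {n : ℕ} (hg : ∀ z ∈ q.t, g (K z) n = true) :
    Fc q fun F => In F (nm F (on n)) (nm F (rN p g)) := by
  intro F hF
  rw [rN, MAx.In_sN]
  exact F.1.mono (pt_le_iff.2 (forc_rb h hg)) hF

theorem rN_neg [WellFoundedLT I] {p q : Cnd I} {K : (I → X) → I → X} (h : Via q p K)
    {g : (I → X) → ℕ → Bool} {n : ℕ} (hg : ∀ z ∈ q.t, g (K z) n = false) :
    Fc q fun F => ¬ In F (nm F (on n)) (nm F (rN p g)) := by
  intro F hF
  rw [rN, MAx.In_sN, ← F.1.compl_iff]
  exact F.1.mono (pt_le_iff.2 (forc_rb_compl h fun z hz => by rw [hg z hz]; simp)) hF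

theorem rN_iff [WellFoundedLT I] {p q : Cnd I} {K : (I → X) → I → X} (h : Via q p K)
    {g : (I → X) → ℕ → Bool} {n : ℕ} {b : Bool} (hg : ∀ z ∈ q.t, g (K z) n = b) :
    Fc q fun F => (In F (nm F (on n)) (nm F (rN p g)) ↔ b = true) := by
  cases b
  · exact fun F hF => iff_of_false (rN_neg h hg F hF) (by simp)
  · exact fun F hF => iff_of_true (rN_pos h hg F hF) rfl

/-! ### reading -/

/-- the continuous function `g` reads the statements `S n x` below `p` -/
structure Rd {Y : Type} (p : Cnd I) (g : (I → X) → ℕ → Y) (S : ℕ → Y → GG (Cnd I) → Prop) :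
    Prop where
  cts : CtsOn p.t g
  reads : ∀ q K, Via q p K → ∀ n x, (∀ z ∈ q.t, g (K z) n = x) → Fc q (S n x)

theorem Rd.comp {Y : Type} {q p : Cnd I} {K : (I → X) → I → X} (hK : Via q p K)
    {g : (I → X) → ℕ → Y} {S : ℕ → Y → GG (Cnd I) → Prop} (h : Rd p g S) :
    Rd q (fun z => g (K z)) S :=
  ⟨h.cts.comp hK.mp, fun r L hL n x hx => h.reads r _ (hK.trans hL) n x hx⟩

/-- the statement that `n` is in the set named by `a` iff `b = true` -/
def SB (a : BSet (RO (Cnd I))) (n : ℕ) (b : Bool) (F : GG (Cnd I)) : Prop :=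
  In F (nm F (on n)) (nm F a) ↔ b = true

theorem rpSB (a : BSet (RO (Cnd I))) (n : ℕ) (b : Bool) : RpP (SB a n b) :=
  (RpP.mem _ _).iff (RpP.const _)

theorem rd_rN [WellFoundedLT I] {p : Cnd I} {g : (I → X) → ℕ → Bool} (hg : CtsOn p.t g) :
    Rd p g (SB (rN p g)) := ⟨hg, fun _ _ hK _ _ hx => rN_iff hK hx⟩

/-! ### supports -/

/-- the condition `p` is trivial outside of `D` -/
def SuppIn (D : Set I) (p : Cnd I) : Prop := ∀ γ ∉ D, p.t.lv γ = 0 ∧ ∀ z ∈ p.t, p.f z γ = z γ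

theorem SuppIn.mono {D D' : Set I} {p : Cnd I} (h : SuppIn D p) (hD : D ⊆ D') : SuppIn D' p :=
  fun γ hγ => h γ fun h' => hγ (hD h')

theorem exists_suppIn (p : Cnd I) : ∃ C : Set I, C.Countable ∧ SuppIn C p := by
  obtain ⟨C, hC, h1, -⟩ := p.onb.supp
  exact ⟨C, hC, h1⟩

end Pool.Agent.EN45
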