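import Pool.Agent.EN45.Nrm
import Pool.Agent.MAx.Book
import Pool.Agent.ML45.Clo
import Pool.Agent.ML45.Crd

/-!
# Counting (module CNT)

Compare `Pool/Agent/ML45/Crd.lean`, where the lemmas `helper23_exists_enum`, `helper23_mk_seq`,
`helper23_mk_option`, `helper23_mk_set`, `helper23_mk_prod` can be used.
-/

namespace Pool.Agent.EN45

open Set Cardinal
open Pool.Agent.ML45 (IM mk_IM mk_Iio_IM bdd_IM)

variable {I : Type} [LinearOrder I]

/-- the continuous functions which depend on countably many coordinates below `α` -/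
def CG (D : Set I) (Y : Type) : Type :=
  {g : (I → X) → ℕ → Y // CtsOn topB g ∧ ∃ C ⊆ D, C.Countable ∧ Dep C topB g}

/-- the second part of the code of a continuous function -/
def mkCGcode {α : I} {Y : Type} (c : ℕ → Option (Iio α)) (g : (I → X) → ℕ → Y) :
    Set (List (ℕ × ℕ × ℕ × ℕ) × ℕ × Y) :=
  {lx | ∀ z : I → X, (∀ q ∈ lx.1, ∀ γ, c q.1 = some γ → (z γ.1).1 q.2.1 = q.2.2) →
    g z lx.2.1 = lx.2.2}

theorem mkCGcode_inj {α : I} {Y : Type} {c : ℕ → Option (Iio α)} {C : Set I} (hα : C ⊆ Iio α)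
    (hc : ∀ γ (h : γ ∈ C), ∃ j, c j = some ⟨γ, hα h⟩) {g g' : (I → X) → ℕ → Y}
    (hg : CtsOn topB g) (hC : Dep C topB g) (h : mkCGcode c g = mkCGcode c g') : g = g' := by
  classical
  funext z n
  obtain ⟨T, m, hT⟩ := hg n
  have h1 : ∀ γ : I, ∃ j, γ ∈ C → ∃ h : γ ∈ C, c j = some ⟨γ, hα h⟩ := by
    intro γ
    by_cases hγ : γ ∈ C
    · obtain ⟨j, hj⟩ := hc γ hγ
      exact ⟨j, fun _ => ⟨hγ, hj⟩⟩
    · exact ⟨0, fun h => absurd h hγ⟩
  choose j hj using h1
  let l : List (ℕ × ℕ × ℕ × ℕ) := (T.filter (· ∈ C)).toList.flatMap fun γ =>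
    (List.range m).map fun i => (j γ, i, (z γ).1 i)
  have hl : ∀ δ ∈ T, δ ∈ C → ∀ i < m, (j δ, i, (z δ).1 i) ∈ l := by
    intro δ hδ hδC i hi
    refine List.mem_flatMap.2 ⟨δ, Finset.mem_toList.2 (Finset.mem_filter.2 ⟨hδ, hδC⟩), ?_⟩
    exact List.mem_map.2 ⟨i, List.mem_range.2 hi, rfl⟩
  have h2 : (l, n, g z n) ∈ mkCGcode c g := by
    intro z' hz'
    let z'' : I → X := fun δ => if δ ∈ C then z' δ else z δ
    have e : g z' = g z'' := hC z' (mem_topB _) z'' (mem_topB _) fun δ hδ => (if_pos hδ).symm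
    change g z' n = g z n
    rw [e]
    refine hT z'' (mem_topB _) z (mem_topB _) fun δ hδ i hi => ?_
    by_cases h4 : δ ∈ C
    · rw [show z'' δ = z' δ from if_pos h4]
      obtain ⟨h5, h6⟩ := hj δ h4
      exact hz' (j δ, i, (z δ).1 i) (hl δ hδ h4 i hi) _ h6
    · rw [show z'' δ = z δ from if_neg h4]
  rw [h] at h2
  have h3 := h2 z fun q hq γ hγ => by
    obtain ⟨δ, hδ, hq'⟩ := List.mem_flatMap.1 hq
    obtain ⟨i, _, rfl⟩ := List.mem_map.1 hq'
    have h5 := (Finset.mem_filter.1 (Finset.mem_toList.1 hδ)).2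
    obtain ⟨h6, h7⟩ := hj δ h5
    change c (j δ) = some γ at hγ
    rw [h7, Option.some.injEq] at hγ
    rw [← hγ]
  exact h3.symm

/-- module CNT: there are at most continuum many continuous functions with countable
support below `α`.
Code `g` by an enumeration `c : ℕ → Option (Iio α)` of `C` (`ML45.helper23_exists_enum`) and the
set of all `(l, n, y)`, `l : List (ℕ × ℕ × ℕ × ℕ)`, such that `g z n = y` for all `z` such that
`(z γ).1 i = (a, b)` whenever `(j, i, a, b) ∈ l` and `c j = some γ`.  The code determines `g`, as in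
`ML45.mk_CF`: given `z` and `n`, by `CtsOn` the value `g z n` depends on finitely many entries at
coordinates in a finite set `T`, and only those at coordinates in `T ∩ C` matter. -/
theorem mk_CG {α : I} (hα : #(Iio α) ≤ 𝔠) {Y : Type} [Countable Y] :
    #(CG (Iio α) Y) ≤ 𝔠 := by
  classical
  have h1 : ∀ g : CG (Iio α) Y, ∃ (C : Set I) (hC : C ⊆ Iio α) (c : ℕ → Option (Iio α)),
      Dep C topB g.1 ∧ ∀ γ (h : γ ∈ C), ∃ j, c j = some ⟨γ, hC h⟩ := by
    intro g
    obtain ⟨C, hC, h2, h3⟩ := g.2.2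
    obtain ⟨c, hc⟩ := ML45.helper23_exists_enum h2 hC
    exact ⟨C, hC, c, h3, hc⟩
  choose C hC c h2 h3 using h1
  have hinj : Function.Injective
      (fun g : CG (Iio α) Y => (c g, mkCGcode (c g) g.1) : CG (Iio α) Y →
        (ℕ → Option (Iio α)) × Set (List (ℕ × ℕ × ℕ × ℕ) × ℕ × Y)) := by
    intro g g' h
    have h4 : c g = c g' := (Prod.ext_iff.1 h).1
    have h5 : mkCGcode (c g) g.1 = mkCGcode (c g') g'.1 := (Prod.ext_iff.1 h).2
    rw [← h4] at h5
    exact Subtype.ext (mkCGcode_inj (hC g) (h3 g) g.2.1 (h2 g) h5)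
  exact (mk_le_of_injective hinj).trans
    (ML45.helper23_mk_prod (ML45.helper23_mk_seq (ML45.helper23_mk_option hα))
      (ML45.helper23_mk_set _))

end Pool.Agent.EN45
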