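import Pool.Agent.EN45.Cnt

/-!
# Counting conditions (module CN2)

Compare `Pool/Agent/ML45/Crd.lean`, where the lemmas `helper23_exists_enum`, `helper23_mk_seq`,
`helper23_mk_option`, `helper23_mk_set`, `helper23_mk_prod` can be used.
-/

namespace Pool.Agent.EN45

open Set Cardinal
open Pool.Agent.ML45 (IM mk_IM mk_Iio_IM bdd_IM)

variable {I : Type} [LinearOrder I]

omit [LinearOrder I] in
theorem Cnt2_agr_proj {t : Bx I} {T : Finset I} {m : ℕ} {z z' : I → X} (h : Agr T m z z') :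
    Agr T m (proj t z) (proj t z') := by
  intro δ hδ i hi
  show (spl (t.lv δ) (t.pt δ) (z δ)).1 i = (spl (t.lv δ) (t.pt δ) (z' δ)).1 i
  by_cases h1 : i < t.lv δ
  · rw [spl_lt _ _ h1, spl_lt _ _ h1]
  · rw [spl_ge _ _ (not_lt.1 h1), spl_ge _ _ (not_lt.1 h1)]
    exact h δ hδ i hi

theorem Cnt2_f_proj {p : Cnd I} (hp : nrm p = p) (z : I → X) : p.f z = p.f (proj p.t z) := by
  have h2 : (nrm p).f z = p.f (proj p.t z) := rfl
  rw [hp] at h2
  exact h2

theorem Cnt2_pt {p : Cnd I} (hp : nrm p = p) {γ : I} (h : p.t.lv γ = 0) : p.t.pt γ = x0 := by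
  have h2 : (nrm p).t.pt γ = spl (p.t.lv γ) (p.t.pt γ) x0 := rfl
  rw [hp, h] at h2
  rw [h2]
  exact spl_self (eqn_zero _ _)

theorem Cnt2_cts {p : Cnd I} (hp : nrm p = p) (γ : I) :
    CtsOn topB fun z : I → X => (p.f z γ).1 := by
  intro n
  obtain ⟨T, m, h⟩ := p.onb.uc γ (n + 1)
  refine ⟨T, m, fun z _ z' _ hz => ?_⟩
  show (p.f z γ).1 n = (p.f z' γ).1 n
  rw [Cnt2_f_proj hp z, Cnt2_f_proj hp z']
  exact h _ (proj_mem _ _) _ (proj_mem _ _) (Cnt2_agr_proj hz) n (Nat.lt_succ_self n)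

theorem Cnt2_exists_C {α : I} {p : Cnd I} (hp : nrm p = p) (hs : SuppIn (Iio α) p) :
    ∃ C ⊆ Iio α, C.Countable ∧ SuppIn C p ∧
      ∀ γ, Dep (insert γ C) topB fun z : I → X => (p.f z γ).1 := by
  classical
  obtain ⟨C, hC, h1, h2⟩ := p.onb.supp
  have hS : SuppIn (C ∩ Iio α) p := by
    intro γ hγ
    by_cases h3 : γ ∈ C
    · exact hs γ fun h4 => hγ ⟨h3, h4⟩
    · exact h1 γ h3
  refine ⟨C ∩ Iio α, inter_subset_right, hC.mono inter_subset_left, hS, fun γ z _ z' _ hz => ?_⟩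
  show (p.f z γ).1 = (p.f z' γ).1
  by_cases h3 : γ ∈ C ∩ Iio α
  · have h4 : p.f (proj p.t z) γ = p.f (proj p.t z') γ := by
      obtain ⟨w, hw⟩ : ∃ w : I → X, w = fun δ => if δ ≤ γ then proj p.t z δ else proj p.t z' δ :=
        ⟨_, rfl⟩
      have hwt : w ∈ p.t := by rw [hw]; exact ite_mem (proj_mem _ _) (proj_mem _ _) _
      have e1 : p.f (proj p.t z) γ = p.f w γ :=
        p.onb.low γ _ (proj_mem _ _) w hwt fun δ hδ => by rw [hw]; exact (if_pos hδ).symm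
      rw [e1]
      refine h2 γ h3.1 w hwt _ (proj_mem _ _) fun δ hδ => ?_
      rw [hw]
      show (if δ ≤ γ then proj p.t z δ else proj p.t z' δ) = proj p.t z' δ
      split_ifs with h5
      · have h6 : z δ = z' δ := hz δ (mem_insert_of_mem _ ⟨hδ, h5.trans_lt h3.2⟩)
        show spl (p.t.lv δ) (p.t.pt δ) (z δ) = spl (p.t.lv δ) (p.t.pt δ) (z' δ)
        rw [h6]
      · rfl
    rw [Cnt2_f_proj hp z, Cnt2_f_proj hp z', h4]
  · rw [NC.out hp hS h3, NC.out hp hS h3, hz γ (mem_insert _ _)]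

theorem Cnt2_ext {p q : Cnd I} (h1 : ∀ γ, p.t.lv γ = q.t.lv γ) (h2 : ∀ γ, p.t.pt γ = q.t.pt γ)
    (h3 : ∀ z γ, p.f z γ = q.f z γ) : p = q := by
  obtain ⟨⟨pt, lv, fin⟩, f, hf⟩ := p
  obtain ⟨⟨pt', lv', fin'⟩, f', hf'⟩ := q
  obtain rfl : lv = lv' := funext h1
  obtain rfl : pt = pt' := funext h2
  obtain rfl : f = f' := funext fun z => funext fun γ => h3 z γ
  rfl

/-- module CN2: the conditions in normal form.
Choose for each `p` a countable set `C ⊆ Iio α` as in `p.1.onb.supp` (intersect with `Iio α`; then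
`p.1.f z γ = z γ` for all `z` and `γ ∉ C`, by `NC.out`, and for `γ ∈ C` the value `p.1.f z γ` depends on
the coordinates in `C`, because `p.1.f z = p.1.f (proj p.1.t z)` and by `low`) and an enumeration
`c : ℕ → Option (Iio α)` of it.  Code `p` by `c`, the functions
`z ↦ (p.1.f z γ).1` in `CG (Iio α) (ℕ × ℕ)` for `c j = some γ` (`p.1.onb.uc`), and the levels
`p.1.t.lv γ` and the entries of the points `p.1.t.pt γ` for `c j = some γ`; for `γ ∉ C`, `lv γ = 0`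
and `pt γ = x0` (normal form). -/
theorem mk_NC {α : I} (hα : #(Iio α) ≤ 𝔠) : #(NC (Iio α)) ≤ 𝔠 := by
  classical
  have h1 : ∀ p : NC (Iio α), ∃ (C : Set I) (hC : C ⊆ Iio α) (c : ℕ → Option (Iio α)),
      C.Countable ∧ SuppIn C p.1 ∧ (∀ γ, Dep (insert γ C) topB fun z : I → X => (p.1.f z γ).1) ∧
      ∀ γ (h : γ ∈ C), ∃ j, c j = some ⟨γ, hC h⟩ := by
    intro p
    obtain ⟨C, hC, h2, h3, h4⟩ := Cnt2_exists_C p.2.1 p.2.2
    obtain ⟨c, hc⟩ := ML45.helper23_exists_enum h2 hC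
    exact ⟨C, hC, c, h2, h3, h4, hc⟩
  choose C hC c hCc hS hD hc using h1
  let F : NC (Iio α) → Iio α → CG (Iio α) (ℕ × ℕ) := fun p γ =>
    ⟨fun z => (p.1.f z γ.1).1, Cnt2_cts p.2.1 γ.1, insert γ.1 (C p),
      insert_subset γ.2 (hC p), (hCc p).insert _, hD p γ.1⟩
  let G : NC (Iio α) → Option (Iio α) → Option (CG (Iio α) (ℕ × ℕ) × (ℕ × (ℕ → ℕ × ℕ))) :=
    fun p o => o.map fun γ => (F p γ, (p.1.t.lv γ.1, (p.1.t.pt γ.1).1))
  have hinj : Function.Injective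
      (fun p : NC (Iio α) => (c p, fun j => G p (c p j)) : NC (Iio α) →
        (ℕ → Option (Iio α)) × (ℕ → Option (CG (Iio α) (ℕ × ℕ) × (ℕ × (ℕ → ℕ × ℕ))))) := by
    intro p p' h
    have h5 : c p = c p' := (Prod.ext_iff.1 h).1
    have h6 : ∀ j, G p (c p j) = G p' (c p' j) := fun j => congrFun (Prod.ext_iff.1 h).2 j
    have key : ∀ (γ : Iio α) (j : ℕ), c p j = some γ →
        p.1.t.lv γ.1 = p'.1.t.lv γ.1 ∧ p.1.t.pt γ.1 = p'.1.t.pt γ.1 ∧
          ∀ z, p.1.f z γ.1 = p'.1.f z γ.1 := by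
      intro γ j hj
      have h7 := h6 j
      rw [← h5, hj] at h7
      have h8 : (F p γ, (p.1.t.lv γ.1, (p.1.t.pt γ.1).1)) =
          (F p' γ, (p'.1.t.lv γ.1, (p'.1.t.pt γ.1).1)) := Option.some.inj h7
      have h9 := (Prod.ext_iff.1 h8).1
      have h10 := (Prod.ext_iff.1 (Prod.ext_iff.1 h8).2).1
      have h11 := (Prod.ext_iff.1 (Prod.ext_iff.1 h8).2).2
      refine ⟨h10, Subtype.ext h11, fun z => Subtype.ext ?_⟩
      exact congrFun (congrArg Subtype.val h9) z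
    have key2 : ∀ γ : I, p.1.t.lv γ = p'.1.t.lv γ ∧ p.1.t.pt γ = p'.1.t.pt γ ∧
          ∀ z, p.1.f z γ = p'.1.f z γ := by
      intro γ
      by_cases h7 : γ ∈ C p
      · obtain ⟨j, hj⟩ := hc p γ h7
        exact key _ j hj
      · by_cases h8 : γ ∈ C p'
        · obtain ⟨j, hj⟩ := hc p' γ h8
          rw [← h5] at hj
          exact key _ j hj
        · have h9 := (hS p γ h7).1
          have h10 := (hS p' γ h8).1
          refine ⟨h9.trans h10.symm, ?_, fun z => ?_⟩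
          · rw [Cnt2_pt p.2.1 h9, Cnt2_pt p'.2.1 h10]
          · rw [NC.out p.2.1 (hS p) h7, NC.out p'.2.1 (hS p') h8]
    exact Subtype.ext (Cnt2_ext (fun γ => (key2 γ).1) (fun γ => (key2 γ).2.1)
      fun z γ => (key2 γ).2.2 z)
  have hN : #(ℕ → ℕ × ℕ) ≤ 𝔠 := ML45.helper23_mk_seq (mk_le_aleph0.trans aleph0_le_continuum)
  exact (mk_le_of_injective hinj).trans
    (ML45.helper23_mk_prod (ML45.helper23_mk_seq (ML45.helper23_mk_option hα))
      (ML45.helper23_mk_seq (ML45.helper23_mk_option (ML45.helper23_mk_prod (mk_CG hα)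
        (ML45.helper23_mk_prod (mk_le_aleph0.trans aleph0_le_continuum) hN)))))

theorem Cnt2_bdd {C : Set IM} (hC : C.Countable) : ∃ α : IM, C ⊆ Iio α := by
  have := hC.to_subtype
  obtain ⟨b, hb⟩ := bdd_IM (Λ := C) (mk_le_aleph0.trans aleph0_le_continuum) fun x => x.1
  exact ⟨b, fun x hx => hb ⟨x, hx⟩⟩

theorem Cnt2_mk_sigma {Z : IM → Type} (hZ : ∀ α, #(Z α) ≤ 𝔠) : #(Σ α, Z α) ≤ #IM := by
  rw [mk_sigma]
  calc sum (fun α => #(Z α)) ≤ sum fun _ : IM => 𝔠 := sum_le_sum _ _ hZ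
    _ = #IM * 𝔠 := by rw [sum_const']
    _ ≤ #IM * #IM := mul_le_mul' le_rfl (by rw [mk_IM]; exact (Order.lt_succ _).le)
    _ = #IM := mul_eq_self (by
        rw [mk_IM]; exact aleph0_le_continuum.trans (Order.lt_succ _).le)

/-- all continuous functions with countable support: each countable set is bounded in `IM`, so
that `CG univ Y` is the union of the images of the types `CG (Iio α) Y`, `α : IM`, and
`#IM * 𝔠 = #IM` -/
theorem mk_CG_IM {Y : Type} [Countable Y] : #(CG (univ : Set IM) Y) ≤ #IM := by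
  have h1 : ∀ g : CG (univ : Set IM) Y, ∃ α : IM, ∃ C ⊆ Iio α, C.Countable ∧ Dep C topB g.1 := by
    intro g
    obtain ⟨C, -, h2, h3⟩ := g.2.2
    obtain ⟨α, hα⟩ := Cnt2_bdd h2
    exact ⟨α, C, hα, h2, h3⟩
  choose a ha using h1
  have hinj : Function.Injective (fun g : CG (univ : Set IM) Y =>
      (⟨a g, ⟨g.1, g.2.1, ha g⟩⟩ : Σ α : IM, CG (Iio α) Y)) := by
    intro g g' h
    have h2 : ∀ x y : (Σ α : IM, CG (Iio α) Y), x = y → x.2.1 = y.2.1 := by
      rintro x y rfl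
      rfl
    exact Subtype.ext (h2 _ _ h)
  exact (mk_le_of_injective hinj).trans (Cnt2_mk_sigma fun α => mk_CG (mk_Iio_IM α))

/-- all conditions in normal form -/
theorem mk_NC_IM : #(NC (univ : Set IM)) ≤ #IM := by
  have h1 : ∀ p : NC (univ : Set IM), ∃ α : IM, SuppIn (Iio α) p.1 := by
    intro p
    obtain ⟨C, h2, h3⟩ := exists_suppIn p.1
    obtain ⟨α, hα⟩ := Cnt2_bdd h2
    exact ⟨α, h3.mono hα⟩
  choose a ha using h1
  have hinj : Function.Injective (fun p : NC (univ : Set IM) =>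
      (⟨a p, ⟨p.1, p.2.1, ha p⟩⟩ : Σ α : IM, NC (Iio α))) := by
    intro p p' h
    have h2 : ∀ x y : (Σ α : IM, NC (Iio α)), x = y → x.2.1 = y.2.1 := by
      rintro x y rfl
      rfl
    exact Subtype.ext (h2 _ _ h)
  exact (mk_le_of_injective hinj).trans (Cnt2_mk_sigma fun α => mk_NC (mk_Iio_IM α))

end Pool.Agent.EN45
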