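import Pool.Agent.EN45.Nbh
import Pool.Agent.EN45.Ccn

/-!
# The set is crowded (module CRO)
-/

namespace Pool.Agent.EN45

open Classical Set Pool.Agent Pool.Agent.LadderTree Pool.Agent.Forcing Pool.Agent.MAx
open Pool.Agent.BVM (BSet UF eqv memv chk Congr le_of_uf Disc OPair FunOn op on onT CardLE Rel)
open Pool.Agent.OG45 Pool.Agent.IN45
open Pool.Agent.ML45 (IM)

/-- all sets of natural numbers are values of a function on the set of points with given first
digits.
The function is `prs (fun β : {β : IM // nd β = s} => cN b β.1) (fun β => cc (ix β.1))`.  It is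
functional: by `gg_all` and `fc_prs` (two pairs, with indices `β`, `β'`; if `β ≠ β'` then
`cN_ne` gives a contradiction).  For a name `y` which is forced to be a subset of `ω`,
`exists_eq_cc` gives densely an `i` with `y = cc i`, and `exists_nd s i` an index `β`. -/
theorem exists_onto (b : Bool) (s : ℕ × X) : ∃ g : BSet (RO (Cnd IM)),
    (∀ F : GG (Cnd IM), ∀ x y y', Rel (In F) (nm F g) x y → Rel (In F) (nm F g) x y' → y' = y) ∧
    ∀ (y : BSet (RO (Cnd IM))) (q : Cnd IM), SubW q y → ∃ r ≤ q, ∃ β, nd β = s ∧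
      Fc r fun F => Rel (In F) (nm F g) (nm F (cN b β)) (nm F y) := by
  refine ⟨prs (fun β : {β : IM // nd β = s} => cN b β.1) (fun β => cc (ix β.1)), ?_, ?_⟩
  · intro F x y y'
    obtain ⟨x, rfl⟩ := exists_nm x
    obtain ⟨y, rfl⟩ := exists_nm y
    obtain ⟨y', rfl⟩ := exists_nm y'
    refine gg_all ((RpP.rel _ _ _).imp ((RpP.rel _ _ _).imp (RpP.eq _ _))) (fun q => ?_) F
    refine Fc.imp (RpP.rel _ _ _) ((RpP.rel _ _ _).imp (RpP.eq _ _)) fun r _ h1 => ?_
    refine Fc.imp (RpP.rel _ _ _) (RpP.eq _ _) fun r' hr' h2 => ?_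
    refine Fc.dense (RpP.eq _ _) fun t ht => ?_
    obtain ⟨t1, ht1, i, hi⟩ := fc_prs (h1.mono (ht.trans hr'))
    obtain ⟨t2, ht2, j, hj⟩ := fc_prs (h2.mono (ht1.trans ht))
    refine ⟨t2, ht2.trans ht1, ?_⟩
    have hij : i = j := by
      obtain ⟨G, hG⟩ := exists_gg t2
      have h3 := (hi.mono ht2) G hG
      have h4 := hj G hG
      by_contra hcon
      refine cN_ne (b := b) (b' := b) (β := i.1) (β' := j.1) (fun h5 => hcon (Subtype.ext h5.2)) G ?_
      exact h3.1.symm.trans h4.1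
    intro G hG
    have h3 := (hi.mono ht2) G hG
    have h4 := hj G hG
    beta_reduce at h3 h4 ⊢
    rw [h4.2, h3.2, hij]
  · intro y q hy
    obtain ⟨r, hr, i, hi⟩ := exists_eq_cc hy
    obtain ⟨β, hβ, hix⟩ := exists_nd s i
    refine ⟨r, hr, β, hβ, fun F hF => ?_⟩
    have h1 := hi F hF
    have h2 := rel_prs (x := fun β : {β : IM // nd β = s} => cN b β.1)
      (y := fun β => cc (ix β.1)) F ⟨β, hβ⟩
    beta_reduce at h1 h2 ⊢
    rw [h1, ← hix]
    exact h2

/-- module CRO: the set is crowded.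
`gg_all` with `rpCrowded`; let `q`, names `U`, `B` be given (`Fc.all`, `Fc.imp`).  Below `q` take
a name `x` of an element of `B` (`Fc.name`), decide `x = cN b β` (`fc_AN`), and take names `u`, `v` of
the end points of an interval contained in `U` (`Fc.name` twice); apply `exists_nbh` to get
`r`, `n`, `s`.  For all `β'` with `nd β' = (n, s)` every `r' ≤ r` forces that
`cN b β'` is in the interval (`dg_nd`), hence in `U` and in `B` (`cN_in_RN`, `in_AN`).  The function
of `exists_onto b (n, s)` shows `CardLE` (`pow_PwN`; the existence statement for a name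
`y` in `PwN` is proved densely, `Fc.dense`). -/
theorem crowded_AN (F : GG (Cnd IM)) :
    Crowded (In F) (nm F PwN) (nm F RN) (nm F LN) (nm F AN) := by
  refine gg_all (rpCrowded _ _ _ _) (fun q => ?_) F
  unfold Crowded
  have hRB : ∀ U B : BSet (RO (Cnd IM)), RpP fun F : GG (Cnd IM) =>
      ∀ x, In F x (nm F B) ↔ (In F x (nm F U) ∧ In F x (nm F AN)) := fun U B =>
    RpP.all fun x => (RpP.mem _ _).iff ((RpP.mem _ _).and (RpP.mem _ _))
  have hRE : ∀ B : BSet (RO (Cnd IM)), RpP fun F : GG (Cnd IM) => ∃ x, In F x (nm F B) := fun B =>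
    RpP.ex fun x => RpP.mem _ _
  refine Fc.all fun U => Fc.all fun B => ?_
  refine Fc.imp (rpOpenL _ _ _) ((hRB U B).imp ((hRE B).imp (rpCard _ _))) fun r1 _ hU => ?_
  refine Fc.imp (hRB U B) ((hRE B).imp (rpCard _ _)) fun r2 hr2 hB => ?_
  refine Fc.imp (hRE B) (rpCard _ _) fun r3 hr3 hx => ?_
  obtain ⟨x, hx⟩ := Fc.name (A := fun F x => In F x (nm F B)) (fun x => RpP.mem x B) hx
  refine Fc.dense (rpCard _ _) fun t ht => ?_
  have htU := hU.mono (ht.trans (hr3.trans hr2))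
  have htB := hB.mono (ht.trans hr3)
  have htx := hx.mono ht
  obtain ⟨t1, ht1, b, β, hb⟩ := fc_AN (x := x) (q := t) fun F hF =>
    ((htB F hF (nm F x)).1 (htx F hF)).2
  -- an interval
  have h1 : Fc t1 fun F => ∃ u, ∃ v, In F u (nm F RN) ∧ In F v (nm F RN) ∧
      Rel (In F) (nm F LN) u (nm F (cN b β)) ∧ Rel (In F) (nm F LN) (nm F (cN b β)) v ∧
      ∀ y, In F y (nm F RN) → Rel (In F) (nm F LN) u y → Rel (In F) (nm F LN) y v →
        In F y (nm F U) := by
    intro F hF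
    have h2 := ((htB.mono ht1) F hF (nm F x)).1 ((htx.mono ht1) F hF)
    have h3 := hb F hF
    beta_reduce at h3
    rw [h3] at h2
    exact ((htU.mono ht1) F hF).2 _ h2.1
  have hR4 : ∀ u v : BSet (RO (Cnd IM)), RpP fun F : GG (Cnd IM) => In F (nm F u) (nm F RN) ∧
      In F (nm F v) (nm F RN) ∧ Rel (In F) (nm F LN) (nm F u) (nm F (cN b β)) ∧
      Rel (In F) (nm F LN) (nm F (cN b β)) (nm F v) ∧ ∀ y, In F y (nm F RN) →
        Rel (In F) (nm F LN) (nm F u) y → Rel (In F) (nm F LN) y (nm F v) → In F y (nm F U) :=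
    fun u v => (RpP.mem _ _).and ((RpP.mem _ _).and ((RpP.rel _ _ _).and ((RpP.rel _ _ _).and
      (RpP.all fun y => (RpP.mem _ _).imp ((RpP.rel _ _ _).imp ((RpP.rel _ _ _).imp
        (RpP.mem _ _)))))))
  obtain ⟨u, hu⟩ := Fc.name (fun u => RpP.ex fun v => hR4 u v) h1
  obtain ⟨v, hv⟩ := Fc.name (fun v => hR4 u v) hu
  obtain ⟨r, hr, n, s, -, hs⟩ := exists_nbh (q := t1) (b := b) (β := β) (u := u) (v := v)
    fun F hF => ⟨(hv F hF).2.2.1, (hv F hF).2.2.2.1⟩
  obtain ⟨g, hg1, hg2⟩ := exists_onto b (n, s)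
  refine ⟨r, hr.trans ht1, ?_⟩
  have hRC : ∀ y : BSet (RO (Cnd IM)), RpP fun F : GG (Cnd IM) =>
      ∃ x, In F x (nm F B) ∧ Rel (In F) (nm F g) x (nm F y) := fun y =>
    RpP.ex fun x => (RpP.mem _ _).and (RpP.rel _ _ _)
  have key : Fc r fun F => ∀ y, In F y (nm F PwN) →
      ∃ x, In F x (nm F B) ∧ Rel (In F) (nm F g) x y := by
    refine Fc.all fun y => Fc.imp (RpP.mem _ _) (hRC y) fun r4 hr4 hy => ?_
    refine Fc.dense (hRC y) fun r5 hr5 => ?_
    have hy' : SubW r5 y := fun F hF => (pow_PwN F _).1 ((hy.mono hr5) F hF)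
    obtain ⟨r6, hr6, β', hβ', h6⟩ := hg2 y r5 hy'
    refine ⟨r6, hr6, fun F hF => ?_⟩
    have hr6r : r6 ≤ r := hr6.trans (hr5.trans hr4)
    have h7 : Dg r6 β' n s := by
      have := dg_nd r6 β'
      rw [hβ'] at this
      exact this
    have h8 := hs β' r6 hr6r h7 F hF
    have h9 := (hv.mono (hr6r.trans hr)) F hF
    refine ⟨nm F (cN b β'), ?_, h6 F hF⟩
    refine ((htB.mono (hr6r.trans (hr.trans ht1))) F hF _).2 ⟨?_, in_AN F b β'⟩
    exact h9.2.2.2.2 _ (cN_in_RN b β' F) h8.1 h8.2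
  exact fun F hF => ⟨nm F g, fun x y y' => hg1 F x y y', key F hF⟩

end Pool.Agent.EN45
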