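import Pool.Agent.EN45.Cnd

/-!
# The part of a condition below a coordinate (module CUT)
-/

namespace Pool.Agent.EN45

open Classical Set Pool.Agent Pool.Agent.LadderTree Pool.Agent.Forcing Pool.Agent.MAx
open Pool.Agent.BVM (BSet UF eqv memv chk Congr le_of_uf Disc OPair FunOn op on onT)
open Pool.Agent.OG45 Pool.Agent.IN45

variable {I : Type} [LinearOrder I]

/-- the part of the box `t` below `β` -/
noncomputable def cutB (β : I) (t : Bx I) : Bx I :=
  ⟨t.pt, fun γ => if γ < β then t.lv γ else 0, t.fin.subset fun γ hγ => by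
    by_contra h
    have h1 : t.lv γ = 0 := not_not.1 h
    refine hγ ?_
    simp [h1]⟩

theorem cutB_lv {β γ : I} (t : Bx I) (h : γ < β) : (cutB β t).lv γ = t.lv γ :=
  if_pos h

theorem cutB_lv' {β γ : I} (t : Bx I) (h : β ≤ γ) : (cutB β t).lv γ = 0 := if_neg (not_lt.2 h)

/-- the part of the map `f` below `β` -/
noncomputable def cutM (β : I) (t : Bx I) (f : (I → X) → I → X) : (I → X) → I → X := fun z γ =>
  if γ < β then f (proj t z) γ else z γ

/-- the cut map is admissible.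
As in `OnB.J`: for `γ < β` use the properties of `f` at the points `proj t z` (`proj_mem`); note
that `proj t z γ = z γ` for `γ < β` and `z ∈ cutB β t` (`proj_apply`).  For `γ ≥ β` the map is
trivial. -/
theorem onB_cutM {β : I} {t : Bx I} {f : (I → X) → I → X} (hf : OnB t f) :
    OnB (cutB β t) (cutM β t f) := by
  have hlv : ∀ {γ : I}, γ < β → (cutB β t).lv γ = t.lv γ := fun h => cutB_lv t h
  have hp : ∀ z ∈ cutB β t, ∀ γ < β, proj t z γ = z γ := fun z hz γ hγ => by
    refine proj_apply ?_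
    have h1 := hz γ
    rw [hlv hγ] at h1
    exact h1
  have hlt : ∀ z γ, γ < β → cutM β t f z γ = f (proj t z) γ := fun z γ h => if_pos h
  have hge : ∀ z γ, ¬ γ < β → cutM β t f z γ = z γ := fun z γ h => if_neg h
  constructor
  · intro γ z hz z' hz' h
    by_cases hγ : γ < β
    · rw [hlt _ _ hγ, hlt _ _ hγ]
      refine hf.low γ _ (proj_mem t z) _ (proj_mem t z') fun δ hδ => ?_
      rw [hp z hz δ (hδ.trans_lt hγ), hp z' hz' δ (hδ.trans_lt hγ), h δ hδ]
    · rw [hge _ _ hγ, hge _ _ hγ]; exact h γ le_rfl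
  · intro γ n
    by_cases hγ : γ < β
    · obtain ⟨T, m, h⟩ := hf.uc γ n
      refine ⟨T, m, fun z hz z' hz' h' => ?_⟩
      rw [hlt _ _ hγ, hlt _ _ hγ]
      exact h _ (proj_mem t z) _ (proj_mem t z') fun δ hδ => spl_eqn_spl (h' δ hδ)
    · exact ⟨{γ}, n, fun z _ z' _ h' => by
        rw [hge _ _ hγ, hge _ _ hγ]; exact h' γ (Finset.mem_singleton_self γ)⟩
  · intro γ n hn
    by_cases hγ : γ < β
    · rw [hlv hγ] at hn
      obtain ⟨M, h⟩ := hf.emb γ n hn
      refine ⟨M, fun z hz => ?_⟩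
      obtain ⟨m, h1, h2, d, h3, h4⟩ := h _ (proj_mem t z)
      refine ⟨m, h1, h2, d, h3, fun z' hz' h5 h6 => ?_⟩
      rw [hlt _ _ hγ, hlt _ _ hγ]
      have h7 := h4 _ (proj_mem t z') (fun δ hδ => by
        rw [hp z hz δ (hδ.trans hγ), hp z' hz' δ (hδ.trans hγ), h5 δ hδ])
        (by rw [hp z hz γ hγ, hp z' hz' γ hγ]; exact h6)
      rw [hp z' hz' γ hγ] at h7
      exact h7
    · exact ⟨n, fun z _ => ⟨n, le_rfl, le_rfl, _root_.id, Emb.id le_rfl, fun z' _ _ h6 => by
        rw [hge _ _ hγ, hge _ _ hγ]; exact ⟨h6, rfl⟩⟩⟩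
  · obtain ⟨C, hC, h1, h2⟩ := hf.supp
    refine ⟨C, hC, fun γ hγ => ⟨?_, fun z hz => ?_⟩, fun γ hγ z hz z' hz' h => ?_⟩
    · by_cases hβ : γ < β
      · rw [hlv hβ]; exact (h1 γ hγ).1
      · exact if_neg hβ
    · by_cases hβ : γ < β
      · rw [hlt _ _ hβ, (h1 γ hγ).2 _ (proj_mem t z), hp z hz γ hβ]
      · rw [hge _ _ hβ]
    · by_cases hβ : γ < β
      · rw [hlt _ _ hβ, hlt _ _ hβ]
        refine h2 γ hγ _ (proj_mem t z) _ (proj_mem t z') fun δ hδ => ?_
        show spl (t.lv δ) (t.pt δ) (z δ) = spl (t.lv δ) (t.pt δ) (z' δ)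
        rw [h δ hδ]
      · rw [hge _ _ hβ, hge _ _ hβ]; exact h γ hγ

/-- the part of the condition `p` below `β` -/
noncomputable def cut (β : I) (p : Cnd I) : Cnd I := ⟨cutB β p.t, cutM β p.t p.f, onB_cutM p.onb⟩

/-- module CUT, first part.
`Via p (cut β p) (rs (Ici β) p.f)`: the box of `cut β p` has the level `0` from `β` on, and for
`γ < β` the point `rs (Ici β) p.f z` and `z` agree up to `γ`, so that `low` applies. -/
theorem le_cut (β : I) (p : Cnd I) : p ≤ cut β p := by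
  refine Via.le (K := rs (Ici β) p.f) ⟨⟨p.onb.rs _, fun z hz γ => ?_⟩, fun z hz => ?_⟩
  · by_cases h : γ < β
    · rw [rs_not _ _ (fun h' : γ ∈ Ici β => absurd h (not_lt.2 h'))]
      show Eqn ((cutB β p.t).lv γ) (z γ) (p.t.pt γ)
      rw [cutB_lv p.t h]
      exact hz γ
    · show Eqn ((cutB β p.t).lv γ) _ _
      rw [cutB_lv' p.t (not_lt.1 h)]
      exact eqn_zero _ _
  · funext γ
    by_cases h : γ < β
    · show p.f z γ = if γ < β then p.f (proj p.t (rs (Ici β) p.f z)) γ else rs (Ici β) p.f z γ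
      rw [if_pos h]
      refine p.onb.low γ _ hz _ (proj_mem _ _) fun δ hδ => ?_
      have h1 : rs (Ici β) p.f z δ = z δ :=
        rs_not _ _ fun h' : δ ∈ Ici β => absurd (hδ.trans_lt h) (not_lt.2 h')
      rw [proj_apply (by rw [h1]; exact hz δ), h1]
    · show p.f z γ = if γ < β then p.f (proj p.t (rs (Ici β) p.f z)) γ else rs (Ici β) p.f z γ
      rw [if_neg h, rs_mem _ _ (show γ ∈ Ici β from not_lt.1 h)]

theorem suppIn_cut (β : I) (p : Cnd I) : SuppIn (Iio β) (cut β p) := fun γ hγ =>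
  ⟨if_neg hγ, fun _ _ => if_neg hγ⟩

theorem suppIn_cut' {C : Set I} (β : I) {p : Cnd I} (h : SuppIn C p) :
    SuppIn (C ∩ Iio β) (cut β p) := by
  intro γ hγ
  by_cases h1 : γ < β
  · have h2 : γ ∉ C := fun h2 => hγ ⟨h2, h1⟩
    refine ⟨(if_pos h1).trans (h γ h2).1, fun z _ => ?_⟩
    show (if γ < β then p.f (proj p.t z) γ else z γ) = z γ
    rw [if_pos h1, (h γ h2).2 _ (proj_mem _ _)]
    refine proj_apply ?_
    rw [(h γ h2).1]
    exact eqn_zero _ _
  · exact ⟨if_neg h1, fun _ _ => if_neg h1⟩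

/-- module CUT, second part: amalgamation.
Let `Via s (cut β r) K`.  Let `u` be the box with the levels and the point of `s.t` below `β` and
those of `r.t` from `β` on; `u` is contained in `s.t` (which has level `0` from `β` on).  Let
`K' = rs (Iio β) K`; it is admissible on `u` (`OnB.mono`, `OnB.rs`) and maps `u` into `r.t`.  Let
`r' = r.app _` for this map.  `r' ≤ s` by means of `K'' = rs (Ici β) r'.f`: for `z ∈ u` and
`γ < β`, `s.f (K'' z) γ = s.f z γ = (cut β r).f (K z) γ = r.f (proj r.t (K z)) γ`, and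
`proj r.t (K z)` agrees with `K' z` below `β`; for `γ ≥ β`, `s.f (K'' z) γ = K'' z γ` by `hs'`. -/
theorem exists_amalg {r s : Cnd I} {β : I} (hs : s ≤ cut β r) (hs' : SuppIn (Iio β) s) :
    ∃ r', r' ≤ r ∧ r' ≤ s := by
  obtain ⟨K, hK⟩ := hs
  -- the box
  let u : Bx I := ⟨fun γ => if γ < β then s.t.pt γ else r.t.pt γ,
    fun γ => if γ < β then s.t.lv γ else r.t.lv γ,
    (s.t.fin.union r.t.fin).subset fun γ hγ => by
      by_cases h : γ < β
      · left
        intro h1
        refine hγ ?_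
        show (if γ < β then s.t.lv γ else r.t.lv γ) = 0
        rw [if_pos h]; exact h1
      · right
        intro h1
        refine hγ ?_
        show (if γ < β then s.t.lv γ else r.t.lv γ) = 0
        rw [if_neg h]; exact h1⟩
  have hu1 : ∀ γ, γ < β → u.lv γ = s.t.lv γ := fun γ h => if_pos h
  have hu2 : ∀ γ, ¬ γ < β → u.lv γ = r.t.lv γ := fun γ h => if_neg h
  have hu3 : ∀ γ, γ < β → u.pt γ = s.t.pt γ := fun γ h => if_pos h
  have hu4 : ∀ γ, ¬ γ < β → u.pt γ = r.t.pt γ := fun γ h => if_neg h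
  have hs0 : ∀ γ, ¬ γ < β → s.t.lv γ = 0 := fun γ h => (hs' γ h).1
  have hus : Sub u s.t := by
    refine ⟨fun γ => ?_, fun z hz γ => ?_⟩
    · by_cases h : γ < β
      · rw [hu1 γ h]
      · rw [hs0 γ h]; exact Nat.zero_le _
    · by_cases h : γ < β
      · have h1 := hz γ
        rw [hu1 γ h, hu3 γ h] at h1
        exact h1
      · rw [hs0 γ h]; exact eqn_zero _ _
  have hK' : Mp u r.t (rs (Iio β) K) := by
    refine ⟨(hK.mp.onb.mono hus).rs _, fun z hz γ => ?_⟩
    by_cases h : γ < β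
    · rw [rs_mem _ _ (show γ ∈ Iio β from h)]
      have h1 : Eqn ((cutB β r.t).lv γ) (K z γ) (r.t.pt γ) := hK.mp.maps z (hus.2 z hz) γ
      rw [cutB_lv r.t h] at h1
      exact h1
    · rw [rs_not _ _ (show γ ∉ Iio β from h)]
      have h1 := hz γ
      rw [hu2 γ h, hu4 γ h] at h1
      exact h1
  refine ⟨r.app hK', (via_app r hK').le, ?_⟩
  -- the map of `u` into `s.t`
  have hr : ∀ z, (r.app hK').f z = r.f (rs (Iio β) K z) := fun z => rfl
  refine Via.le (K := rs (Ici β) (r.app hK').f) ⟨⟨(r.app hK').onb.rs _, fun z hz γ => ?_⟩,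
    fun z hz => ?_⟩
  · by_cases h : γ < β
    · rw [rs_not _ _ (fun h' : γ ∈ Ici β => absurd h (not_lt.2 h'))]
      exact hus.2 z hz γ
    · rw [hs0 γ h]; exact eqn_zero _ _
  · have hzs : z ∈ s.t := hus.2 z hz
    funext γ
    by_cases h : γ < β
    · have h1 : s.f (rs (Ici β) (r.app hK').f z) γ = s.f z γ := by
        refine s.onb.low γ _ ?_ _ hzs fun δ hδ =>
          rs_not _ _ fun h' : δ ∈ Ici β => absurd (hδ.trans_lt h) (not_lt.2 h')
        intro δ
        by_cases h2 : δ < β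
        · rw [rs_not _ _ (fun h' : δ ∈ Ici β => absurd h2 (not_lt.2 h'))]
          exact hzs δ
        · rw [hs0 δ h2]; exact eqn_zero _ _
      have h2 : s.f z γ = r.f (proj r.t (K z)) γ := by
        rw [hK.eq z hzs]
        exact if_pos h
      rw [h1, h2, hr]
      refine r.onb.low γ _ (hK'.maps z hz) _ (proj_mem _ _) fun δ hδ => ?_
      have h3 : δ < β := hδ.trans_lt h
      rw [rs_mem _ _ (show δ ∈ Iio β from h3), proj_apply]
      have h4 : Eqn ((cutB β r.t).lv δ) (K z δ) (r.t.pt δ) := hK.mp.maps z hzs δ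
      rw [cutB_lv r.t h3] at h4
      exact h4
    · have h1 : s.f (rs (Ici β) (r.app hK').f z) γ = rs (Ici β) (r.app hK').f z γ := by
        refine (hs' γ h).2 _ ?_
        intro δ
        by_cases h2 : δ < β
        · rw [rs_not _ _ (fun h' : δ ∈ Ici β => absurd h2 (not_lt.2 h'))]
          exact hzs δ
        · rw [hs0 δ h2]; exact eqn_zero _ _
      rw [h1, rs_mem _ _ (show γ ∈ Ici β from not_lt.1 h)]

end Pool.Agent.EN45
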