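import Pool.Agent.OG45.Defs

/-!
# Crowded entangled sets of reals and the number `hm` inside a structure of set theory

`E x y` is read `x ∈ y`.  All notions are relativized to the structure: all quantifiers range
over `M`, so that for a model `(M, E)` of ZFC they express that `(M, E)` satisfies the
corresponding statement of set theory.  Here `w` is always `ω`, and `P` is the set of all subsets
of `ω`, whose cardinality is the continuum `𝔠`.
-/

namespace Pool.Agent.EN45

open Pool.Agent.BVM (FunOn CardLE Rel)
open Pool.Agent.OG45 (Sub)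

section

variable {M : Type*} (E : M → M → Prop)

/-- `P` is the set of all subsets of `w` -/
def Pow (w P : M) : Prop := ∀ x, E x P ↔ Sub E x w

/-! ### the real line -/

/-- `(R, L)` is a real line: `L` is (the set of pairs of) a strict linear order `<` of the set `R`
without end points, with a countable dense subset `Q`, which is complete: each nonempty subset
`S` of `R` with an upper bound has a least upper bound.  By Cantor's theorem these are, up to
isomorphism, exactly the real numbers with their order. -/
structure Line (w R L : M) : Prop where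
  ne : ∃ x, E x R
  irrefl : ∀ x, E x R → ¬ Rel E L x x
  trans : ∀ x y z, E x R → E y R → E z R → Rel E L x y → Rel E L y z → Rel E L x z
  total : ∀ x y, E x R → E y R → x = y ∨ Rel E L x y ∨ Rel E L y x
  noMin : ∀ x, E x R → ∃ y, E y R ∧ Rel E L y x
  noMax : ∀ x, E x R → ∃ y, E y R ∧ Rel E L x y
  sep : ∃ Q, Sub E Q R ∧ CardLE E Q w ∧ ∀ x y, E x R → E y R → Rel E L x y →
    ∃ q, E q Q ∧ Rel E L x q ∧ Rel E L q y
  compl : ∀ S, Sub E S R → (∃ x, E x S) → (∃ b, E b R ∧ ∀ x, E x S → ¬ Rel E L b x) →
    ∃ s, E s R ∧ (∀ x, E x S → ¬ Rel E L s x) ∧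
      ∀ b, E b R → (∀ x, E x S → ¬ Rel E L b x) → ¬ Rel E L b s

/-- `U` is an open subset of the line: each `x` in `U` is in an open interval `(a, b)` which is
contained in `U` -/
def OpenL (R L U : M) : Prop := Sub E U R ∧ ∀ x, E x U → ∃ a b, E a R ∧ E b R ∧ Rel E L a x ∧
  Rel E L x b ∧ ∀ y, E y R → Rel E L a y → Rel E L y b → E y U

/-- the subset `A` of the line is `𝔠`-crowded: `|U ∩ A| ≥ 𝔠` for every open set `U` which
meets `A` -/
def Crowded (P R L A : M) : Prop := ∀ U B, OpenL E R L U → (∀ x, E x B ↔ (E x U ∧ E x A)) →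
  (∃ x, E x B) → CardLE E P B

/-- `a` is an injective `n`-tuple of elements of `A`: an injective function on `n` with values
in `A` -/
def Tuple (A n a : M) : Prop := FunOn E a n ∧ (∀ i x, Rel E a i x → E x A) ∧
  ∀ i j x, Rel E a i x → Rel E a j x → i = j

/-- the subset `A` of the line is `𝔠`-entangled: for each natural number `n ≥ 1`, each family `F`
of `𝔠` many injective, pairwise disjoint `n`-tuples of elements of `A`, and each set `t` (of those
indices `i` at which the first point is to be the smaller one), there are distinct `a`, `b` in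
`F` such that `a i < b i` if and only if `i ∈ t`, for all `i < n` -/
def Entangled (w P R L A : M) : Prop := ∀ n, E n w → (∃ m, E m n) → ∀ F,
  (∀ a, E a F → Tuple E A n a) →
  (∀ a b, E a F → E b F → a ≠ b → ∀ i j x, Rel E a i x → ¬ Rel E b j x) →
  CardLE E P F → ∀ t, ∃ a b, E a F ∧ E b F ∧ a ≠ b ∧
    ∀ i x y, E i n → Rel E a i x → Rel E b i y → (Rel E L x y ↔ E i t)

/-- `h` is a homeomorphism of the subset `A` of the line onto itself -/
structure Homeo (R L A h : M) : Prop where
  /-- `h` is a function on `A` -/
  fn : FunOn E h A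
  /-- with values in `A` -/
  val : ∀ x y, Rel E h x y → E y A
  /-- it is injective -/
  inj : ∀ x x' y, Rel E h x y → Rel E h x' y → x = x'
  /-- it is surjective -/
  surj : ∀ y, E y A → ∃ x, Rel E h x y
  /-- it is continuous -/
  cont : ∀ U x y, OpenL E R L U → Rel E h x y → E y U →
    ∃ V, OpenL E R L V ∧ E x V ∧ ∀ x' y', E x' V → Rel E h x' y' → E y' U
  /-- its inverse is continuous -/
  contInv : ∀ U x y, OpenL E R L U → Rel E h x y → E x U →
    ∃ V, OpenL E R L V ∧ E y V ∧ ∀ x' y', E y' V → Rel E h x' y' → E x' U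

/-! ### the number `hm` -/

/-- `e` is the set of even natural numbers: `e ⊆ ω`, `0 ∈ e`, and `n + 1 = n ∪ {n}` is in `e` if and
only if `n` is not in `e` -/
def Evens (w e : M) : Prop := Sub E e w ∧ (∀ n, E n w → (∀ m, ¬ E m n) → E n e) ∧
  ∀ n s, E n w → (∀ z, E z s ↔ (E z n ∨ z = n)) → (E s e ↔ ¬ E n e)

/-- `n` is the least natural number at which the sets `x` and `y` differ: `n = Δ(x, y)` -/
def Dif (w n x y : M) : Prop := E n w ∧ ¬ (E n x ↔ E n y) ∧ ∀ m, E m n → (E m x ↔ E m y)

/-- the set `X` of subsets of `ω` is monochromatic: `Δ(x, y)` is even for all distinct `x`, `y`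
in `X`, or odd for all distinct `x`, `y` in `X` -/
def Mono (w e X : M) : Prop := (∀ x, E x X → Sub E x w) ∧
  ((∀ x y n, E x X → E y X → Dif E w n x y → E n e) ∨
    ∀ x y n, E x X → E y X → Dif E w n x y → ¬ E n e)

/-- `hm < 𝔠`: there is a family `H` of monochromatic sets whose union contains all subsets of
`ω`, and the cardinality of `H` is less than `𝔠` -/
def HmLt (w e P : M) : Prop := ∃ H, (∀ X, E X H → Mono E w e X) ∧
  (∀ x, E x P → ∃ X, E X H ∧ E x X) ∧ ¬ CardLE E P H

end

end Pool.Agent.EN45
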