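import Pool.Agent.EN45.Base

/-!
# The data for the line (module LDT)
-/

namespace Pool.Agent.EN45

open Set

/-- a dense linear order `O` of the natural numbers without end points, and two uniformly continuous
embeddings of the space `X` into the set of its cuts, which respect the two orders -/
structure LD where
  /-- the order -/
  O : ℕ → ℕ → Prop
  /-- the two embeddings -/
  cu : Bool → X → ℕ → Bool
  irrefl : ∀ i, ¬ O i i
  trans : ∀ i j k, O i j → O j k → O i k
  total : ∀ i j, i = j ∨ O i j ∨ O j i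
  dense : ∀ i j, O i j → ∃ k, O i k ∧ O k j
  noMax : ∀ i, ∃ j, O i j
  noMin : ∀ i, ∃ j, O j i
  /-- the cuts are not empty -/
  ne : ∀ b, ∃ i, ∀ x, cu b x i = true
  /-- they do not contain everything -/
  ne' : ∀ b, ∃ i, ∀ x, cu b x i = false
  /-- they are initial segments -/
  low : ∀ b x i j, O i j → cu b x j = true → cu b x i = true
  /-- without greatest element -/
  open' : ∀ b x i, cu b x i = true → ∃ j, O i j ∧ cu b x j = true
  /-- the complements have no least element -/
  above : ∀ b x i, cu b x i = false → ∃ j, O j i ∧ cu b x j = false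
  /-- uniform continuity -/
  uc : ∀ b i, ∃ n, ∀ x y, Eqn n x y → cu b x i = cu b y i
  /-- the embedding `true` respects the first order -/
  lt1 : ∀ x y n, Eqn n x y → Lt1 (x.1 n) (y.1 n) → ∃ i, cu true x i = false ∧ cu true y i = true
  /-- the embedding `false` respects the second order -/
  lt2 : ∀ x y n, Eqn n x y → Lt2 (x.1 n) (y.1 n) →
    ∃ i, cu false x i = false ∧ cu false y i = true
  /-- the values of the embedding `true` are less than those of the embedding `false` -/
  sep : ∃ i, (∀ x, cu true x i = false) ∧ ∀ x, cu false x i = true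
  /-- continuity of the inverse maps -/
  inv : ∀ b x n, ∃ i j, ∀ y, (cu b y i = true ∧ cu b y j = false) ↔ Eqn n x y

/-! ### the lexicographic order -/

/-- the lexicographic order -/
def Lx (x y : ℕ → ℕ) : Prop := ∃ n, (∀ i < n, x i = y i) ∧ x n < y n

/-- eventually zero, but not zero -/
def Ez (q : ℕ → ℕ) : Prop := (∃ n, ∀ i ≥ n, q i = 0) ∧ ∃ n, q n ≠ 0

/-- the code of a point -/
def cd (b : Bool) (x : X) : ℕ → ℕ
  | 0 => if b then 1 else 2
  | i + 1 => (if b then (x.1 i).1 * (i + 2) + (x.1 i).2 else (x.1 i).2 * (i + 2) + (x.1 i).1) + 1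

theorem cd_pos (b : Bool) (x : X) (i : ℕ) : 0 < cd b x i := by
  cases i
  · cases b <;> simp [cd]
  · simp [cd]

/-- an enumeration of the eventually zero sequences different from zero, without repetitions
(`{q // Ez q}` is countable and infinite; for instance by an injection into `List ℕ` or into
`ℕ →₀ ℕ`; `nonempty_denumerable` and `Denumerable.eqv`) -/
theorem exists_enum_ez : ∃ e : ℕ → ℕ → ℕ, (∀ k, Ez (e k)) ∧ (∀ q, Ez q → ∃ k, e k = q) ∧
    ∀ k l, e k = e l → k = l := by
  have h1 : {q : ℕ → ℕ | Ez q}.Countable := by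
    apply (Set.countable_range (fun f : ℕ →₀ ℕ => (f : ℕ → ℕ))).mono
    rintro q ⟨⟨n, hn⟩, _⟩
    have hf : (Function.support q).Finite := by
      apply (Set.finite_lt_nat n).subset
      intro i hi
      by_contra hcon
      exact hi (hn i (not_lt.1 hcon))
    exact ⟨Finsupp.ofSupportFinite q hf, rfl⟩
  have h2 : Countable {q : ℕ → ℕ // Ez q} := h1.to_subtype
  have h3 : Infinite {q : ℕ → ℕ // Ez q} := by
    apply Infinite.of_injective (fun k : ℕ => (⟨fun i => if i = 0 then k + 1 else 0,
      ⟨1, fun i hi => if_neg (by omega)⟩, 0, by simp⟩ : {q : ℕ → ℕ // Ez q}))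
    intro k l h
    have h4 := congrFun (congrArg Subtype.val h) 0
    simpa using h4
  obtain ⟨h4⟩ := nonempty_denumerable {q : ℕ → ℕ // Ez q}
  refine ⟨fun k => ((Denumerable.eqv {q : ℕ → ℕ // Ez q}).symm k).1, fun k => Subtype.prop _,
    fun q hq => ⟨Denumerable.eqv {q : ℕ → ℕ // Ez q} ⟨q, hq⟩, ?_⟩, fun k l h => ?_⟩
  · simp
  · exact (Denumerable.eqv _).symm.injective (Subtype.ext h)

/-! ### lemmas on the lexicographic order -/

theorem Lx.irrefl (x : ℕ → ℕ) : ¬ Lx x x := by
  rintro ⟨n, _, h⟩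
  exact lt_irrefl _ h

theorem Lx.trans {x y z : ℕ → ℕ} (h : Lx x y) (h' : Lx y z) : Lx x z := by
  obtain ⟨n, h1, h2⟩ := h
  obtain ⟨m, h3, h4⟩ := h'
  rcases lt_trichotomy n m with hnm | hnm | hnm
  · exact ⟨n, fun i hi => (h1 i hi).trans (h3 i (hi.trans hnm)), h2.trans_eq (h3 n hnm)⟩
  · subst hnm
    exact ⟨n, fun i hi => (h1 i hi).trans (h3 i hi), h2.trans h4⟩
  · exact ⟨m, fun i hi => (h1 i (hi.trans hnm)).trans (h3 i hi), (h1 m hnm).trans_lt h4⟩

theorem Lx.asymm {x y : ℕ → ℕ} (h : Lx x y) : ¬ Lx y x := fun h' => Lx.irrefl x (h.trans h')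

theorem Lx.total {x y : ℕ → ℕ} (h : x ≠ y) : Lx x y ∨ Lx y x := by
  classical
  have h1 : ∃ i, x i ≠ y i := by
    by_contra hcon
    push Not at hcon
    exact h (funext hcon)
  have h2 : ∀ i < Nat.find h1, x i = y i := fun i hi => by
    by_contra hcon
    exact Nat.find_min h1 hi hcon
  rcases lt_or_gt_of_ne (Nat.find_spec h1) with h3 | h3
  · exact Or.inl ⟨Nat.find h1, h2, h3⟩
  · exact Or.inr ⟨Nat.find h1, fun i hi => (h2 i hi).symm, h3⟩

/-- the first `n` entries of `f`, then `v`, then zeros -/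
def Tr (f : ℕ → ℕ) (n v : ℕ) : ℕ → ℕ := fun i => if i < n then f i else if i = n then v else 0

theorem Tr_lt {f : ℕ → ℕ} {n v i : ℕ} (h : i < n) : Tr f n v i = f i := if_pos h

theorem Tr_eq (f : ℕ → ℕ) (n v : ℕ) : Tr f n v n = v := by
  unfold Tr
  rw [if_neg (lt_irrefl n), if_pos rfl]

theorem Tr_gt {f : ℕ → ℕ} {n v i : ℕ} (h : n < i) : Tr f n v i = 0 := by
  unfold Tr
  rw [if_neg (by omega), if_neg (by omega)]

theorem Ez_Tr (f : ℕ → ℕ) (n : ℕ) {v : ℕ} (h : v ≠ 0) : Ez (Tr f n v) :=
  ⟨⟨n + 1, fun i hi => Tr_gt (by omega)⟩, n, by rw [Tr_eq]; exact h⟩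

theorem cd_congr {b : Bool} {x y : X} {n : ℕ} (h : Eqn n x y) {i : ℕ} (hi : i ≤ n) :
    cd b x i = cd b y i := by
  cases i with
  | zero => rfl
  | succ i =>
    have h1 := h i (by omega)
    simp only [cd, h1]

theorem cd_inj {b : Bool} {x y : X} {i : ℕ} (h : cd b x (i + 1) = cd b y (i + 1)) :
    x.1 i = y.1 i := by
  have hx := x.2 i
  have hy := y.2 i
  unfold Ok at hx hy
  have key : ∀ p q p' q' m : ℕ, q < m → q' < m → p * m + q = p' * m + q' → p = p' ∧ q = q' := by
    intro p q p' q' m h1 h2 h3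
    have h4 : p = p' := by
      have e1 : (p * m + q) / m = p := by
        rw [Nat.add_comm, Nat.add_mul_div_right _ _ (by omega), Nat.div_eq_of_lt h1, zero_add]
      have e2 : (p' * m + q') / m = p' := by
        rw [Nat.add_comm, Nat.add_mul_div_right _ _ (by omega), Nat.div_eq_of_lt h2, zero_add]
      rw [← e1, ← e2, h3]
    subst h4
    exact ⟨rfl, by omega⟩
  cases b
  · simp only [cd, Bool.false_eq_true, if_false] at h
    obtain ⟨h1, h2⟩ := key _ _ _ _ (i + 2) (by omega) (by omega) (Nat.add_right_cancel h)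
    exact Prod.ext h2 h1
  · simp only [cd, if_true] at h
    obtain ⟨h1, h2⟩ := key _ _ _ _ (i + 2) (by omega) (by omega) (Nat.add_right_cancel h)
    exact Prod.ext h1 h2

theorem cd_mono {p q : ℕ × ℕ} {n : ℕ} (hp : Ok n p) (h : p.1 < q.1 ∨ p.1 = q.1 ∧ p.2 < q.2) :
    p.1 * (n + 2) + p.2 < q.1 * (n + 2) + q.2 := by
  have hp2 := hp.2
  rcases h with h | ⟨h1, h2⟩
  · have h3 : (p.1 + 1) * (n + 2) ≤ q.1 * (n + 2) := Nat.mul_le_mul_right _ h
    rw [Nat.add_mul] at h3
    omega
  · rw [h1]
    omega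

theorem cd_ne_ez {b : Bool} {x : X} {q : ℕ → ℕ} (hq : Ez q) : q ≠ cd b x := by
  rintro rfl
  obtain ⟨⟨n, hn⟩, _⟩ := hq
  have := cd_pos b x n
  rw [hn n le_rfl] at this
  exact lt_irrefl _ this

/-- module LDT.  Let `e` be as in `exists_enum_ez`, `O k l = Lx (e k) (e l)` and
`cu b x k = decide (Lx (e k) (cd b x))`.
`irrefl`, `trans`, `total`: for the lexicographic order of sequences in general.
`dense`: if `q i = q' i` for `i < n` and `q n < q' n`, take a place `m > n` with `q i = 0` for
`i ≥ m`; the sequence `q` with the entry `1` at the place `m` is between `q` and `q'`.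
`noMax`: increase the first entry.  `noMin`: if `n` is the first place with `q n ≠ 0`, take the
sequence with the only entry `1` at the place `n + 1`.
`ne`: the sequence `0, 1, 0, 0, ...`; `ne'`: the sequence `3, 0, 0, ...`.
`low`: transitivity.  `open'`: if `q < cd b x` with first difference at `n`, increase the entry of
`q` at the place `n + 1`.
`above`: if `q` is not `< cd b x` then `cd b x < q` (`cd b x` has no entry `0`); let `n` be the first
difference; the sequence which has the entries of `cd b x` at the places `≤ n`, the entry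
`cd b x (n + 1) + 1` at the place `n + 1`, and is zero afterwards, is between `cd b x` and `q`.
`uc`: if `q i = 0` for `i ≥ n` then the comparison of `q` with `cd b x` is determined by the entries
of `cd b x` at the places `≤ n`, since `cd b x n ≠ 0` (`cd_pos`); these are determined by the first
`n` entries of `x`.
`lt1`: `cd true x` and `cd true y` have the first difference at `n + 1`, and there the entry of
`cd true y` is greater (for `p`, `q` in `L n`, `Lt1 p q` implies
`p.1 * (n + 2) + p.2 < q.1 * (n + 2) + q.2`); take the sequence which has the entries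
of `cd true y` at the places `≤ n + 1` and is zero afterwards.  `lt2` similarly.
`sep`: the sequence `2, 0, 0, ...`.
`inv`: for `i` the sequence with the entries of `cd b x` at the places `≤ n`, and zero afterwards;
for `j` the same with the entry at the place `n` increased by `1`. -/
theorem nonempty_LD : Nonempty LD := by
  classical
  obtain ⟨e, he, hs, hinj⟩ := exists_enum_ez
  have tt : ∀ b x i, decide (Lx (e i) (cd b x)) = true ↔ Lx (e i) (cd b x) := fun b x i =>
    decide_eq_true_iff
  have ff : ∀ b x i, decide (Lx (e i) (cd b x)) = false ↔ ¬ Lx (e i) (cd b x) := fun b x i =>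
    decide_eq_false_iff_not
  refine ⟨⟨fun k l => Lx (e k) (e l), fun b x k => decide (Lx (e k) (cd b x)), ?_, ?_, ?_, ?_, ?_,
    ?_, ?_, ?_, ?_, ?_, ?_, ?_, ?_, ?_, ?_, ?_⟩⟩
  · -- irrefl
    exact fun i => Lx.irrefl _
  · -- trans
    exact fun i j k h h' => h.trans h'
  · -- total
    intro i j
    by_cases h : e i = e j
    · exact Or.inl (hinj _ _ h)
    · exact Or.inr (Lx.total h)
  · -- dense
    rintro i j ⟨n, h1, h2⟩
    obtain ⟨⟨m, hm⟩, _⟩ := he i
    obtain ⟨k, hk⟩ := hs (Tr (e i) (m + n + 1) 1) (Ez_Tr _ _ one_ne_zero)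
    refine ⟨k, ?_, ?_⟩
    · rw [hk]
      refine ⟨m + n + 1, fun a ha => (Tr_lt ha).symm, ?_⟩
      rw [Tr_eq, hm _ (by omega)]
      exact one_pos
    · rw [hk]
      refine ⟨n, fun a ha => ?_, ?_⟩
      · rw [Tr_lt (by omega)]
        exact h1 a ha
      · rw [Tr_lt (by omega)]
        exact h2
  · -- noMax
    intro i
    obtain ⟨k, hk⟩ := hs (Tr (e i) 0 (e i 0 + 1)) (Ez_Tr _ _ (Nat.succ_ne_zero _))
    refine ⟨k, ?_⟩
    rw [hk]
    refine ⟨0, fun a ha => absurd ha (Nat.not_lt_zero a), ?_⟩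
    rw [Tr_eq]
    exact Nat.lt_succ_self _
  · -- noMin
    intro i
    have h1 : ∃ n, e i n ≠ 0 := (he i).2
    obtain ⟨k, hk⟩ := hs (Tr (fun _ => 0) (Nat.find h1 + 1) 1) (Ez_Tr _ _ one_ne_zero)
    refine ⟨k, ?_⟩
    rw [hk]
    refine ⟨Nat.find h1, fun a ha => ?_, ?_⟩
    · rw [Tr_lt (by omega)]
      by_contra hcon
      exact Nat.find_min h1 ha (fun h => hcon h.symm)
    · rw [Tr_lt (by omega)]
      exact Nat.pos_of_ne_zero (Nat.find_spec h1)
  · -- ne
    intro b
    obtain ⟨k, hk⟩ := hs (Tr (fun _ => 0) 1 1) (Ez_Tr _ _ one_ne_zero)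
    refine ⟨k, fun x => (tt b x k).2 ?_⟩
    rw [hk]
    refine ⟨0, fun a ha => absurd ha (Nat.not_lt_zero a), ?_⟩
    rw [Tr_lt one_pos]
    exact cd_pos b x 0
  · -- ne'
    intro b
    obtain ⟨k, hk⟩ := hs (Tr (fun _ => 0) 0 3) (Ez_Tr _ _ (by norm_num))
    refine ⟨k, fun x => (ff b x k).2 ?_⟩
    rw [hk]
    apply Lx.asymm
    refine ⟨0, fun a ha => absurd ha (Nat.not_lt_zero a), ?_⟩
    rw [Tr_eq]
    cases b <;> simp [cd]
  · -- low
    intro b x i j h h'
    exact (tt b x i).2 (h.trans ((tt b x j).1 h'))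
  · -- open'
    intro b x i h
    obtain ⟨n, h1, h2⟩ := (tt b x i).1 h
    obtain ⟨k, hk⟩ := hs (Tr (e i) (n + 1) (e i (n + 1) + 1)) (Ez_Tr _ _ (Nat.succ_ne_zero _))
    refine ⟨k, ?_, (tt b x k).2 ?_⟩
    · show Lx (e i) (e k)
      rw [hk]
      refine ⟨n + 1, fun a ha => (Tr_lt ha).symm, ?_⟩
      rw [Tr_eq]
      exact Nat.lt_succ_self _
    · rw [hk]
      refine ⟨n, fun a ha => ?_, ?_⟩
      · rw [Tr_lt (by omega)]
        exact h1 a ha
      · rw [Tr_lt (by omega)]
        exact h2
  · -- above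
    intro b x i h
    have h' := (ff b x i).1 h
    obtain ⟨n, h1, h2⟩ := (Lx.total (cd_ne_ez (b := b) (x := x) (he i))).resolve_left h'
    obtain ⟨k, hk⟩ := hs (Tr (cd b x) (n + 1) (cd b x (n + 1) + 1))
      (Ez_Tr _ _ (Nat.succ_ne_zero _))
    refine ⟨k, ?_, (ff b x k).2 ?_⟩
    · show Lx (e k) (e i)
      rw [hk]
      refine ⟨n, fun a ha => ?_, ?_⟩
      · rw [Tr_lt (by omega)]
        exact h1 a ha
      · rw [Tr_lt (by omega)]
        exact h2
    · rw [hk]
      apply Lx.asymm
      refine ⟨n + 1, fun a ha => (Tr_lt ha).symm, ?_⟩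
      rw [Tr_eq]
      exact Nat.lt_succ_self _
  · -- uc
    intro b i
    obtain ⟨⟨n, hn⟩, _⟩ := he i
    have key : ∀ x y, Eqn n x y → Lx (e i) (cd b x) → Lx (e i) (cd b y) := by
      rintro x y hxy ⟨m, h1, h2⟩
      have hmn : m ≤ n := by
        by_contra hcon
        have h3 := h1 n (not_le.1 hcon)
        rw [hn n le_rfl] at h3
        have h4 := cd_pos b x n
        omega
      exact ⟨m, fun a ha => (h1 a ha).trans (cd_congr hxy (by omega)),
        h2.trans_eq (cd_congr hxy hmn)⟩
    exact ⟨n, fun x y hxy => decide_eq_decide.2 ⟨key x y hxy, key y x hxy.symm⟩⟩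
  · -- lt1
    intro x y n hxy hlt
    obtain ⟨k, hk⟩ := hs (Tr (cd true y) (n + 1) (cd true y (n + 1)))
      (Ez_Tr _ _ (cd_pos _ _ _).ne')
    have h1 : cd true x (n + 1) < cd true y (n + 1) := by
      simp only [cd, if_true]
      exact Nat.succ_lt_succ (cd_mono (x.2 n) hlt)
    refine ⟨k, (ff _ x k).2 ?_, (tt _ y k).2 ?_⟩
    · rw [hk]
      apply Lx.asymm
      refine ⟨n + 1, fun a ha => ?_, ?_⟩
      · rw [Tr_lt ha]
        exact cd_congr hxy (by omega)
      · rw [Tr_eq]
        exact h1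
    · rw [hk]
      refine ⟨n + 2, fun a ha => ?_, ?_⟩
      · rcases Nat.lt_or_ge a (n + 1) with h2 | h2
        · exact Tr_lt h2
        · have h3 : a = n + 1 := by omega
          subst h3
          exact Tr_eq _ _ _
      · rw [Tr_gt (by omega)]
        exact cd_pos _ _ _
  · -- lt2
    intro x y n hxy hlt
    obtain ⟨k, hk⟩ := hs (Tr (cd false y) (n + 1) (cd false y (n + 1)))
      (Ez_Tr _ _ (cd_pos _ _ _).ne')
    have h1 : cd false x (n + 1) < cd false y (n + 1) := by
      simp only [cd, Bool.false_eq_true, if_false]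
      exact Nat.succ_lt_succ (cd_mono (p := ((x.1 n).2, (x.1 n).1))
        (q := ((y.1 n).2, (y.1 n).1)) ⟨(x.2 n).2, (x.2 n).1⟩ hlt)
    refine ⟨k, (ff _ x k).2 ?_, (tt _ y k).2 ?_⟩
    · rw [hk]
      apply Lx.asymm
      refine ⟨n + 1, fun a ha => ?_, ?_⟩
      · rw [Tr_lt ha]
        exact cd_congr hxy (by omega)
      · rw [Tr_eq]
        exact h1
    · rw [hk]
      refine ⟨n + 2, fun a ha => ?_, ?_⟩
      · rcases Nat.lt_or_ge a (n + 1) with h2 | h2
        · exact Tr_lt h2
        · have h3 : a = n + 1 := by omega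
          subst h3
          exact Tr_eq _ _ _
      · rw [Tr_gt (by omega)]
        exact cd_pos _ _ _
  · -- sep
    obtain ⟨k, hk⟩ := hs (Tr (fun _ => 0) 0 2) (Ez_Tr _ _ (by norm_num))
    refine ⟨k, fun x => (ff _ x k).2 ?_, fun x => (tt _ x k).2 ?_⟩
    · rw [hk]
      apply Lx.asymm
      refine ⟨0, fun a ha => absurd ha (Nat.not_lt_zero a), ?_⟩
      rw [Tr_eq]
      simp [cd]
    · rw [hk]
      refine ⟨1, fun a ha => ?_, ?_⟩
      · have h3 : a = 0 := by omega
        subst h3
        rw [Tr_eq]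
        simp [cd]
      · rw [Tr_gt (by omega)]
        exact cd_pos _ _ _
  · -- inv
    intro b x n
    obtain ⟨i, hi⟩ := hs (Tr (cd b x) n (cd b x n)) (Ez_Tr _ _ (cd_pos _ _ _).ne')
    obtain ⟨j, hj⟩ := hs (Tr (cd b x) n (cd b x n + 1)) (Ez_Tr _ _ (Nat.succ_ne_zero _))
    refine ⟨i, j, fun y => ?_⟩
    have h0 : ((decide (Lx (e i) (cd b y)) = true ∧ decide (Lx (e j) (cd b y)) = false) ↔
        (Lx (e i) (cd b y) ∧ ¬ Lx (e j) (cd b y))) := by
      rw [tt, ff]
    refine h0.trans ?_
    rw [hi, hj]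
    constructor
    · rintro ⟨⟨m, h1, h2⟩, h3⟩
      have hmn : n < m := by
        by_contra hcon
        apply h3
        rcases lt_or_eq_of_le (not_lt.1 hcon) with h4 | h4
        · refine ⟨m, fun a ha => ?_, ?_⟩
          · rw [Tr_lt (by omega), ← h1 a ha, Tr_lt (by omega)]
          · rw [Tr_lt h4]
            rw [Tr_lt h4] at h2
            exact h2
        · subst h4
          rw [Tr_eq] at h2
          rcases lt_or_eq_of_le (Nat.succ_le_of_lt h2) with h5 | h5
          · refine ⟨m, fun a ha => ?_, ?_⟩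
            · rw [Tr_lt ha, ← h1 a ha, Tr_lt ha]
            · rw [Tr_eq]
              exact h5
          · refine ⟨m + 1, fun a ha => ?_, ?_⟩
            · rcases Nat.lt_or_ge a m with h6 | h6
              · rw [Tr_lt h6, ← h1 a h6, Tr_lt h6]
              · have h7 : a = m := by omega
                subst h7
                rw [Tr_eq]
                exact h5
            · rw [Tr_gt (by omega)]
              exact cd_pos _ _ _
      intro a ha
      apply cd_inj (b := b)
      have h4 := h1 (a + 1) (by omega)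
      rcases Nat.lt_or_ge (a + 1) n with h5 | h5
      · rw [Tr_lt h5] at h4
        exact h4
      · have h6 : a + 1 = n := by omega
        rw [h6] at h4 ⊢
        rw [Tr_eq] at h4
        exact h4
    · intro hxy
      refine ⟨⟨n + 1, fun a ha => ?_, ?_⟩, ?_⟩
      · rcases Nat.lt_or_ge a n with h5 | h5
        · rw [Tr_lt h5]
          exact cd_congr hxy (by omega)
        · have h6 : a = n := by omega
          subst h6
          rw [Tr_eq]
          exact cd_congr hxy le_rfl
      · rw [Tr_gt (by omega)]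
        exact cd_pos _ _ _
      · apply Lx.asymm
        refine ⟨n, fun a ha => ?_, ?_⟩
        · rw [Tr_lt ha]
          exact (cd_congr hxy (by omega)).symm
        · rw [Tr_eq, ← cd_congr hxy le_rfl]
          exact Nat.lt_succ_self _

/-- fixed data -/
noncomputable def ld : LD := Classical.choice nonempty_LD

end Pool.Agent.EN45
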