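import Pool.Agent.EN45.Cnd
import Pool.Agent.EN45.Fus

/-!
# Continuous reading of names (module RDS)
-/

namespace Pool.Agent.EN45

open Classical Set Pool.Agent Pool.Agent.LadderTree Pool.Agent.Forcing Pool.Agent.MAx
open Pool.Agent.BVM (BSet UF eqv memv chk Congr le_of_uf Disc OPair FunOn op on onT)
open Pool.Agent.OG45 Pool.Agent.IN45

variable {I : Type} [LinearOrder I]

/-- the statement `S n x` is decided below `p ∘ B` by the box of the level function `m` around
`z` -/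
def Dcd {Y : Type} (p : Cnd I) (S : ℕ → Y → GG (Cnd I) → Prop) (n : ℕ) (m : I → ℕ)
    (B : (I → X) → I → X) (z : I → X) (x : Y) : Prop :=
  ∀ (q : Cnd I) (K : (I → X) → I → X), OnB q.t K → (∀ w ∈ q.t, ∀ δ, Eqn (m δ) (K w δ) (z δ)) →
    (∀ w ∈ q.t, q.f w = p.f (B (K w))) → Fc q (S n x)

/-- the step for all boxes of a level function.
`exists_macro` for `D = univ` and `Δ B z = ∃ x, Dcd p S n m B z x`.  `hcongr` is clear.
`hdense`: let `u = bx m _ z`, which is a sub-box of `p.t` (`sub_bx`), and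
`q₀ = p.app ((hB.mp _) : Mp u p.t B)`.  By `h` there is `s ≤ q₀` with `Fc s (S n x)`; let
`Via s q₀ K₁`.  Let `v` be a box with `Sub v s.t` and `u.lv ≤ v.lv` (`bx` of the maximum of the
levels, around `s.t.pt`), and `K = fun z => K₁ (dp u v z)` (`onB_dp`, `dp_mem`).  If `q`, `K'` are as
in `Dcd` for `B ∘ J u K`, then `J u K (K' w) = K (K' w)` (`J_eq`), so `q ≤ s` by means of
`fun w => dp u v (K' w)`.  `hher`: if `q`, `K'` are as in `Dcd` for `B ∘ J u K` and `z'`, then
`q` and `fun w => J u K (K' w)` are as in `Dcd` for `B` and `z'` (`OnB.J`, `pres_J`). -/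
theorem exists_dcd {Y : Type} {S : ℕ → Y → GG (Cnd I) → Prop} {p : Cnd I} {n : ℕ}
    (h : ∀ r ≤ p, ∃ s ≤ r, ∃ x, Fc s (S n x)) {m : I → ℕ} (hm : Lvl p.t univ m)
    {B : (I → X) → I → X} (hB : Gd p.t univ B) :
    ∃ K, Gd p.t univ K ∧ Pres m K ∧ ∀ z ∈ p.t, ∃ x, Dcd p S n m (fun w => B (K w)) z x := by
  refine exists_macro (t := p.t) (D := univ) hm.fin hm.le
    (Δ := fun B z => ∃ x, Dcd p S n m B z x) ?_ ?_ ?_ hB
  · rintro B z z' hzz' ⟨x, hx⟩
    exact ⟨x, fun q K hK h1 h2 => hx q K hK (fun w hw δ => (h1 w hw δ).trans (hzz' δ).symm) h2⟩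
  · intro B hB z hz
    have hu : Sub (bx m hm.fin z) p.t := sub_bx hm.le hz
    obtain ⟨s, ⟨K₁, hK₁⟩, x, hx⟩ := h (p.app (hB.mp hu)) (via_app p (hB.mp hu)).le
    have hfin : {δ | max (m δ) (s.t.lv δ) ≠ 0}.Finite := by
      refine (hm.fin.union s.t.fin).subset fun δ hδ => ?_
      by_contra h2
      rw [mem_union, not_or] at h2
      have h3 : m δ = 0 := not_not.1 h2.1
      have h4 : s.t.lv δ = 0 := not_not.1 h2.2
      exact hδ (by rw [h3, h4, max_self])
    have hv : Sub (bx (fun δ => max (m δ) (s.t.lv δ)) hfin s.t.pt) s.t :=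
      sub_bx (fun δ => le_max_right _ _) s.t.pt_mem
    obtain ⟨v, hvv⟩ : ∃ v, v = bx (fun δ => max (m δ) (s.t.lv δ)) hfin s.t.pt := ⟨_, rfl⟩
    have hlv : ∀ δ, (bx m hm.fin z).lv δ ≤ v.lv δ := fun δ => by
      rw [hvv]; exact le_max_left _ _
    rw [← hvv] at hv
    have hdp : Mp (bx m hm.fin z) s.t (dp (bx m hm.fin z) v) :=
      ⟨onB_dp hlv, fun w _ => hv.2 _ (dp_mem _ v w)⟩
    refine ⟨fun w => K₁ (dp (bx m hm.fin z) v w), hK₁.mp.comp hdp,
      fun γ hγ => absurd (mem_univ γ) hγ, x, fun q K' hK' h1 h2 => ?_⟩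
    have hK'u : ∀ w ∈ q.t, K' w ∈ bx m hm.fin z := fun w hw => mem_bx_iff.2 (h1 w hw)
    have hvia : Via q s fun w => dp (bx m hm.fin z) v (K' w) := by
      refine ⟨hdp.comp ⟨hK', hK'u⟩, fun w hw => ?_⟩
      rw [h2 w hw]
      beta_reduce
      rw [J_eq (hK'u w hw), hK₁.eq _ (hdp.maps _ (hK'u w hw))]
      rfl
    exact hx.mono hvia.le
  · rintro B _ z _ z' _ _ K hK _ ⟨x, hx⟩
    refine ⟨x, fun q K' hK' h1 h2 => hx q (fun w => J (bx m hm.fin z) K (K' w))
      ((hK.onb.J hK.maps).comp hK' fun _ _ => mem_topB _) (fun w hw δ => ?_) h2⟩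
    exact (pres_J hK.maps (K' w) δ).trans (h1 w hw δ)

/-- module RDS: continuous reading.
`exists_fus` for `t = p.t`, `D = univ`, `C₀ = ∅` and
`Θ n B m = ∀ j, n = j + 1 → ∀ z ∈ p.t, ∃ x, Dcd p S j m B z x`; the step for `n`, `B`, `m`, `γ` is
`exists_dcd` for the level function `m' = Function.update m γ (m γ + 1)` and the statements
`S n x`.  Let `q = p.app (hH.mp _)` for the map `H`, and let `g z n` be a value `x` with
`Dcd p S n (m (n + 1)) (B (n + 1)) z x`, chosen by `Classical.choose` (if there is any); the property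
`Dcd` only depends on the box of `z`, so `g z n` is constant on the boxes of `m (n + 1)` (`funext`,
`propext`); hence `CtsOn q.t g`, and `g` depends on the coordinates `δ` with `m n δ ≠ 0` for
some `n`.  Reading: let `Via r q K` and `g (K z) n = x` for all `z ∈ r.t`.  `Fc.dense`: let `r' ≤ r`,
`Via r' r L`.  By `exists_small'` for the map `K ∘ L` and `m (n + 1)` there is a box `u` around
`z₀ = r'.t.pt`.  The condition `r'.res _` forces `S n x` by `Dcd` for the point `K (L z₀)`, with the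
map `fun w => R (n + 1) (K (L w))`. -/
theorem exists_reads [WellFoundedLT I] [Nonempty I] {Y : Type} {S : ℕ → Y → GG (Cnd I) → Prop}
    (hS : ∀ n x, RpP (S n x)) {p : Cnd I} (h : ∀ n, ∀ r ≤ p, ∃ s ≤ r, ∃ x, Fc s (S n x)) :
    ∃ q ≤ p, ∃ g, Rd q g S ∧ ∃ C : Set I, C.Countable ∧ Dep C q.t g := by
  obtain ⟨H, B, R, m, C, hH, -, -, -, -, -, hall⟩ := exists_fus (t := p.t) (D := univ)
    univ_nonempty (C₀ := ∅) countable_empty
    (Θ := fun n B m => ∀ j, n = j + 1 → ∀ z ∈ p.t, ∃ x, Dcd p S j m B z x)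
    (fun j hj => absurd hj (Nat.succ_ne_zero j).symm)
    (by
      intro n B m hB hm _ γ _
      have hle : ∀ δ, m δ ≤ Function.update m γ (m γ + 1) δ := by
        intro δ
        by_cases hδ : δ = γ
        · subst hδ; rw [Function.update_self]; exact Nat.le_succ _
        · rw [Function.update_of_ne hδ]
      have hm' : Lvl p.t univ (Function.update m γ (m γ + 1)) := by
        refine ⟨(hm.fin.insert γ).subset fun δ hδ => ?_, fun δ => (hm.le δ).trans (hle δ),
          fun δ hδ => absurd (mem_univ δ) hδ⟩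
        by_cases h1 : δ = γ
        · exact Or.inl h1
        · refine Or.inr ?_
          have h2 : Function.update m γ (m γ + 1) δ ≠ 0 := hδ
          rw [Function.update_of_ne h1] at h2
          exact h2
      obtain ⟨K, h1, h2, h3⟩ := exists_dcd (h n) hm' hB
      refine ⟨K, Function.update m γ (m γ + 1), h1, h2.mono hle, hm', hle, ?_, ?_⟩
      · rw [Function.update_self]; exact Nat.lt_succ_self _
      · intro j hj
        obtain rfl : n = j := Nat.succ_injective hj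
        exact h3)
  obtain ⟨-, -, x₀, -⟩ := h 0 p le_rfl
  have : Nonempty Y := ⟨x₀⟩
  obtain ⟨g, hg⟩ : ∃ g : (I → X) → ℕ → Y, ∀ z n,
      g z n = Classical.epsilon fun x => Dcd p S n (m (n + 1)) (B (n + 1)) z x := ⟨_, fun _ _ => rfl⟩
  have hgs : ∀ z ∈ p.t, ∀ n, Dcd p S n (m (n + 1)) (B (n + 1)) z (g z n) := by
    intro z hz n
    rw [hg]
    exact Classical.epsilon_spec ((hall (n + 1)).1 n rfl z hz)
  have hgc : ∀ n z z', (∀ δ, Eqn (m (n + 1) δ) (z δ) (z' δ)) → g z n = g z' n := by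
    intro n z z' hzz'
    rw [hg, hg]
    congr 1
    funext x
    apply propext
    constructor
    · exact fun hx q K hK h1 h2 => hx q K hK (fun w hw δ => (h1 w hw δ).trans (hzz' δ).symm) h2
    · exact fun hx q K hK h1 h2 => hx q K hK (fun w hw δ => (h1 w hw δ).trans (hzz' δ)) h2
  have hL : ∀ n, Lvl p.t univ (m n) := fun n => (hall n).2.2.2.2.1
  refine ⟨p.app (hH.mp (Sub.refl _)), (via_app p _).le, g, ⟨fun n => ?_, ?_⟩,
    ⋃ n, {δ | m (n + 1) δ ≠ 0}, countable_iUnion fun n => (hL (n + 1)).fin.countable, ?_⟩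
  · refine ⟨(hL (n + 1)).fin.toFinset, (hL (n + 1)).fin.toFinset.sup (m (n + 1)),
      fun z _ z' _ h1 => hgc n z z' fun δ => ?_⟩
    by_cases hδ : m (n + 1) δ = 0
    · rw [hδ]; exact eqn_zero _ _
    · have h2 : δ ∈ (hL (n + 1)).fin.toFinset := (hL (n + 1)).fin.mem_toFinset.2 hδ
      exact (h1 δ h2).mono (Finset.le_sup (f := m (n + 1)) h2)
  · intro r K hK n x hx
    refine Fc.dense (hS n x) ?_
    rintro r' ⟨L, hL'⟩
    obtain ⟨u, hu, h1, h2⟩ := exists_small' (hK.mp.comp hL'.mp).onb (hL (n + 1)).fin r'.t.pt_mem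
    refine ⟨r'.res hu, (via_res r' hu).le, ?_⟩
    have hmem : ∀ w ∈ r'.t, K (L w) ∈ p.t := fun w hw => hK.mp.maps _ (hL'.mp.maps w hw)
    have h3 := hgs (K (L r'.t.pt)) (hmem _ r'.t.pt_mem) n
    rw [hx (L r'.t.pt) (hL'.mp.maps _ r'.t.pt_mem)] at h3
    obtain ⟨-, -, hR, hRP, -, -, hHR⟩ := hall (n + 1)
    refine h3 (r'.res hu) (fun w => R (n + 1) (K (L w))) ?_ (fun w hw δ => ?_) (fun w hw => ?_)
    · exact hR.onb.comp ((hK.mp.comp hL'.mp).onb.mono hu) fun _ _ => mem_topB _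
    · exact (hRP (K (L w)) δ).trans (h2 w hw δ)
    · have h4 : (r'.res hu).f w = r'.f w := rfl
      rw [h4, hL'.eq w (hu.2 w hw), hK.eq _ (hL'.mp.maps w (hu.2 w hw))]
      show p.f (H (K (L w))) = _
      rw [hHR]
  · intro z _ z' _ h1
    funext n
    refine hgc n z z' fun δ => ?_
    by_cases hδ : m (n + 1) δ = 0
    · rw [hδ]; exact eqn_zero _ _
    · rw [h1 δ (mem_iUnion.2 ⟨n, hδ⟩)]
      exact Eqn.refl _ _

/-- continuous reading of a set of natural numbers -/
theorem exists_reads_set [WellFoundedLT I] [Nonempty I] (a : BSet (RO (Cnd I))) (p : Cnd I) :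
    ∃ q ≤ p, ∃ g, Rd q g (SB a) ∧ ∃ C : Set I, C.Countable ∧ Dep C q.t g := by
  refine exists_reads (rpSB a) fun n r _ => ?_
  obtain ⟨s, hs, h | h⟩ := fc_decide (RpP.mem (on n) a) r
  · exact ⟨s, hs, true, fun F hF => iff_of_true (h F hF) rfl⟩
  · exact ⟨s, hs, false, fun F hF => iff_of_false (h F hF) (by simp)⟩

end Pool.Agent.EN45
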