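import Pool.Agent.EN45.Clp
import Pool.Agent.EN45.Cut
import Pool.Agent.EN45.Rds
import Pool.Agent.EN45.Ldt

/-!
# The names of the points of the entangled set (modules IXS, NSL, NSN)
-/

namespace Pool.Agent.EN45

open Classical Set Pool.Agent Pool.Agent.LadderTree Pool.Agent.Forcing Pool.Agent.MAx
open Pool.Agent.BVM (BSet UF eqv memv chk Congr le_of_uf Disc OPair FunOn op on onT)
open Pool.Agent.OG45 Pool.Agent.IN45 Cardinal
open Pool.Agent.ML45 (IM mk_IM mk_Iio_IM bdd_IM WM mk_WM exists_gt_WM countable_Iic_WM)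

noncomputable instance : Nonempty IM := by
  obtain ⟨b, -⟩ := bdd_IM (Λ := Empty) (by simp) (fun e => e.elim)
  exact ⟨b⟩

/-- the indices: each pair of a node `(n, x)` (the first `n` entries of `x`) and an index `i`
occurs -/
theorem exists_sig : ∃ σ : IM → (ℕ × X) × IM, Function.Surjective σ := by
  have hX : #X ≤ 𝔠 := by
    have h1 : #X ≤ #(ℕ → ℕ × ℕ) := mk_le_of_injective Subtype.val_injective
    refine h1.trans ?_
    rw [← Cardinal.power_def]
    simp
  have h2 : #((ℕ × X) × IM) ≤ #IM := by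
    simp only [mk_prod, Cardinal.lift_id, mk_nat]
    have h3 : (𝔠 : Cardinal.{0}) ≤ #IM := by rw [mk_IM]; exact (Order.lt_succ _).le
    calc ℵ₀ * #X * #IM ≤ 𝔠 * 𝔠 * #IM :=
          mul_le_mul' (mul_le_mul' aleph0_le_continuum hX) le_rfl
      _ ≤ #IM * #IM * #IM := mul_le_mul' (mul_le_mul' h3 h3) le_rfl
      _ = #IM := by
          rw [mul_eq_self (aleph0_le_continuum.trans h3), mul_eq_self
            (aleph0_le_continuum.trans h3)]
  have : Nonempty ((ℕ × X) × IM) := ⟨((0, x0), Classical.arbitrary IM)⟩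
  obtain ⟨g⟩ := h2
  exact ⟨Function.invFun g, Function.invFun_surjective g.injective⟩

/-- the node given to the index `β` -/
noncomputable def nd (β : IM) : ℕ × X := (exists_sig.choose β).1

/-- the second index given to the index `β` -/
noncomputable def ix (β : IM) : IM := (exists_sig.choose β).2

theorem exists_nd (s : ℕ × X) (i : IM) : ∃ β, nd β = s ∧ ix β = i := by
  obtain ⟨β, hβ⟩ := exists_sig.choose_spec (s, i)
  exact ⟨β, congrArg Prod.fst hβ, congrArg Prod.snd hβ⟩

/-- the point `x` with the first entries replaced by the node of `β` -/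
noncomputable def ys (β : IM) (x : X) : X := spl (nd β).1 (nd β).2 x

theorem ys_eqn (β : IM) (x : X) : Eqn (nd β).1 (ys β x) (nd β).2 := spl_eqn _ _ _

theorem ys_eqn_ys (β : IM) {m : ℕ} {x y : X} (h : Eqn m x y) : Eqn m (ys β x) (ys β y) :=
  spl_eqn_spl h

theorem ys_ge {β : IM} (x : X) {i : ℕ} (h : (nd β).1 ≤ i) : (ys β x).1 i = x.1 i := spl_ge _ _ h

/-- the cut given by the coordinate `β` of a point -/
noncomputable def cuz (b : Bool) (β : IM) (z : IM → X) : ℕ → Bool := ld.cu b (ys β (z β))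

theorem cts_cuz (b : Bool) (β : IM) : CtsOn topB (cuz b β) := by
  intro i
  obtain ⟨n, hn⟩ := ld.uc b i
  exact ⟨{β}, n, fun z _ z' _ h => hn _ _ (ys_eqn_ys β (h β (Finset.mem_singleton_self β)))⟩

/-- the name of the point `(b, β)` of the entangled set -/
noncomputable def cN (b : Bool) (β : IM) : BSet (RO (Cnd IM)) := rN tp (cuz b β)

theorem cN_iff {q : Cnd IM} {b : Bool} {β : IM} {n : ℕ} {c : Bool}
    (h : ∀ z ∈ q.t, cuz b β (q.f z) n = c) : Fc q (SB (cN b β) n c) := rN_iff (via_tp q) h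

/-- below `q` the entries of a point are decided on small boxes -/
theorem rd_cN (q : Cnd IM) (b : Bool) (β : IM) :
    Rd q (fun z => cuz b β (q.f z)) (SB (cN b β)) :=
  (rd_rN (p := tp) (cts_cuz b β)).comp (via_tp q)

theorem dep_cN (q : Cnd IM) (b : Bool) {β α : IM} (h : β < α) :
    Dep (Iio α) q.t fun z => cuz b β (q.f z) := fun z hz z' hz' h' => by
  show ld.cu b (ys β (q.f z β)) = ld.cu b (ys β (q.f z' β))
  rw [q.onb.low β z hz z' hz' fun δ hδ => h' δ (hδ.trans_lt h)]

/-- different points have different cuts -/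
theorem cu_ne (b : Bool) {x y : X} (h : x ≠ y) : ∃ i, ld.cu b x i ≠ ld.cu b y i := by
  obtain ⟨n, h1, h2⟩ := exists_diff h
  cases b
  · rcases (lt2_tri h2) with h3 | h3
    · obtain ⟨i, h4, h5⟩ := ld.lt2 x y n h1 h3
      exact ⟨i, by rw [h4, h5]; simp⟩
    · obtain ⟨i, h4, h5⟩ := ld.lt2 y x n h1.symm h3
      exact ⟨i, by rw [h4, h5]; simp⟩
  · rcases (lt1_tri h2) with h3 | h3
    · obtain ⟨i, h4, h5⟩ := ld.lt1 x y n h1 h3
      exact ⟨i, by rw [h4, h5]; simp⟩
    · obtain ⟨i, h4, h5⟩ := ld.lt1 y x n h1.symm h3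
      exact ⟨i, by rw [h4, h5]; simp⟩

/-- module NSL: a name which is read by a function of the coordinates below `β` is not the name
of a point at `β`.
Let `n` be the maximum of `r.t.lv β` and `(nd β).1`, let `z₀ = r.t.pt`, and let `z₁`, `z₂` be the
points `z₀` with the entry at the coordinate `β` and the place `n` changed to `(0, 0)` and
`(0, 1)`.  They are in `r.t`.  By `OnB.split` for `r.f` the points `r.f z₁ β` and `r.f z₂ β` agree up
to some `m ≥ n` and differ at `m`; hence `ys β` of them differ, and by `cu_ne` there is `i` with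
`cuz b β (r.f z₁) i ≠ cuz b β (r.f z₂) i`.  On the other hand `g z₁ = g z₂` by `hdep`.  By
`exists_decided` there are smaller boxes `u₁`, `u₂` around `z₁` and `z₂` on which the entries `< i + 1`
of both functions are constant.  If `r` forces `cN b β = a` then the conditions `r.res _` for
`u₁` and `u₂` give (`rd_cN`, `hg.reads`, `Fc.false`) `cuz b β (r.f z₁) i = g z₁ i` and
`cuz b β (r.f z₂) i = g z₂ i`, a contradiction. -/
theorem not_eq_read {r : Cnd IM} {β : IM} {a : BSet (RO (Cnd IM))} {g : (IM → X) → ℕ → Bool}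
    (hg : Rd r g (SB a)) (hdep : Dep (Iio β) r.t g) (b : Bool) :
    ¬ Fc r fun F => nm F (cN b β) = nm F a := by
  intro hF
  obtain ⟨n, hn1, hn2⟩ : ∃ n, r.t.lv β ≤ n ∧ (nd β).1 ≤ n :=
    ⟨max (r.t.lv β) (nd β).1, le_max_left _ _, le_max_right _ _⟩
  have ok1 : Ok n (0, 0) := ⟨Nat.zero_le _, Nat.zero_le _⟩
  have ok2 : Ok n (0, 1) := ⟨Nat.zero_le _, by simp⟩
  obtain ⟨z₁, hz₁⟩ : ∃ z₁, z₁ = Function.update r.t.pt β (upd (r.t.pt β) n (0, 0) ok1) := ⟨_, rfl⟩
  obtain ⟨z₂, hz₂⟩ : ∃ z₂, z₂ = Function.update r.t.pt β (upd (r.t.pt β) n (0, 1) ok2) := ⟨_, rfl⟩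
  have hm1 : z₁ ∈ r.t := by
    rw [hz₁]; exact update_mem r.t.pt_mem (upd_eqn _ _ _ _ hn1)
  have hm2 : z₂ ∈ r.t := by
    rw [hz₂]; exact update_mem r.t.pt_mem (upd_eqn _ _ _ _ hn1)
  have h1β : z₁ β = upd (r.t.pt β) n (0, 0) ok1 := by rw [hz₁, Function.update_self]
  have h2β : z₂ β = upd (r.t.pt β) n (0, 1) ok2 := by rw [hz₂, Function.update_self]
  have hb : ∀ δ < β, z₂ δ = z₁ δ := fun δ hδ => by
    rw [hz₁, hz₂, Function.update_of_ne hδ.ne, Function.update_of_ne hδ.ne]
  obtain ⟨m, -, hnm, -, -, -, -, hne⟩ := r.onb.split hm1 hm2 hb (n := n)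
    (by rw [h1β, h2β]; exact (upd_eqn _ _ _ _ le_rfl).trans (upd_eqn _ _ _ _ le_rfl).symm)
    (by rw [h1β, h2β, upd_self, upd_self]; simp)
  have hys : ys β (r.f z₁ β) ≠ ys β (r.f z₂ β) := by
    intro h
    have h3 : (ys β (r.f z₁ β)).1 m = (ys β (r.f z₂ β)).1 m := by rw [h]
    rw [ys_ge _ (hn2.trans hnm), ys_ge _ (hn2.trans hnm)] at h3
    exact hne h3.symm
  obtain ⟨i, hi⟩ := cu_ne b hys
  have hg12 : g z₁ = g z₂ := hdep z₁ hm1 z₂ hm2 fun δ hδ => (hb δ hδ).symm
  -- the value of the read function agrees with that of the cut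
  have key : ∀ z ∈ r.t, cuz b β (r.f z) i = g z i := by
    intro z hz
    obtain ⟨u, hu, hzu, hvia, hle, hc⟩ := exists_decided (Via.refl r)
      (rd_cN r b β).cts (i + 1) hz
    obtain ⟨v, hv, hzv, hvia', hle', hc'⟩ := exists_decided hvia hg.cts (i + 1)
      (z₀ := z) hzu
    have h1 : Fc ((r.res hu).res hv) (SB (cN b β) i (cuz b β (r.f z) i)) :=
      (rd_cN r b β).reads _ _ hvia' i _ fun w hw => hc w (hv.2 w hw) i (Nat.lt_succ_self i)
    have h2 : Fc ((r.res hu).res hv) (SB a i (g z i)) :=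
      hg.reads _ _ hvia' i _ fun w hw => hc' w hw i (Nat.lt_succ_self i)
    obtain ⟨F, hFF⟩ := exists_gg ((r.res hu).res hv)
    have h3 := h1 F hFF
    have h4 := h2 F hFF
    have h5 : nm F (cN b β) = nm F a := hF.mono (hle'.trans hle) F hFF
    have h6 : (cuz b β (r.f z) i = true) ↔ (g z i = true) := by
      unfold SB at h3 h4
      rw [h5] at h3
      exact h3.symm.trans h4
    exact Bool.eq_iff_iff.2 h6
  refine hi ?_
  have h1 := key z₁ hm1
  have h2 := key z₂ hm2
  rw [hg12] at h1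
  exact h1.trans h2.symm

/-- different points are different.  For `β ≠ β'`, say `β' < β`, `gg_not` and `not_eq_read` with
`rd_cN`, `dep_cN`; for `β = β'` and `b ≠ b'`, `ld.sep`, `rN_pos`, `rN_neg` (with `gg_all` or
`gg_not`). -/
theorem cN_ne {b b' : Bool} {β β' : IM} (h : ¬ (b = b' ∧ β = β')) (F : GG (Cnd IM)) :
    nm F (cN b β) ≠ nm F (cN b' β') := by
  have hR : ∀ (b b' : Bool) (β β' : IM), RpP fun F : GG (Cnd IM) =>
      nm F (cN b β) = nm F (cN b' β') := fun b b' β β' => RpP.eq _ _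
  -- different indices
  have hlt : ∀ (b b' : Bool) (β β' : IM), β' < β → nm F (cN b β) ≠ nm F (cN b' β') := by
    intro b b' β β' hβ
    exact gg_not (hR b b' β β') (fun q => not_eq_read (rd_cN q b' β') (dep_cN q b' hβ) b) F
  rcases lt_trichotomy β β' with h1 | h1 | h1
  · exact (hlt b' b β' β h1).symm
  · subst h1
    have hb : b ≠ b' := fun hb => h ⟨hb, rfl⟩
    -- the two lines are separated
    have hsep : ∀ β : IM, nm F (cN true β) ≠ nm F (cN false β) := by
      intro β
      refine gg_not (hR true false β β) (fun q hq => ?_) F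
      obtain ⟨i, h1, h2⟩ := ld.sep
      have h3 : Fc q (SB (cN true β) i false) := cN_iff fun z _ => h1 _
      have h4 : Fc q (SB (cN false β) i true) := cN_iff fun z _ => h2 _
      obtain ⟨G, hG⟩ := exists_gg q
      have h5 := h3 G hG
      have h6 := h4 G hG
      unfold SB at h5 h6
      rw [hq G hG] at h5
      exact absurd (h5.1 (h6.2 rfl)) (by simp)
    cases b <;> cases b'
    · exact absurd rfl hb
    · exact (hsep β).symm
    · exact hsep β
    · exact absurd rfl hb
  · exact hlt b b' β β' h1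

end Pool.Agent.EN45
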