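import Pool.Agent.EN45.Sgn
import Pool.Agent.EN45.Ns

/-!
# Two points with prescribed order of the cuts (module EN1)
-/

namespace Pool.Agent.EN45

open Classical Set
open Pool.Agent.ML45 (IM)

/-- module EN1.
Let `G` be the finite set of all `β i`, `i < k`, and `N δ = (nd δ).1`.  For each `δ` let `s₁ δ` be
`true` iff there is `i < k` with `b i = true`, `β i = δ`, `t i = true`, and `s₂ δ` similarly with
`b i = false`; as the pairs `(b i, β i)` are different, `s₁ (β i) = t i` if `b i = true` and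
`s₂ (β i) = t i` if `b i = false`.  Let `p δ`, `q δ` be as in `exists_digits (s₁ δ) (s₂ δ)`.  Apply
`exists_signs` to `r.t`, `r.f`, `w = r.t.pt`.  `z` and `z'` agree at all `δ < γ`, as these are not in
`G`.  For `i < k` let `m`, `d` be as in `Dfr` for `β i`.  Then `ys (β i) (r.f z (β i))` and
`ys (β i) (r.f z' (β i))` agree before `m` (`ys_eqn_ys`) and have the entries `d (p (β i))`,
`d (q (β i))` at `m` (`ys_ge`, `N (β i) ≤ m`); by `Emb.lt1`, `Emb.lt2` and `ld.lt1`, `ld.lt2` there is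
`ρ i` as required. -/
theorem exists_two_points (r : Cnd IM) (k : ℕ) (b t : ℕ → Bool) (β : ℕ → IM) (γ : IM)
    (hγ : ∀ i < k, γ ≤ β i) (hne : ∀ i < k, ∀ j < k, b i = b j → β i = β j → i = j) :
    ∃ z ∈ r.t, ∃ z' ∈ r.t, ∃ ρ : ℕ → ℕ, (∀ δ < γ, z δ = z' δ) ∧ ∀ i < k,
      cuz (b i) (β i) (r.f z) (ρ i) = !(t i) ∧ cuz (b i) (β i) (r.f z') (ρ i) = t i := by
  obtain ⟨s₁, hs₁⟩ : ∃ s : IM → Bool, ∀ δ, (s δ = true ↔ ∃ i < k, b i = true ∧ β i = δ ∧
      t i = true) := ⟨fun δ => decide (∃ i < k, b i = true ∧ β i = δ ∧ t i = true), fun δ =>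
        decide_eq_true_iff⟩
  obtain ⟨s₂, hs₂⟩ : ∃ s : IM → Bool, ∀ δ, (s δ = true ↔ ∃ i < k, b i = false ∧ β i = δ ∧
      t i = true) := ⟨fun δ => decide (∃ i < k, b i = false ∧ β i = δ ∧ t i = true), fun δ =>
        decide_eq_true_iff⟩
  have hs₁' : ∀ i < k, b i = true → s₁ (β i) = t i := by
    intro i hi hb
    rw [Bool.eq_iff_iff, hs₁]
    constructor
    · rintro ⟨j, hj, hbj, hβ, htj⟩
      rw [hne i hi j hj (hb.trans hbj.symm) hβ.symm]
      exact htj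
    · intro ht
      exact ⟨i, hi, hb, rfl, ht⟩
  have hs₂' : ∀ i < k, b i = false → s₂ (β i) = t i := by
    intro i hi hb
    rw [Bool.eq_iff_iff, hs₂]
    constructor
    · rintro ⟨j, hj, hbj, hβ, htj⟩
      rw [hne i hi j hj (hb.trans hbj.symm) hβ.symm]
      exact htj
    · intro ht
      exact ⟨i, hi, hb, rfl, ht⟩
  choose p q hp hq h1 h2 h3 h4 using fun δ => exists_digits (s₁ δ) (s₂ δ)
  obtain ⟨z, hz, z', hz', h5, -, h6⟩ := exists_signs r.onb ((Finset.range k).image β) hp hq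
    r.t.pt_mem fun δ => (nd δ).1
  have key : ∀ i, ∃ ρ : ℕ, i < k → (cuz (b i) (β i) (r.f z) ρ = !(t i) ∧
      cuz (b i) (β i) (r.f z') ρ = t i) := by
    intro i
    by_cases hi : i < k
    swap
    · exact ⟨0, fun h => absurd h hi⟩
    obtain ⟨m, n, d, hm, hd, he, hx, hy⟩ := h6 (β i) (Finset.mem_image_of_mem β
      (Finset.mem_range.2 hi))
    have hm' : (nd (β i)).1 ≤ m := hm
    have hx' : (ys (β i) (r.f z (β i))).1 m = d (p (β i)) := by rw [ys_ge _ hm', hx]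
    have hy' : (ys (β i) (r.f z' (β i))).1 m = d (q (β i)) := by rw [ys_ge _ hm', hy]
    have he' : Eqn m (ys (β i) (r.f z (β i))) (ys (β i) (r.f z' (β i))) := ys_eqn_ys _ he
    have hpo : Ok n (p (β i)) := (hp (β i)).mono (Nat.zero_le n)
    have hqo : Ok n (q (β i)) := (hq (β i)).mono (Nat.zero_le n)
    cases hb : b i
    · -- the second order
      cases ht : t i
      · have h7 : Lt2 (q (β i)) (p (β i)) := h4 _ ((hs₂' i hi hb).trans ht)
        obtain ⟨ρ, h8, h9⟩ := ld.lt2 _ _ m he'.symm (by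
          rw [hx', hy']
          exact hd.lt2 _ _ hqo hpo h7)
        exact ⟨ρ, fun _ => ⟨h9, h8⟩⟩
      · have h7 : Lt2 (p (β i)) (q (β i)) := h3 _ ((hs₂' i hi hb).trans ht)
        obtain ⟨ρ, h8, h9⟩ := ld.lt2 _ _ m he' (by
          rw [hx', hy']
          exact hd.lt2 _ _ hpo hqo h7)
        exact ⟨ρ, fun _ => ⟨h8, h9⟩⟩
    · -- the first order
      cases ht : t i
      · have h7 : Lt1 (q (β i)) (p (β i)) := h2 _ ((hs₁' i hi hb).trans ht)
        obtain ⟨ρ, h8, h9⟩ := ld.lt1 _ _ m he'.symm (by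
          rw [hx', hy']
          exact hd.lt1 _ _ hqo hpo h7)
        exact ⟨ρ, fun _ => ⟨h9, h8⟩⟩
      · have h7 : Lt1 (p (β i)) (q (β i)) := h1 _ ((hs₁' i hi hb).trans ht)
        obtain ⟨ρ, h8, h9⟩ := ld.lt1 _ _ m he' (by
          rw [hx', hy']
          exact hd.lt1 _ _ hpo hqo h7)
        exact ⟨ρ, fun _ => ⟨h8, h9⟩⟩
  choose ρ hρ using key
  refine ⟨z, hz, z', hz', ρ, fun δ hδ => ?_, hρ⟩
  have h7 : δ ∉ (Finset.range k).image β := by
    intro h
    obtain ⟨i, hi, rfl⟩ := Finset.mem_image.1 h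
    exact absurd hδ (not_lt.2 (hγ i (Finset.mem_range.1 hi)))
  rw [(h5 δ h7).1, (h5 δ h7).2]

end Pool.Agent.EN45
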