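import Pool.Agent.EN45.Lnm

/-!
# The points of the entangled set are points of the line (module LNA)
-/

namespace Pool.Agent.EN45

open Classical Set Pool.Agent Pool.Agent.LadderTree Pool.Agent.Forcing Pool.Agent.MAx
open Pool.Agent.BVM (BSet UF eqv memv chk Congr le_of_uf Disc OPair FunOn op on onT CardLE Rel)
open Pool.Agent.OG45 Pool.Agent.IN45
open Pool.Agent.ML45 (IM)

/-! ### the entangled set -/

/-- the name of the entangled set -/
noncomputable def AN : BSet (RO (Cnd IM)) := chk fun i : Bool × IM => cN i.1 i.2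

/-- the name of the homeomorphism -/
noncomputable def hN : BSet (RO (Cnd IM)) :=
  prs (fun i : Bool × IM => cN i.1 i.2) fun i => cN (!i.1) i.2

theorem in_AN (F : GG (Cnd IM)) (b : Bool) (β : IM) : In F (nm F (cN b β)) (nm F AN) :=
  In_chk (fun i : Bool × IM => cN i.1 i.2) (b, β) F

theorem fc_AN {x : BSet (RO (Cnd IM))} {q : Cnd IM}
    (h : Fc q fun F => In F (nm F x) (nm F AN)) :
    ∃ r ≤ q, ∃ b β, Fc r fun F => nm F x = nm F (cN b β) := by
  obtain ⟨r, hr, i, hi⟩ := Fc.chk (x := fun i : Bool × IM => cN i.1 i.2) h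
  exact ⟨r, hr, i.1, i.2, hi⟩

/-- the entries of a point are decided on small boxes around the base point of a condition -/
private theorem lna_dec (q : Cnd IM) (b : Bool) (β : IM) : ∃ x : X, ∀ N : ℕ, ∃ r ≤ q, ∀ i < N,
    Fc r (SB (cN b β) i (ld.cu b x i)) := by
  refine ⟨ys β (q.f q.t.pt β), fun N => ?_⟩
  obtain ⟨u, hu, _, _, hle, hval⟩ := exists_decided (via_tp q) (cts_cuz b β) N q.t.pt_mem
  exact ⟨q.res hu, hle, fun i hi => cN_iff fun z hz => hval z hz i hi⟩

private theorem lna_true {q : Cnd IM} {b : Bool} {β : IM} {n : ℕ} {x : X}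
    (h : Fc q (SB (cN b β) n (ld.cu b x n)))
    (h' : Fc q fun F => In F (nm F (on n)) (nm F (cN b β))) : ld.cu b x n = true := by
  by_contra hcon
  exact Fc.false (q := q) fun F hF => hcon ((h F hF).1 (h' F hF))

/-- module LNA: the points of the entangled set are points of the line.
`in_RN` and `gg_all` (`rpCutt`); for a condition `q`: `sub` by `rN_sub`; `ne` and `ne'` by `ld.ne`,
`ld.ne'` and `cN_iff`; `low`: given names `i`, `j` decide them (`fc_prs` gives standard numbers with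
`ld.O i j`), and then decide the entries `i` and `j` of `cuz b β (q.f z)` on a small box
(`exists_decided` for `via_tp` and `cts_cuz`), and use `ld.low`; `open'` similarly with
`ld.open'`. -/
theorem cN_in_RN (b : Bool) (β : IM) (F : GG (Cnd IM)) : In F (nm F (cN b β)) (nm F RN) := by
  rw [in_RN]
  refine gg_all (rpCutt _ _ _) (fun q => ?_) F
  have hlow : Fc q fun F => ∀ i j, Rel (In F) (nm F ON) i j → In F j (nm F (cN b β)) →
      In F i (nm F (cN b β)) := by
    refine Fc.all fun i => Fc.all fun j => Fc.imp (RpP.rel _ _ _) ((RpP.mem _ _).imp (RpP.mem _ _))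
      fun r _ hr => Fc.imp (RpP.mem _ _) (RpP.mem _ _) fun r' hr' hj =>
        Fc.dense (RpP.mem _ _) fun r'' hr'' => ?_
    obtain ⟨s, hs, ⟨⟨n, m⟩, hnm⟩, hs'⟩ := fc_prs ((hr.mono hr').mono hr'')
    obtain ⟨x, hx⟩ := lna_dec s b β
    obtain ⟨t, ht, h1⟩ := hx (max n m + 1)
    have h2 : Fc t fun F => In F (nm F (on m)) (nm F (cN b β)) := by
      intro F hF
      have h3 := (hs'.mono ht) F hF
      have h4 := (hj.mono ((ht.trans hs).trans hr'')) F hF
      beta_reduce at h3 h4 ⊢
      rw [h3.2] at h4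
      exact h4
    have h3 := lna_true (h1 m (by omega)) h2
    have h4 := ld.low b x n m hnm h3
    refine ⟨t, ht.trans hs, fun F hF => ?_⟩
    have h5 := (hs'.mono ht) F hF
    have h6 := (h1 n (by omega) F hF).2 h4
    beta_reduce at h5 ⊢
    rw [h5.1]
    exact h6
  have hopen : Fc q fun F => ∀ i, In F i (nm F (cN b β)) → ∃ j, In F j (nm F (cN b β)) ∧
      Rel (In F) (nm F ON) i j := by
    refine Fc.all fun i => Fc.imp (RpP.mem _ _)
      (RpP.ex fun _ => (RpP.mem _ _).and (RpP.rel _ _ _)) fun r _ hr =>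
        Fc.dense (RpP.ex fun _ => (RpP.mem _ _).and (RpP.rel _ _ _)) fun r' hr' => ?_
    obtain ⟨s, hs, n, hn⟩ := fc_nat (a := i) (q := r') fun F hF => rN_sub ((hr.mono hr') F hF)
    obtain ⟨x, hx⟩ := lna_dec s b β
    have h3 : ld.cu b x n = true := by
      obtain ⟨t, ht, h1⟩ := hx (n + 1)
      refine lna_true (h1 n (by omega)) fun F hF => ?_
      have h3 := (hn.mono ht) F hF
      have h4 := (hr.mono ((ht.trans hs).trans hr')) F hF
      beta_reduce at h3 h4 ⊢
      rw [h3] at h4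
      exact h4
    obtain ⟨m, hm, hm'⟩ := ld.open' b x n h3
    obtain ⟨t, ht, h1⟩ := hx (m + 1)
    refine ⟨t, ht.trans hs, fun F hF => ?_⟩
    have h5 := (hn.mono ht) F hF
    beta_reduce at h5
    refine ⟨nm F (on m), (h1 m (by omega) F hF).2 hm', ?_⟩
    rw [h5]
    exact rel_ON.2 hm
  obtain ⟨i, hi⟩ := ld.ne b
  obtain ⟨j, hj⟩ := ld.ne' b
  have h1 : Fc q (SB (cN b β) i true) := cN_iff fun z _ => hi _
  have h2 : Fc q (SB (cN b β) j false) := cN_iff fun z _ => hj _
  intro F hF
  exact ⟨fun k hk => rN_sub hk, ⟨nm F (on i), (h1 F hF).2 rfl⟩,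
    ⟨nm F (on j), nat_mem j F, fun h => by
      have h3 := (h2 F hF).1 h
      exact absurd h3 (by simp)⟩, hlow F hF, hopen F hF⟩

theorem AN_sub (F : GG (Cnd IM)) : OG45.Sub (In F) (nm F AN) (nm F RN) := by
  refine gg_all (rpSub AN RN) (fun q => Fc.all fun x => Fc.imp (RpP.mem _ _) (RpP.mem _ _)
    fun r _ hr => Fc.dense (RpP.mem _ _) fun s hs => ?_) F
  obtain ⟨s', hs', b, β, h⟩ := fc_AN (hr.mono hs)
  refine ⟨s', hs', fun F hF => ?_⟩
  have := h F hF
  beta_reduce at this ⊢
  rw [this]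
  exact cN_in_RN b β F

end Pool.Agent.EN45
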