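import Pool.Agent.EN45.Gen

/-!
# Boolean values of the notions
-/

namespace Pool.Agent.EN45

open Classical Set Pool.Agent Pool.Agent.LadderTree Pool.Agent.Forcing Pool.Agent.MAx
open Pool.Agent.BVM (BSet UF eqv memv chk Congr le_of_uf Disc OPair FunOn op on onT CardLE Rel)
open Pool.Agent.OG45 Pool.Agent.IN45

section

variable {P : Type} [Preorder P]

theorem rpOpenL (R L U : BSet (RO P)) :
    RpP fun F : GG P => OpenL (In F) (nm F R) (nm F L) (nm F U) := by
  unfold OpenL
  repeat' (first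
    | exact RpP.rel _ _ _ | exact RpP.mem _ _ | exact rpSub _ _
    | refine RpP.and ?_ ?_
    | refine RpP.ex fun _ => ?_ | refine RpP.all fun _ => ?_
    | refine RpP.imp ?_ ?_)

theorem rpCrowded (P' R L A : BSet (RO P)) :
    RpP fun F : GG P => Crowded (In F) (nm F P') (nm F R) (nm F L) (nm F A) := by
  unfold Crowded
  repeat' (first
    | exact RpP.mem _ _ | exact rpOpenL _ _ _ | exact rpCard _ _
    | refine RpP.and ?_ ?_ | refine RpP.iff ?_ ?_
    | refine RpP.ex fun _ => ?_ | refine RpP.all fun _ => ?_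
    | refine RpP.imp ?_ ?_)

theorem rpTuple (A n a : BSet (RO P)) :
    RpP fun F : GG P => Tuple (In F) (nm F A) (nm F n) (nm F a) := by
  unfold Tuple
  repeat' (first
    | exact RpP.rel _ _ _ | exact RpP.mem _ _ | exact RpP.funOn _ _ | exact RpP.eq _ _
    | refine RpP.and ?_ ?_ | refine RpP.iff ?_ ?_
    | refine RpP.ex fun _ => ?_ | refine RpP.all fun _ => ?_
    | refine RpP.imp ?_ ?_)

theorem rpEntangled (w P' R L A : BSet (RO P)) :
    RpP fun F : GG P => Entangled (In F) (nm F w) (nm F P') (nm F R) (nm F L) (nm F A) := by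
  unfold Entangled
  repeat' (first
    | exact RpP.rel _ _ _ | exact RpP.mem _ _ | exact rpTuple _ _ _ | exact RpP.eq _ _
    | exact rpCard _ _
    | refine RpP.and ?_ ?_ | refine RpP.iff ?_ ?_
    | refine RpP.ex fun _ => ?_ | refine RpP.all fun _ => ?_ | refine RpP.not ?_
    | refine RpP.imp ?_ ?_)

theorem homeo_iff {M : Type*} {E : M → M → Prop} {R L A h : M} : Homeo E R L A h ↔
    FunOn E h A ∧ (∀ x y, Rel E h x y → E y A) ∧
    (∀ x x' y, Rel E h x y → Rel E h x' y → x = x') ∧ (∀ y, E y A → ∃ x, Rel E h x y) ∧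
    (∀ U x y, OpenL E R L U → Rel E h x y → E y U →
      ∃ V, OpenL E R L V ∧ E x V ∧ ∀ x' y', E x' V → Rel E h x' y' → E y' U) ∧
    ∀ U x y, OpenL E R L U → Rel E h x y → E x U →
      ∃ V, OpenL E R L V ∧ E y V ∧ ∀ x' y', E y' V → Rel E h x' y' → E x' U :=
  ⟨fun h => ⟨h.fn, h.val, h.inj, h.surj, h.cont, h.contInv⟩,
    fun ⟨h1, h2, h3, h4, h5, h6⟩ => ⟨h1, h2, h3, h4, h5, h6⟩⟩

theorem rpHomeo (R L A h : BSet (RO P)) :
    RpP fun F : GG P => Homeo (In F) (nm F R) (nm F L) (nm F A) (nm F h) := by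
  simp only [homeo_iff]
  repeat' (first
    | exact RpP.rel _ _ _ | exact RpP.mem _ _ | exact RpP.funOn _ _ | exact RpP.eq _ _
    | exact rpOpenL _ _ _
    | refine RpP.and ?_ ?_ | refine RpP.iff ?_ ?_
    | refine RpP.ex fun _ => ?_ | refine RpP.all fun _ => ?_ | refine RpP.not ?_
    | refine RpP.imp ?_ ?_)

theorem rpEvens (w e : BSet (RO P)) :
    RpP fun F : GG P => Evens (In F) (nm F w) (nm F e) := by
  unfold Evens
  repeat' (first
    | exact RpP.rel _ _ _ | exact RpP.mem _ _ | exact rpSub _ _ | exact RpP.eq _ _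
    | refine RpP.and ?_ ?_ | refine RpP.iff ?_ ?_ | refine RpP.or ?_ ?_
    | refine RpP.ex fun _ => ?_ | refine RpP.all fun _ => ?_ | refine RpP.not ?_
    | refine RpP.imp ?_ ?_)

theorem rpDif (w n x y : BSet (RO P)) :
    RpP fun F : GG P => Dif (In F) (nm F w) (nm F n) (nm F x) (nm F y) := by
  unfold Dif
  repeat' (first
    | exact RpP.rel _ _ _ | exact RpP.mem _ _ | exact RpP.eq _ _
    | refine RpP.and ?_ ?_ | refine RpP.iff ?_ ?_
    | refine RpP.ex fun _ => ?_ | refine RpP.all fun _ => ?_ | refine RpP.not ?_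
    | refine RpP.imp ?_ ?_)

theorem rpMono (w e x : BSet (RO P)) :
    RpP fun F : GG P => Mono (In F) (nm F w) (nm F e) (nm F x) := by
  unfold Mono
  repeat' (first
    | exact RpP.rel _ _ _ | exact RpP.mem _ _ | exact rpSub _ _ | exact RpP.eq _ _
    | exact rpDif _ _ _ _
    | refine RpP.and ?_ ?_ | refine RpP.iff ?_ ?_ | refine RpP.or ?_ ?_
    | refine RpP.ex fun _ => ?_ | refine RpP.all fun _ => ?_ | refine RpP.not ?_
    | refine RpP.imp ?_ ?_)

theorem rpHmLt (w e P' : BSet (RO P)) :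
    RpP fun F : GG P => HmLt (In F) (nm F w) (nm F e) (nm F P') := by
  unfold HmLt
  repeat' (first
    | exact RpP.rel _ _ _ | exact RpP.mem _ _ | exact rpMono _ _ _ | exact RpP.eq _ _
    | exact rpCard _ _
    | refine RpP.and ?_ ?_ | refine RpP.iff ?_ ?_ | refine RpP.or ?_ ?_
    | refine RpP.ex fun _ => ?_ | refine RpP.all fun _ => ?_ | refine RpP.not ?_
    | refine RpP.imp ?_ ?_)

end

end Pool.Agent.EN45
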