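import Pool.Agent.EN45.Ccn
import Pool.Agent.EN45.Lna
import Pool.Agent.EN45.Rpl

/-!
# Tuples of large families (module EN2)
-/

namespace Pool.Agent.EN45

open Classical Set Pool.Agent Pool.Agent.LadderTree Pool.Agent.Forcing Pool.Agent.MAx
open Pool.Agent.BVM (BSet UF eqv memv chk Congr le_of_uf Disc OPair FunOn op on onT CardLE Rel)
open Pool.Agent.OG45 Pool.Agent.IN45
open Pool.Agent.ML45 (IM mk_Iio_IM)

/-- the family `Fa` is a family of pairwise disjoint injective tuples, of size at least `𝔠` -/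
structure Big {M : Type*} (E : M → M → Prop) (P' A n Fa : M) : Prop where
  tup : ∀ a, E a Fa → Tuple E A n a
  dis : ∀ a b, E a Fa → E b Fa → a ≠ b → ∀ i j x, Rel E a i x → ¬ Rel E b j x
  card : CardLE E P' Fa

/-- module EN2, first part: there is a tuple which avoids all points at coordinates below `γ`.
Suppose not: then (`not_fc`) some `r ≤ q` forces that each `a ∈ Fa` has an entry in
`chk (fun l : Bool × Iio γ => cN l.1 l.2)`.  For each `l : Bool × Iio γ` let `x l` be a name such that,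
in each quotient model, if there is `a ∈ Fa` with `Rel a i (cN l.1 l.2)` for some `i`, then
`x l` is such an `a` (`exists_name`).  By `Big.dis` this `a` is unique, so densely below `r` each
element `y` of `Fa` is some `x l` (decide the index `l`, `Fc.chk`).  By `not_card_of_cover` for
`Λ = Bool × Iio γ` (`mk_Iio_IM`) `r` forces `¬ CardLE PwN Fa`, a contradiction to `Big.card`
(`Fc.false`). -/
theorem exists_avoid {q : Cnd IM} {n Fa : BSet (RO (Cnd IM))}
    (h : Fc q fun F => Big (In F) (nm F PwN) (nm F AN) (nm F n) (nm F Fa)) (γ : IM) :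
    ∃ r ≤ q, ∃ a, Fc r fun F => In F (nm F a) (nm F Fa) ∧
      ∀ i x, Rel (In F) (nm F a) i x → ¬ In F x (nm F (chk fun l : Bool × Iio γ =>
        (cN l.1 l.2.1 : BSet (RO (Cnd IM))))) := by
  obtain ⟨Z, hZ⟩ : ∃ Z : BSet (RO (Cnd IM)), Z = chk fun l : Bool × Iio γ =>
      (cN l.1 l.2.1 : BSet (RO (Cnd IM))) := ⟨_, rfl⟩
  rw [← hZ]
  by_contra hcon
  have hA : ∀ a : BSet (RO (Cnd IM)), RpP fun F : GG (Cnd IM) => In F (nm F a) (nm F Fa) ∧
      ∀ i x, Rel (In F) (nm F a) i x → ¬ In F x (nm F Z) := fun a => (RpP.mem _ _).and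
    (RpP.all fun _ => RpP.all fun _ => (RpP.rel _ _ _).imp (RpP.mem _ _).not)
  have hno : Fc q fun F => ¬ ∃ a, In F a (nm F Fa) ∧
      ∀ i x, Rel (In F) a i x → ¬ In F x (nm F Z) := by
    refine Fc.not (RpP.ex hA) fun r hr h1 => ?_
    obtain ⟨a, ha⟩ := Fc.name (A := fun F a => In F a (nm F Fa) ∧
      ∀ i x, Rel (In F) a i x → ¬ In F x (nm F Z)) hA h1
    exact hcon ⟨r, hr, a, ha⟩
  have hX : ∀ (l : Bool × Iio γ) (x : BSet (RO (Cnd IM))), RpP fun F : GG (Cnd IM) =>
      (∃ a, In F a (nm F Fa) ∧ ∃ i, Rel (In F) a i (nm F (cN l.1 l.2.1))) →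
        In F (nm F x) (nm F Fa) ∧ ∃ i, Rel (In F) (nm F x) i (nm F (cN l.1 l.2.1)) :=
    fun l x => RpP.imp (RpP.ex fun a => (RpP.mem a Fa).and (RpP.ex fun i => RpP.rel a i _))
      ((RpP.mem x Fa).and (RpP.ex fun i => RpP.rel x i _))
  have hx : ∀ l : Bool × Iio γ, ∃ x : BSet (RO (Cnd IM)), ∀ F : GG (Cnd IM),
      (∃ a, In F a (nm F Fa) ∧ ∃ i, Rel (In F) a i (nm F (cN l.1 l.2.1))) →
        In F (nm F x) (nm F Fa) ∧ ∃ i, Rel (In F) (nm F x) i (nm F (cN l.1 l.2.1)) := by
    intro l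
    refine exists_name (b := (⊤ : RO (Cnd IM))) (P := fun F x =>
      (∃ a, In F a (nm F Fa) ∧ ∃ i, Rel (In F) a i (nm F (cN l.1 l.2.1))) →
        In F x (nm F Fa) ∧ ∃ i, Rel (In F) x i (nm F (cN l.1 l.2.1))) (fun x => hX l x) fun F => ?_
    by_cases h1 : ∃ a, In F a (nm F Fa) ∧ ∃ i, Rel (In F) a i (nm F (cN l.1 l.2.1))
    · obtain ⟨a, ha⟩ := h1
      exact ⟨a, fun _ => ha⟩
    · exact ⟨nm F Fa, fun h' => absurd h' h1⟩
  choose x hx using hx
  have hΛ : Cardinal.mk (Bool × Iio γ) ≤ Cardinal.continuum := by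
    rw [Cardinal.mk_prod, Cardinal.lift_id, Cardinal.lift_id]
    exact (mul_le_mul' (Cardinal.mk_le_aleph0.trans Cardinal.aleph0_le_continuum)
      (mk_Iio_IM γ)).trans (Cardinal.mul_eq_self Cardinal.aleph0_le_continuum).le
  have hnc := not_card_of_cover hΛ x (H := Fa) (q := q) fun y r hr hy => by
    obtain ⟨i, hi⟩ := Fc.name (A := fun F i => ∃ x, Rel (In F) (nm F y) i x ∧ In F x (nm F Z))
      (fun _ => RpP.ex fun _ => (RpP.rel _ _ _).and (RpP.mem _ _)) (q := r) fun F hF => by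
        have h1 := hno.mono hr F hF
        have h2 := hy F hF
        beta_reduce at h1 h2 ⊢
        by_contra h3
        refine h1 ⟨_, h2, fun i x h4 h5 => h3 ⟨i, x, h4, h5⟩⟩
    obtain ⟨w, hw⟩ := Fc.name (A := fun F w => Rel (In F) (nm F y) (nm F i) w ∧ In F w (nm F Z))
      (fun _ => (RpP.rel _ _ _).and (RpP.mem _ _)) hi
    obtain ⟨s, hs, l, hl⟩ := Fc.chk (x := fun l : Bool × Iio γ =>
      (cN l.1 l.2.1 : BSet (RO (Cnd IM)))) (y := w) (q := r) fun F hF => by
        rw [← hZ]; exact (hw F hF).2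
    refine ⟨s, hs, l, fun F hF => ?_⟩
    have h1 := hw.mono hs F hF
    have h2 := hl F hF
    have h3 := hy.mono hs F hF
    have h4 := h.mono (hs.trans hr) F hF
    beta_reduce at h1 h2 h3 h4
    rw [h2] at h1
    obtain ⟨h5, j, h6⟩ := hx l F ⟨nm F y, h3, nm F i, h1.1⟩
    by_contra hne
    exact h4.dis _ _ h3 h5 hne _ _ _ h1.1 h6
  exact Fc.false (q := q) fun F hF => hnc F hF (h F hF).card

/-- module EN2, second part: the entries of a tuple are decided.
Induction on `j ≤ k` for the first `j` entries: take a name of the `j`-th entry (`Fc.name`; `Tuple`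
says that `a` is a function on `on k`), and `fc_AN`.  The indices are not below `γ` by `h2`
(`In_chk`, `Fc.false`).  If two pairs of indices were equal, then two different arguments would
have the same value (`nat_inj`, `Fc.false`). -/
theorem exists_entries {q : Cnd IM} {a : BSet (RO (Cnd IM))} {k : ℕ} {γ : IM}
    (h1 : Fc q fun F => Tuple (In F) (nm F AN) (nm F (on k)) (nm F a))
    (h2 : Fc q fun F => ∀ i x, Rel (In F) (nm F a) i x →
      ¬ In F x (nm F (chk fun l : Bool × Iio γ => (cN l.1 l.2.1 : BSet (RO (Cnd IM)))))) :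
    ∃ r ≤ q, ∃ (b : ℕ → Bool) (β : ℕ → IM), (∀ i < k, γ ≤ β i) ∧
      (∀ i < k, ∀ j < k, b i = b j → β i = β j → i = j) ∧
      ∀ i < k, Fc r fun F => Rel (In F) (nm F a) (nm F (on i)) (nm F (cN (b i) (β i))) := by
  have key : ∀ j ≤ k, ∃ r ≤ q, ∃ (b : ℕ → Bool) (β : ℕ → IM), (∀ i < j, γ ≤ β i) ∧
      ∀ i < j, Fc r fun F => Rel (In F) (nm F a) (nm F (on i)) (nm F (cN (b i) (β i))) := by
    intro j
    induction j with
    | zero => exact fun _ => ⟨q, le_rfl, fun _ => true, fun _ => γ,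
        fun i hi => absurd hi (Nat.not_lt_zero i), fun i hi => absurd hi (Nat.not_lt_zero i)⟩
    | succ j ih =>
      intro hj
      obtain ⟨r, hr, b, β, hβ, hb⟩ := ih (by omega)
      obtain ⟨x, hx⟩ := Fc.name (A := fun F x => Rel (In F) (nm F a) (nm F (on j)) x)
        (fun _ => RpP.rel _ _ _) (q := r) fun F hF => by
          obtain ⟨y, hy, -⟩ := (h1.mono hr F hF).1.2 (nm F (on j)) (nat_lt.2 (by omega))
          exact ⟨y, hy⟩
      obtain ⟨s, hs, b', β', hb'⟩ := fc_AN (x := x) (q := r) fun F hF =>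
        (h1.mono hr F hF).2.1 _ _ (hx F hF)
      have hx' : Fc s fun F => Rel (In F) (nm F a) (nm F (on j)) (nm F (cN b' β')) :=
        fun F hF => by
          have h3 := hx.mono hs F hF
          have h4 := hb' F hF
          beta_reduce at h3 h4 ⊢
          rw [← h4]
          exact h3
      have hγ : γ ≤ β' := by
        by_contra hcon
        refine Fc.false (q := s) fun F hF => ?_
        exact h2.mono (hs.trans hr) F hF _ _ (hx' F hF)
          (In_chk (fun l : Bool × Iio γ => (cN l.1 l.2.1 : BSet (RO (Cnd IM))))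
            (b', ⟨β', not_le.1 hcon⟩) F)
      refine ⟨s, hs.trans hr, fun i => if i < j then b i else b',
        fun i => if i < j then β i else β', fun i hi => ?_, fun i hi => ?_⟩
      · beta_reduce
        by_cases h3 : i < j
        · rw [if_pos h3]; exact hβ i h3
        · rw [if_neg h3]; exact hγ
      · beta_reduce
        by_cases h3 : i < j
        · rw [if_pos h3, if_pos h3]; exact (hb i h3).mono hs
        · have h4 : i = j := by omega
          rw [if_neg h3, if_neg h3, h4]; exact hx'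
  obtain ⟨r, hr, b, β, hβ, hb⟩ := key k le_rfl
  refine ⟨r, hr, b, β, hβ, fun i hi j hj h3 h4 => ?_, hb⟩
  obtain ⟨F, hF⟩ := exists_gg r
  have h5 := hb i hi F hF
  have h6 := hb j hj F hF
  beta_reduce at h5 h6
  rw [h3, h4] at h5
  exact nat_inj.1 ((h1.mono hr F hF).2.2 _ _ _ h5 h6)

end Pool.Agent.EN45
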