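import Pool.Agent.EN45.En1
import Pool.Agent.EN45.En2

/-!
# The set is entangled (module EN3)
-/

namespace Pool.Agent.EN45

open Classical Set Pool.Agent Pool.Agent.LadderTree Pool.Agent.Forcing Pool.Agent.MAx
open Pool.Agent.BVM (BSet UF eqv memv chk Congr le_of_uf Disc OPair FunOn op on onT CardLE Rel)
open Pool.Agent.OG45 Pool.Agent.IN45
open Pool.Agent.ML45 (IM bdd_IM)

/-- codes of finite sequences of pairs: for instance `Encodable.decode` for lists of pairs -/
theorem exists_dv : ∃ dv : ℕ → ℕ → Bool × ℕ, ∀ (k : ℕ) (f : ℕ → Bool × ℕ),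
    ∃ v, ∀ i < k, dv v i = f i := by
  refine ⟨fun v i => (((Encodable.decode v : Option (List (Bool × ℕ))).getD []).getD i
    (false, 0)), fun k f => ⟨Encodable.encode ((List.range k).map f), fun i hi => ?_⟩⟩
  simp [Encodable.encodek, List.getD, hi]

/-- codes of finite sequences of pairs -/
noncomputable def dv : ℕ → ℕ → Bool × ℕ := exists_dv.choose

theorem exists_dv_eq (k : ℕ) (f : ℕ → Bool × ℕ) : ∃ v, ∀ i < k, dv v i = f i :=
  exists_dv.choose_spec k f

/-- the entries of the tuple `a` contain the rationals as prescribed by the code `v` -/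
def Fit (k v : ℕ) (F : GG (Cnd IM)) (a : Md F) : Prop := ∀ i < k, ∀ x,
  Rel (In F) a (nm F (on i)) x → (In F (nm F (on (dv v i).2)) x ↔ (dv v i).1 = true)

theorem rpFit (k v : ℕ) (a : BSet (RO (Cnd IM))) :
    RpP fun F : GG (Cnd IM) => Fit k v F (nm F a) := by
  unfold Fit
  exact RpP.allFin (fun i => RpP.all fun x => (RpP.rel _ _ _).imp
    ((RpP.mem _ _).iff (RpP.const _))) k

/-- some tuple of the family fits the code `v` -/
def Som (k : ℕ) (Fa : BSet (RO (Cnd IM))) (v : ℕ) (F : GG (Cnd IM)) : Prop :=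
  ∃ a, In F a (nm F Fa) ∧ Fit k v F a

theorem rpSom (k : ℕ) (Fa : BSet (RO (Cnd IM))) (v : ℕ) : RpP (Som k Fa v) :=
  RpP.ex fun a => (RpP.mem _ _).and (rpFit k v a)

/-- a small box around a point of `r.t` on which entries are constant -/
private theorem en3_box {r q₁ : Cnd IM} {K : (IM → X) → IM → X} (hK : Via r q₁ K)
    {g : (IM → X) → ℕ → Bool} (hg : CtsOn q₁.t g) (N : ℕ) (b : ℕ → Bool) (β : ℕ → IM)
    (ρ : ℕ → ℕ) {z : IM → X} (hz : z ∈ r.t) (k : ℕ) :
    ∃ (u : Bx IM) (_ : Sub u r.t), z ∈ u ∧ (∀ w ∈ u, ∀ i < N, g (K w) i = g (K z) i) ∧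
      ∀ i < k, ∀ w ∈ u, cuz (b i) (β i) (r.f w) (ρ i) = cuz (b i) (β i) (r.f z) (ρ i) := by
  induction k with
  | zero =>
    obtain ⟨u, hu, h1, -, -, h2⟩ := exists_decided hK hg N hz
    exact ⟨u, hu, h1, h2, fun i hi => absurd hi (Nat.not_lt_zero i)⟩
  | succ k ih =>
    obtain ⟨u, hu, h1, h2, h3⟩ := ih
    obtain ⟨u', hu', h4, h5⟩ := exists_small
      (((cts_cuz (b k) (β k)).comp (via_tp r).mp).mono hu) (ρ k + 1) h1
    refine ⟨u', hu'.trans hu, h4, fun w hw => h2 w (hu'.2 w hw), fun i hi w hw => ?_⟩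
    rcases Nat.lt_succ_iff_lt_or_eq.1 hi with h6 | h6
    · exact h3 i h6 w (hu'.2 w hw)
    · subst h6
      exact h5 w hw (ρ i) (Nat.lt_succ_self _)

/-- if the entries are as prescribed then the tuple fits the code -/
private theorem en3_fit {r : Cnd IM} {a : BSet (RO (Cnd IM))} {k v : ℕ} {b : ℕ → Bool}
    {β : ℕ → IM}
    (htup : Fc r fun F => Tuple (In F) (nm F AN) (nm F (on k)) (nm F a))
    (hab : ∀ i < k, Fc r fun F => Rel (In F) (nm F a) (nm F (on i)) (nm F (cN (b i) (β i))))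
    {u : Bx IM} (hu : Sub u r.t)
    (hc : ∀ i < k, ∀ w ∈ u, cuz (b i) (β i) (r.f w) (dv v i).2 = (dv v i).1) :
    Fc (r.res hu) fun F => Fit k v F (nm F a) := by
  intro F hF i hi x hx
  have hle : r.res hu ≤ r := (via_res r hu).le
  have h1 := (hab i hi).mono hle F hF
  have h2 := htup.mono hle F hF
  beta_reduce at h1 h2
  obtain ⟨y, -, hy⟩ := h2.1.2 (nm F (on i)) (nat_lt.2 hi)
  have h3 : x = nm F (cN (b i) (β i)) := by rw [hy _ hx, hy _ h1]
  have h4 : Fc (r.res hu) (SB (cN (b i) (β i)) (dv v i).2 (dv v i).1) :=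
    cN_iff fun w hw => hc i hi w hw
  rw [h3]
  exact h4 F hF

/-- if some tuple fits the code `v` in the box `u` around `z` then `g (K z) v = true` -/
private theorem en3_val {r q₁ : Cnd IM} {K : (IM → X) → IM → X} (hK : Via r q₁ K)
    {g : (IM → X) → ℕ → Bool} {Fa : BSet (RO (Cnd IM))} {k v : ℕ}
    (hg : Rd q₁ g fun v c F => (Som k Fa v F ↔ c = true)) {z : IM → X}
    {u : Bx IM} (hu : Sub u r.t) (hconst : ∀ w ∈ u, g (K w) v = g (K z) v)
    (hs : Fc (r.res hu) (Som k Fa v)) : g (K z) v = true := by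
  by_contra hcon
  rw [Bool.not_eq_true] at hcon
  have h1 := hg.reads (r.res hu) K (hK.trans (via_res r hu)) v false fun w hw => by
    rw [hconst w hw, hcon]
  refine Fc.false (q := r.res hu) fun F hF => ?_
  have h2 := (h1 F hF).1 (hs F hF)
  exact absurd h2 (by simp)

/-- finitely many statements are decided -/
private theorem en3_dec {P : Type} [Preorder P] {A : ℕ → GG P → Prop} (hA : ∀ i, RpP (A i))
    (q : P) (k : ℕ) : ∃ r ≤ q, ∃ t : ℕ → Bool, ∀ i < k, Fc r fun F => (A i F ↔ t i = true) := by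
  induction k with
  | zero => exact ⟨q, le_rfl, fun _ => false, fun i hi => absurd hi (Nat.not_lt_zero i)⟩
  | succ k ih =>
    obtain ⟨r, hr, t, ht⟩ := ih
    obtain ⟨s, hs, c, hc⟩ : ∃ s ≤ r, ∃ c : Bool, Fc s fun F => (A k F ↔ c = true) := by
      obtain ⟨s, hs, h | h⟩ := fc_decide (hA k) r
      · exact ⟨s, hs, true, fun F hF => iff_of_true (h F hF) rfl⟩
      · exact ⟨s, hs, false, fun F hF => iff_of_false (h F hF) (by simp)⟩
    refine ⟨s, hs.trans hr, fun i => if i < k then t i else c, fun i hi F hF => ?_⟩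
    beta_reduce
    by_cases h3 : i < k
    · rw [if_pos h3]
      exact (ht i h3).mono hs F hF
    · have h4 : i = k := by omega
      rw [if_neg h3, h4]
      exact hc F hF

/-- module EN3, first part: the two tuples.
The statements `S v c F = (Som k Fa v F ↔ c = true)` are decided densely (`fc_decide`), so by
`exists_reads` there are `q₁ ≤ q` and `g` with `Rd q₁ g S` and `Dep C q₁.t g`, `C` countable; let
`γ` be an index above `C` (`bdd_IM`), so `Dep (Iio γ) q₁.t g`.  Take `r₁ ≤ q₁` and `a` from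
`exists_avoid`, `r ≤ r₁`, `b`, `β` from `exists_entries` (`Big.tup`), and `z`, `z'`, `ρ` from
`exists_two_points r k b t β γ`.  Let `v` be a code with `dv v i = (!(t i), ρ i)` and `v'` a code with
`dv v' i = (t i, ρ i)` for `i < k`.  Let `Via r q₁ K`.  By `exists_decided` (for the
finitely many functions `cuz (b i) (β i)`, successively, and for `g`, with `Via r q₁ K`) there is a
box `u` around `z` on which the entries `ρ i` of `cuz (b i) (β i) (r.f w)`, `i < k`, and the entries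
`v`, `v'` of `g (K w)` are constant.  `r.res _` forces `Fit k v a` (`cN_iff`; the value of `a` at `on i`
is unique), so `Som k Fa v`, so `g (K z) v = true` (`Rd.reads`, `Fc.false`).  In the same way for
`z'` and `v'`: `g (K z') v' = true`.  Now `g (K z) = g (K z')`, as `K z` and `K z'` agree below `γ`
(`low`).  So `g (K z) v' = true`, and `r.res _`, for the box `u` around `z`, forces `Som k Fa v'`; take
a name `a'` for the tuple (`Fc.name`). -/
theorem exists_pair {q : Cnd IM} {Fa : BSet (RO (Cnd IM))} {k : ℕ}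
    (h : Fc q fun F => Big (In F) (nm F PwN) (nm F AN) (nm F (on k)) (nm F Fa)) (t : ℕ → Bool) :
    ∃ r ≤ q, ∃ (a a' : BSet (RO (Cnd IM))) (ρ : ℕ → ℕ), Fc r fun F =>
      In F (nm F a) (nm F Fa) ∧ In F (nm F a') (nm F Fa) ∧ ∀ i < k,
        (∀ x, Rel (In F) (nm F a) (nm F (on i)) x →
          (In F (nm F (on (ρ i))) x ↔ t i = false)) ∧
        ∀ x, Rel (In F) (nm F a') (nm F (on i)) x →
          (In F (nm F (on (ρ i))) x ↔ t i = true) := by
  obtain ⟨q₁, hq₁, g, hg, C, hC, hdep⟩ := exists_reads (p := q)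
    (S := fun v (c : Bool) F => (Som k Fa v F ↔ c = true))
    (fun v c => (rpSom k Fa v).iff (RpP.const _)) (fun v r _ => by
      obtain ⟨s, hs, h | h⟩ := fc_decide (rpSom k Fa v) r
      · exact ⟨s, hs, true, fun F hF => iff_of_true (h F hF) rfl⟩
      · exact ⟨s, hs, false, fun F hF => iff_of_false (h F hF) (by simp)⟩)
  obtain ⟨γ, hγ⟩ : ∃ γ : IM, ∀ δ ∈ C, δ < γ := by
    have h1 : Cardinal.mk C ≤ Cardinal.continuum :=
      (Cardinal.le_aleph0_iff_set_countable.2 hC).trans Cardinal.aleph0_le_continuum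
    obtain ⟨b, hb⟩ := bdd_IM h1 fun x : C => x.1
    exact ⟨b, fun δ hδ => hb ⟨δ, hδ⟩⟩
  obtain ⟨r₁, hr₁, a, ha⟩ := exists_avoid (h.mono hq₁) γ
  have htup₁ : Fc r₁ fun F => Tuple (In F) (nm F AN) (nm F (on k)) (nm F a) :=
    fun F hF => ((h.mono (hr₁.trans hq₁)) F hF).tup _ (ha F hF).1
  obtain ⟨r, hr, b, β, hβγ, hinj, hab⟩ := exists_entries (q := r₁) (a := a) (k := k) (γ := γ)
    htup₁ (fun F hF => (ha F hF).2)
  have htup := htup₁.mono hr
  obtain ⟨z, hz, z', hz', ρ, hzz, hρ⟩ := exists_two_points r k b t β γ hβγ hinj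
  obtain ⟨v, hv⟩ := exists_dv_eq k fun i => (!(t i), ρ i)
  obtain ⟨v', hv'⟩ := exists_dv_eq k fun i => (t i, ρ i)
  obtain ⟨K, hK⟩ : ∃ K, Via r q₁ K := hr.trans hr₁
  -- the box around `z'`
  obtain ⟨u', hu', -, h1', h2'⟩ := en3_box hK hg.cts (v' + 1) b β ρ hz' k
  have hfit' : Fc (r.res hu') fun F => Fit k v' F (nm F a) :=
    en3_fit htup hab hu' fun i hi w hw => by
      rw [hv' i hi]
      show cuz (b i) (β i) (r.f w) (ρ i) = t i
      rw [h2' i hi w hw, (hρ i hi).2]
  have hgv' : g (K z') v' = true := by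
    refine en3_val hK hg hu' (fun w hw => h1' w hw v' (Nat.lt_succ_self _)) fun F hF => ?_
    exact ⟨nm F a, (ha.mono (hr.trans' (via_res r hu').le) F hF).1, hfit' F hF⟩
  have hgz : g (K z) = g (K z') := hdep _ (hK.mp.maps z hz) _ (hK.mp.maps z' hz') fun δ hδ =>
    hK.mp.onb.low δ z hz z' hz' fun ε hε => hzz ε (lt_of_le_of_lt hε (hγ δ hδ))
  -- the box around `z`
  obtain ⟨u, hu, -, h1, h2⟩ := en3_box hK hg.cts (v' + 1) b β ρ hz k
  have hle : r.res hu ≤ r₁ := hr.trans' (via_res r hu).le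
  have hfit : Fc (r.res hu) fun F => Fit k v F (nm F a) :=
    en3_fit htup hab hu fun i hi w hw => by
      rw [hv i hi]
      show cuz (b i) (β i) (r.f w) (ρ i) = !(t i)
      rw [h2 i hi w hw, (hρ i hi).1]
  have hsom : Fc (r.res hu) (Som k Fa v') := by
    have h3 := hg.reads (r.res hu) K (hK.trans (via_res r hu)) v' true fun w hw => by
      rw [h1 w hw v' (Nat.lt_succ_self _), hgz, hgv']
    exact fun F hF => (h3 F hF).2 rfl
  obtain ⟨a', ha'⟩ := Fc.name (A := fun F a => In F a (nm F Fa) ∧ Fit k v' F a)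
    (fun a => (RpP.mem _ _).and (rpFit k v' a)) hsom
  refine ⟨r.res hu, hle.trans (hr₁.trans hq₁), a, a', ρ, fun F hF => ?_⟩
  have h4 := ha' F hF
  beta_reduce at h4 ⊢
  refine ⟨(ha.mono hle F hF).1, h4.1, fun i hi => ⟨fun x hx => ?_, fun x hx => ?_⟩⟩
  · have h5 := hfit F hF i hi x hx
    rw [hv i hi] at h5
    simpa using h5
  · have h5 := h4.2 i hi x hx
    rw [hv' i hi] at h5
    exact h5

private theorem en3_rpCon (n Fa t : BSet (RO (Cnd IM))) : RpP fun F : GG (Cnd IM) =>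
    ∃ a b, In F a (nm F Fa) ∧ In F b (nm F Fa) ∧ a ≠ b ∧
      ∀ i x y, In F i (nm F n) → Rel (In F) a i x → Rel (In F) b i y →
        (Rel (In F) (nm F LN) x y ↔ In F i (nm F t)) := by
  repeat' (first
    | exact RpP.rel _ _ _ | exact RpP.mem _ _ | exact RpP.eq _ _
    | refine RpP.and ?_ ?_ | refine RpP.iff ?_ ?_
    | refine RpP.ex fun _ => ?_ | refine RpP.all fun _ => ?_ | refine RpP.not ?_
    | refine RpP.imp ?_ ?_)

private theorem en3_rpHyp (n Fa : BSet (RO (Cnd IM))) : RpP fun F : GG (Cnd IM) =>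
    In F (nm F n) (nm F (onT ℕ)) ∧ (∃ m, In F m (nm F n)) ∧
      (∀ a, In F a (nm F Fa) → Tuple (In F) (nm F AN) (nm F n) a) ∧
      (∀ a b, In F a (nm F Fa) → In F b (nm F Fa) → a ≠ b → ∀ i j x, Rel (In F) a i x →
        ¬ Rel (In F) b j x) ∧ CardLE (In F) (nm F PwN) (nm F Fa) := by
  repeat' (first
    | exact RpP.rel _ _ _ | exact RpP.mem _ _ | exact rpTuple _ _ _ | exact RpP.eq _ _
    | exact rpCard _ _
    | refine RpP.and ?_ ?_ | refine RpP.iff ?_ ?_
    | refine RpP.ex fun _ => ?_ | refine RpP.all fun _ => ?_ | refine RpP.not ?_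
    | refine RpP.imp ?_ ?_)

private theorem en3_fc (n Fa t : BSet (RO (Cnd IM))) (q : Cnd IM)
    (h : Fc q fun F => In F (nm F n) (nm F (onT ℕ)) ∧ (∃ m, In F m (nm F n)) ∧
      (∀ a, In F a (nm F Fa) → Tuple (In F) (nm F AN) (nm F n) a) ∧
      (∀ a b, In F a (nm F Fa) → In F b (nm F Fa) → a ≠ b → ∀ i j x, Rel (In F) a i x →
        ¬ Rel (In F) b j x) ∧ CardLE (In F) (nm F PwN) (nm F Fa)) :
    Fc q fun F => ∃ a b, In F a (nm F Fa) ∧ In F b (nm F Fa) ∧ a ≠ b ∧
      ∀ i x y, In F i (nm F n) → Rel (In F) a i x → Rel (In F) b i y →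
        (Rel (In F) (nm F LN) x y ↔ In F i (nm F t)) := by
  refine Fc.dense (en3_rpCon n Fa t) fun r hr => ?_
  obtain ⟨r₁, hr₁, k, hk⟩ := fc_nat (a := n) (q := r) fun F hF => (h.mono hr F hF).1
  have hkpos : 0 < k := by
    rcases Nat.eq_zero_or_pos k with h0 | h0
    · exfalso
      subst h0
      refine Fc.false (q := r₁) fun F hF => ?_
      obtain ⟨m, hm⟩ := (h.mono (hr₁.trans hr) F hF).2.1
      have e : nm F n = nm F (on 0) := hk F hF
      rw [e] at hm
      obtain ⟨i, hi, -⟩ := mem_on hm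
      exact absurd hi (Nat.not_lt_zero i)
    · exact h0
  obtain ⟨r₂, hr₂, t', ht'⟩ := en3_dec (A := fun i F => In F (nm F (on i)) (nm F t))
    (fun i => RpP.mem _ _) r₁ k
  have hbig : Fc r₂ fun F => Big (In F) (nm F PwN) (nm F AN) (nm F (on k)) (nm F Fa) := by
    intro F hF
    have h1 := h.mono (hr₂.trans (hr₁.trans hr)) F hF
    have e : nm F n = nm F (on k) := hk.mono hr₂ F hF
    beta_reduce at h1
    rw [e] at h1
    exact ⟨h1.2.2.1, h1.2.2.2.1, h1.2.2.2.2⟩
  obtain ⟨r₃, hr₃, a, a', ρ, h3⟩ := exists_pair hbig t'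
  refine ⟨r₃, hr₃.trans (hr₂.trans hr₁), fun F hF => ?_⟩
  obtain ⟨h4, h5, h6⟩ := h3 F hF
  have hb := hbig.mono hr₃ F hF
  have e : nm F n = nm F (on k) := hk.mono (hr₃.trans hr₂) F hF
  beta_reduce at hb ⊢
  have hta := hb.tup _ h4
  have htb := hb.tup _ h5
  refine ⟨nm F a, nm F a', h4, h5, fun hab => ?_, fun i x y hi hx hy => ?_⟩
  · obtain ⟨x, hx, -⟩ := hta.1.2 (nm F (on 0)) (nat_lt.2 hkpos)
    have h7 := (h6 0 hkpos).1 x hx
    rw [hab] at hx
    have h8 := (h6 0 hkpos).2 x hx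
    rw [h7] at h8
    cases t' 0 <;> simp at h8
  · rw [e] at hi
    obtain ⟨j, hj, rfl⟩ := mem_on hi
    have h7 := (h6 j hj).1 x hx
    have h8 := (h6 j hj).2 y hy
    have h9 := (ht' j hj).mono hr₃ F hF
    beta_reduce at h9
    rw [h9]
    have hxR : In F x (nm F RN) := AN_sub F x (hta.2.1 _ _ hx)
    have hyR : In F y (nm F RN) := AN_sub F y (htb.2.1 _ _ hy)
    cases htj : t' j
    · rw [htj] at h7 h8
      refine iff_of_false (not_lt_of_mem (h7.2 rfl) fun h10 => ?_) (by simp)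
      exact absurd (h8.1 h10) (by simp)
    · rw [htj] at h7 h8
      refine iff_of_true (lt_of_mem hxR hyR (fun h10 => ?_) (h8.2 rfl)) rfl
      exact absurd (h7.1 h10) (by simp)

/-- module EN3, second part: the set is entangled.
`gg_all` with `rpEntangled`; for a condition `q` introduce names `n`, `Fa`, `t` by `Fc.all`, `Fc.imp`;
`Fc.dense`; decide `n = on k` (`fc_nat`), `k ≠ 0` since `n` has an element (`mem_on`); decide
`on i ∈ t` for all `i < k` (`fc_decide` `k` times); this gives `t' : ℕ → Bool`.  Apply `exists_pair`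
with `t'`.  In each quotient model given by `F ∋ r`: for `i ∈ on k` we have `i = on j`, `j < k`
(`mem_on`).  If `t' j = true` then `on (ρ j)` is in `y` and not in `x`, so `Rel LN x y` by `lt_of_mem`
(`AN_sub`; the entries are in `AN`); if `t' j = false` then it is in `x` and not in `y`, so
`¬ Rel LN x y` by `not_lt_of_mem`.  `a ≠ a'`, as for `i = on 0` the entries are different
(there is one as `a` is a function on `on k`). -/
theorem entangled_AN (F : GG (Cnd IM)) :
    Entangled (In F) (nm F (onT ℕ)) (nm F PwN) (nm F RN) (nm F LN) (nm F AN) := by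
  intro n hn hne Fa h1 h2 h3 t
  obtain ⟨n, rfl⟩ := exists_nm n
  obtain ⟨Fa, rfl⟩ := exists_nm Fa
  obtain ⟨t, rfl⟩ := exists_nm t
  exact gg_imp (en3_rpHyp n Fa) (en3_rpCon n Fa t) (en3_fc n Fa t) F ⟨hn, hne, h1, h2, h3⟩

end Pool.Agent.EN45
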