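import Pool.Agent.EN45.Ram
import Pool.Agent.EN45.Mac

/-!
# Continuous functions, dependence and events
-/

namespace Pool.Agent.EN45

open Set

section

variable {I : Type*} {Y : Type*}

/-- all entries of `g` are uniformly continuous on the box `u` -/
def CtsOn (u : Bx I) (g : (I → X) → ℕ → Y) : Prop :=
  ∀ n, ∃ (T : Finset I) (m : ℕ), ∀ z ∈ u, ∀ z' ∈ u, Agr T m z z' → g z n = g z' n

/-- on the box `u`, the function `g` depends on the coordinates in `D` only -/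
def Dep {Z : Type*} (D : Set I) (u : Bx I) (g : (I → X) → Z) : Prop :=
  ∀ z ∈ u, ∀ z' ∈ u, (∀ δ ∈ D, z δ = z' δ) → g z = g z'

theorem CtsOn.mono {u v : Bx I} {g : (I → X) → ℕ → Y} (h : CtsOn u g) (hv : Sub v u) :
    CtsOn v g := fun n => by
  obtain ⟨T, m, h1⟩ := h n
  exact ⟨T, m, fun z hz z' hz' => h1 z (hv.2 z hz) z' (hv.2 z' hz')⟩

theorem Dep.mono {Z : Type*} {D : Set I} {u v : Bx I} {g : (I → X) → Z} (h : Dep D u g)
    (hv : Sub v u) : Dep D v g := fun z hz z' hz' => h z (hv.2 z hz) z' (hv.2 z' hz')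

theorem Dep.mono' {Z : Type*} {D D' : Set I} {u : Bx I} {g : (I → X) → Z} (h : Dep D u g)
    (hD : D ⊆ D') : Dep D' u g := fun z hz z' hz' h' => h z hz z' hz' fun δ hδ => h' δ (hD hδ)

/-- finitely many entries of `g` are constant on the boxes of a suitable level function -/
theorem CtsOn.exists_lam {u : Bx I} {g : (I → X) → ℕ → Y} (h : CtsOn u g) (N : ℕ) {l : I → ℕ}
    (hl : {δ | l δ ≠ 0}.Finite) : ∃ lam : I → ℕ, {δ | lam δ ≠ 0}.Finite ∧ (∀ δ, l δ ≤ lam δ) ∧
      ∀ z ∈ u, ∀ z' ∈ u, (∀ δ, Eqn (lam δ) (z δ) (z' δ)) → ∀ i < N, g z i = g z' i := by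
  classical
  choose T m h1 using h
  let T' : Finset I := (Finset.range N).biUnion T
  let m' : ℕ := (Finset.range N).sup m
  refine ⟨fun δ => max (l δ) (if δ ∈ T' then m' else 0), ?_, fun δ => le_max_left _ _, ?_⟩
  · refine (hl.union T'.finite_toSet).subset fun δ hδ => ?_
    by_contra h2
    rw [mem_union, not_or] at h2
    refine hδ ?_
    have h3 : l δ = 0 := not_not.1 h2.1
    have h4 : δ ∉ T' := h2.2
    simp [h3, h4]
  · intro z hz z' hz' h2 i hi
    refine h1 i z hz z' hz' fun δ hδ => ?_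
    have h3 : δ ∈ T' := Finset.mem_biUnion.2 ⟨i, Finset.mem_range.2 hi, hδ⟩
    refine (h2 δ).mono ?_
    beta_reduce
    rw [if_pos h3]
    exact (Finset.le_sup (f := m) (Finset.mem_range.2 hi)).trans (le_max_right _ _)

/-- `g` has first differences of parity `ε` at points of `u` which have different entries at
the coordinate `γ`, at the level of `u` -/
def Ev (ε : Bool) (γ : I) (u : Bx I) (g : (I → X) → ℕ → Bool) : Prop :=
  ∀ z ∈ u, ∀ z' ∈ u, (z γ).1 (u.lv γ) ≠ (z' γ).1 (u.lv γ) → PD ε (g z) (g z')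

end

section

variable {I : Type*} [LinearOrder I] {Y : Type*}

theorem CtsOn.comp {u t : Bx I} {g : (I → X) → ℕ → Y} (h : CtsOn t g)
    {K : (I → X) → I → X} (hK : Mp u t K) : CtsOn u fun z => g (K z) := by
  classical
  intro n
  obtain ⟨T, m, h1⟩ := h n
  choose T' m' h2 using fun δ => hK.onb.uc δ m
  exact ⟨T.biUnion T', T.sup m', fun z hz z' hz' h3 => h1 _ (hK.maps z hz) _ (hK.maps z' hz')
    fun δ hδ => h2 δ z hz z' hz'
      (h3.mono (Finset.subset_biUnion_of_mem T' hδ) (Finset.le_sup hδ))⟩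

theorem Dep.comp {Z : Type*} {D : Set I} (hD : IsLowerSet D) {u t : Bx I} {g : (I → X) → Z}
    (h : Dep D t g) {K : (I → X) → I → X} (hK : Mp u t K) : Dep D u fun z => g (K z) :=
  fun z hz z' hz' h' => h _ (hK.maps z hz) _ (hK.maps z' hz') fun δ hδ =>
    hK.onb.low δ z hz z' hz' fun ε hε => h' ε (hD hε hδ)

/-- countable supports of compositions -/
theorem Dep.comp_countable {Z : Type*} {C : Set I} (hC : C.Countable) {u t : Bx I}
    {g : (I → X) → Z} (h : Dep C t g) {K : (I → X) → I → X} (hK : Mp u t K) :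
    ∃ C' : Set I, C'.Countable ∧ C ⊆ C' ∧ Dep C' u fun z => g (K z) := by
  obtain ⟨C', hC', h1, h2⟩ := hK.onb.supp
  refine ⟨C ∪ C', hC.union hC', subset_union_left, fun z hz z' hz' h' =>
    h _ (hK.maps z hz) _ (hK.maps z' hz') fun δ hδ => ?_⟩
  by_cases h3 : δ ∈ C'
  · exact h2 δ h3 z hz z' hz' fun ε hε => h' ε (Or.inr hε)
  · rw [(h1 δ h3).2 z hz, (h1 δ h3).2 z' hz']
    exact h' δ (Or.inl hδ)

/-! ### restriction to the coordinates in `D` -/

open Classical in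
/-- the map `K` at the coordinates in `D`, and the identity at the others -/
noncomputable def rs (D : Set I) (K : (I → X) → I → X) : (I → X) → I → X := fun z γ =>
  if γ ∈ D then K z γ else z γ

omit [LinearOrder I] in
theorem rs_mem {D : Set I} (K : (I → X) → I → X) (z : I → X) {γ : I} (h : γ ∈ D) :
    rs D K z γ = K z γ := if_pos h

omit [LinearOrder I] in
theorem rs_not {D : Set I} (K : (I → X) → I → X) (z : I → X) {γ : I} (h : γ ∉ D) :
    rs D K z γ = z γ := if_neg h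

theorem OnB.rs {t : Bx I} {K : (I → X) → I → X} (hK : OnB t K) (D : Set I) :
    OnB t (rs D K) where
  low γ z hz z' hz' h := by
    by_cases hγ : γ ∈ D
    · rw [rs_mem _ _ hγ, rs_mem _ _ hγ]; exact hK.low γ z hz z' hz' h
    · rw [rs_not _ _ hγ, rs_not _ _ hγ]; exact h γ le_rfl
  uc γ n := by
    by_cases hγ : γ ∈ D
    · obtain ⟨T, m, h⟩ := hK.uc γ n
      exact ⟨T, m, fun z hz z' hz' h' => by
        rw [rs_mem _ _ hγ, rs_mem _ _ hγ]; exact h z hz z' hz' h'⟩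
    · exact ⟨{γ}, n, fun z _ z' _ h' => by
        rw [rs_not _ _ hγ, rs_not _ _ hγ]; exact h' γ (Finset.mem_singleton_self γ)⟩
  emb γ n hn := by
    by_cases hγ : γ ∈ D
    · obtain ⟨M, h⟩ := hK.emb γ n hn
      refine ⟨M, fun z hz => ?_⟩
      obtain ⟨m, h1, h2, d, h3, h4⟩ := h z hz
      exact ⟨m, h1, h2, d, h3, fun z' hz' h5 h6 => by
        rw [rs_mem _ _ hγ, rs_mem _ _ hγ]; exact h4 z' hz' h5 h6⟩
    · exact ⟨n, fun z _ => ⟨n, le_rfl, le_rfl, _root_.id, Emb.id le_rfl, fun z' _ _ h6 => by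
        rw [rs_not _ _ hγ, rs_not _ _ hγ]; exact ⟨h6, rfl⟩⟩⟩
  supp := by
    obtain ⟨C, hC, h1, h2⟩ := hK.supp
    refine ⟨C, hC, fun γ hγ => ⟨(h1 γ hγ).1, fun z hz => ?_⟩, fun γ hγ z hz z' hz' h => ?_⟩
    · by_cases hD : γ ∈ D
      · rw [rs_mem _ _ hD]; exact (h1 γ hγ).2 z hz
      · rw [rs_not _ _ hD]
    · by_cases hD : γ ∈ D
      · rw [rs_mem _ _ hD, rs_mem _ _ hD]; exact h2 γ hγ z hz z' hz' h
      · rw [rs_not _ _ hD, rs_not _ _ hD]; exact h γ hγ

theorem Mp.rs {u : Bx I} {K : (I → X) → I → X} (hK : Mp u u K) (D : Set I) :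
    Mp u u (rs D K) := by
  refine ⟨hK.onb.rs D, fun z hz γ => ?_⟩
  by_cases hD : γ ∈ D
  · rw [rs_mem _ _ hD]; exact hK.maps z hz γ
  · rw [rs_not _ _ hD]; exact hz γ

theorem act_rs (D : Set I) (u : Bx I) (K : (I → X) → I → X) : Act D u (rs D K) :=
  fun _ hγ _ _ => rs_not _ _ hγ

theorem Dep.rs {Z : Type*} {D : Set I} {u : Bx I} {g : (I → X) → Z} (h : Dep D u g)
    {K : (I → X) → I → X} (hK : Mp u u K) {z : I → X} (hz : z ∈ u) :
    g (rs D K z) = g (K z) :=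
  h _ ((hK.rs D).maps z hz) _ (hK.maps z hz) fun _ hδ => rs_mem _ _ hδ

/-! ### the least set of coordinates -/

/-- `g ∘ K` depends on the coordinates in `D` and not only on those below a coordinate
in `D`, for any `K` -/
structure Mn (D : Set I) (t : Bx I) (g : (I → X) → ℕ → Y) : Prop where
  dep : Dep D t g
  min : ∀ γ ∈ D, ∀ u K, Sub u t → Mp u t K → ¬ Dep (Iio γ) u fun z => g (K z)

theorem Mn.comp {D : Set I} (hD : IsLowerSet D) {u t : Bx I} {g : (I → X) → ℕ → Y}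
    (h : Mn D t g) (hu : Sub u t) {K : (I → X) → I → X} (hK : Mp u t K) :
    Mn D u fun z => g (K z) :=
  ⟨h.dep.comp hD hK, fun γ hγ v L hv hL => h.min γ hγ v (fun z => K (L z)) (hv.trans hu)
    (hK.comp hL)⟩

/-- there is a least set of coordinates -/
theorem exists_Mn [WellFoundedLT I] (t : Bx I) (g : (I → X) → ℕ → Y) :
    ∃ (D : Set I) (u : Bx I) (K : (I → X) → I → X), IsLowerSet D ∧ Sub u t ∧ Mp u t K ∧
      Mn D u fun z => g (K z) := by
  by_cases h : ∃ α, ∃ u K, Sub u t ∧ Mp u t K ∧ Dep (Iio α) u fun z => g (K z)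
  · obtain ⟨α, ⟨u, K, h1, h2, h3⟩, h4⟩ := (wellFounded_lt (α := I)).has_min
      {α | ∃ u K, Sub u t ∧ Mp u t K ∧ Dep (Iio α) u fun z => g (K z)} h
    exact ⟨Iio α, u, K, isLowerSet_Iio α, h1, h2, h3, fun γ hγ v L hv hL h5 =>
      h4 γ ⟨v, fun z => K (L z), hv.trans h1, h2.comp hL, h5⟩ hγ⟩
  · refine ⟨univ, t, fun z => z, isLowerSet_univ, Sub.refl t, Mp.id (Sub.refl t),
      fun z _ z' _ h' => by rw [show z = z' from funext fun δ => h' δ trivial],
      fun γ _ v L hv hL h5 => h ⟨γ, v, L, hv, hL, h5⟩⟩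

end

end Pool.Agent.EN45
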