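import Pool.Agent.EN45.Hmd
import Pool.Agent.EN45.A6
import Pool.Agent.EN45.Ccn

/-!
# The number `hm` is less than the continuum (module HMT)
-/

namespace Pool.Agent.EN45

open Classical Set Pool.Agent Pool.Agent.LadderTree Pool.Agent.Forcing Pool.Agent.MAx
open Pool.Agent.BVM (BSet UF eqv memv chk Congr le_of_uf Disc OPair FunOn op on onT CardLE Rel)
open Pool.Agent.OG45 Pool.Agent.IN45
open Pool.Agent.ML45 (IM)

/-- the name of the family of monochromatic sets -/
noncomputable def HN : BSet (RO (Cnd IM)) := chk fun τ : TT => mN τ.1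

/-- the set of the initial segments of the values of `g` -/
private theorem hg_of {Z : Type*} {ε : Bool} {T : Set Z} {g : Z → ℕ → Bool}
    (h : ∀ z ∈ T, ∀ z' ∈ T, g z ≠ g z' → PD ε (g z) (g z')) :
    Hg ε {l | ∃ z ∈ T, ∃ n, l = pfx (g z) n} := by
  rintro l ⟨z, hz, m, rfl⟩ l' ⟨z', hz', m', rfl⟩ n hl hl' hag hne
  rw [length_pfx] at hl hl'
  subst hl
  subst hl'
  have hag' : ∀ k < n, g z k = g z' k := by
    intro k hk
    have h1 := hag k hk
    rwa [getD_pfx _ (by omega), getD_pfx _ (by omega)] at h1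
  rw [getD_pfx _ (by omega), getD_pfx _ (by omega)] at hne
  obtain ⟨i, h1, h2, h3⟩ := h z hz z' hz' fun he => hne (congrFun he n)
  have hi : i = n := by
    rcases lt_trichotomy i n with h4 | h4 | h4
    · exact absurd (hag' i h4) h2
    · exact h4
    · exact absurd (h1 n h4) hne
  rw [← hi]
  exact h3

/-- module HMT, first part: each set of natural numbers is densely in a member of the family.
Let `q' ≤ q`, `g` be as in `exists_reads_set x q`, and `ε`, `H` as in `exists_hom` for `t = q'.t` and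
`g`.  Let `r = q'.app hH`, and let `τ` be the set of all lists `pfx (g (H z)) n`, `z ∈ q'.t`; then
`Hg ε τ` (`getD_pfx`; `PD`).  `Fc r (x ∈ mN τ)` by `in_mN_of`: for `n` and `s ≤ r`, `Via s r K`, take
by `exists_decided` (for `via` to `q'` by `H ∘ K`) a smaller condition on which the entries `< n` of
`g (H (K z))` are constant. -/
theorem exists_mem_mN {x : BSet (RO (Cnd IM))} {q : Cnd IM} (h : SubW q x) :
    ∃ r ≤ q, ∃ τ : TT, Fc r fun F => In F (nm F x) (nm F (mN τ.1)) := by
  obtain ⟨q', hq', g, hg, C, hC, hdep⟩ := exists_reads_set x q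
  obtain ⟨ε, H, hH, hPD⟩ := exists_hom hg.cts hC hdep
  have hτ := hg_of (T := {z | z ∈ q'.t}) (g := fun z => g (H z)) hPD
  refine ⟨q'.app hH, (via_app q' hH).le.trans hq', ⟨_, ε, hτ⟩, ?_⟩
  refine in_mN_of (h.mono ((via_app q' hH).le.trans hq')) fun n s hs => ?_
  obtain ⟨K, hK⟩ := hs
  have hK' : Via s q' fun z => H (K z) := (via_app q' hH).trans hK
  obtain ⟨u, hu, -, hvia, hle, hdec⟩ := exists_decided hK' hg.cts n s.t.pt_mem
  refine ⟨s.res hu, hle, pfx (g (H (K s.t.pt))) n,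
    ⟨K s.t.pt, hK.mp.maps _ s.t.pt_mem, n, rfl⟩, length_pfx _ _, fun k hk => ?_⟩
  rw [getD_pfx _ hk]
  exact hg.reads (s.res hu) _ hvia k _ fun z hz => hdec z hz k hk

/-- module HMT, second part: `hm < 𝔠`.
`gg_all` with `rpHmLt`; the witness is `HN`.  The elements of `HN` are densely of the form `mN τ`
(`Fc.chk`), and monochromatic by `mono_mN`.  They cover the sets of natural numbers by
`exists_mem_mN` (`pow_PwN`, `In_chk`).  `¬ CardLE PwN HN` by `not_card_of_cover mk_TT` and
`Fc.chk`. -/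
theorem hmLt (F : GG (Cnd IM)) : HmLt (In F) (nm F (onT ℕ)) (nm F eN) (nm F PwN) := by
  refine ⟨nm F HN, ?_, ?_, ?_⟩
  · refine gg_all (B := fun F => ∀ X, In F X (nm F HN) →
      Mono (In F) (nm F (onT ℕ)) (nm F eN) X) ?_ (fun q => ?_) F
    · exact RpP.all fun _ => (RpP.mem _ _).imp (rpMono _ _ _)
    · refine Fc.all fun y => Fc.imp (RpP.mem _ _) (rpMono _ _ _) fun r hr hy => ?_
      refine Fc.dense (rpMono _ _ _) fun r' hr' => ?_
      obtain ⟨s, hs, τ, hτ⟩ := Fc.chk (hy.mono hr')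
      refine ⟨s, hs, fun F hF => ?_⟩
      beta_reduce
      rw [hτ F hF]
      obtain ⟨ε, hε⟩ := τ.2
      exact mono_mN hε F
  · refine gg_all (B := fun F => ∀ x, In F x (nm F PwN) →
      ∃ X, In F X (nm F HN) ∧ In F x X) ?_ (fun q => ?_) F
    · exact RpP.all fun _ => (RpP.mem _ _).imp (RpP.ex fun _ => (RpP.mem _ _).and (RpP.mem _ _))
    · refine Fc.all fun y => Fc.imp (RpP.mem _ _)
        (RpP.ex fun _ => (RpP.mem _ _).and (RpP.mem _ _)) fun r hr hy => ?_
      refine Fc.dense (RpP.ex fun _ => (RpP.mem _ _).and (RpP.mem _ _)) fun r' hr' => ?_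
      have hsub : SubW r' y := fun F hF => (pow_PwN F (nm F y)).1 ((hy.mono hr') F hF)
      obtain ⟨s, hs, τ, hτ⟩ := exists_mem_mN hsub
      exact ⟨s, hs, fun F hF => ⟨nm F (mN τ.1), In_chk (fun τ : TT => mN τ.1) τ F, hτ F hF⟩⟩
  · refine gg_all (B := fun F => ¬ CardLE (In F) (nm F PwN) (nm F HN)) (rpCard _ _).not
      (fun q => ?_) F
    exact not_card_of_cover mk_TT (fun τ : TT => mN τ.1) fun y r _ hy => Fc.chk hy

end Pool.Agent.EN45
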