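import Pool.Agent.EN45.Lnm

/-!
# The line in the quotient models (module LNL)
-/

namespace Pool.Agent.EN45

open Classical Set Pool.Agent Pool.Agent.LadderTree Pool.Agent.Forcing Pool.Agent.MAx
open Pool.Agent.BVM (BSet UF eqv memv chk Congr le_of_uf Disc OPair FunOn op on onT CardLE Rel)
open Pool.Agent.OG45 Pool.Agent.IN45
open Pool.Agent.ML45 (IM)

variable {P : Type} [Preorder P]

/-- the name of the standard cut below `n` -/
private noncomputable def lnlQ (n : ℕ) : BSet (RO P) := MAx.sN fun j => tv (ld.O j n)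

private theorem lnl_tv {F : GG P} {p : Prop} : F.1.U (tv p : RO P) ↔ p := by
  by_cases h : p
  · rw [tv_true h]; exact ⟨fun _ => h, fun _ => F.1.top⟩
  · rw [tv_false h]; exact ⟨fun h' => absurd h' F.1.bot, fun h' => absurd h' h⟩

private theorem lnl_in (n : ℕ) (F : GG P) (j : Md F) :
    In F j (nm F (lnlQ n)) ↔ Rel (In F) (nm F (ON : BSet (RO P))) j (nm F (on n)) := by
  have key : ∀ j, In F j (nm F (onT ℕ)) →
      (In F j (nm F (lnlQ n)) ↔ Rel (In F) (nm F (ON : BSet (RO P))) j (nm F (on n))) := by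
    intro j hj
    refine om_all (b := (⊤ : RO P)) (RpP.const True)
      (P := fun F j => In F j (nm F (lnlQ n)) ↔
        Rel (In F) (nm F (ON : BSet (RO P))) j (nm F (on n)))
      (fun y => (RpP.mem _ _).iff (RpP.rel _ _ _)) (fun F _ m => ?_) F trivial j hj
    rw [lnlQ, MAx.In_sN, rel_ON]
    exact lnl_tv
  constructor
  · intro h
    have h0 : In F j (nm F (MAx.sN fun j => tv (ld.O j n) : BSet (RO P))) := h
    have h1 : In F j (nm F (om : BSet (RO P))) := MAx.sN_sub h0
    have h2 : In F j (nm F (onT ℕ : BSet (RO P))) := h1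
    exact (key j h2).1 h
  · intro h
    exact (key j ((dlo_ON F).fld _ _ h).1).2 h

/-- module LNL: the line.
`line_of_cuts` with the name `Q = chk (fun i : ℕ => MAx.sN fun j => tv (ld.O j i))`.  The set
`{j | Rel ON j i}` exists by separation for each `i` (`exists_sep` for the name `onT ℕ`).  The
statement on `Q`: `gg_all`, and `Fc.chk`, `fc_nat`, `rel_ON`, `MAx.In_sN`.  `CardLE`: the function
`seqN fun i => MAx.sN fun j => tv (ld.O j i)` (`rel_seqN`, `funOn_seqN`). -/
theorem line_RN (F : GG P) : Line (In F) (nm F (onT ℕ)) (nm F (RN : BSet (RO P))) (nm F LN) := by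
  refine line_of_cuts (BVM.zfc F.1) (O := nm F (ON : BSet (RO P))) (Q := nm F (chk lnlQ))
    (dlo_ON F) (fun x => in_RN) (fun x y => rel_LN) (fun i _ => ?_) (fun x => ⟨fun hx => ?_, ?_⟩) ?_
  · obtain ⟨i, rfl⟩ := exists_nm i
    obtain ⟨y, hy⟩ := MAx.exists_sep (b := (⊤ : RO P)) (onT ℕ)
      (P := fun F z => Rel (In F) (nm F (ON : BSet (RO P))) z (nm F i)) (fun y => RpP.rel _ _ _)
    exact ⟨nm F y, fun j => (hy F j).trans
      ⟨fun h => h.2, fun h => ⟨((dlo_ON F).fld _ _ h).1, h⟩⟩⟩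
  · refine all_chk (b := (⊤ : RO P)) (x := lnlQ) (A := fun F x => ∃ i, In F i (nm F (onT ℕ)) ∧
      ∀ j, In F j x ↔ Rel (In F) (nm F (ON : BSet (RO P))) j i)
      (fun x => RpP.ex fun i => (RpP.mem _ _).and (RpP.all fun j =>
        (RpP.mem _ _).iff (RpP.rel _ _ _))) (fun F n => ?_) F x hx
    exact ⟨nm F (on n), nat_mem n F, fun j => lnl_in n F j⟩
  · rintro ⟨i, hi, hx⟩
    refine om_all (b := (⊤ : RO P)) (RpP.const True)
      (P := fun F i => ∀ x, (∀ j, In F j x ↔ Rel (In F) (nm F (ON : BSet (RO P))) j i) →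
        In F x (nm F (chk lnlQ)))
      (fun y => RpP.all fun x => (RpP.all fun j => (RpP.mem _ _).iff (RpP.rel _ _ _)).imp
        (RpP.mem _ _)) (fun F _ n => ?_) F trivial i hi x hx
    intro x hx
    have h1 : x = nm F (lnlQ n) := (BVM.zfc F.1).ext _ _ fun j => (hx j).trans (lnl_in n F j).symm
    rw [h1]
    exact In_chk lnlQ n F
  · refine ⟨nm F (seqN lnlQ), fun x y y' h h' => ?_, fun y hy => ?_⟩
    · obtain ⟨z, -, hz⟩ := (funOn_seqN lnlQ F).2 x (dom_of (funOn_seqN lnlQ F) h)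
      rw [hz y h, hz y' h']
    · obtain ⟨n, hn⟩ := (range_seqN lnlQ F y).1 hy
      exact ⟨n, dom_of (funOn_seqN lnlQ F) hn, hn⟩

end Pool.Agent.EN45
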