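import Pool.Agent.EN45.Nbh
import Pool.Agent.EN45.Lnl

/-!
# The homeomorphism (module HOQ)
-/

namespace Pool.Agent.EN45

open Classical Set Pool.Agent Pool.Agent.LadderTree Pool.Agent.Forcing Pool.Agent.MAx
open Pool.Agent.BVM (BSet UF eqv memv chk Congr le_of_uf Disc OPair FunOn op on onT CardLE Rel)
open Pool.Agent.OG45 Pool.Agent.IN45
open Pool.Agent.ML45 (IM)

private theorem hoq_pair {x y : BSet (RO (Cnd IM))} {q : Cnd IM}
    (h : Fc q fun F => Rel (In F) (nm F hN) (nm F x) (nm F y)) :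
    ∃ r ≤ q, ∃ b β, Fc r fun F => nm F x = nm F (cN b β) ∧ nm F y = nm F (cN (!b) β) := by
  obtain ⟨r, hr, i, hi⟩ := fc_prs h
  exact ⟨r, hr, i.1, i.2, hi⟩

private theorem hoq_rel (F : GG (Cnd IM)) (b : Bool) (β : IM) :
    Rel (In F) (nm F hN) (nm F (cN b β)) (nm F (cN (!b) β)) :=
  rel_prs (x := fun i : Bool × IM => cN i.1 i.2) (y := fun i => cN (!i.1) i.2) F (b, β)

/-- `h` is an involution: `gg_all` (`rpP` combinators), `fc_prs`, `rel_prs` for the pair with the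
index `(!b, β)` -/
theorem hN_symm (F : GG (Cnd IM)) (x y : Md F) (h : Rel (In F) (nm F hN) x y) :
    Rel (In F) (nm F hN) y x := by
  obtain ⟨x, rfl⟩ := exists_nm x
  obtain ⟨y, rfl⟩ := exists_nm y
  refine gg_imp (RpP.rel hN x y) (RpP.rel hN y x) (fun q hq => ?_) F h
  refine Fc.dense (RpP.rel hN y x) fun r hr => ?_
  obtain ⟨s, hs, b, β, hs'⟩ := hoq_pair (hq.mono hr)
  refine ⟨s, hs, fun G hG => ?_⟩
  obtain ⟨h1, h2⟩ := hs' G hG
  have h3 := hoq_rel G (!b) β
  rw [Bool.not_not] at h3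
  rw [h1, h2]
  exact h3

/-- `h` is functional: `gg_all`, `fc_prs` twice, `cN_ne` -/
theorem hN_fun (F : GG (Cnd IM)) (x y y' : Md F) (h : Rel (In F) (nm F hN) x y)
    (h' : Rel (In F) (nm F hN) x y') : y' = y := by
  obtain ⟨x, rfl⟩ := exists_nm x
  obtain ⟨y, rfl⟩ := exists_nm y
  obtain ⟨y', rfl⟩ := exists_nm y'
  refine gg_imp ((RpP.rel hN x y).and (RpP.rel hN x y')) (RpP.eq y' y) (fun q hq => ?_) F ⟨h, h'⟩
  refine Fc.dense (RpP.eq y' y) fun r hr => ?_
  obtain ⟨s, hs, b, β, hs'⟩ := hoq_pair (q := r) (x := x) (y := y) fun G hG => ((hq.mono hr) G hG).1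
  obtain ⟨t, ht, b', β', ht'⟩ := hoq_pair (q := s) (x := x) (y := y') fun G hG =>
    ((hq.mono (hs.trans hr)) G hG).2
  refine ⟨t, ht.trans hs, fun G hG => ?_⟩
  obtain ⟨h1, h2⟩ := (hs'.mono ht) G hG
  obtain ⟨h3, h4⟩ := ht' G hG
  by_cases h5 : b = b' ∧ β = β'
  · obtain ⟨rfl, rfl⟩ := h5
    show nm G y' = nm G y
    rw [h2, h4]
  · exact absurd (h1.symm.trans h3) (cN_ne h5 G)

/-! ### open sets in the quotient models -/

section

variable {M : Type*} {E : M → M → Prop} {w R L : M}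

/-- the set of the points of the line with the property `P` is open -/
private def OpP (E : M → M → Prop) (R L : M) (P : M → Prop) : Prop :=
  ∀ x, E x R → P x → ∃ a b, E a R ∧ E b R ∧ Rel E L a x ∧ Rel E L x b ∧
    ∀ y, E y R → Rel E L a y → Rel E L y b → P y

private theorem OpP.and (hl : Line E w R L) {P Q : M → Prop} (hP : OpP E R L P)
    (hQ : OpP E R L Q) : OpP E R L fun x => P x ∧ Q x := by
  intro x hx hPQ
  obtain ⟨a, b, ha, hb, hax, hxb, h1⟩ := hP x hx hPQ.1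
  obtain ⟨a', b', ha', hb', hax', hxb', h2⟩ := hQ x hx hPQ.2
  -- the larger lower bound
  obtain ⟨c, hc, hcx, hc1, hc2⟩ : ∃ c, E c R ∧ Rel E L c x ∧
      (∀ y, E y R → Rel E L c y → Rel E L a y) ∧ ∀ y, E y R → Rel E L c y → Rel E L a' y := by
    rcases hl.total a a' ha ha' with h | h | h
    · exact ⟨a, ha, hax, fun y _ hy => hy, fun y _ hy => h ▸ hy⟩
    · exact ⟨a', ha', hax', fun y hy hay => hl.trans a a' y ha ha' hy h hay, fun y _ hy => hy⟩
    · exact ⟨a, ha, hax, fun y _ hy => hy, fun y hy hay => hl.trans a' a y ha' ha hy h hay⟩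
  obtain ⟨d, hd, hxd, hd1, hd2⟩ : ∃ d, E d R ∧ Rel E L x d ∧
      (∀ y, E y R → Rel E L y d → Rel E L y b) ∧ ∀ y, E y R → Rel E L y d → Rel E L y b' := by
    rcases hl.total b b' hb hb' with h | h | h
    · exact ⟨b, hb, hxb, fun y _ hy => hy, fun y _ hy => h ▸ hy⟩
    · exact ⟨b, hb, hxb, fun y _ hy => hy, fun y hy hyb => hl.trans y b b' hy hb hb' hyb h⟩
    · exact ⟨b', hb', hxb', fun y hy hyb => hl.trans y b' b hy hb' hb hyb h, fun y _ hy => hy⟩
  exact ⟨c, d, hc, hd, hcx, hxd, fun y hy hcy hyd =>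
    ⟨h1 y hy (hc1 y hy hcy) (hd1 y hy hyd), h2 y hy (hc2 y hy hcy) (hd2 y hy hyd)⟩⟩

/-- open sets are given by open properties -/
private theorem OpP.openL {P : M → Prop} (hP : OpP E R L P) {V : M}
    (hV : ∀ z, E z V ↔ E z R ∧ P z) : OpenL E R L V := by
  refine ⟨fun z hz => ((hV z).1 hz).1, fun x hx => ?_⟩
  obtain ⟨h1, h2⟩ := (hV x).1 hx
  obtain ⟨a, b, ha, hb, hax, hxb, h3⟩ := hP x h1 h2
  exact ⟨a, b, ha, hb, hax, hxb, fun y hy hay hyb => (hV y).2 ⟨hy, h3 y hy hay hyb⟩⟩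

end

/-- the cut of a number -/
private theorem hoq_cut (F : GG (Cnd IM)) {k : Md F} (hk : In F k (nm F (onT ℕ))) :
    ∃ c : Md F, In F c (nm F RN) ∧ ∀ z, In F z c ↔ Rel (In F) (nm F ON) z k := by
  obtain ⟨k, rfl⟩ := exists_nm k
  obtain ⟨c, hc⟩ := MAx.exists_sep (b := (⊤ : RO (Cnd IM))) (onT ℕ)
    (P := fun F z => Rel (In F) (nm F ON) z (nm F k)) fun y => RpP.rel ON y k
  have hO := dlo_ON F
  have h1 : ∀ z, In F z (nm F c) ↔ Rel (In F) (nm F ON) z (nm F k) := fun z =>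
    ⟨fun h => ((hc F z).1 h).2, fun h => (hc F z).2 ⟨(hO.fld z _ h).1, h⟩⟩
  refine ⟨nm F c, in_RN.2 ⟨?_, ?_, ?_, ?_, ?_⟩, h1⟩
  · exact fun z hz => ((hc F z).1 hz).1
  · obtain ⟨j, hj⟩ := hO.noMin _ hk
    exact ⟨j, (h1 j).2 hj⟩
  · exact ⟨_, hk, fun h => hO.irrefl _ ((h1 _).1 h)⟩
  · exact fun i j hij hj => (h1 i).2 (hO.trans i j _ hij ((h1 j).1 hj))
  · intro i hi
    obtain ⟨m, hm1, hm2⟩ := hO.dense i _ ((h1 i).1 hi)
    exact ⟨m, (h1 m).2 hm2, hm1⟩

private theorem hoq_low (F : GG (Cnd IM)) (i : Md F) :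
    OpP (In F) (nm F RN) (nm F LN) fun x => In F i x := by
  intro x hx hi
  obtain ⟨k, hk, hik⟩ := (in_RN.1 hx).open' i hi
  obtain ⟨c, hc, hc'⟩ := hoq_cut F ((in_RN.1 hx).sub k hk)
  obtain ⟨d, hd, hxd⟩ := (line_RN F).noMax x hx
  refine ⟨c, d, hc, hd, lt_of_mem hc hx (fun h => (dlo_ON F).irrefl k ((hc' k).1 h)) hk, hxd,
    fun y _ hcy _ => ?_⟩
  exact (rel_LN.1 hcy).2.2.1 i ((hc' i).2 hik)

private theorem hoq_up (F : GG (Cnd IM)) (j : Md F) :
    OpP (In F) (nm F RN) (nm F LN) fun x => ∃ k, Rel (In F) (nm F ON) k j ∧ ¬ In F k x := by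
  intro x hx hk
  obtain ⟨k, hkj, hkx⟩ := hk
  obtain ⟨m, hkm, hmj⟩ := (dlo_ON F).dense k j hkj
  obtain ⟨c, hc, hc'⟩ := hoq_cut F ((dlo_ON F).fld m j hmj).1
  obtain ⟨a, ha, hax⟩ := (line_RN F).noMin x hx
  refine ⟨a, c, ha, hc, hax, lt_of_mem hx hc hkx ((hc' k).2 hkm), fun y _ _ hyc => ?_⟩
  exact ⟨m, hmj, fun h => (dlo_ON F).irrefl m ((hc' m).1 ((rel_LN.1 hyc).2.2.1 m h))⟩

/-- all digits are decided, one after the other -/
private theorem exists_dg' (q : Cnd IM) (β : IM) : ∃ s, ∀ n, ∃ r ≤ q, Dg r β n s := by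
  refine ⟨ys β (q.f q.t.pt β), fun n => ?_⟩
  have hfin : {δ | (Function.update (fun _ : IM => 0) β n) δ ≠ 0}.Finite := by
    refine (finite_singleton β).subset fun δ hδ => ?_
    by_contra h
    exact hδ (Function.update_of_ne h _ _)
  obtain ⟨u, hu, h1, h2⟩ := exists_small' q.onb hfin q.t.pt_mem
  refine ⟨q.res hu, (via_res q hu).le, fun z hz => ?_⟩
  refine ys_eqn_ys β ?_
  have h3 := h2 z hz β
  rw [Function.update_self] at h3
  exact h3.symm

/-- the complements of the points have no least element -/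
private theorem hoq_above (F : GG (Cnd IM)) (b : Bool) (β : IM) (j : ℕ)
    (h : ¬ In F (nm F (on j)) (nm F (cN b β))) :
    ∃ k, Rel (In F) (nm F ON) k (nm F (on j)) ∧ ¬ In F k (nm F (cN b β)) := by
  have hRp : RpP fun F : GG (Cnd IM) => ∃ k, Rel (In F) (nm F ON) k (nm F (on j)) ∧
      ¬ In F k (nm F (cN b β)) :=
    RpP.ex fun k => (RpP.rel _ _ _).and (RpP.mem _ _).not
  refine gg_imp (RpP.mem (on j) (cN b β)).not hRp (fun q hq => ?_) F h
  refine Fc.dense hRp fun p hp => ?_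
  obtain ⟨s, hs⟩ := exists_dg' p β
  obtain ⟨n, hn⟩ := exists_dig b j
  obtain ⟨r, hr, hr'⟩ := hs n
  have h1 : ld.cu b s j = false := by
    by_contra hcon
    rw [Bool.not_eq_false] at hcon
    refine Fc.false (q := r) fun G hG => ?_
    exact (hq.mono (hr.trans hp)) G hG ((hn r β s hr' G hG).2 hcon)
  obtain ⟨k, hk1, hk2⟩ := ld.above b s j h1
  obtain ⟨m, hm⟩ := exists_dig b k
  obtain ⟨r', hr1, hr2⟩ := hs m
  refine ⟨r', hr1, fun G hG => ⟨nm G (on k), rel_ON.2 hk1, fun hcon => ?_⟩⟩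
  have h2 := (hm r' β s hr2 G hG).1 hcon
  rw [hk2] at h2
  exact absurd h2 (by simp)

private theorem hoq_in (F : GG (Cnd IM)) {b : Bool} {i : ℕ} (h : ∀ x, ld.cu b x i = true)
    (β : IM) : In F (nm F (on i)) (nm F (cN b β)) :=
  gg_all (RpP.mem (on i) (cN b β)) (fun q G hG =>
    (cN_iff (c := true) (fun z _ => h (ys β (q.f z β))) G hG).2 rfl) F

private theorem hoq_notIn (F : GG (Cnd IM)) {b : Bool} {i : ℕ} (h : ∀ x, ld.cu b x i = false)
    (β : IM) : ¬ In F (nm F (on i)) (nm F (cN b β)) :=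
  gg_all (RpP.mem (on i) (cN b β)).not (fun q G hG hcon => by
    have := (cN_iff (c := false) (fun z _ => h (ys β (q.f z β))) G hG).1 hcon
    exact absurd this (by simp)) F

/-- the open sets which contain exactly the points with given digits.
For `i j : ℕ` and `b` let `V` be the set of all `x` in `RN` with `on i ∈ x`, `k ∉ x` for some `k`
with `Rel ON k (on j)`, and (`l` as in `ld.sep`) for `b = true`: `k' ∉ x` for some `k'` with
`Rel ON k' (on l)`, for `b = false`: `on l ∈ x` (`exists_sep`).  It is open: for `x ∈ V`, as `x` has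
no greatest element there is `i' ∈ x` with `Rel ON (on i) i'`, and the cut
`q i'' = {k | Rel ON k i''}` of a number `i''` gives end points of an interval; it is easier to
show that the sets `{x ∈ RN | i ∈ x}` and `{x ∈ RN | k ∉ x for some k with Rel ON k j}` are open
for all `i`, `j` in `ω`, and that intersections of two open sets are open (`Line.total`,
`line_RN`).  For the second statement: if `on j ∉ cN b β` then some `k` with `Rel ON k (on j)` is not
in `cN b β` (`gg_imp`, and for a condition `ld.above` on a small box, as in `exists_dig`); the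
converse by `Cutt.low` (`cN_in_RN`, `in_RN`).  The points `cN false β` contain `on l` and the points
`cN true β` do not (`cN_iff`, `gg_all`), and some `k'` with `Rel ON k' (on l)` is not in
`cN true β`. -/
theorem exists_openV (b : Bool) (i j : ℕ) : ∃ V : BSet (RO (Cnd IM)), ∀ F : GG (Cnd IM),
    OpenL (In F) (nm F RN) (nm F LN) (nm F V) ∧
    ∀ b' β, In F (nm F (cN b' β)) (nm F V) ↔ (b' = b ∧ In F (nm F (on i)) (nm F (cN b β)) ∧
      ¬ In F (nm F (on j)) (nm F (cN b β))) := by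
  obtain ⟨l, hl1, hl2⟩ := ld.sep
  -- the third condition
  obtain ⟨T, hT1, hT2, hT3⟩ : ∃ T : ∀ F : GG (Cnd IM), Md F → Prop,
      (∀ y, RpP fun F => T F (nm F y)) ∧ (∀ F, OpP (In F) (nm F RN) (nm F LN) (T F)) ∧
      ∀ F b' β, T F (nm F (cN b' β)) ↔ b' = b := by
    cases b
    · refine ⟨fun F x => In F (nm F (on l)) x, fun y => RpP.mem _ _, fun F => hoq_low F _,
        fun F b' β => ?_⟩
      cases b'
      · exact iff_of_true (hoq_in F hl2 β) rfl
      · exact iff_of_false (hoq_notIn F hl1 β) (by simp)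
    · refine ⟨fun F x => ∃ k, Rel (In F) (nm F ON) k (nm F (on l)) ∧ ¬ In F k x,
        fun y => RpP.ex fun k => (RpP.rel _ _ _).and (RpP.mem _ _).not, fun F => hoq_up F _,
        fun F b' β => ?_⟩
      cases b'
      · refine iff_of_false ?_ (by simp)
        rintro ⟨k, hk1, hk2⟩
        exact hk2 ((in_RN.1 (cN_in_RN false β F)).low k _ hk1 (hoq_in F hl2 β))
      · exact iff_of_true (hoq_above F true β l (hoq_notIn F hl1 β)) rfl
  obtain ⟨V, hV⟩ := MAx.exists_sep (b := (⊤ : RO (Cnd IM))) RN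
    (P := fun F x => (In F (nm F (on i)) x ∧
      ∃ k, Rel (In F) (nm F ON) k (nm F (on j)) ∧ ¬ In F k x) ∧ T F x)
    fun y => ((RpP.mem _ _).and (RpP.ex fun k => (RpP.rel _ _ _).and (RpP.mem _ _).not)).and
      (hT1 y)
  refine ⟨V, fun F => ⟨?_, fun b' β => ?_⟩⟩
  · exact (((hoq_low F (nm F (on i))).and (line_RN F) (hoq_up F (nm F (on j)))).and (line_RN F)
      (hT2 F)).openL (hV F)
  · rw [hV, hT3]
    constructor
    · rintro ⟨-, ⟨h1, k, h2, h3⟩, rfl⟩
      exact ⟨rfl, h1, fun h => h3 ((in_RN.1 (cN_in_RN b' β F)).low k _ h2 h)⟩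
    · rintro ⟨rfl, h1, h2⟩
      exact ⟨cN_in_RN b' β F, ⟨h1, hoq_above F b' β j h2⟩, rfl⟩

/-- module HOQ: continuity.
`gg_all`; let `q`, names `U`, `x`, `y` be given; decide `x = cN b β`, `y = cN (!b) β` (`fc_prs`);
take names `u`, `v` of the end points of an interval around `y` contained in `U`, and
`exists_nbh` for `(!b, β)`: `r`, `n`, `s`.  Let `i`, `j` be as in `ld.inv b s n`, and `V` as in
`exists_openV b i j`.  `x ∈ V`: `exists_dig`, `Dg r β n s` (possibly at a smaller condition) and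
`ld.inv`.  Let `x'`, `y'` be names with `x' ∈ V`, `Rel hN x' y'` forced by some `r' ≤ r`; decide
`x' = cN b' β'`, `y' = cN (!b') β'`; by `exists_openV` `b' = b`, `i ∈ cN b β'`, `j ∉ cN b β'`.  Take
by `exists_dg` a smaller `r''` and `s'` with `Dg r'' β' m s'`, `m` at least `n` and the numbers of
`exists_dig` for `(b, i)` and `(b, j)`; then `ld.cu b s' i = true`, `ld.cu b s' j = false`, so
`Eqn n s s'` by `ld.inv`, and `Dg r'' β' n s`, and `exists_nbh` gives that `y'` is in the interval,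
hence in `U`. -/
theorem cont_hN (F : GG (Cnd IM)) (U x y : Md F)
    (hU : OpenL (In F) (nm F RN) (nm F LN) U) (h : Rel (In F) (nm F hN) x y) (hy : In F y U) :
    ∃ V, OpenL (In F) (nm F RN) (nm F LN) V ∧ In F x V ∧ ∀ x' y', In F x' V →
      Rel (In F) (nm F hN) x' y' → In F y' U := by
  obtain ⟨U, rfl⟩ := exists_nm U
  obtain ⟨x, rfl⟩ := exists_nm x
  obtain ⟨y, rfl⟩ := exists_nm y
  have hRB : RpP fun F : GG (Cnd IM) => ∃ V, OpenL (In F) (nm F RN) (nm F LN) V ∧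
      In F (nm F x) V ∧ ∀ x' y', In F x' V → Rel (In F) (nm F hN) x' y' → In F y' (nm F U) :=
    RpP.ex fun V => (rpOpenL _ _ _).and ((RpP.mem _ _).and (RpP.all fun x' => RpP.all fun y' =>
      (RpP.mem _ _).imp ((RpP.rel _ _ _).imp (RpP.mem _ _))))
  refine gg_imp (A := fun F => OpenL (In F) (nm F RN) (nm F LN) (nm F U) ∧
    Rel (In F) (nm F hN) (nm F x) (nm F y) ∧ In F (nm F y) (nm F U))
    ((rpOpenL _ _ _).and ((RpP.rel _ _ _).and (RpP.mem _ _))) hRB (fun q hq => ?_) F ⟨hU, h, hy⟩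
  refine Fc.dense hRB fun p hp => ?_
  obtain ⟨p1, hp1, b, β, h1⟩ := hoq_pair (q := p) (x := x) (y := y) fun G hG =>
    ((hq.mono hp) G hG).2.1
  have hq1 := hq.mono (hp1.trans hp)
  -- names of the end points
  have hRi : ∀ u v : BSet (RO (Cnd IM)), RpP fun F : GG (Cnd IM) => In F (nm F u) (nm F RN) ∧
      In F (nm F v) (nm F RN) ∧ Rel (In F) (nm F LN) (nm F u) (nm F y) ∧
      Rel (In F) (nm F LN) (nm F y) (nm F v) ∧
      ∀ y', In F y' (nm F RN) → Rel (In F) (nm F LN) (nm F u) y' →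
        Rel (In F) (nm F LN) y' (nm F v) → In F y' (nm F U) := fun u v =>
    (RpP.mem _ _).and ((RpP.mem _ _).and ((RpP.rel _ _ _).and ((RpP.rel _ _ _).and
      (RpP.all fun y' => (RpP.mem _ _).imp ((RpP.rel _ _ _).imp ((RpP.rel _ _ _).imp
        (RpP.mem _ _)))))))
  obtain ⟨u, hu⟩ := Fc.name (q := p1) (A := fun F u => ∃ v, In F u (nm F RN) ∧
      In F v (nm F RN) ∧ Rel (In F) (nm F LN) u (nm F y) ∧ Rel (In F) (nm F LN) (nm F y) v ∧
      ∀ y', In F y' (nm F RN) → Rel (In F) (nm F LN) u y' →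
        Rel (In F) (nm F LN) y' v → In F y' (nm F U)) (fun u => RpP.ex fun v => hRi u v)
    fun G hG => by
      obtain ⟨h2, _, h3⟩ := hq1 G hG
      exact h2.2 _ h3
  obtain ⟨v, hv⟩ := Fc.name (q := p1) (A := fun F v => In F (nm F u) (nm F RN) ∧
      In F v (nm F RN) ∧ Rel (In F) (nm F LN) (nm F u) (nm F y) ∧
      Rel (In F) (nm F LN) (nm F y) v ∧
      ∀ y', In F y' (nm F RN) → Rel (In F) (nm F LN) (nm F u) y' →
        Rel (In F) (nm F LN) y' v → In F y' (nm F U)) (fun v => hRi u v) hu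
  obtain ⟨r, hr, n, s, hs, hnb⟩ := exists_nbh (q := p1) (b := !b) (β := β) (u := u) (v := v)
    fun G hG => by
      obtain ⟨_, _, h2, h3, _⟩ := hv G hG
      rw [(h1 G hG).2] at h2 h3
      exact ⟨h2, h3⟩
  obtain ⟨i, j, hij⟩ := ld.inv b s n
  obtain ⟨V, hV⟩ := exists_openV b i j
  have hin : Fc r (SB (cN b β) i true) := cN_iff fun z hz => ((hij _).2 (hs z hz)).1
  have hnot : Fc r (SB (cN b β) j false) := cN_iff fun z hz => ((hij _).2 (hs z hz)).2
  have hmain : Fc r fun F => ∀ x' y', In F x' (nm F V) → Rel (In F) (nm F hN) x' y' →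
      In F y' (nm F U) := by
    refine Fc.all fun x' => Fc.all fun y' => ?_
    refine Fc.imp (RpP.mem _ _) ((RpP.rel _ _ _).imp (RpP.mem _ _)) fun r1 hr1 hx' => ?_
    refine Fc.imp (RpP.rel _ _ _) (RpP.mem _ _) fun r2 hr2 hxy' => ?_
    refine Fc.dense (RpP.mem _ _) fun r3 hr3 => ?_
    obtain ⟨r4, hr4, b', β', h4⟩ := hoq_pair (hxy'.mono hr3)
    have h5 : Fc r4 fun F => b' = b ∧ In F (nm F (on i)) (nm F (cN b β')) ∧
        ¬ In F (nm F (on j)) (nm F (cN b β')) := fun G hG => by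
      have h6 := (hx'.mono (hr4.trans (hr3.trans hr2))) G hG
      beta_reduce at h6 ⊢
      rw [(h4 G hG).1] at h6
      exact ((hV G).2 b' β').1 h6
    obtain ⟨G0, hG0⟩ := exists_gg r4
    have hb : b' = b := (h5 G0 hG0).1
    subst hb
    obtain ⟨s', hs'⟩ := exists_dg' r4 β'
    obtain ⟨n1, hn1⟩ := exists_dig b' i
    obtain ⟨n2, hn2⟩ := exists_dig b' j
    obtain ⟨r5, hr5, hdg⟩ := hs' (max n (max n1 n2))
    have hdg1 : Dg r5 β' n1 s' := fun z hz =>
      (hdg z hz).mono ((le_max_left _ _).trans (le_max_right _ _))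
    have hdg2 : Dg r5 β' n2 s' := fun z hz =>
      (hdg z hz).mono ((le_max_right _ _).trans (le_max_right _ _))
    obtain ⟨G1, hG1⟩ := exists_gg r5
    have h6 := (h5.mono hr5) G1 hG1
    have h7 : ld.cu b' s' i = true := (hn1 r5 β' s' hdg1 G1 hG1).1 h6.2.1
    have h8 : ld.cu b' s' j = false := by
      by_contra hcon
      rw [Bool.not_eq_false] at hcon
      exact h6.2.2 ((hn2 r5 β' s' hdg2 G1 hG1).2 hcon)
    have h9 : Eqn n s s' := (hij s').1 ⟨h7, h8⟩
    have h10 : Dg r5 β' n s := fun z hz => h9.trans ((hdg z hz).mono (le_max_left _ _))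
    have h11 : r5 ≤ r := hr5.trans (hr4.trans (hr3.trans (hr2.trans hr1)))
    have h12 := hnb β' r5 h11 h10
    refine ⟨r5, hr5.trans hr4, fun G hG => ?_⟩
    obtain ⟨h13, h14⟩ := h12 G hG
    have h15 := (h4.mono hr5 G hG).2
    have h16 := (hv.mono (h11.trans hr) G hG).2.2.2.2
    rw [h15]
    exact h16 _ (cN_in_RN _ _ G) h13 h14
  refine ⟨r, hr.trans hp1, fun G hG => ⟨nm G V, (hV G).1, ?_, hmain G hG⟩⟩
  rw [(h1.mono hr G hG).1, (hV G).2]
  refine ⟨rfl, (hin G hG).2 rfl, fun hcon => ?_⟩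
  have := (hnot G hG).1 hcon
  exact absurd this (by simp)

/-- `h` is a function on the set -/
theorem dom_hN (F : GG (Cnd IM)) : FunOn (In F) (nm F hN) (nm F AN) := by
  refine ⟨fun z hz => ?_, fun x hx => ?_⟩
  · obtain ⟨z, rfl⟩ := exists_nm z
    have hRB : RpP fun F : GG (Cnd IM) => ∃ x y, In F x (nm F AN) ∧
        OPair (In F) (nm F z) x y :=
      RpP.ex fun x => RpP.ex fun y => (RpP.mem _ _).and (RpP.opair _ _ _)
    refine gg_imp (RpP.mem z hN) hRB (fun q hq => ?_) F hz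
    refine Fc.dense hRB fun r hr => ?_
    obtain ⟨s, hs, i, hi⟩ := Fc.chk (x := fun i : Bool × IM => op (cN i.1 i.2) (cN (!i.1) i.2))
      (hq.mono hr)
    refine ⟨s, hs, fun G hG => ⟨nm G (cN i.1 i.2), nm G (cN (!i.1) i.2), in_AN G _ _, ?_⟩⟩
    exact OPair_nm.2 (hi G hG)
  · obtain ⟨x, rfl⟩ := exists_nm x
    have hRB : RpP fun F : GG (Cnd IM) => ∃ y, Rel (In F) (nm F hN) (nm F x) y :=
      RpP.ex fun y => RpP.rel _ _ _
    have h1 : ∃ y, Rel (In F) (nm F hN) (nm F x) y := by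
      refine gg_imp (RpP.mem x AN) hRB (fun q hq => ?_) F hx
      refine Fc.dense hRB fun r hr => ?_
      obtain ⟨s, hs, b, β, h⟩ := fc_AN (hq.mono hr)
      refine ⟨s, hs, fun G hG => ⟨nm G (cN (!b) β), ?_⟩⟩
      have h2 := h G hG
      beta_reduce at h2
      rw [h2]
      exact hoq_rel G b β
    obtain ⟨y, hy⟩ := h1
    exact ⟨y, hy, fun y' hy' => hN_fun F _ y y' hy hy'⟩

theorem homeo_hN (F : GG (Cnd IM)) : Homeo (In F) (nm F RN) (nm F LN) (nm F AN) (nm F hN) where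
  fn := dom_hN F
  val x y h := by
    obtain ⟨z, hz, hzf⟩ := hN_symm F x y h
    obtain ⟨x', y', hx', hz'⟩ := (dom_hN F).1 z hzf
    rw [(hz.inj hz').1]
    exact hx'
  inj x x' y h h' := hN_fun F y x' x (hN_symm F x' y h') (hN_symm F x y h)
  surj y hy := by
    obtain ⟨x, hx, -⟩ := (dom_hN F).2 y hy
    exact ⟨x, hN_symm F y x hx⟩
  cont U x y := cont_hN F U x y
  contInv U x y hU h hx := by
    obtain ⟨V, h1, h2, h3⟩ := cont_hN F U y x hU (hN_symm F x y h) hx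
    exact ⟨V, h1, h2, fun x' y' h4 h5 => h3 y' x' h4 (hN_symm F x' y' h5)⟩

/-- `h` is not the identity -/
theorem hN_ne (F : GG (Cnd IM)) : ∃ x y, Rel (In F) (nm F hN) x y ∧ x ≠ y :=
  ⟨nm F (cN true (Classical.arbitrary IM)), nm F (cN false (Classical.arbitrary IM)),
    rel_prs (x := fun i : Bool × IM => cN i.1 i.2) (y := fun i => cN (!i.1) i.2) F
      (true, Classical.arbitrary IM), cN_ne (by simp) F⟩

end Pool.Agent.EN45
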