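import Pool.Agent.EN45.Cro
import Pool.Agent.EN45.Hoq
import Pool.Agent.EN45.Hmt
import Pool.Agent.EN45.En3

/-!
# The model
-/

namespace Pool.Agent.EN45

open Pool.Agent.BVM (ZFC Omega Rel onT)
open Pool.Agent.MAx (Md In nm)
open Pool.Agent.OG45 (exists_gg Sub)

theorem exists_model : ∃ (M : Type 1) (E : M → M → Prop), ZFC E ∧ ∃ w P e R L A h : M,
    Omega E w ∧ Pow E w P ∧ Evens E w e ∧ HmLt E w e P ∧ Line E w R L ∧ OG45.Sub E A R ∧
      Crowded E P R L A ∧ Entangled E w P R L A ∧ Homeo E R L A h ∧ ∃ x y, Rel E h x y ∧ x ≠ y := by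
  obtain ⟨F, -⟩ := exists_gg (default : Cnd ML45.IM)
  exact ⟨Md F, In F, BVM.zfc F.1, nm F (onT ℕ), nm F PwN, nm F eN, nm F RN, nm F LN, nm F AN,
    nm F hN, BVM.omega_onT F.1, pow_PwN F, evens_eN F, hmLt F, line_RN F, AN_sub F,
    crowded_AN F, entangled_AN F, homeo_hN F, hN_ne F⟩

end Pool.Agent.EN45
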