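import Pool.Agent.IN45.Names
import Pool.Agent.MAx.Tname
import Pool.Agent.EN45.Defs

/-!
# General tools for names
-/

namespace Pool.Agent.EN45

open Classical Set Pool.Agent Pool.Agent.LadderTree Pool.Agent.Forcing Pool.Agent.MAx
open Pool.Agent.BVM (BSet UF eqv memv chk Congr le_of_uf Disc OPair FunOn op on onT CardLE Rel)
open Pool.Agent.OG45 Pool.Agent.IN45

section

variable {P : Type} [Preorder P]

/-! ### sets of pairs -/

/-- the set of the pairs `(x i, y i)` -/
noncomputable def prs {ι : Type} (x y : ι → BSet (RO P)) : BSet (RO P) :=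
  chk fun i => op (x i) (y i)

theorem rel_prs {ι : Type} {x y : ι → BSet (RO P)} (F : GG P) (i : ι) :
    Rel (In F) (nm F (prs x y)) (nm F (x i)) (nm F (y i)) :=
  ⟨nm F (op (x i) (y i)), OPair_nm.2 rfl, In_chk (fun i => op (x i) (y i)) i F⟩

theorem nm_op {F : GG P} {x y x' y' : BSet (RO P)} :
    nm F (op x y) = nm F (op x' y') ↔ nm F x = nm F x' ∧ nm F y = nm F y' := by
  rw [nm_eq, BVM.eqv_op, F.1.inf_iff, nm_eq, nm_eq]

theorem fc_prs {ι : Type} {x y : ι → BSet (RO P)} {u v : BSet (RO P)} {q : P}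
    (h : Fc q fun F => Rel (In F) (nm F (prs x y)) (nm F u) (nm F v)) :
    ∃ r ≤ q, ∃ i, Fc r fun F => nm F u = nm F (x i) ∧ nm F v = nm F (y i) := by
  have h1 : Fc q fun F => In F (nm F (op u v)) (nm F (chk fun i => op (x i) (y i))) := by
    intro F hF
    obtain ⟨z, h2, h3⟩ := h F hF
    rw [OPair_nm] at h2
    rw [← h2]
    exact h3
  obtain ⟨r, hr, i, hi⟩ := Fc.chk h1
  exact ⟨r, hr, i, fun F hF => nm_op.1 (hi F hF)⟩

/-! ### sets of natural numbers -/

/-- `a` is forced to be a set of natural numbers -/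
def SubW (q : P) (a : BSet (RO P)) : Prop :=
  Fc q fun F => Sub (In F) (nm F a) (nm F (onT ℕ))

theorem rpSub {B : Type} [CompleteBooleanAlgebra B] {b : B} (x y : BSet B) :
    RpP fun F : Pt b => Sub (In F) (nm F x) (nm F y) := by
  unfold OG45.Sub
  exact RpP.all fun _ => (RpP.mem _ _).imp (RpP.mem _ _)

/-- quantification over the natural numbers -/
theorem fc_all_nat {A : ∀ F : GG P, Md F → Prop} (hA : ∀ y, RpP fun F => A F (nm F y)) {q : P}
    (h : ∀ n : ℕ, Fc q fun F => A F (nm F (on n))) :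
    Fc q fun F => ∀ n, In F n (nm F (onT ℕ)) → A F n := by
  refine Fc.all fun n => Fc.imp (RpP.mem _ _) (hA n) fun r hr hn => ?_
  refine Fc.dense (hA n) fun r' hr' => ?_
  obtain ⟨s, hs, k, hk⟩ := fc_nat (hn.mono hr')
  refine ⟨s, hs, fun F hF => ?_⟩
  have h1 := hk F hF
  beta_reduce at h1 ⊢
  rw [h1]
  exact ((h k).mono (hs.trans (hr'.trans hr))) F hF

/-- sets of natural numbers with the same elements are equal -/
theorem fc_set_ext {q : P} {a c : BSet (RO P)} (ha : SubW q a) (hc : SubW q c)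
    (h : ∀ n : ℕ, ∀ r ≤ q, ∃ s ≤ r, Fc s fun F =>
      (In F (nm F (on n)) (nm F a) ↔ In F (nm F (on n)) (nm F c))) :
    Fc q fun F => nm F a = nm F c := by
  have h1 : Fc q fun F => ∀ n, In F n (nm F (onT ℕ)) → (In F n (nm F a) ↔ In F n (nm F c)) :=
    fc_all_nat (A := fun F n => In F n (nm F a) ↔ In F n (nm F c))
      (fun _ => (RpP.mem _ _).iff (RpP.mem _ _)) fun n =>
        Fc.dense ((RpP.mem _ _).iff (RpP.mem _ _)) (h n)
  intro F hF
  refine (BVM.zfc F.1).ext _ _ fun z => ⟨fun hz => ?_, fun hz => ?_⟩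
  · exact (h1 F hF z (ha F hF z hz)).1 hz
  · exact (h1 F hF z (hc F hF z hz)).2 hz

/-- the name of the power set of `ω` -/
theorem exists_PwN : ∃ p : BSet (RO P), ∀ F : GG P, Pow (In F) (nm F (onT ℕ)) (nm F p) := by
  obtain ⟨p, hp⟩ := exists_powN (b := (⊤ : RO P)) (onT ℕ)
  exact ⟨p, fun F x => hp F x⟩

/-- the name of the power set of `ω` -/
noncomputable def PwN : BSet (RO P) := exists_PwN.choose

theorem pow_PwN (F : GG P) : Pow (In F) (nm F (onT ℕ)) (nm F PwN) := exists_PwN.choose_spec F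

theorem rpCard (x y : BSet (RO P)) :
    RpP fun F : GG P => CardLE (In F) (nm F x) (nm F y) := rpCardLE _ _

end

end Pool.Agent.EN45
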