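import Pool.Agent.EN45.Ram
import Pool.Agent.EN45.Rpl

/-!
# Monochromatic sets given by trees (module HMD)
-/

namespace Pool.Agent.EN45

open Classical Set Pool.Agent Pool.Agent.LadderTree Pool.Agent.Forcing Pool.Agent.MAx
open Pool.Agent.BVM (BSet UF eqv memv chk Congr le_of_uf Disc OPair FunOn op on onT CardLE Rel)
open Pool.Agent.OG45 Pool.Agent.IN45

/-- the list of the first `n` entries of `x` -/
def pfx (x : ℕ → Bool) (n : ℕ) : List Bool := (List.range n).map x

theorem length_pfx (x : ℕ → Bool) (n : ℕ) : (pfx x n).length = n := by simp [pfx]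

theorem getD_pfx (x : ℕ → Bool) {n k : ℕ} (h : k < n) : (pfx x n).getD k false = x k := by
  simp [pfx, List.getD, h]

/-- the set of lists `τ` has the parity `ε`: if two lists of length `n + 1` in `τ` agree before
`n` and differ at `n`, then `n` is even iff `ε` is `true` -/
def Hg (ε : Bool) (τ : Set (List Bool)) : Prop := ∀ l ∈ τ, ∀ l' ∈ τ, ∀ n, l.length = n + 1 →
  l'.length = n + 1 → (∀ k < n, l.getD k false = l'.getD k false) →
  l.getD n false ≠ l'.getD n false → (Even n ↔ ε = true)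

/-- the homogeneous sets of lists -/
def TT : Type := {τ : Set (List Bool) // ∃ ε, Hg ε τ}

theorem mk_TT : Cardinal.mk TT ≤ Cardinal.continuum := by
  refine (Cardinal.mk_le_of_injective (f := fun τ : TT => τ.1) Subtype.val_injective).trans ?_
  rw [Cardinal.mk_set, ← Cardinal.two_power_aleph0]
  exact Cardinal.power_le_power_left two_ne_zero Cardinal.mk_le_aleph0

section

variable {P : Type} [Preorder P]

/-- the name of the set of even numbers -/
noncomputable def eN : BSet (RO P) := MAx.sN fun n => tv (Even n)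

/-- the name of the finite set given by a list -/
noncomputable def lN (l : List Bool) : BSet (RO P) := MAx.sN fun k => tv (l.getD k false = true)

theorem in_eN {F : GG P} {n : ℕ} : In F (nm F (on n)) (nm F (eN : BSet (RO P))) ↔ Even n := by
  rw [eN, MAx.In_sN, F.1.tv_iff]

theorem in_lN {F : GG P} {l : List Bool} {k : ℕ} :
    In F (nm F (on k)) (nm F (lN l : BSet (RO P))) ↔ l.getD k false = true := by
  rw [lN, MAx.In_sN, F.1.tv_iff]

/-- the name of the set of pairs of the length and the set given by a list in `τ` -/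
noncomputable def tN (τ : Set (List Bool)) : BSet (RO P) :=
  prs (fun l : τ => on l.1.length) fun l => lN l.1

theorem exists_mN (τ : Set (List Bool)) : ∃ m : BSet (RO P), ∀ (F : GG P) (x : Md F),
    In F x (nm F m) ↔ In F x (nm F PwN) ∧ ∀ n, In F n (nm F (onT ℕ)) →
      ∃ a, Rel (In F) (nm F (tN τ)) n a ∧ ∀ k, In F k n → (In F k a ↔ In F k x) :=
  exists_sep (b := (⊤ : RO P)) PwN (P := fun F x => ∀ n, In F n (nm F (onT ℕ)) →
      ∃ a, Rel (In F) (nm F (tN τ)) n a ∧ ∀ k, In F k n → (In F k a ↔ In F k x)) fun x => by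
    repeat' (first
      | exact RpP.rel _ _ _ | exact RpP.mem _ _
      | refine RpP.and ?_ ?_ | refine RpP.iff ?_ ?_
      | refine RpP.ex fun _ => ?_ | refine RpP.all fun _ => ?_
      | refine RpP.imp ?_ ?_)

/-- the name of the set of all sets of natural numbers whose initial segments are in `τ` -/
noncomputable def mN (τ : Set (List Bool)) : BSet (RO P) := (exists_mN τ).choose

theorem in_mN {τ : Set (List Bool)} {F : GG P} {x : Md F} :
    In F x (nm F (mN τ)) ↔ In F x (nm F PwN) ∧ ∀ n, In F n (nm F (onT ℕ)) →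
      ∃ a, Rel (In F) (nm F (tN τ)) n a ∧ ∀ k, In F k n → (In F k a ↔ In F k x) :=
  (exists_mN τ).choose_spec F x

/-- module HMD, first part: the set of even numbers.
`gg_all` with `rpEvens`.  `Fc.all`, `Fc.imp`, `Fc.dense`, `fc_nat`.  The first clause by
`MAx.sN_sub`.  If `n = on k` has no elements then `k = 0` (`nat_lt`).  If
`n = on k` and `s = n ∪ {n}` then `s = on (k + 1)` (extensionality, `mem_on`, `nat_lt`), and `in_eN`,
`Nat.even_add_one`. -/
theorem evens_eN (F : GG P) : Evens (In F) (nm F (onT ℕ)) (nm F (eN : BSet (RO P))) := by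
  refine gg_all (rpEvens _ _) (fun q => ?_) F
  have h2 : Fc q fun F => ∀ n, In F n (nm F (onT ℕ)) → (∀ m, ¬ In F m n) →
      In F n (nm F (eN : BSet (RO P))) := by
    refine fc_all_nat (A := fun F n => (∀ m, ¬ In F m n) → In F n (nm F (eN : BSet (RO P))))
      (fun y => ?_) fun k F _ hm => ?_
    · exact (RpP.all fun _ => (RpP.mem _ _).not).imp (RpP.mem _ _)
    · have hk : k = 0 := by
        by_contra hk
        exact hm _ (nat_lt.2 (Nat.pos_of_ne_zero hk))
      rw [hk, in_eN]
      exact ⟨0, rfl⟩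
  have h3 : Fc q fun F => ∀ n, In F n (nm F (onT ℕ)) →
      ∀ s, (∀ z, In F z s ↔ (In F z n ∨ z = n)) → (In F s (nm F (eN : BSet (RO P))) ↔
        ¬ In F n (nm F (eN : BSet (RO P)))) := by
    refine fc_all_nat (A := fun F n => ∀ s, (∀ z, In F z s ↔ (In F z n ∨ z = n)) →
      (In F s (nm F (eN : BSet (RO P))) ↔ ¬ In F n (nm F (eN : BSet (RO P)))))
      (fun y => ?_) fun k F _ s hs => ?_
    · exact RpP.all fun _ => (RpP.all fun _ => (RpP.mem _ _).iff
        ((RpP.mem _ _).or (RpP.eq _ _))).imp ((RpP.mem _ _).iff (RpP.mem _ _).not)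
    · have e : s = nm F (on (k + 1)) := by
        refine (BVM.zfc F.1).ext _ _ fun z => ?_
        refine (hs z).trans ⟨?_, fun hz => ?_⟩
        · rintro (hz | rfl)
          · obtain ⟨i, hi, rfl⟩ := mem_on hz
            exact nat_lt.2 (hi.trans (Nat.lt_succ_self k))
          · exact nat_lt.2 (Nat.lt_succ_self k)
        · obtain ⟨i, hi, rfl⟩ := mem_on hz
          rcases Nat.lt_succ_iff_lt_or_eq.1 hi with h | h
          · exact Or.inl (nat_lt.2 h)
          · exact Or.inr (by rw [h])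
      rw [e, in_eN, in_eN]
      exact Nat.even_add_one
  intro F hF
  exact ⟨fun z hz => MAx.sN_sub hz, h2 F hF, fun n s hn hs => h3 F hF n hn s hs⟩

/-- the initial segment of length `n` of an element of `mN τ` is decided to be in `τ`:
instantiate the condition at `n` (`fc_prs` and `nat_inj` for the list of length `n`) -/
theorem fc_mN {τ : Set (List Bool)} {x : BSet (RO P)} {q : P}
    (h : Fc q fun F => In F (nm F x) (nm F (mN τ))) (n : ℕ) : ∃ r ≤ q, ∃ l ∈ τ, l.length = n ∧
      ∀ k < n, Fc r fun F => (In F (nm F (on k)) (nm F x) ↔ l.getD k false = true) := by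
  have h1 : Fc q fun F => ∃ a, Rel (In F) (nm F (tN τ)) (nm F (on n)) a ∧
      ∀ k, In F k (nm F (on n)) → (In F k a ↔ In F k (nm F x)) := fun F hF =>
    (in_mN.1 (h F hF)).2 _ (nat_mem n F)
  obtain ⟨a, ha⟩ := Fc.name (A := fun F a => Rel (In F) (nm F (tN τ)) (nm F (on n)) a ∧
      ∀ k, In F k (nm F (on n)) → (In F k a ↔ In F k (nm F x))) (fun y =>
    (RpP.rel _ _ _).and (RpP.all fun _ => (RpP.mem _ _).imp ((RpP.mem _ _).iff (RpP.mem _ _)))) h1
  obtain ⟨r, hr, l, hl⟩ := fc_prs (x := fun l : τ => on l.1.length) (y := fun l => lN l.1)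
    (u := on n) (v := a) (q := q) fun F hF => (ha F hF).1
  have hlen : l.1.length = n := by
    obtain ⟨F, hF⟩ := exists_gg r
    exact (nat_inj.1 (hl F hF).1).symm
  refine ⟨r, hr, l.1, l.2, hlen, fun k hk F hF => ?_⟩
  have h2 := (ha.mono hr F hF).2 (nm F (on k)) (nat_lt.2 hk)
  have h3 : nm F a = nm F (lN l.1) := (hl F hF).2
  rw [h3, in_lN] at h2
  exact h2.symm

/-- an element of `mN τ`: all initial segments are densely in `τ` -/
theorem in_mN_of {τ : Set (List Bool)} {x : BSet (RO P)} {q : P} (hx : SubW q x)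
    (h : ∀ n, ∀ r ≤ q, ∃ s ≤ r, ∃ l ∈ τ, l.length = n ∧
      ∀ k < n, Fc s fun F => (In F (nm F (on k)) (nm F x) ↔ l.getD k false = true)) :
    Fc q fun F => In F (nm F x) (nm F (mN τ)) := by
  have hR : ∀ y : BSet (RO P), RpP fun F : GG P => ∃ a, Rel (In F) (nm F (tN τ)) (nm F y) a ∧
      ∀ k, In F k (nm F y) → (In F k a ↔ In F k (nm F x)) := fun y =>
    RpP.ex fun _ => (RpP.rel _ _ _).and
      (RpP.all fun _ => (RpP.mem _ _).imp ((RpP.mem _ _).iff (RpP.mem _ _)))
  have h1 : Fc q fun F => ∀ n, In F n (nm F (onT ℕ)) → ∃ a, Rel (In F) (nm F (tN τ)) n a ∧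
      ∀ k, In F k n → (In F k a ↔ In F k (nm F x)) := by
    refine fc_all_nat (A := fun F n => ∃ a, Rel (In F) (nm F (tN τ)) n a ∧
      ∀ k, In F k n → (In F k a ↔ In F k (nm F x))) hR fun n => Fc.dense (hR _) fun r hr => ?_
    obtain ⟨s, hs, l, hl, hlen, hk⟩ := h n r hr
    refine ⟨s, hs, fun F hF => ⟨nm F (lN l), ?_, fun k hk' => ?_⟩⟩
    · have h2 : Rel (In F) (nm F (tN τ)) (nm F (on l.length)) (nm F (lN l)) :=
        rel_prs (x := fun l : τ => on l.1.length) (y := fun l => lN l.1) F ⟨l, hl⟩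
      rw [hlen] at h2
      exact h2
    · obtain ⟨i, hi, rfl⟩ := mem_on hk'
      rw [in_lN]
      exact (hk i hi F hF).symm
  intro F hF
  exact in_mN.2 ⟨(pow_PwN F _).2 (hx F hF), h1 F hF⟩

/-- module HMD, second part: monochromatic sets.
`gg_all` with `rpMono`; let `Hg ε τ`.  If `ε = true` prove the first alternative.  Let names `x`, `y`,
`n` be given with `x`, `y ∈ mN τ` and `Dif n x y`; decide `n = on k` (`fc_nat`), and by `fc_mN` for
`k + 1` decide lists `l`, `l'` in `τ`; they agree before `k` and differ at `k` (`Fc.false`), so `k`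
is even, and `in_eN`.  If `ε = false` similarly for the second alternative. -/
theorem mono_mN {τ : Set (List Bool)} {ε : Bool} (h : Hg ε τ) (F : GG P) :
    Mono (In F) (nm F (onT ℕ)) (nm F (eN : BSet (RO P))) (nm F (mN τ)) := by
  have hA : ∀ x y n : BSet (RO P), RpP fun F : GG P => In F (nm F x) (nm F (mN τ)) ∧
      In F (nm F y) (nm F (mN τ)) ∧ Dif (In F) (nm F (onT ℕ)) (nm F n) (nm F x) (nm F y) :=
    fun _ _ _ => (RpP.mem _ _).and ((RpP.mem _ _).and (rpDif _ _ _ _))
  have hB : ∀ n : BSet (RO P), RpP fun F : GG P =>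
      (In F (nm F n) (nm F (eN : BSet (RO P))) ↔ ε = true) :=
    fun _ => (RpP.mem _ _).iff (RpP.const _)
  have key : ∀ x y n, In F x (nm F (mN τ)) ∧ In F y (nm F (mN τ)) ∧
      Dif (In F) (nm F (onT ℕ)) n x y → (In F n (nm F (eN : BSet (RO P))) ↔ ε = true) := by
    refine gg_all (B := fun F => ∀ x y n, In F x (nm F (mN τ)) ∧ In F y (nm F (mN τ)) ∧
      Dif (In F) (nm F (onT ℕ)) n x y → (In F n (nm F (eN : BSet (RO P))) ↔ ε = true))
      (RpP.all fun _ => RpP.all fun _ => RpP.all fun _ => (hA _ _ _).imp (hB _)) (fun q => ?_) F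
    refine Fc.all fun x => Fc.all fun y => Fc.all fun n => Fc.imp (hA _ _ _) (hB _)
      fun r _ hr => Fc.dense (hB _) fun r' hr' => ?_
    obtain ⟨s, hs, k, hk⟩ := fc_nat (a := n) (q := r') fun F hF => (hr.mono hr' F hF).2.2.1
    obtain ⟨s1, hs1, l, hl, hlen, hlk⟩ := fc_mN (x := x) (q := s)
      (fun F hF => (hr.mono (hs.trans hr') F hF).1) (k + 1)
    obtain ⟨s2, hs2, l', hl', hlen', hlk'⟩ := fc_mN (x := y) (q := s1)
      (fun F hF => (hr.mono (hs1.trans (hs.trans hr')) F hF).2.1) (k + 1)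
    have hs2' : s2 ≤ r := hs2.trans (hs1.trans (hs.trans hr'))
    have h0 : (∀ i < k, l.getD i false = l'.getD i false) ∧
        l.getD k false ≠ l'.getD k false := by
      obtain ⟨F, hF⟩ := exists_gg s2
      have h1 := (hr.mono hs2' F hF).2.2
      have h2 := hk.mono (hs2.trans hs1) F hF
      beta_reduce at h1 h2
      rw [h2] at h1
      have e1 : ∀ i < k + 1, (In F (nm F (on i)) (nm F x) ↔ l.getD i false = true) :=
        fun i hi => (hlk i hi).mono hs2 F hF
      have e2 : ∀ i < k + 1, (In F (nm F (on i)) (nm F y) ↔ l'.getD i false = true) :=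
        fun i hi => hlk' i hi F hF
      constructor
      · intro i hi
        have h3 := h1.2.2 (nm F (on i)) (nat_lt.2 hi)
        rw [e1 i (hi.trans (Nat.lt_succ_self k)), e2 i (hi.trans (Nat.lt_succ_self k))] at h3
        exact Bool.eq_iff_iff.2 h3
      · intro h3
        refine h1.2.1 ?_
        rw [e1 k (Nat.lt_succ_self k), e2 k (Nat.lt_succ_self k), h3]
    refine ⟨s2, hs2.trans (hs1.trans hs), fun F hF => ?_⟩
    have h2 := hk.mono (hs2.trans hs1) F hF
    beta_reduce at h2 ⊢
    rw [h2, in_eN]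
    exact h l hl l' hl' k hlen hlen' h0.1 h0.2
  refine ⟨fun x hx => (pow_PwN F x).1 (in_mN.1 hx).1, ?_⟩
  cases ε with
  | true => exact Or.inl fun x y n hx hy hn => (key x y n ⟨hx, hy, hn⟩).2 rfl
  | false =>
    exact Or.inr fun x y n hx hy hn hne => absurd ((key x y n ⟨hx, hy, hn⟩).1 hne) (by simp)

end

end Pool.Agent.EN45
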