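import Pool.Agent.EN45.Base

/-!
# The action on a box
-/

namespace Pool.Agent.EN45

open Set

variable {I : Type*} [LinearOrder I]

/-- the map `f` of the box `t` does not move the coordinates outside `D` -/
def Act (D : Set I) (t : Bx I) (f : (I → X) → I → X) : Prop := ∀ γ ∉ D, ∀ z ∈ t, f z γ = z γ

/-- the map `f` preserves the first `m γ` entries at the coordinate `γ` -/
def Pres (m : I → ℕ) (f : (I → X) → I → X) : Prop := ∀ z γ, Eqn (m γ) (f z γ) (z γ)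

theorem Pres.mem {m : I → ℕ} {f : (I → X) → I → X} (h : Pres m f) {u : Bx I}
    (hu : ∀ γ, u.lv γ ≤ m γ) {z : I → X} (hz : z ∈ u) : f z ∈ u :=
  fun γ => ((h z γ).mono (hu γ)).trans (hz γ)

theorem Pres.comp {m : I → ℕ} {f g : (I → X) → I → X} (hf : Pres m f) (hg : Pres m g) :
    Pres m fun z => f (g z) := fun z γ => (hf (g z) γ).trans (hg z γ)

theorem Pres.mono {m m' : I → ℕ} {f : (I → X) → I → X} (h : Pres m f) (hm : ∀ γ, m' γ ≤ m γ) :
    Pres m' f := fun z γ => (h z γ).mono (hm γ)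

theorem Pres.id (m : I → ℕ) : Pres m (id : (I → X) → I → X) := fun _ _ => Eqn.refl _ _

variable {u : Bx I} {K : (I → X) → I → X}

open Classical in
/-- the action of `K` on the box `u`, extended to all points: at the coordinate `γ` it is `K` if
the point is in the box at the coordinates `≤ γ` -/
noncomputable def J (u : Bx I) (K : (I → X) → I → X) : (I → X) → I → X := fun z γ =>
  if ∀ δ ≤ γ, Eqn (u.lv δ) (z δ) (u.pt δ) then K (proj u z) γ else z γ

theorem J_pos {z : I → X} {γ : I} (h : ∀ δ ≤ γ, Eqn (u.lv δ) (z δ) (u.pt δ)) :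
    J u K z γ = K (proj u z) γ := if_pos h

theorem J_neg {z : I → X} {γ : I} (h : ¬ ∀ δ ≤ γ, Eqn (u.lv δ) (z δ) (u.pt δ)) :
    J u K z γ = z γ := if_neg h

theorem J_eq {z : I → X} (h : z ∈ u) : J u K z = K z := by
  funext γ
  rw [J_pos fun δ _ => h δ, proj_self h]

theorem pres_J (h : ∀ z ∈ u, K z ∈ u) : Pres u.lv (J u K) := by
  intro z γ
  by_cases hc : ∀ δ ≤ γ, Eqn (u.lv δ) (z δ) (u.pt δ)
  · rw [J_pos hc]
    exact (h _ (proj_mem u z) γ).trans (hc γ le_rfl).symm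
  · rw [J_neg hc]
    exact Eqn.refl _ _

theorem Act.J {D : Set I} (h : Act D u K) : Act D topB (J u K) := by
  intro γ hγ z _
  by_cases hc : ∀ δ ≤ γ, Eqn (u.lv δ) (z δ) (u.pt δ)
  · rw [J_pos hc, h γ hγ _ (proj_mem u z), proj_apply (hc γ le_rfl)]
  · rw [J_neg hc]

theorem spl_eqn_spl {n m : ℕ} {x y y' : X} (h : Eqn m y y') : Eqn m (spl n x y) (spl n x y') := by
  intro i hi
  by_cases h1 : i < n
  · rw [spl_lt _ _ h1, spl_lt _ _ h1]
  · rw [spl_ge _ _ (not_lt.1 h1), spl_ge _ _ (not_lt.1 h1)]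
    exact h i hi

theorem OnB.J (hK : OnB u K) (h : ∀ z ∈ u, K z ∈ u) : OnB topB (J u K) where
  low γ z _ z' _ hz := by
    have h1 : (∀ δ ≤ γ, Eqn (u.lv δ) (z δ) (u.pt δ)) ↔ ∀ δ ≤ γ, Eqn (u.lv δ) (z' δ) (u.pt δ) :=
      forall₂_congr fun δ hδ => by rw [hz δ hδ]
    by_cases hc : ∀ δ ≤ γ, Eqn (u.lv δ) (z δ) (u.pt δ)
    · rw [J_pos hc, J_pos (h1.1 hc)]
      refine hK.low γ _ (proj_mem u z) _ (proj_mem u z') fun δ hδ => ?_
      rw [proj, proj, hz δ hδ]
    · rw [J_neg hc, J_neg fun h2 => hc (h1.2 h2)]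
      exact hz γ le_rfl
  uc γ n := by
    classical
    obtain ⟨T, m, h1⟩ := hK.uc γ n
    refine ⟨insert γ (u.fin.toFinset ∪ T), max (max n m) (u.fin.toFinset.sup u.lv),
      fun z _ z' _ hz => ?_⟩
    have h2 : (∀ δ ≤ γ, Eqn (u.lv δ) (z δ) (u.pt δ)) ↔ ∀ δ ≤ γ, Eqn (u.lv δ) (z' δ) (u.pt δ) := by
      refine forall₂_congr fun δ hδ => ?_
      by_cases h3 : u.lv δ = 0
      · rw [h3]; exact iff_of_true (eqn_zero _ _) (eqn_zero _ _)
      · have h4 : δ ∈ u.fin.toFinset := u.fin.mem_toFinset.2 h3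
        have h5 : Eqn (u.lv δ) (z δ) (z' δ) := (hz δ (Finset.mem_insert_of_mem
          (Finset.mem_union_left _ h4))).mono
            ((Finset.le_sup (f := u.lv) h4).trans (le_max_right _ _))
        exact ⟨fun h => h5.symm.trans h, fun h => h5.trans h⟩
    by_cases hc : ∀ δ ≤ γ, Eqn (u.lv δ) (z δ) (u.pt δ)
    · rw [J_pos hc, J_pos (h2.1 hc)]
      refine h1 _ (proj_mem u z) _ (proj_mem u z') fun δ hδ => spl_eqn_spl ?_
      exact (hz δ (Finset.mem_insert_of_mem (Finset.mem_union_right _ hδ))).mono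
        ((le_max_right _ _).trans (le_max_left _ _))
    · rw [J_neg hc, J_neg fun h3 => hc (h2.2 h3)]
      exact (hz γ (Finset.mem_insert_self _ _)).mono ((le_max_left _ _).trans (le_max_left _ _))
  emb γ n _ := by
    by_cases hn : n < u.lv γ
    · -- nothing happens at small levels
      have key : ∀ z, Eqn (n + 1) (EN45.J u K z γ) (z γ) := fun z =>
        (pres_J h z γ).mono hn
      refine ⟨n, fun z _ => ⟨n, le_rfl, le_rfl, _root_.id, Emb.id le_rfl, fun z' _ _ h2 => ⟨?_, ?_⟩⟩⟩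
      · exact (((key z').mono (Nat.le_succ n)).trans h2).trans ((key z).mono (Nat.le_succ n)).symm
      · exact key z' n (Nat.lt_succ_self n)
    · rw [not_lt] at hn
      obtain ⟨M, h1⟩ := hK.emb γ n hn
      refine ⟨max n M, fun z _ => ?_⟩
      have h2 : ∀ z' : I → X, (∀ δ < γ, z' δ = z δ) → Eqn n (z' γ) (z γ) →
          ((∀ δ ≤ γ, Eqn (u.lv δ) (z δ) (u.pt δ)) ↔ ∀ δ ≤ γ, Eqn (u.lv δ) (z' δ) (u.pt δ)) := by
        intro z' h3 h4
        refine forall₂_congr fun δ hδ => ?_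
        rcases hδ.lt_or_eq with h5 | h5
        · rw [h3 δ h5]
        · rw [h5]
          exact ⟨fun h => (h4.mono hn).trans h, fun h => (h4.mono hn).symm.trans h⟩
      by_cases hc : ∀ δ ≤ γ, Eqn (u.lv δ) (z δ) (u.pt δ)
      · obtain ⟨m, h3, h4, d, h5, h6⟩ := h1 _ (proj_mem u z)
        refine ⟨m, h3, h4.trans (le_max_right _ _), d, h5, fun z' _ h7 h8 => ?_⟩
        obtain ⟨h9, h10⟩ := h6 _ (proj_mem u z')
          (fun δ hδ => by rw [proj, proj, h7 δ hδ]) (spl_eqn_spl h8)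
        rw [J_pos hc, J_pos ((h2 z' h7 h8).1 hc)]
        refine ⟨h9, h10.trans ?_⟩
        rw [proj, spl_ge _ _ hn]
      · refine ⟨n, le_rfl, le_max_left _ _, _root_.id, Emb.id le_rfl, fun z' _ h7 h8 => ?_⟩
        rw [J_neg hc, J_neg fun h3 => hc ((h2 z' h7 h8).2 h3)]
        exact ⟨h8, rfl⟩
  supp := by
    obtain ⟨C, hC, h1, h2⟩ := hK.supp
    refine ⟨C ∪ {γ | u.lv γ ≠ 0}, hC.union u.fin.countable, fun γ hγ => ⟨rfl, fun z _ => ?_⟩,
      fun γ _ z _ z' _ hz => ?_⟩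
    · rw [mem_union, not_or] at hγ
      by_cases hc : ∀ δ ≤ γ, Eqn (u.lv δ) (z δ) (u.pt δ)
      · rw [J_pos hc, (h1 γ hγ.1).2 _ (proj_mem u z), proj_apply (hc γ le_rfl)]
      · rw [J_neg hc]
    · have h3 : (∀ δ ≤ γ, Eqn (u.lv δ) (z δ) (u.pt δ)) ↔
          ∀ δ ≤ γ, Eqn (u.lv δ) (z' δ) (u.pt δ) := by
        refine forall₂_congr fun δ hδ => ?_
        by_cases h4 : u.lv δ = 0
        · rw [h4]; exact iff_of_true (eqn_zero _ _) (eqn_zero _ _)
        · rw [hz δ (Or.inr h4)]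
      by_cases hc : ∀ δ ≤ γ, Eqn (u.lv δ) (z δ) (u.pt δ)
      · rw [J_pos hc, J_pos (h3.1 hc)]
        by_cases h4 : γ ∈ C
        · refine h2 γ h4 _ (proj_mem u z) _ (proj_mem u z') fun δ hδ => ?_
          rw [proj, proj, hz δ (Or.inl hδ)]
        · rw [(h1 γ h4).2 _ (proj_mem u z), (h1 γ h4).2 _ (proj_mem u z'), proj, proj,
            hz γ (by assumption)]
      · rw [J_neg hc, J_neg fun h4 => hc (h3.2 h4), hz γ (by assumption)]

end Pool.Agent.EN45
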