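import Pool.Agent.EN45.Jop

/-!
# Limits of compositions, convergence (module LM1)
-/

namespace Pool.Agent.EN45

open Set

variable {I : Type*} [LinearOrder I]

/-- the composition `K n ∘ K (n + 1) ∘ ... ∘ K (n + N - 1)` -/
def cmpn (K : ℕ → (I → X) → I → X) (n : ℕ) : ℕ → (I → X) → I → X
  | 0 => fun z => z
  | N + 1 => fun z => cmpn K n N (K (n + N) z)

omit [LinearOrder I] in
theorem cmpn_zero (K : ℕ → (I → X) → I → X) (n : ℕ) (z : I → X) : cmpn K n 0 z = z := rfl

omit [LinearOrder I] in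
theorem cmpn_succ (K : ℕ → (I → X) → I → X) (n N : ℕ) (z : I → X) :
    cmpn K n (N + 1) z = cmpn K n N (K (n + N) z) := rfl

omit [LinearOrder I] in
theorem cmpn_succ' (K : ℕ → (I → X) → I → X) (n N : ℕ) (z : I → X) :
    cmpn K n (N + 1) z = K n (cmpn K (n + 1) N z) := by
  induction N generalizing z with
  | zero => rfl
  | succ N ih =>
    rw [cmpn_succ, ih, cmpn_succ, show n + 1 + N = n + (N + 1) by omega]

omit [LinearOrder I] in
theorem cmpn_add (K : ℕ → (I → X) → I → X) (n a b : ℕ) (z : I → X) :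
    cmpn K n (a + b) z = cmpn K n a (cmpn K (n + a) b z) := by
  induction b generalizing z with
  | zero => rfl
  | succ b ih =>
    rw [← Nat.add_assoc, cmpn_succ, ih, cmpn_succ, Nat.add_assoc]

theorem onB_cmpn {K : ℕ → (I → X) → I → X} (hK : ∀ n, OnB topB (K n)) (n N : ℕ) :
    OnB topB (cmpn K n N) := by
  induction N with
  | zero => exact OnB.id _
  | succ N ih => exact ih.comp (hK _) fun _ _ => mem_topB _

theorem pres_cmpn {K : ℕ → (I → X) → I → X} {m : ℕ → I → ℕ} (hP : ∀ n, Pres (m n) (K n))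
    (hm : ∀ n δ, m n δ ≤ m (n + 1) δ) (n N : ℕ) : Pres (m n) (cmpn K n N) := by
  induction N with
  | zero => exact Pres.id _
  | succ N ih =>
    refine ih.comp ((hP _).mono fun δ => ?_)
    exact monotone_nat_of_le_succ (f := fun n => m n δ) (fun n => hm n δ) (Nat.le_add_right n N)

omit [LinearOrder I] in
theorem triv_cmpn {K : ℕ → (I → X) → I → X} {γ : I} (h : ∀ n z, K n z γ = z γ) (n N : ℕ)
    (z : I → X) : cmpn K n N z γ = z γ := by
  induction N generalizing z with
  | zero => rfl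
  | succ N ih => rw [cmpn_succ, ih, h]

/-- module LM1: convergence, uniformly in `z`.
Induction on `γ` (`WellFoundedLT.induction`), for all `n` and `j`.  If all `K n` are trivial at `γ`
then `N₀ = 0` (`triv_cmpn`).  Otherwise take `n'` with `j ≤ m (n + n') γ` (`hγ` and monotonicity).
By `OnB.uc_low` for `onB_cmpn hK n n'` there are a finite set `T` and `k` such that the value at
`γ` up to `j` depends on the first `k` entries at `δ ∈ T`, `δ < γ` and on the first `j` entries at
`γ`.  By the induction hypothesis, for each `δ < γ` there is `N₀ δ` for `n + n'` and `k`; let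
`N₁` be the maximum of the `N₀ δ`, `δ ∈ T`, `δ < γ`, and `N₀ = n' + N₁`.  For `N ≥ N₀` write
`N = n' + (N - n')` (`cmpn_add`); at `γ` the tails preserve the first `j` entries
(`pres_cmpn`). -/
theorem exists_conv [WellFoundedLT I] {K : ℕ → (I → X) → I → X} {m : ℕ → I → ℕ}
    (hK : ∀ n, OnB topB (K n)) (hP : ∀ n, Pres (m n) (K n)) (hm : ∀ n δ, m n δ ≤ m (n + 1) δ)
    (hγ : ∀ γ, (∀ n z, K n z γ = z γ) ∨ ∀ k, ∃ n, k ≤ m n γ) (γ : I) (n j : ℕ) :
    ∃ N₀, ∀ N ≥ N₀, ∀ z, Eqn j (cmpn K n N z γ) (cmpn K n N₀ z γ) := by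
  classical
  induction γ using WellFoundedLT.induction generalizing n j with
  | ind γ ih =>
    rcases hγ γ with htriv | hbig
    · refine ⟨0, fun N _ z => ?_⟩
      rw [triv_cmpn htriv, triv_cmpn htriv]
      exact Eqn.refl _ _
    · obtain ⟨n', hn'⟩ := hbig j
      have hm' : j ≤ m (n + n') γ := hn'.trans
        (monotone_nat_of_le_succ (f := fun n => m n γ) (fun n => hm n γ) (Nat.le_add_left n' n))
      obtain ⟨T, k, hT⟩ := (onB_cmpn hK n n').uc_low γ j
      have h1 : ∀ δ, ∃ N₀, δ < γ → ∀ N ≥ N₀, ∀ z,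
          Eqn k (cmpn K (n + n') N z δ) (cmpn K (n + n') N₀ z δ) := by
        intro δ
        by_cases hδ : δ < γ
        · obtain ⟨N₀, hN₀⟩ := ih δ hδ (n + n') k
          exact ⟨N₀, fun _ => hN₀⟩
        · exact ⟨0, fun h => absurd h hδ⟩
      choose N₁ hN₁ using h1
      refine ⟨n' + T.sup N₁, fun N hN z => ?_⟩
      obtain ⟨b, rfl⟩ : ∃ b, N = n' + b := ⟨N - n', by omega⟩
      have hb : T.sup N₁ ≤ b := by omega
      rw [cmpn_add, cmpn_add]
      refine hT _ (mem_topB _) _ (mem_topB _) (fun δ hδT hδ => ?_) ?_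
      · have h2 : N₁ δ ≤ T.sup N₁ := Finset.le_sup hδT
        exact (hN₁ δ hδ b (h2.trans hb) z).trans (hN₁ δ hδ (T.sup N₁) h2 z).symm
      · have h3 := pres_cmpn hP hm (n + n') b z γ
        have h4 := pres_cmpn hP hm (n + n') (T.sup N₁) z γ
        exact (h3.mono hm').trans (h4.mono hm').symm

end Pool.Agent.EN45
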