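import Pool.Agent.EN45.Lim

/-!
# Limits of compositions (module LM2)
-/

namespace Pool.Agent.EN45

open Set

variable {I : Type*} [LinearOrder I] [WellFoundedLT I]

/-- module LM2: the limits of the tails.
By `exists_conv` choose `N₀ n γ j`; the value `R n z γ` has the entry
`(cmpn K n (N₀ n γ (i + 1)) z γ).1 i` at the place `i`.  Key fact: for all `n`, `γ`, `j` there is
`N₁` with `Eqn j (R n z γ) (cmpn K n N z γ)` for all `N ≥ N₁` and all `z` (the maximum of the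
`N₀ n γ (i + 1)`, `i < j`).  Hence `low` and `uc` of `R n` (from those of `cmpn K n N`,
`onB_cmpn`), and `Pres (m n) (R n)` (`pres_cmpn`), and `R n z γ = z γ` if all `K n` are trivial at
`γ` (`triv_cmpn`).  `R n z = K n (R (n + 1) z)`: compare up to `j` at `γ`, with the modulus
`(T, k)` of `K n` and `cmpn_succ'`.  Hence `R n z = cmpn K n i (R (n + i) z)`.  `emb` of `R n` at
`γ` and `j`: if all `K n` are trivial at `γ`, this is trivial; otherwise take `i` with
`j < m (n + i) γ`, write `R n = cmpn K n i ∘ R (n + i)` and use `emb` of `cmpn K n i` for the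
points `R (n + i) z`, as `R (n + i)` does not change the first `j + 1` entries at `γ` (`Pres`), and
`R (n + i) z' δ = R (n + i) z δ` for `δ < γ` if `z' = z` below `γ` (`low`).  `supp`: the union
`C` of the countable sets of all `K n` (`(hK n).supp`); outside of `C` all `K n` are trivial; for
`γ ∈ C` the values of `cmpn K n N` depend on the coordinates in `C`. -/
theorem exists_lim {K : ℕ → (I → X) → I → X} {m : ℕ → I → ℕ}
    (hK : ∀ n, OnB topB (K n)) (hP : ∀ n, Pres (m n) (K n)) (hm : ∀ n δ, m n δ ≤ m (n + 1) δ)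
    (hγ : ∀ γ, (∀ n z, K n z γ = z γ) ∨ ∀ k, ∃ n, k ≤ m n γ) :
    ∃ R : ℕ → (I → X) → I → X, (∀ n, OnB topB (R n)) ∧ (∀ n, Pres (m n) (R n)) ∧
      (∀ n z, R n z = K n (R (n + 1) z)) ∧
      (∀ γ, (∀ n z, K n z γ = z γ) → ∀ n z, R n z γ = z γ) ∧
      ∀ γ n j, ∃ N₁, ∀ N ≥ N₁, ∀ z, Eqn j (R n z γ) (cmpn K n N z γ) := by
  choose N₀ hN₀ using exists_conv hK hP hm hγ
  obtain ⟨R, hR⟩ : ∃ R : ℕ → (I → X) → I → X, ∀ n z γ i,
      (R n z γ).1 i = (cmpn K n (N₀ γ n (i + 1)) z γ).1 i :=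
    ⟨fun n z γ => ⟨fun i => (cmpn K n (N₀ γ n (i + 1)) z γ).1 i,
      fun i => (cmpn K n (N₀ γ n (i + 1)) z γ).2 i⟩, fun _ _ _ _ => rfl⟩
  -- the key fact
  have key : ∀ γ n j, ∃ N₁, ∀ N ≥ N₁, ∀ z, Eqn j (R n z γ) (cmpn K n N z γ) := by
    intro γ n j
    refine ⟨(Finset.range j).sup fun i => N₀ γ n (i + 1), fun N hN z i hi => ?_⟩
    rw [hR]
    have h1 : N₀ γ n (i + 1) ≤ N :=
      (Finset.le_sup (f := fun i => N₀ γ n (i + 1)) (Finset.mem_range.2 hi)).trans hN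
    exact (hN₀ γ n (i + 1) N h1 z i (Nat.lt_succ_self i)).symm
  have hlow : ∀ n γ z z', (∀ δ ≤ γ, z δ = z' δ) → R n z γ = R n z' γ := by
    intro n γ z z' h
    refine X.ext fun i => ?_
    rw [hR, hR, (onB_cmpn hK n (N₀ γ n (i + 1))).low γ z (mem_topB _) z' (mem_topB _) h]
  have hpres : ∀ n, Pres (m n) (R n) := by
    intro n z γ i hi
    rw [hR]
    exact pres_cmpn hP hm n _ z γ i hi
  have htriv : ∀ γ, (∀ n z, K n z γ = z γ) → ∀ n z, R n z γ = z γ := by
    intro γ h n z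
    refine X.ext fun i => ?_
    rw [hR, triv_cmpn h]
  have hstep : ∀ n z, R n z = K n (R (n + 1) z) := by
    intro n z
    funext γ
    refine eq_of_eqn fun j => ?_
    obtain ⟨T, k, h1⟩ := (hK n).uc γ j
    obtain ⟨N₁, h2⟩ := key γ n j
    choose N₂ h3 using fun δ => key δ (n + 1) k
    have h4 := h2 (max N₁ (T.sup N₂) + 1) ((le_max_left _ _).trans (Nat.le_succ _)) z
    rw [cmpn_succ'] at h4
    refine h4.trans (h1 _ (mem_topB _) _ (mem_topB _) fun δ hδ => ?_)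
    exact (h3 δ _ ((Finset.le_sup (f := N₂) hδ).trans (le_max_right _ _)) z).symm
  have hcmp : ∀ i n z, R n z = cmpn K n i (R (n + i) z) := by
    intro i
    induction i with
    | zero => intro n z; rfl
    | succ i ih =>
      intro n z
      rw [cmpn_succ, ← Nat.add_assoc, ← hstep]
      exact ih n z
  choose C hC hC1 hC2 using fun n => (hK n).supp
  have hsupp : ∀ N n z z', (∀ δ ∈ ⋃ n, C n, z δ = z' δ) →
      ∀ δ ∈ ⋃ n, C n, cmpn K n N z δ = cmpn K n N z' δ := by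
    intro N
    induction N with
    | zero => intro n z z' h; exact h
    | succ N ih =>
      intro n z z' h
      rw [cmpn_succ, cmpn_succ]
      refine ih n _ _ fun δ hδ => ?_
      by_cases h1 : δ ∈ C (n + N)
      · exact hC2 (n + N) δ h1 z (mem_topB _) z' (mem_topB _) fun δ' hδ' =>
          h δ' (mem_iUnion.2 ⟨_, hδ'⟩)
      · rw [(hC1 (n + N) δ h1).2 z (mem_topB _), (hC1 (n + N) δ h1).2 z' (mem_topB _)]
        exact h δ hδ
  refine ⟨R, fun n => ⟨?_, ?_, ?_, ?_⟩, hpres, hstep, htriv, key⟩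
  · intro γ z _ z' _ h
    exact hlow n γ z z' h
  · intro γ j
    obtain ⟨N₁, h1⟩ := key γ n j
    obtain ⟨T, k, h2⟩ := (onB_cmpn hK n N₁).uc γ j
    exact ⟨T, k, fun z hz z' hz' h => ((h1 N₁ le_rfl z).trans (h2 z hz z' hz' h)).trans
      (h1 N₁ le_rfl z').symm⟩
  · intro γ l _
    rcases hγ γ with h | h
    · refine ⟨l, fun z _ => ⟨l, le_rfl, le_rfl, id, Emb.id le_rfl, fun z' _ _ h2 => ?_⟩⟩
      rw [htriv γ h, htriv γ h]
      exact ⟨h2, rfl⟩
    · obtain ⟨i, hi⟩ := h (l + 1)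
      have hi' : l + 1 ≤ m (n + i) γ :=
        hi.trans (monotone_nat_of_le_succ (f := fun n => m n γ) (fun n => hm n γ)
          (Nat.le_add_left i n))
      obtain ⟨M, hM⟩ := (onB_cmpn hK n i).emb γ l (Nat.zero_le _)
      refine ⟨M, fun z _ => ?_⟩
      obtain ⟨m', h1, h2, d, h3, h4⟩ := hM (R (n + i) z) (mem_topB _)
      refine ⟨m', h1, h2, d, h3, fun z' _ h5 h6 => ?_⟩
      have h7 : ∀ w : I → X, Eqn (l + 1) (R (n + i) w γ) (w γ) := fun w =>
        (hpres (n + i) w γ).mono hi'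
      obtain ⟨h8, h9⟩ := h4 (R (n + i) z') (mem_topB _)
        (fun δ hδ => hlow (n + i) δ z' z fun δ' hδ' => h5 δ' (hδ'.trans_lt hδ))
        ((((h7 z').mono (Nat.le_succ l)).trans h6).trans ((h7 z).mono (Nat.le_succ l)).symm)
      rw [hcmp i n z, hcmp i n z']
      refine ⟨h8, h9.trans ?_⟩
      rw [h7 z' l (Nat.lt_succ_self l)]
  · refine ⟨⋃ n, C n, countable_iUnion hC, fun γ hγ' => ⟨rfl, fun z _ => ?_⟩,
      fun γ hγ' z _ z' _ h => ?_⟩
    · refine htriv γ (fun k w => ?_) n z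
      exact (hC1 k γ fun h => hγ' (mem_iUnion.2 ⟨k, h⟩)).2 w (mem_topB _)
    · refine X.ext fun i => ?_
      rw [hR, hR, hsupp _ n z z' h γ hγ']

end Pool.Agent.EN45
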