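import Pool.Agent.EN45.Defs
import Pool.Agent.BVM.Notions

/-!
# The line of the cuts of a countable dense linear order (module LIN)
-/

namespace Pool.Agent.EN45

open Pool.Agent.BVM (ZFC FunOn CardLE Rel OPair)
open Pool.Agent.OG45 (Sub)

section

variable {M : Type*} {E : M → M → Prop}

/-- `O` is a dense linear order of `w` without end points -/
structure DLO (E : M → M → Prop) (w O : M) : Prop where
  fld : ∀ i j, Rel E O i j → E i w ∧ E j w
  irrefl : ∀ i, ¬ Rel E O i i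
  trans : ∀ i j k, Rel E O i j → Rel E O j k → Rel E O i k
  total : ∀ i j, E i w → E j w → i = j ∨ Rel E O i j ∨ Rel E O j i
  dense : ∀ i j, Rel E O i j → ∃ k, Rel E O i k ∧ Rel E O k j
  noMax : ∀ i, E i w → ∃ j, Rel E O i j
  noMin : ∀ i, E i w → ∃ j, Rel E O j i
  ne : ∃ i, E i w

/-- `x` is a cut of `(w, O)`: an initial segment without greatest element, which is not empty and
not `w` -/
structure Cutt (E : M → M → Prop) (w O x : M) : Prop where
  sub : Sub E x w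
  ne : ∃ i, E i x
  ne' : ∃ i, E i w ∧ ¬ E i x
  low : ∀ i j, Rel E O i j → E j x → E i x
  open' : ∀ i, E i x → ∃ j, E j x ∧ Rel E O i j

/-- comparison of cuts -/
theorem Cutt.sub_of {w O x y i : M} (hO : DLO E w O) (hx : Cutt E w O x) (hy : Cutt E w O y)
    (h1 : ¬ E i x) (h2 : E i y) : Sub E x y ∧ x ≠ y := by
  refine ⟨fun j hj => ?_, fun h => h1 (by rw [h]; exact h2)⟩
  rcases hO.total i j (hy.sub i h2) (hx.sub j hj) with h | h | h
  · exact absurd (h ▸ hj) h1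
  · exact absurd (hx.low i j h hj) h1
  · exact hy.low j i h h2

private theorem lin_cut {w O x i : M} (hO : DLO E w O) (hi : E i w) (hx : ∀ j, E j x ↔ Rel E O j i) :
    Cutt E w O x where
  sub := fun j hj => (hO.fld j i ((hx j).1 hj)).1
  ne := by
    obtain ⟨j, hj⟩ := hO.noMin i hi
    exact ⟨j, (hx j).2 hj⟩
  ne' := ⟨i, hi, fun h => hO.irrefl i ((hx i).1 h)⟩
  low := fun j k hjk hk => (hx j).2 (hO.trans j k i hjk ((hx k).1 hk))
  open' := by
    intro j hj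
    obtain ⟨k, h1, h2⟩ := hO.dense j i ((hx j).1 hj)
    exact ⟨k, (hx k).2 h2, h1⟩

private theorem lin_anti (hZ : ZFC E) {x y : M} (h1 : Sub E x y) (h2 : Sub E y x) : x = y :=
  hZ.ext x y fun z => ⟨h1 z, h2 z⟩

private theorem lin_total {w O x y : M} (hO : DLO E w O) (hx : Cutt E w O x) (hy : Cutt E w O y) :
    x = y ∨ (Sub E x y ∧ x ≠ y) ∨ (Sub E y x ∧ y ≠ x) := by
  by_cases h : Sub E x y
  · by_cases h' : x = y
    · exact Or.inl h'
    · exact Or.inr (Or.inl ⟨h, h'⟩)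
  · have h1 : ∃ i, E i x ∧ ¬ E i y := by
      by_contra hcon
      refine h fun i hi => ?_
      by_contra hi'
      exact hcon ⟨i, hi, hi'⟩
    obtain ⟨i, h2, h3⟩ := h1
    exact Or.inr (Or.inr (Cutt.sub_of hO hy hx h3 h2))

/-- module LIN: the cuts form a line.
`irrefl`, `trans` are clear.  `total`: if not `Sub x y` there is `i ∈ x`, `i ∉ y`, and
`Cutt.sub_of` gives `Sub y x`; use extensionality.  For `i ∈ w` let `q i` be the set of all `j` with
`Rel O j i`; it is a set by `hQ` (`hQs`), and a cut (`noMin`, `irrefl`, `trans`, `dense`), so it is in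
`R`, and in `Q`.
`noMax`: if `i ∈ w`, `i ∉ x`, take `j` with `Rel O i j`; then `x ⊊ q j` by `Cutt.sub_of`.  `noMin`: if
`i ∈ x` then `q i ⊊ x`.  `sep`: if `x ⊊ y` take `i ∈ y`, `i ∉ x` (extensionality) and `j ∈ y` with
`Rel O i j`; then `x ⊊ q j ⊊ y`.  `compl`: let `s` be the union of `S` (`hZ.union`); it is a cut, as it
is contained in the upper bound `b` (for `x ∈ S`, not `b < x`, so `x ⊆ b` by `total`). -/
theorem line_of_cuts (hZ : ZFC E) {w O R L Q : M} (hO : DLO E w O)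
    (hR : ∀ x, E x R ↔ Cutt E w O x)
    (hL : ∀ x y, Rel E L x y ↔ (E x R ∧ E y R ∧ Sub E x y ∧ x ≠ y))
    (hQs : ∀ i, E i w → ∃ x, ∀ j, E j x ↔ Rel E O j i)
    (hQ : ∀ x, E x Q ↔ ∃ i, E i w ∧ ∀ j, E j x ↔ Rel E O j i) (hQc : CardLE E Q w) :
    Line E w R L := by
  have hqR : ∀ i x, E i w → (∀ j, E j x ↔ Rel E O j i) → E x R :=
    fun i x hi hx => (hR x).2 (lin_cut hO hi hx)
  refine ⟨?_, ?_, ?_, ?_, ?_, ?_, ?_, ?_⟩
  · obtain ⟨i, hi⟩ := hO.ne
    obtain ⟨x, hx⟩ := hQs i hi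
    exact ⟨x, hqR i x hi hx⟩
  · intro x _ h
    exact ((hL x x).1 h).2.2.2 rfl
  · intro x y z hx hy hz hxy hyz
    obtain ⟨_, _, h1, h2⟩ := (hL x y).1 hxy
    obtain ⟨_, _, h3, h4⟩ := (hL y z).1 hyz
    refine (hL x z).2 ⟨hx, hz, fun i hi => h3 i (h1 i hi), ?_⟩
    rintro rfl
    exact h2 (lin_anti hZ h1 h3)
  · intro x y hx hy
    rcases lin_total hO ((hR x).1 hx) ((hR y).1 hy) with h | h | h
    · exact Or.inl h
    · exact Or.inr (Or.inl ((hL x y).2 ⟨hx, hy, h.1, h.2⟩))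
    · exact Or.inr (Or.inr ((hL y x).2 ⟨hy, hx, h.1, h.2⟩))
  · intro x hx
    have hxc := (hR x).1 hx
    obtain ⟨i, hi⟩ := hxc.ne
    have hiw := hxc.sub i hi
    obtain ⟨q, hq⟩ := hQs i hiw
    have hqc := lin_cut hO hiw hq
    obtain ⟨h1, h2⟩ := Cutt.sub_of hO hqc hxc (fun h => hO.irrefl i ((hq i).1 h)) hi
    exact ⟨q, (hR q).2 hqc, (hL q x).2 ⟨(hR q).2 hqc, hx, h1, h2⟩⟩
  · intro x hx
    have hxc := (hR x).1 hx
    obtain ⟨i, hiw, hi⟩ := hxc.ne'
    obtain ⟨j, hj⟩ := hO.noMax i hiw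
    have hjw := (hO.fld i j hj).2
    obtain ⟨q, hq⟩ := hQs j hjw
    have hqc := lin_cut hO hjw hq
    obtain ⟨h1, h2⟩ := Cutt.sub_of hO hxc hqc hi ((hq i).2 hj)
    exact ⟨q, (hR q).2 hqc, (hL x q).2 ⟨hx, (hR q).2 hqc, h1, h2⟩⟩
  · refine ⟨Q, fun x hx => ?_, hQc, fun x y hx hy hxy => ?_⟩
    · obtain ⟨i, hi, h⟩ := (hQ x).1 hx
      exact hqR i x hi h
    · obtain ⟨_, _, h1, h2⟩ := (hL x y).1 hxy
      have hxc := (hR x).1 hx
      have hyc := (hR y).1 hy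
      have h3 : ∃ i, E i y ∧ ¬ E i x := by
        by_contra hcon
        refine h2 (lin_anti hZ h1 fun i hi => ?_)
        by_contra hi'
        exact hcon ⟨i, hi, hi'⟩
      obtain ⟨i, hiy, hix⟩ := h3
      obtain ⟨j, hjy, hij⟩ := hyc.open' i hiy
      have hjw := hyc.sub j hjy
      obtain ⟨q, hq⟩ := hQs j hjw
      have hqc := lin_cut hO hjw hq
      have hqR' := (hR q).2 hqc
      obtain ⟨h4, h5⟩ := Cutt.sub_of hO hxc hqc hix ((hq i).2 hij)
      obtain ⟨h6, h7⟩ := Cutt.sub_of hO hqc hyc (fun h => hO.irrefl j ((hq j).1 h)) hjy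
      exact ⟨q, (hQ q).2 ⟨j, hjw, hq⟩, (hL x q).2 ⟨hx, hqR', h4, h5⟩, (hL q y).2 ⟨hqR', hy, h6, h7⟩⟩
  · intro S hS hne hb
    obtain ⟨x₀, hx₀⟩ := hne
    obtain ⟨b, hbR, hb⟩ := hb
    obtain ⟨s, hs⟩ := hZ.union S
    have hub : ∀ b, E b R → (∀ x, E x S → ¬ Rel E L b x) → Sub E s b := by
      intro b hbR hb i hi
      obtain ⟨x, hxS, hix⟩ := (hs i).1 hi
      have hxR := hS x hxS
      rcases lin_total hO ((hR x).1 hxR) ((hR b).1 hbR) with h | h | h
      · rw [← h]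
        exact hix
      · exact h.1 i hix
      · exact absurd ((hL b x).2 ⟨hbR, hxR, h.1, h.2⟩) (hb x hxS)
    have hsub : ∀ x, E x S → Sub E x s := fun x hx i hi => (hs i).2 ⟨x, hx, hi⟩
    have hsc : Cutt E w O s := by
      refine ⟨?_, ?_, ?_, ?_, ?_⟩
      · intro i hi
        obtain ⟨x, hxS, hix⟩ := (hs i).1 hi
        exact ((hR x).1 (hS x hxS)).sub i hix
      · obtain ⟨i, hi⟩ := ((hR x₀).1 (hS x₀ hx₀)).ne
        exact ⟨i, hsub x₀ hx₀ i hi⟩
      · obtain ⟨i, hiw, hib⟩ := ((hR b).1 hbR).ne'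
        exact ⟨i, hiw, fun h => hib (hub b hbR hb i h)⟩
      · intro i j hij hj
        obtain ⟨x, hxS, hjx⟩ := (hs j).1 hj
        exact hsub x hxS i (((hR x).1 (hS x hxS)).low i j hij hjx)
      · intro i hi
        obtain ⟨x, hxS, hix⟩ := (hs i).1 hi
        obtain ⟨j, hj, hij⟩ := ((hR x).1 (hS x hxS)).open' i hix
        exact ⟨j, hsub x hxS j hj, hij⟩
    have hsR := (hR s).2 hsc
    refine ⟨s, hsR, fun x hx h => ?_, fun b' hb'R hb' h => ?_⟩
    · obtain ⟨_, _, h1, h2⟩ := (hL s x).1 h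
      exact h2 (lin_anti hZ h1 (hsub x hx))
    · obtain ⟨_, _, h1, h2⟩ := (hL b' s).1 h
      exact h2 (lin_anti hZ h1 (hub b' hb'R hb'))

end

end Pool.Agent.EN45
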