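import Pool.Agent.EN45.Lin
import Pool.Agent.EN45.Ns
import Pool.Agent.EN45.Gen

/-!
# The line in the quotient models (module LNM)
-/

namespace Pool.Agent.EN45

open Classical Set Pool.Agent Pool.Agent.LadderTree Pool.Agent.Forcing Pool.Agent.MAx
open Pool.Agent.BVM (BSet UF eqv memv chk Congr le_of_uf Disc OPair FunOn op on onT CardLE Rel)
open Pool.Agent.OG45 Pool.Agent.IN45
open Pool.Agent.ML45 (IM)

section

variable {P : Type} [Preorder P]

/-- the name of the order `ld.O` -/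
noncomputable def ON : BSet (RO P) :=
  prs (fun x : {x : ℕ × ℕ // ld.O x.1 x.2} => on x.1.1) fun x => on x.1.2

theorem rpDLO (w O : BSet (RO P)) : RpP fun F : GG P => DLO (In F) (nm F w) (nm F O) := by
  have h : ∀ F : GG P, DLO (In F) (nm F w) (nm F O) ↔
      (∀ i j, Rel (In F) (nm F O) i j → In F i (nm F w) ∧ In F j (nm F w)) ∧
      (∀ i, ¬ Rel (In F) (nm F O) i i) ∧
      (∀ i j k, Rel (In F) (nm F O) i j → Rel (In F) (nm F O) j k → Rel (In F) (nm F O) i k) ∧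
      (∀ i j, In F i (nm F w) → In F j (nm F w) →
        i = j ∨ Rel (In F) (nm F O) i j ∨ Rel (In F) (nm F O) j i) ∧
      (∀ i j, Rel (In F) (nm F O) i j → ∃ k, Rel (In F) (nm F O) i k ∧
        Rel (In F) (nm F O) k j) ∧
      (∀ i, In F i (nm F w) → ∃ j, Rel (In F) (nm F O) i j) ∧
      (∀ i, In F i (nm F w) → ∃ j, Rel (In F) (nm F O) j i) ∧ ∃ i, In F i (nm F w) :=
    fun F => ⟨fun h => ⟨h.fld, h.irrefl, h.trans, h.total, h.dense, h.noMax, h.noMin, h.ne⟩,
      fun ⟨h1, h2, h3, h4, h5, h6, h7, h8⟩ => ⟨h1, h2, h3, h4, h5, h6, h7, h8⟩⟩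
  refine RpP.congr ?_ fun F => (h F).symm
  repeat' (first
    | exact RpP.rel _ _ _ | exact RpP.mem _ _ | exact RpP.eq _ _
    | refine RpP.and ?_ ?_ | refine RpP.or ?_ ?_
    | refine RpP.ex fun _ => ?_ | refine RpP.all fun _ => ?_
    | refine RpP.not ?_ | refine RpP.imp ?_ ?_)

theorem rpCutt (w O x : BSet (RO P)) :
    RpP fun F : GG P => Cutt (In F) (nm F w) (nm F O) (nm F x) := by
  have h : ∀ F : GG P, Cutt (In F) (nm F w) (nm F O) (nm F x) ↔
      (∀ i, In F i (nm F x) → In F i (nm F w)) ∧ (∃ i, In F i (nm F x)) ∧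
      (∃ i, In F i (nm F w) ∧ ¬ In F i (nm F x)) ∧
      (∀ i j, Rel (In F) (nm F O) i j → In F j (nm F x) → In F i (nm F x)) ∧
      ∀ i, In F i (nm F x) → ∃ j, In F j (nm F x) ∧ Rel (In F) (nm F O) i j :=
    fun F => ⟨fun h => ⟨h.sub, h.ne, h.ne', h.low, h.open'⟩,
      fun ⟨h1, h2, h3, h4, h5⟩ => ⟨h1, h2, h3, h4, h5⟩⟩
  refine RpP.congr ?_ fun F => (h F).symm
  repeat' (first
    | exact RpP.rel _ _ _ | exact RpP.mem _ _ | exact RpP.eq _ _
    | refine RpP.and ?_ ?_ | refine RpP.or ?_ ?_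
    | refine RpP.ex fun _ => ?_ | refine RpP.all fun _ => ?_
    | refine RpP.not ?_ | refine RpP.imp ?_ ?_)

/-- `Rel ON` for standard numbers.  `←`: `rel_prs`.  `→`: if not `ld.O i j`, then `gg_not` and
`fc_prs`, `nat_inj`, `Fc.false`. -/
theorem rel_ON {F : GG P} {i j : ℕ} :
    Rel (In F) (nm F (ON : BSet (RO P))) (nm F (on i)) (nm F (on j)) ↔ ld.O i j := by
  constructor
  · intro h
    by_contra hcon
    refine gg_not (A := fun F : GG P => Rel (In F) (nm F ON) (nm F (on i)) (nm F (on j)))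
      (RpP.rel _ _ _) (fun q hq => ?_) F h
    obtain ⟨r, hr, ⟨⟨i', j'⟩, hO⟩, h1⟩ := fc_prs hq
    obtain ⟨G, hG⟩ := exists_gg r
    obtain ⟨h2, h3⟩ := h1 G hG
    rw [nat_inj] at h2 h3
    subst h2
    subst h3
    exact hcon hO
  · intro h
    exact rel_prs F (⟨(i, j), h⟩ : {x : ℕ × ℕ // ld.O x.1 x.2})

/-- quantification over the pairs in `ON` -/
theorem all_ON {A : ∀ F : GG P, Md F → Md F → Prop}
    (hA : ∀ x y, RpP fun F => A F (nm F x) (nm F y))
    (h : ∀ (F : GG P) i j, ld.O i j → A F (nm F (on i)) (nm F (on j))) (F : GG P) (x y : Md F)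
    (hxy : Rel (In F) (nm F (ON : BSet (RO P))) x y) : A F x y := by
  obtain ⟨p, hp, hpO⟩ := hxy
  refine chk_all (b := (⊤ : RO P))
    (fun x : {x : ℕ × ℕ // ld.O x.1 x.2} => op (on x.1.1) (on x.1.2))
    (D := fun _ => True) (RpP.const True)
    (P := fun F p => ∀ x y, OPair (In F) p x y → A F x y)
    (fun p => RpP.all fun x => RpP.all fun y => (RpP.opair _ _ _).imp (hA x y))
    (fun F _ a x y hxy => ?_) F trivial p hpO x y hp
  obtain ⟨rfl, rfl⟩ := (OPair_nm.2 rfl : OPair (In F) (nm F (op (on a.1.1) (on a.1.2)))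
    (nm F (on a.1.1)) (nm F (on a.1.2))).inj hxy
  exact h F _ _ a.2

/-- quantification over the natural numbers of all models -/
theorem all_nt {A : ∀ F : GG P, Md F → Prop} (hA : ∀ x, RpP fun F => A F (nm F x))
    (h : ∀ (F : GG P) (i : ℕ), A F (nm F (on i))) (F : GG P) (x : Md F)
    (hx : In F x (nm F (onT ℕ))) : A F x :=
  chk_all (b := (⊤ : RO P)) (fun n : ℕ => on n) (D := fun _ => True) (RpP.const True)
    hA (fun F _ i => h F i) F trivial x hx

/-- the order is a dense linear order in each quotient model.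
`gg_all` with `rpDLO`; for each condition `q` prove the conjuncts (as in `rpDLO`) by `Fc.all`,
`Fc.imp`, `Fc.dense`; elements of `ω` are decided by `fc_nat`, and pairs in `ON` by
`fc_prs`; then use the properties of `ld`. -/
theorem dlo_ON (F : GG P) : DLO (In F) (nm F (onT ℕ)) (nm F (ON : BSet (RO P))) := by
  have hfld : ∀ (F : GG P) (i j : Md F), Rel (In F) (nm F (ON : BSet (RO P))) i j →
      In F i (nm F (onT ℕ)) ∧ In F j (nm F (onT ℕ)) :=
    all_ON (A := fun F i j => In F i (nm F (onT ℕ)) ∧ In F j (nm F (onT ℕ)))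
      (fun _ _ => (RpP.mem _ _).and (RpP.mem _ _)) fun F i j _ => ⟨nat_mem i F, nat_mem j F⟩
  refine ⟨hfld F, fun i hi => ?_, fun i j k hij hjk => ?_, fun i j hi hj => ?_,
    fun i j hij => ?_, fun i hi => ?_, fun i hi => ?_, ⟨nm F (on 0), nat_mem 0 F⟩⟩
  · exact all_ON (A := fun F i j => i ≠ j) (fun x y => (RpP.eq x y).not)
      (fun F i j h hij => by
        rw [nat_inj] at hij
        subst hij
        exact ld.irrefl i h) F i i hi rfl
  · have h1 := (hfld F i j hij).1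
    have h2 := hfld F j k hjk
    refine all_nt (A := fun F i => ∀ j, In F j (nm F (onT ℕ)) → ∀ k, In F k (nm F (onT ℕ)) →
      Rel (In F) (nm F (ON : BSet (RO P))) i j → Rel (In F) (nm F ON) j k →
        Rel (In F) (nm F ON) i k)
      (fun i => RpP.all fun j => (RpP.mem _ _).imp (RpP.all fun k => (RpP.mem _ _).imp
        ((RpP.rel _ _ _).imp ((RpP.rel _ _ _).imp (RpP.rel _ _ _)))))
      (fun F i => ?_) F i h1 j h2.1 k h2.2 hij hjk
    refine all_nt (A := fun F j => ∀ k, In F k (nm F (onT ℕ)) →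
      Rel (In F) (nm F (ON : BSet (RO P))) (nm F (on i)) j → Rel (In F) (nm F ON) j k →
        Rel (In F) (nm F ON) (nm F (on i)) k)
      (fun j => RpP.all fun k => (RpP.mem _ _).imp
        ((RpP.rel _ _ _).imp ((RpP.rel _ _ _).imp (RpP.rel _ _ _))))
      (fun F j => ?_) F
    refine all_nt (A := fun F k =>
      Rel (In F) (nm F (ON : BSet (RO P))) (nm F (on i)) (nm F (on j)) →
        Rel (In F) (nm F ON) (nm F (on j)) k → Rel (In F) (nm F ON) (nm F (on i)) k)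
      (fun k => (RpP.rel _ _ _).imp ((RpP.rel _ _ _).imp (RpP.rel _ _ _)))
      (fun F k => ?_) F
    rw [rel_ON, rel_ON, rel_ON]
    exact ld.trans i j k
  · refine all_nt (A := fun F i => ∀ j, In F j (nm F (onT ℕ)) →
      i = j ∨ Rel (In F) (nm F (ON : BSet (RO P))) i j ∨ Rel (In F) (nm F ON) j i)
      (fun i => RpP.all fun j => (RpP.mem _ _).imp
        ((RpP.eq _ _).or ((RpP.rel _ _ _).or (RpP.rel _ _ _))))
      (fun F i => ?_) F i hi j hj
    refine all_nt (A := fun F j => nm F (on i) = j ∨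
      Rel (In F) (nm F (ON : BSet (RO P))) (nm F (on i)) j ∨
        Rel (In F) (nm F ON) j (nm F (on i)))
      (fun j => (RpP.eq _ _).or ((RpP.rel _ _ _).or (RpP.rel _ _ _)))
      (fun F j => ?_) F
    rw [rel_ON, rel_ON, nat_inj]
    exact ld.total i j
  · refine all_ON (A := fun F i j => ∃ k, Rel (In F) (nm F (ON : BSet (RO P))) i k ∧
      Rel (In F) (nm F ON) k j)
      (fun i j => RpP.ex fun k => (RpP.rel _ _ _).and (RpP.rel _ _ _))
      (fun F i j h => ?_) F i j hij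
    obtain ⟨k, h1, h2⟩ := ld.dense i j h
    exact ⟨nm F (on k), rel_ON.2 h1, rel_ON.2 h2⟩
  · refine all_nt (A := fun F i => ∃ j, Rel (In F) (nm F (ON : BSet (RO P))) i j)
      (fun i => RpP.ex fun j => RpP.rel _ _ _) (fun F i => ?_) F i hi
    obtain ⟨j, hj⟩ := ld.noMax i
    exact ⟨nm F (on j), rel_ON.2 hj⟩
  · refine all_nt (A := fun F i => ∃ j, Rel (In F) (nm F (ON : BSet (RO P))) j i)
      (fun i => RpP.ex fun j => RpP.rel _ _ _) (fun F i => ?_) F i hi
    obtain ⟨j, hj⟩ := ld.noMin i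
    exact ⟨nm F (on j), rel_ON.2 hj⟩

/-- the names of the line and its order: `exists_sep` for `PwN` and `prodN` -/
theorem exists_RN : ∃ R L : BSet (RO P), ∀ F : GG P,
    (∀ x, In F x (nm F R) ↔ Cutt (In F) (nm F (onT ℕ)) (nm F ON) x) ∧
    ∀ x y, Rel (In F) (nm F L) x y ↔ (In F x (nm F R) ∧ In F y (nm F R) ∧
      OG45.Sub (In F) x y ∧ x ≠ y) := by
  obtain ⟨R, hR⟩ := exists_sep (b := (⊤ : RO P)) PwN
    (P := fun F z => Cutt (In F) (nm F (onT ℕ)) (nm F ON) z) fun y => rpCutt _ _ _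
  obtain ⟨L, hL⟩ := exists_sep (b := (⊤ : RO P)) (prodN R R)
    (P := fun F p => ∃ x y, OPair (In F) p x y ∧ OG45.Sub (In F) x y ∧ x ≠ y)
    (fun p => RpP.ex fun x => RpP.ex fun y => (RpP.opair _ _ _).and
      ((rpSub x y).and (RpP.eq x y).not))
  refine ⟨R, L, fun F => ⟨fun x => ?_, fun x y => ⟨?_, ?_⟩⟩⟩
  · rw [hR F x]
    exact ⟨fun h => h.2, fun h => ⟨(pow_PwN F x).2 h.sub, h⟩⟩
  · rintro ⟨p, hp, hpL⟩
    obtain ⟨h1, x', y', h2, h3⟩ := (hL F p).1 hpL
    obtain ⟨rfl, rfl⟩ := hp.inj h2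
    obtain ⟨s, t, hs, ht, h4⟩ := (In_prodN R R F p).1 h1
    obtain ⟨rfl, rfl⟩ := hp.inj h4
    exact ⟨hs, ht, h3⟩
  · rintro ⟨h1, h2, h3⟩
    obtain ⟨p, hp⟩ := exists_opair (BVM.zfc F.1) x y
    exact ⟨p, hp, (hL F p).2 ⟨(In_prodN R R F p).2 ⟨x, y, h1, h2, hp⟩, x, y, hp, h3⟩⟩

/-- the name of the line -/
noncomputable def RN : BSet (RO P) := exists_RN.choose

/-- the name of the order of the line -/
noncomputable def LN : BSet (RO P) := exists_RN.choose_spec.choose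

theorem in_RN {F : GG P} {x : Md F} :
    In F x (nm F RN) ↔ Cutt (In F) (nm F (onT ℕ)) (nm F ON) x :=
  (exists_RN.choose_spec.choose_spec F).1 x

theorem rel_LN {F : GG P} {x y : Md F} : Rel (In F) (nm F LN) x y ↔
    (In F x (nm F RN) ∧ In F y (nm F RN) ∧ OG45.Sub (In F) x y ∧ x ≠ y) :=
  (exists_RN.choose_spec.choose_spec F).2 x y

/-- comparison of points of the line -/
theorem lt_of_mem {F : GG P} {x y i : Md F} (hx : In F x (nm F RN)) (hy : In F y (nm F RN))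
    (h1 : ¬ In F i x) (h2 : In F i y) : Rel (In F) (nm F LN) x y := by
  have h3 := Cutt.sub_of (dlo_ON F) (in_RN.1 hx) (in_RN.1 hy) h1 h2
  exact rel_LN.2 ⟨hx, hy, h3.1, h3.2⟩

theorem not_lt_of_mem {F : GG P} {x y i : Md F} (h1 : In F i x) (h2 : ¬ In F i y) :
    ¬ Rel (In F) (nm F LN) x y := fun h => h2 ((rel_LN.1 h).2.2.1 i h1)

/-- if `x < y` then some `i` is in `y` and not in `x` -/
theorem exists_between {F : GG P} {x y : Md F} (h : Rel (In F) (nm F LN) x y) :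
    ∃ i, ¬ In F i x ∧ In F i y := by
  obtain ⟨-, -, h1, h2⟩ := rel_LN.1 h
  by_contra hcon
  push Not at hcon
  refine h2 ((BVM.zfc F.1).ext _ _ fun i => ⟨fun hi => h1 i hi, fun hi => ?_⟩)
  by_contra h3
  exact hcon i h3 hi

end

end Pool.Agent.EN45
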