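import Pool.Agent.EN45.Lna
import Pool.Agent.EN45.Rpl

/-!
# Neighbourhoods of the points of the entangled set (module NBH)
-/

namespace Pool.Agent.EN45

open Classical Set Pool.Agent Pool.Agent.LadderTree Pool.Agent.Forcing Pool.Agent.MAx
open Pool.Agent.BVM (BSet UF eqv memv chk Congr le_of_uf Disc OPair FunOn op on onT CardLE Rel)
open Pool.Agent.OG45 Pool.Agent.IN45
open Pool.Agent.ML45 (IM)

/-- the digits of the point `β` are decided: they agree with those of `s` before `n` -/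
def Dg (r : Cnd IM) (β : IM) (n : ℕ) (s : X) : Prop := ∀ z ∈ r.t, Eqn n s (ys β (r.f z β))

theorem Dg.mono {r r' : Cnd IM} {β : IM} {n : ℕ} {s : X} (h : Dg r β n s) (hr : r' ≤ r) :
    Dg r' β n s := by
  obtain ⟨K, hK⟩ := hr
  intro z hz
  rw [hK.eq z hz]
  exact h _ (hK.mp.maps z hz)

theorem dg_nd (r : Cnd IM) (β : IM) : Dg r β (nd β).1 (nd β).2 := fun _ _ => (ys_eqn β _).symm

/-- `(β, n)` is decided densely (`exists_small'`, with the level `n` at `β` only) -/
theorem exists_dg (q : Cnd IM) (β : IM) (n : ℕ) : ∃ r ≤ q, ∃ s, Dg r β n s := by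
  have hfin : {δ | (Function.update (fun _ : IM => 0) β n) δ ≠ 0}.Finite := by
    refine (finite_singleton β).subset fun δ hδ => ?_
    by_contra h
    exact hδ (Function.update_of_ne h _ _)
  obtain ⟨u, hu, h1, h2⟩ := exists_small' q.onb hfin q.t.pt_mem
  refine ⟨q.res hu, (via_res q hu).le, ys β (q.f q.t.pt β), fun z hz => ?_⟩
  refine ys_eqn_ys β ?_
  have h3 := h2 z hz β
  rw [Function.update_self] at h3
  exact h3.symm

/-- an entry of the cut is decided by the digits -/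
theorem exists_dig (b : Bool) (i : ℕ) : ∃ n, ∀ (r : Cnd IM) (β : IM) (s : X), Dg r β n s →
    Fc r (SB (cN b β) i (ld.cu b s i)) := by
  obtain ⟨n, hn⟩ := ld.uc b i
  exact ⟨n, fun r β s h => cN_iff fun z hz => (hn _ _ (h z hz)).symm⟩

/-- module NBH: an interval around a point contains all points with the same first digits.
By `exists_between` and `Fc.name` there are names `i₁`, `i₂` with `i₁ ∉ u`, `i₁ ∈ cN b β`,
`i₂ ∉ cN b β`, `i₂ ∈ v`; they are natural numbers (`rN_sub`; the points of `RN` are subsets of `ω`),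
so by `fc_nat` some `q' ≤ q` forces `i₁ = on i`, `i₂ = on j`.  Let `n` be the maximum of the numbers
of `exists_dig b i` and `exists_dig b j`, and let `r ≤ q'`, `s` be as in `exists_dg` for `n`.  Then
`ld.cu b s i = true` and `ld.cu b s j = false` (`Fc.false`).  For `r' ≤ r` and `β'` with
`Dg r' β' n s` the same entries of `cN b β'` are decided in the same way (`exists_dig`), and
`lt_of_mem` (`cN_in_RN`) gives the inequalities. -/
theorem exists_nbh {q : Cnd IM} {b : Bool} {β : IM} {u v : BSet (RO (Cnd IM))}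
    (h : Fc q fun F => Rel (In F) (nm F LN) (nm F u) (nm F (cN b β)) ∧
      Rel (In F) (nm F LN) (nm F (cN b β)) (nm F v)) :
    ∃ r ≤ q, ∃ n s, Dg r β n s ∧ ∀ β', ∀ r' ≤ r, Dg r' β' n s →
      Fc r' fun F => Rel (In F) (nm F LN) (nm F u) (nm F (cN b β')) ∧
        Rel (In F) (nm F LN) (nm F (cN b β')) (nm F v) := by
  have h1 : Fc q fun F => ∃ i, ¬ In F i (nm F u) ∧ In F i (nm F (cN b β)) :=
    fun F hF => exists_between (h F hF).1
  have h2 : Fc q fun F => ∃ i, ¬ In F i (nm F (cN b β)) ∧ In F i (nm F v) :=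
    fun F hF => exists_between (h F hF).2
  obtain ⟨i₁, hi₁⟩ := Fc.name (A := fun F i => ¬ In F i (nm F u) ∧ In F i (nm F (cN b β)))
    (fun y => (RpP.mem _ _).not.and (RpP.mem _ _)) h1
  obtain ⟨i₂, hi₂⟩ := Fc.name (A := fun F i => ¬ In F i (nm F (cN b β)) ∧ In F i (nm F v))
    (fun y => (RpP.mem _ _).not.and (RpP.mem _ _)) h2
  obtain ⟨q₁, hq₁, i, hi⟩ := fc_nat (a := i₁) (q := q) fun F hF => rN_sub (hi₁ F hF).2
  obtain ⟨q₂, hq₂, j, hj⟩ := fc_nat (a := i₂) (q := q₁) fun F hF =>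
    (in_RN.1 (rel_LN.1 ((h.mono hq₁) F hF).2).2.1).sub _ ((hi₂.mono hq₁) F hF).2
  obtain ⟨n₁, hn₁⟩ := exists_dig b i
  obtain ⟨n₂, hn₂⟩ := exists_dig b j
  obtain ⟨r, hr, s, hs⟩ := exists_dg q₂ β (max n₁ n₂)
  -- smaller levels
  have hle : ∀ {r' : Cnd IM} {β' : IM} {m : ℕ}, m ≤ max n₁ n₂ → Dg r' β' (max n₁ n₂) s →
      Dg r' β' m s := fun hm h' z hz => (h' z hz).mono hm
  have hrq : r ≤ q := hr.trans (hq₂.trans hq₁)
  -- the entries of the digits
  have hI : ld.cu b s i = true := by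
    by_contra hne
    rw [Bool.not_eq_true] at hne
    refine Fc.false (q := r) fun F hF => ?_
    have h3 := hn₁ r β s (hle (le_max_left _ _) hs) F hF
    rw [hne] at h3
    have h4 := (hi₁.mono hrq) F hF
    have h5 := (hi.mono (hr.trans hq₂)) F hF
    beta_reduce at h4 h5
    rw [h5] at h4
    exact absurd (h3.1 h4.2) (by simp)
  have hJ : ld.cu b s j = false := by
    by_contra hne
    rw [Bool.not_eq_false] at hne
    refine Fc.false (q := r) fun F hF => ?_
    have h3 := hn₂ r β s (hle (le_max_right _ _) hs) F hF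
    rw [hne] at h3
    have h4 := (hi₂.mono hrq) F hF
    have h5 := (hj.mono hr) F hF
    beta_reduce at h4 h5
    rw [h5] at h4
    exact h4.1 (h3.2 rfl)
  refine ⟨r, hrq, max n₁ n₂, s, hs, fun β' r' hr' hs' F hF => ?_⟩
  have h3 := hn₁ r' β' s (hle (le_max_left _ _) hs') F hF
  have h4 := hn₂ r' β' s (hle (le_max_right _ _) hs') F hF
  rw [hI] at h3
  rw [hJ] at h4
  have h5 := (hi₁.mono (hr'.trans hrq)) F hF
  have h6 := (hi₂.mono (hr'.trans hrq)) F hF
  have h7 := (hi.mono (hr'.trans (hr.trans hq₂))) F hF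
  have h8 := (hj.mono (hr'.trans hr)) F hF
  have h9 := (h.mono (hr'.trans hrq)) F hF
  beta_reduce at h5 h6 h7 h8 h9
  rw [h7] at h5
  rw [h8] at h6
  refine ⟨lt_of_mem (i := nm F (on i)) (rel_LN.1 h9.1).1 (cN_in_RN b β' F) h5.1 (h3.2 rfl),
    lt_of_mem (i := nm F (on j)) (cN_in_RN b β' F) (rel_LN.1 h9.2).2.1 (fun h' => ?_) h6.2⟩
  exact absurd (h4.1 h') (by simp)

end Pool.Agent.EN45
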