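import Pool.Agent.EN45.Cnd

/-!
# Normal forms of conditions
-/

namespace Pool.Agent.EN45

open Classical Set Pool.Agent Pool.Agent.LadderTree Pool.Agent.Forcing Pool.Agent.MAx
open Pool.Agent.BVM (BSet UF eqv memv chk Congr le_of_uf Disc OPair FunOn op on onT)
open Pool.Agent.OG45 Pool.Agent.IN45

section

variable {I : Type}

/-- the same box with the normal point -/
def nbx (t : Bx I) : Bx I := ⟨fun γ => spl (t.lv γ) (t.pt γ) x0, t.lv, t.fin⟩

theorem mem_nbx {t : Bx I} {z : I → X} : z ∈ nbx t ↔ z ∈ t := by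
  refine forall_congr' fun γ => ?_
  have h : Eqn (t.lv γ) (spl (t.lv γ) (t.pt γ) x0) (t.pt γ) := spl_eqn _ _ _
  exact ⟨fun h' => Eqn.trans h' h, fun h' => Eqn.trans h' h.symm⟩

theorem nbx_nbx (t : Bx I) : nbx (nbx t) = nbx t := by
  have h : ∀ γ, spl (t.lv γ) (spl (t.lv γ) (t.pt γ) x0) x0 = spl (t.lv γ) (t.pt γ) x0 := by
    intro γ
    refine X.ext fun i => ?_
    by_cases hi : i < t.lv γ
    · rw [spl_lt _ _ hi]
    · rw [spl_ge _ _ (not_lt.1 hi), spl_ge _ _ (not_lt.1 hi)]
  unfold nbx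
  simp only [h]

theorem proj_nbx (t : Bx I) (z : I → X) : proj (nbx t) z = proj t z := by
  funext γ
  refine X.ext fun i => ?_
  show (spl (t.lv γ) (spl (t.lv γ) (t.pt γ) x0) (z γ)).1 i = (spl (t.lv γ) (t.pt γ) (z γ)).1 i
  by_cases hi : i < t.lv γ
  · rw [spl_lt _ _ hi, spl_lt _ _ hi, spl_lt _ _ hi]
  · rw [spl_ge _ _ (not_lt.1 hi), spl_ge _ _ (not_lt.1 hi)]

theorem proj_proj (t : Bx I) (z : I → X) : proj t (proj t z) = proj t z := proj_self (proj_mem t z)

end

variable {I : Type} [LinearOrder I]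

/-- admissible maps are determined by their values on the box -/
theorem OnB.nbx {t : Bx I} {f : (I → X) → I → X} (h : OnB t f) :
    OnB (nbx t) fun z => f (proj t z) := by
  have h1 : OnB (EN45.nbx t) f :=
    h.mono ⟨fun _ => le_rfl, fun z hz => mem_nbx.1 hz⟩
  exact h1.congr fun z hz => by rw [proj_self (mem_nbx.1 hz)]

/-- the normal form of a condition -/
noncomputable def nrm (p : Cnd I) : Cnd I := ⟨nbx p.t, fun z => p.f (proj p.t z), p.onb.nbx⟩

theorem via_nrm (p : Cnd I) : Via (nrm p) p fun z => z :=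
  ⟨⟨OnB.id _, fun _ hz => mem_nbx.1 hz⟩, fun z hz => by
    show p.f (proj p.t z) = p.f z
    rw [proj_self (mem_nbx.1 hz)]⟩

theorem via_nrm' (p : Cnd I) : Via p (nrm p) fun z => z :=
  ⟨⟨OnB.id _, fun _ hz => mem_nbx.2 hz⟩, fun z hz => by
    show p.f z = p.f (proj p.t z)
    rw [proj_self hz]⟩

theorem suppIn_nrm {D : Set I} {p : Cnd I} (h : SuppIn D p) : SuppIn D (nrm p) := fun γ hγ =>
  ⟨(h γ hγ).1, fun z hz => by
    show p.f (proj p.t z) γ = z γ
    rw [proj_self (mem_nbx.1 hz), (h γ hγ).2 z (mem_nbx.1 hz)]⟩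

/-- the conditions in normal form with support in `D` -/
def NC (D : Set I) : Type := {p : Cnd I // nrm p = p ∧ SuppIn D p}

theorem nrm_nrm (p : Cnd I) : nrm (nrm p) = nrm p := by
  have h1 : nbx (nbx p.t) = nbx p.t := nbx_nbx _
  have h2 : (fun z => p.f (proj p.t (proj (nbx p.t) z))) = fun z => p.f (proj p.t z) := by
    funext z
    rw [proj_nbx, proj_proj]
  unfold nrm
  simp only [h1, h2]

/-- the normal form as an element of the set of normal forms -/
noncomputable def toNC {D : Set I} (p : Cnd I) (h : SuppIn D p) : NC D :=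
  ⟨nrm p, nrm_nrm p, suppIn_nrm h⟩

/-- for conditions in normal form the support works for all points -/
theorem NC.out {p : Cnd I} (hp : nrm p = p) {C : Set I} (h : SuppIn C p) {γ : I} (hγ : γ ∉ C)
    (z : I → X) : p.f z γ = z γ := by
  have h1 : p.f z = p.f (proj p.t z) := by
    have h2 : (nrm p).f z = p.f (proj p.t z) := rfl
    rw [hp] at h2
    exact h2
  rw [h1, (h γ hγ).2 _ (proj_mem _ _)]
  refine proj_apply ?_
  rw [(h γ hγ).1]
  exact eqn_zero _ _

end Pool.Agent.EN45
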