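import Pool.Agent.EN45.Ns
import Pool.Agent.EN45.Gen

/-!
# New sets of natural numbers (module NSN)
-/

namespace Pool.Agent.EN45

open Classical Set Pool.Agent Pool.Agent.LadderTree Pool.Agent.Forcing Pool.Agent.MAx
open Pool.Agent.BVM (BSet UF eqv memv chk Congr le_of_uf Disc OPair FunOn op on onT)
open Pool.Agent.OG45 Pool.Agent.IN45 Cardinal
open Pool.Agent.ML45 (IM mk_IM mk_Iio_IM bdd_IM WM mk_WM exists_gt_WM countable_Iic_WM)

/-- module NSN: at most continuum many names do not exhaust the points at `β`.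
For each condition `p` and `l` there are by `exists_reads_set (a l) p` a condition `s ≤ p` and a
function `g` with `Rd s g (SB (a l))` and `Dep C s.t g`, `C` countable; let `ψ p l` be an index above
`C` and a countable set as in `exists_suppIn s` (countable sets are bounded in `IM`, by
`bdd_IM`), and `Ψ p` an index above all `ψ p l` (`bdd_IM hΛ`).  Let `β` be as in `exists_closure Ψ α₀`.
Suppose `r` forces `cN b β = a l` (`Fc.not`).  Let `p₀ = nrm (cut β r)`; by `suppIn_cut`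
`Ψ p₀ < β`, so the chosen `s ≤ p₀`, `g` satisfy `SuppIn (Iio β) s` and `Dep (Iio β) s.t g`.  By
`via_nrm` `s ≤ cut β r`, and by `exists_amalg` there is `r'` with `r' ≤ r` and `r' ≤ s`; now
`not_eq_read` for `r'` (`Rd.comp`, `Dep.comp`) gives a contradiction. -/
theorem exists_new {Λ : Type} (hΛ : #Λ ≤ 𝔠) (a : Λ → BSet (RO (Cnd IM))) (α₀ : IM) :
    ∃ β, α₀ < β ∧ ∀ b l q, Fc q fun F => nm F (cN b β) ≠ nm F (a l) := by
  have h1 : ∀ (p : Cnd IM) (l : Λ), ∃ b : IM, ∃ s ≤ p, ∃ g, Rd s g (SB (a l)) ∧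
      SuppIn (Iio b) s ∧ Dep (Iio b) s.t g := by
    intro p l
    obtain ⟨s, hs, g, hg, C, hC, hd⟩ := exists_reads_set (a l) p
    obtain ⟨C', hC', hs'⟩ := exists_suppIn s
    have h2 : #(C ∪ C' : Set IM) ≤ 𝔠 :=
      (Cardinal.mk_le_aleph0_iff.2 (hC.union hC').to_subtype).trans aleph0_le_continuum
    obtain ⟨b, hb⟩ := bdd_IM h2 fun x => x.1
    have h3 : C ∪ C' ⊆ Iio b := fun x hx => hb ⟨x, hx⟩
    exact ⟨b, s, hs, g, hg, hs'.mono (subset_union_right.trans h3),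
      hd.mono' (subset_union_left.trans h3)⟩
  choose ψ hψ using h1
  have h4 : ∀ p : Cnd IM, ∃ b : IM, ∀ l, ψ p l < b := fun p => bdd_IM hΛ (ψ p)
  choose Ψ hΨ using h4
  obtain ⟨β, hβ, -, hcl⟩ := exists_closure Ψ α₀
  refine ⟨β, hβ, fun b l q => Fc.not (RpP.eq _ _) fun r _ hr => ?_⟩
  have h5 : Ψ (nrm (cut β r)) < β := hcl _ (suppIn_cut β r)
  obtain ⟨s, hs, g, hg, hs', hd⟩ := hψ (nrm (cut β r)) l
  have h6 : ψ (nrm (cut β r)) l < β := (hΨ _ l).trans h5
  have h7 : Iio (ψ (nrm (cut β r)) l) ⊆ Iio β := Iio_subset_Iio h6.le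
  have h8 : s ≤ cut β r := hs.trans (via_nrm (cut β r)).le
  obtain ⟨r', hr', ⟨K, hK⟩⟩ := exists_amalg h8 (hs'.mono h7)
  exact not_eq_read (hg.comp hK) ((hd.mono' h7).comp (isLowerSet_Iio β) hK.mp) b (hr.mono hr')

end Pool.Agent.EN45
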