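import Pool.Agent.EN45.Rms
import Pool.Agent.EN45.Base

/-!
# The partition theorem (module RAM)
-/

namespace Pool.Agent.EN45

/-- the first difference of `x` and `y` exists, and it is even if and only if `ε` is `true` -/
def PD (ε : Bool) (x y : ℕ → Bool) : Prop :=
  ∃ n, (∀ i < n, x i = y i) ∧ x n ≠ y n ∧ (Even n ↔ ε = true)

theorem PD.ne {ε : Bool} {x y : ℕ → Bool} (h : PD ε x y) : x ≠ y := by
  obtain ⟨n, -, h, -⟩ := h
  exact fun h' => h (congrFun h' n)

theorem PD.symm {ε : Bool} {x y : ℕ → Bool} (h : PD ε x y) : PD ε y x := by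
  obtain ⟨n, h1, h2, h3⟩ := h
  exact ⟨n, fun i hi => (h1 i hi).symm, h2.symm, h3⟩

theorem exists_PD {x y : ℕ → Bool} (h : x ≠ y) : ∃ ε, PD ε x y := by
  classical
  have h1 : ∃ n, x n ≠ y n := by
    by_contra hcon
    push Not at hcon
    exact h (funext hcon)
  refine ⟨decide (Even (Nat.find h1)), Nat.find h1, fun i hi => ?_, Nat.find_spec h1, by simp⟩
  by_contra hcon
  exact Nat.find_min h1 hi hcon

theorem PD.unique {ε ε' : Bool} {x y : ℕ → Bool} (h : PD ε x y) (h' : PD ε' x y) : ε = ε' := by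
  obtain ⟨n, h1, h2, h3⟩ := h
  obtain ⟨n', h1', h2', h3'⟩ := h'
  have e : n = n' := by
    rcases lt_trichotomy n n' with h4 | h4 | h4
    · exact absurd (h1' n h4) h2
    · exact h4
    · exact absurd (h1 n' h4) h2'
  subst e
  rw [h3, Bool.eq_iff_iff.symm] at h3'
  exact h3'

/-- four sequences of which the pairs `01`, `03`, `23` have one parity and the pairs `02`, `12`,
`13` have one parity: the two parities are equal.
Let `k` be the least first difference of two of them.  All agree before `k`, and the values at `k`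
split the four sequences into two nonempty parts such that the first difference is `k` for all
pairs with one member in each part.  Whatever the parts are, there are both kinds of such
pairs. -/
theorem parity_four {x : Fin 4 → ℕ → Bool} {c c' : Bool} (h01 : PD c (x 0) (x 1))
    (h03 : PD c (x 0) (x 3)) (h23 : PD c (x 2) (x 3)) (h02 : PD c' (x 0) (x 2))
    (h12 : PD c' (x 1) (x 2)) (h13 : PD c' (x 1) (x 3)) : c = c' := by
  classical
  have h1 : ∃ n, ¬ (x 0 n = x 1 n ∧ x 0 n = x 2 n ∧ x 0 n = x 3 n) := by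
    obtain ⟨n, -, hn, -⟩ := h01
    exact ⟨n, fun h => hn h.1⟩
  have hk := Nat.find_spec h1
  have hlt : ∀ i < Nat.find h1, x 0 i = x 1 i ∧ x 0 i = x 2 i ∧ x 0 i = x 3 i := fun i hi =>
    not_not.1 (Nat.find_min h1 hi)
  generalize Nat.find h1 = k at hk hlt
  have key : ∀ (c : Bool) (y z : ℕ → Bool), (∀ i < k, y i = z i) → y k ≠ z k → PD c y z →
      c = decide (Even k) := by
    intro c y z h2 h3 h4
    exact h4.unique ⟨k, h2, h3, by simp⟩
  have a01 : ∀ i < k, x 0 i = x 1 i := fun i hi => (hlt i hi).1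
  have a02 : ∀ i < k, x 0 i = x 2 i := fun i hi => (hlt i hi).2.1
  have a03 : ∀ i < k, x 0 i = x 3 i := fun i hi => (hlt i hi).2.2
  have a23 : ∀ i < k, x 2 i = x 3 i := fun i hi => (a02 i hi).symm.trans (a03 i hi)
  have a12 : ∀ i < k, x 1 i = x 2 i := fun i hi => (a01 i hi).symm.trans (a02 i hi)
  have a13 : ∀ i < k, x 1 i = x 3 i := fun i hi => (a01 i hi).symm.trans (a03 i hi)
  have hc : c = decide (Even k) := by
    by_cases e1 : x 0 k = x 1 k
    · by_cases e2 : x 0 k = x 3 k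
      · by_cases e3 : x 2 k = x 3 k
        · exact absurd ⟨e1, e2.trans e3.symm, e2⟩ hk
        · exact key c _ _ a23 e3 h23
      · exact key c _ _ a03 e2 h03
    · exact key c _ _ a01 e1 h01
  have hc' : c' = decide (Even k) := by
    by_cases e1 : x 0 k = x 2 k
    · by_cases e2 : x 1 k = x 2 k
      · by_cases e3 : x 1 k = x 3 k
        · exact absurd ⟨e1.trans e2.symm, e1, (e1.trans e2.symm).trans e3⟩ hk
        · exact key c' _ _ a13 e3 h13
      · exact key c' _ _ a12 e2 h12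
    · exact key c' _ _ a02 e1 h02
  rw [hc, hc']

/-- module RAM: the partition theorem.
Let `n' = max n 2`, `N = (n' + 2) ^ 2`, let `M₁` be as in `ramsey_prod N`, and `M = max n' M₁`.
Given `v`, let `χ p q` be `true` iff the first difference of `v p` and `v q` is even (iff
`PD true (v p) (v q)`), and take `a`, `b`, `c`, `c'` from `ramsey_prod`.  Let
`d p = (a (p.1 * (n' + 2) + p.2), b (p.2 * (n' + 2) + p.1))`.  If `Lt1 p q` for `p`, `q` in
`L n'` then `p.1 * (n' + 2) + p.2 < q.1 * (n' + 2) + q.2`, so that `Lt1 (d p) (d q)` by the first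
coordinates; similarly for `Lt2` and the second coordinates.  For `Lt1 p q` the colour of
`d p`, `d q` is `c` if `Lt2 p q` and `c'` if `Lt2 q p`.  The points
`(0, 1), (1, 3), (2, 0), (3, 2)` of `L 2` and `parity_four` show that `c = c'`. -/
theorem exists_ram (n : ℕ) : ∃ M, n ≤ M ∧ ∀ v : ℕ × ℕ → ℕ → Bool,
    (∀ p q, Ok M p → Ok M q → p ≠ q → v p ≠ v q) → ∃ d, Emb n M d ∧ ∃ ε, ∀ p q, Ok n p →
      Ok n q → p ≠ q → PD ε (v (d p)) (v (d q)) := by
  classical
  obtain ⟨n', hn'⟩ : ∃ n', n' = max n 2 := ⟨_, rfl⟩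
  have hnn : n ≤ n' := by omega
  have hn2 : 2 ≤ n' := by omega
  obtain ⟨M₁, hM₁⟩ := ramsey_prod ((n' + 2) ^ 2)
  refine ⟨max n' M₁, by omega, fun v hv => ?_⟩
  obtain ⟨a, b, hab, hM, c, c', hc⟩ := hM₁ fun p q => decide (PD true (v p) (v q))
  have hidx : ∀ s t : ℕ, s ≤ n' + 1 → t ≤ n' + 1 → s * (n' + 2) + t < (n' + 2) ^ 2 := by
    intro s t hs ht
    have e1 : s * (n' + 2) ≤ (n' + 1) * (n' + 2) := Nat.mul_le_mul_right _ hs
    have e2 : (n' + 2) ^ 2 = (n' + 1) * (n' + 2) + (n' + 2) := by ring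
    omega
  have hmon : ∀ s t s' t' : ℕ, t ≤ n' + 1 → (s < s' ∨ s = s' ∧ t < t') →
      s * (n' + 2) + t < s' * (n' + 2) + t' := by
    intro s t s' t' ht h
    rcases h with h | ⟨rfl, h⟩
    · have e1 : (s + 1) * (n' + 2) ≤ s' * (n' + 2) := Nat.mul_le_mul_right _ h
      have e2 : (s + 1) * (n' + 2) = s * (n' + 2) + (n' + 2) := by ring
      omega
    · omega
  have hok : ∀ p, Ok n' p → Ok (max n' M₁)
      (a (p.1 * (n' + 2) + p.2), b (p.2 * (n' + 2) + p.1)) := by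
    intro p hp
    have h1 := (hM _ (hidx p.1 p.2 hp.1 hp.2)).1
    have h2 := (hM _ (hidx p.2 p.1 hp.2 hp.1)).2
    constructor
    · change a (p.1 * (n' + 2) + p.2) ≤ max n' M₁ + 1
      omega
    · change b (p.2 * (n' + 2) + p.1) ≤ max n' M₁ + 1
      omega
  have hlt1 : ∀ p q, Ok n' p → Ok n' q → Lt1 p q →
      Lt1 (a (p.1 * (n' + 2) + p.2), b (p.2 * (n' + 2) + p.1))
        (a (q.1 * (n' + 2) + q.2), b (q.2 * (n' + 2) + q.1)) := by
    intro p q hp hq h
    exact Or.inl (hab _ _ (hmon _ _ _ _ hp.2 h) (hidx _ _ hq.1 hq.2)).1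
  have hlt2 : ∀ p q, Ok n' p → Ok n' q → Lt2 p q →
      Lt2 (a (p.1 * (n' + 2) + p.2), b (p.2 * (n' + 2) + p.1))
        (a (q.1 * (n' + 2) + q.2), b (q.2 * (n' + 2) + q.1)) := by
    intro p q hp hq h
    exact Or.inl (hab _ _ (hmon _ _ _ _ hp.1 h) (hidx _ _ hq.2 hq.1)).2
  have hPD : ∀ p q : ℕ × ℕ, Ok (max n' M₁) p → Ok (max n' M₁) q → p ≠ q →
      PD (decide (PD true (v p) (v q))) (v p) (v q) := by
    intro p q hp hq hne
    by_cases h : PD true (v p) (v q)
    · simp [h]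
    · obtain ⟨e, he⟩ := exists_PD (hv p q hp hq hne)
      cases e
      · simpa [h] using he
      · exact absurd he h
  have hc1 : ∀ p q, Ok n' p → Ok n' q → Lt1 p q → Lt2 p q →
      PD c (v (a (p.1 * (n' + 2) + p.2), b (p.2 * (n' + 2) + p.1)))
        (v (a (q.1 * (n' + 2) + q.2), b (q.2 * (n' + 2) + q.1))) := by
    intro p q hp hq h1 h2
    have h3 := hPD _ _ (hok p hp) (hok q hq) (lt1_ne (hlt1 p q hp hq h1))
    have h4 := (hc _ _ _ _ (hmon _ _ _ _ hp.2 h1) (hidx _ _ hq.1 hq.2)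
      (hmon _ _ _ _ hp.1 h2) (hidx _ _ hq.2 hq.1)).1
    rw [← h4]
    exact h3
  have hc2 : ∀ p q, Ok n' p → Ok n' q → Lt1 p q → Lt2 q p →
      PD c' (v (a (p.1 * (n' + 2) + p.2), b (p.2 * (n' + 2) + p.1)))
        (v (a (q.1 * (n' + 2) + q.2), b (q.2 * (n' + 2) + q.1))) := by
    intro p q hp hq h1 h2
    have h3 := hPD _ _ (hok p hp) (hok q hq) (lt1_ne (hlt1 p q hp hq h1))
    have h4 := (hc _ _ _ _ (hmon _ _ _ _ hp.2 h1) (hidx _ _ hq.1 hq.2)
      (hmon _ _ _ _ hq.1 h2) (hidx _ _ hp.2 hp.1)).2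
    rw [← h4]
    exact h3
  have o0 : Ok n' (0, 1) := ⟨by simp, by simp⟩
  have o1 : Ok n' (1, 3) := ⟨by simp, by simp only; omega⟩
  have o2 : Ok n' (2, 0) := ⟨by simp only; omega, by simp⟩
  have o3 : Ok n' (3, 2) := ⟨by simp only; omega, by simp only; omega⟩
  have hcc : c = c' := by
    obtain ⟨w, hw⟩ : ∃ w : ℕ × ℕ → ℕ → Bool, w = fun p =>
      v (a (p.1 * (n' + 2) + p.2), b (p.2 * (n' + 2) + p.1)) := ⟨_, rfl⟩
    have g1 : ∀ p q, Ok n' p → Ok n' q → Lt1 p q → Lt2 p q → PD c (w p) (w q) := by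
      rw [hw]; exact hc1
    have g2 : ∀ p q, Ok n' p → Ok n' q → Lt1 p q → Lt2 q p → PD c' (w p) (w q) := by
      rw [hw]; exact hc2
    refine parity_four (x := ![w (0, 1), w (1, 3), w (2, 0), w (3, 2)]) ?_ ?_ ?_ ?_ ?_ ?_
    · exact g1 _ _ o0 o1 (Or.inl (by norm_num)) (Or.inl (by norm_num))
    · exact g1 _ _ o0 o3 (Or.inl (by norm_num)) (Or.inl (by norm_num))
    · exact g1 _ _ o2 o3 (Or.inl (by norm_num)) (Or.inl (by norm_num))
    · exact g2 _ _ o0 o2 (Or.inl (by norm_num)) (Or.inl (by norm_num))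
    · exact g2 _ _ o1 o2 (Or.inl (by norm_num)) (Or.inl (by norm_num))
    · exact g2 _ _ o1 o3 (Or.inl (by norm_num)) (Or.inl (by norm_num))
  subst hcc
  have tri2 : ∀ p q : ℕ × ℕ, p ≠ q → Lt2 p q ∨ Lt2 q p := by
    intro p q h
    rcases lt_trichotomy p.2 q.2 with h1 | h1 | h1
    · exact Or.inl (Or.inl h1)
    · rcases lt_trichotomy p.1 q.1 with h2 | h2 | h2
      · exact Or.inl (Or.inr ⟨h1, h2⟩)
      · exact absurd (Prod.ext h2 h1) h
      · exact Or.inr (Or.inr ⟨h1.symm, h2⟩)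
    · exact Or.inr (Or.inl h1)
  refine ⟨fun p => (a (p.1 * (n' + 2) + p.2), b (p.2 * (n' + 2) + p.1)), ⟨?_, ?_, ?_⟩, c, ?_⟩
  · exact fun p hp => hok p (hp.mono hnn)
  · exact fun p q hp hq => hlt1 p q (hp.mono hnn) (hq.mono hnn)
  · exact fun p q hp hq => hlt2 p q (hp.mono hnn) (hq.mono hnn)
  · intro p q hp hq hne
    have hp' := hp.mono hnn
    have hq' := hq.mono hnn
    rcases lt1_tri hne with h1 | h1
    · rcases tri2 p q hne with h2 | h2
      · exact hc1 p q hp' hq' h1 h2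
      · exact hc2 p q hp' hq' h1 h2
    · rcases tri2 p q hne with h2 | h2
      · exact (hc2 q p hq' hp' h1 h2).symm
      · exact (hc1 q p hq' hp' h1 h2).symm

end Pool.Agent.EN45
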