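import Pool.Agent.ShufVar.Ramsey

/-!
# Ramsey's theorem for pairs and for products (module RMS)
-/

namespace Pool.Agent.EN45

/-- Ramsey's theorem for pairs; `ShufVar.ramsey` for `n = 2` and the list `List.range M` -/
theorem ramsey_pairs (κ : Type) [Finite κ] (N : ℕ) : ∃ M, ∀ χ : ℕ → ℕ → κ, ∃ a : ℕ → ℕ,
    (∀ i j, i < j → j < N → a i < a j) ∧ (∀ i < N, a i < M) ∧
      ∃ c, ∀ i j, i < j → j < N → χ (a i) (a j) = c := by
  obtain ⟨M, hM⟩ := ShufVar.ramsey κ 2 N
  refine ⟨M, fun χ => ?_⟩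
  obtain ⟨T, hT, hlen, c, hc⟩ := hM ℕ (List.range M) (by rw [List.length_range])
    (fun l => χ (l.getD 0 0) (l.getD 1 0))
  have hlt : T.Pairwise (· < ·) := List.Pairwise.sublist hT List.pairwise_lt_range
  have hcol : T.Pairwise (fun x y => χ x y = c) := by
    rw [List.pairwise_iff_forall_sublist]
    intro x y hxy
    exact hc [x, y] hxy rfl
  refine ⟨fun i => T.getD i 0, fun i j hij hj => ?_, fun i hi => ?_, c, fun i j hij hj => ?_⟩
  · rw [List.pairwise_iff_getElem] at hlt
    have h1 := hlt i j (by omega) (by omega) hij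
    simp only [List.getD_eq_getElem?_getD]
    rw [List.getElem?_eq_getElem (by omega), List.getElem?_eq_getElem (by omega)]
    exact h1
  · have h1 : T[i]'(by omega) ∈ List.range M := hT.subset (List.getElem_mem _)
    simp only [List.getD_eq_getElem?_getD]
    rw [List.getElem?_eq_getElem (by omega)]
    exact List.mem_range.1 h1
  · rw [List.pairwise_iff_getElem] at hcol
    have h1 := hcol i j (by omega) (by omega) hij
    simp only [List.getD_eq_getElem?_getD]
    rw [List.getElem?_eq_getElem (by omega), List.getElem?_eq_getElem (by omega)]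
    exact h1

/-- the product theorem for colourings of pairs of points of `ℕ × ℕ`.
Let `N'` be the number of `ramsey_pairs (Bool × Bool) N`.  Apply `ramsey_pairs` with the finite type
of colours `κ = Fin N' → Fin N' → Bool × Bool` to get `M₁` for `max N N'`, and let
`M = max M₁ N'`.  Given `χ`, colour `k < l` by the function
`(i, j) ↦ (χ (i, k) (j, l), χ (i, l) (j, k))`; there is a homogeneous sequence `b` with the colour
`g`.  Colour `i < j < N'` by `g i j`; there is a homogeneous sequence `a` of length `N` with values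
`< N'`. -/
theorem ramsey_prod (N : ℕ) : ∃ M, ∀ χ : ℕ × ℕ → ℕ × ℕ → Bool, ∃ a b : ℕ → ℕ,
    (∀ i j, i < j → j < N → a i < a j ∧ b i < b j) ∧ (∀ i < N, a i < M ∧ b i < M) ∧
      ∃ c c' : Bool, ∀ i j k l, i < j → j < N → k < l → l < N →
        χ (a i, b k) (a j, b l) = c ∧ χ (a i, b l) (a j, b k) = c' := by
  obtain ⟨N', hN'⟩ := ramsey_pairs (Bool × Bool) N
  obtain ⟨M, hM⟩ := ramsey_pairs (Fin N' → Fin N' → Bool × Bool) N
  refine ⟨max M N', fun χ => ?_⟩
  obtain ⟨b, hb1, hb2, g, hg⟩ := hM fun k l =>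
    fun i j => (χ (i.1, k) (j.1, l), χ (i.1, l) (j.1, k))
  obtain ⟨a, ha1, ha2, c, hc⟩ := hN' fun i j =>
    if h : i < N' ∧ j < N' then g ⟨i, h.1⟩ ⟨j, h.2⟩ else (false, false)
  refine ⟨a, b, fun i j hij hj => ⟨ha1 i j hij hj, hb1 i j hij hj⟩, fun i hi =>
    ⟨lt_of_lt_of_le (ha2 i hi) (le_max_right _ _), lt_of_lt_of_le (hb2 i hi) (le_max_left _ _)⟩,
    c.1, c.2, fun i j k l hij hj hkl hl => ?_⟩
  have h1 := hc i j hij hj
  rw [dif_pos ⟨ha2 i (by omega), ha2 j hj⟩] at h1
  have h2 := congrFun (congrFun (hg k l hkl hl) ⟨a i, ha2 i (by omega)⟩) ⟨a j, ha2 j hj⟩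
  rw [h1] at h2
  exact ⟨congrArg Prod.fst h2, congrArg Prod.snd h2⟩

end Pool.Agent.EN45
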