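import Pool.Agent.EN45.Evt

/-!
# Points with prescribed first differences (module SGN)
-/

namespace Pool.Agent.EN45

open Set

variable {I : Type*} [LinearOrder I]

/-- the values `x`, `y` differ first at some place `m ≥ N`, with the entries `d p`, `d q` -/
def Dfr (N : ℕ) (p q : ℕ × ℕ) (x y : X) : Prop := ∃ (m n : ℕ) (d : ℕ × ℕ → ℕ × ℕ), N ≤ m ∧
  Emb n m d ∧ Eqn m x y ∧ x.1 m = d p ∧ y.1 m = d q

/-- module SGN.
Induction on the number of elements of `G` (for all `w` and `N`).  If `G` is empty take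
`z = z' = w`.  Otherwise let `β` be the greatest element of `G` (`Finset.max'`), and let
`n` be the maximum of `N β` and `u.lv β`; let `M` be the bound of `hg.emb` at `β` for `n`, and let
`(T, k)` be as in `hg.uc_low β (M + 1)`.  Apply the induction hypothesis to `G.erase β`, `w` and
`N' δ = max (N δ) k`; let `z₁`, `z₁'` be the points.  Let `z` be `z₁` with the value
`upd (w β) n (p β) _` at `β`, and `z'` be `z₁'` with the value `upd (w β) n (q β) _` at `β`
(`Ok.mono`).  They are in `u` (`update_mem`).  For `δ < β` the values of `g` at `δ` do not change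
(`hg.low`).  At `β`: let `z''` be `z₁` with the value `upd (w β) n (q β) _` at `β`.  By the choice of
`M` there are `m ≤ M`, `n ≤ m` and `d` with `Eqn m (g z'' β) (g z β)` and the entries `d (q β)` and
`d (p β)` at `m`; and `Eqn (M + 1) (g z'' β) (g z' β)` by `uc_low`, as `z''` and `z'` have the same
first `k` entries at all `δ < β` (both agree with `w` up to `k` at `δ ∈ G`, and are equal to `w` at the
other `δ < β`) and the same value at `β`. -/
theorem exists_signs {u : Bx I} {g : (I → X) → I → X} (hg : OnB u g) (G : Finset I)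
    {p q : I → ℕ × ℕ} (hp : ∀ β, Ok 0 (p β)) (hq : ∀ β, Ok 0 (q β)) {w : I → X} (hw : w ∈ u)
    (N : I → ℕ) : ∃ z ∈ u, ∃ z' ∈ u, (∀ δ ∉ G, z δ = w δ ∧ z' δ = w δ) ∧
      (∀ δ ∈ G, Eqn (N δ) (z δ) (w δ) ∧ Eqn (N δ) (z' δ) (w δ)) ∧
      ∀ β ∈ G, Dfr (N β) (p β) (q β) (g z β) (g z' β) := by
  classical
  induction G using Finset.induction_on_max generalizing N with
  | empty =>
    exact ⟨w, hw, w, hw, fun _ _ => ⟨rfl, rfl⟩, fun δ hδ => absurd hδ (Finset.notMem_empty δ),
      fun δ hδ => absurd hδ (Finset.notMem_empty δ)⟩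
  | insert β G hG ih =>
    have hβG : β ∉ G := fun h => lt_irrefl _ (hG β h)
    obtain ⟨n, hn⟩ : ∃ n, n = max (N β) (u.lv β) := ⟨_, rfl⟩
    have hn1 : N β ≤ n := by rw [hn]; exact le_max_left _ _
    have hn2 : u.lv β ≤ n := by rw [hn]; exact le_max_right _ _
    obtain ⟨M, hM⟩ := hg.emb β n hn2
    obtain ⟨T, k, hT⟩ := hg.uc_low β (M + 1)
    obtain ⟨z₁, hz₁, z₁', hz₁', h1, h2, h3⟩ := ih fun δ => max (N δ) k
    have hpn : Ok n (p β) := (hp β).mono (Nat.zero_le _)
    have hqn : Ok n (q β) := (hq β).mono (Nat.zero_le _)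
    have hwβ : z₁ β = w β := (h1 β hβG).1
    have hwβ' : z₁' β = w β := (h1 β hβG).2
    obtain ⟨z, hz⟩ : ∃ z, z = Function.update z₁ β (upd (w β) n (p β) hpn) := ⟨_, rfl⟩
    obtain ⟨z', hz'⟩ : ∃ z', z' = Function.update z₁' β (upd (w β) n (q β) hqn) := ⟨_, rfl⟩
    obtain ⟨v, hv⟩ : ∃ v, v = Function.update z₁ β (upd (w β) n (q β) hqn) := ⟨_, rfl⟩
    have hzu : z ∈ u := by
      rw [hz]; exact update_mem hz₁ (by rw [hwβ]; exact upd_eqn _ _ _ _ hn2)
    have hzu' : z' ∈ u := by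
      rw [hz']; exact update_mem hz₁' (by rw [hwβ']; exact upd_eqn _ _ _ _ hn2)
    have hvu : v ∈ u := by
      rw [hv]; exact update_mem hz₁ (by rw [hwβ]; exact upd_eqn _ _ _ _ hn2)
    have zβ : z β = upd (w β) n (p β) hpn := by rw [hz, Function.update_self]
    have zβ' : z' β = upd (w β) n (q β) hqn := by rw [hz', Function.update_self]
    have vβ : v β = upd (w β) n (q β) hqn := by rw [hv, Function.update_self]
    have zδ : ∀ δ, δ ≠ β → z δ = z₁ δ := fun δ hδ => by rw [hz, Function.update_of_ne hδ]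
    have zδ' : ∀ δ, δ ≠ β → z' δ = z₁' δ := fun δ hδ => by rw [hz', Function.update_of_ne hδ]
    have vδ : ∀ δ, δ ≠ β → v δ = z₁ δ := fun δ hδ => by rw [hv, Function.update_of_ne hδ]
    refine ⟨z, hzu, z', hzu', fun δ hδ => ?_, fun δ hδ => ?_, fun δ hδ => ?_⟩
    · rw [Finset.mem_insert, not_or] at hδ
      rw [zδ δ hδ.1, zδ' δ hδ.1]
      exact h1 δ hδ.2
    · rcases Finset.mem_insert.1 hδ with rfl | hδ
      · rw [zβ, zβ']
        exact ⟨upd_eqn _ _ _ _ hn1, upd_eqn _ _ _ _ hn1⟩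
      · have h4 : δ ≠ β := (hG δ hδ).ne
        rw [zδ δ h4, zδ' δ h4]
        exact ⟨(h2 δ hδ).1.mono (le_max_left _ _), (h2 δ hδ).2.mono (le_max_left _ _)⟩
    · rcases Finset.mem_insert.1 hδ with rfl | hδ
      · obtain ⟨m, h4, h5, d, h6, h7⟩ := hM z hzu
        obtain ⟨-, h8⟩ := h7 z hzu (fun _ _ => rfl) (Eqn.refl _ _)
        obtain ⟨h9, h10⟩ := h7 v hvu (fun ε hε => by rw [vδ ε hε.ne, zδ ε hε.ne])
          (by rw [vβ, zβ]; exact (upd_eqn _ _ _ _ le_rfl).trans (upd_eqn _ _ _ _ le_rfl).symm)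
        have h11 : Eqn (M + 1) (g v δ) (g z' δ) := by
          refine hT v hvu z' hzu' (fun ε _ hε => ?_) (by rw [vβ, zβ']; exact Eqn.refl _ _)
          rw [vδ ε hε.ne, zδ' ε hε.ne]
          by_cases hεG : ε ∈ G
          · exact ((h2 ε hεG).1.mono (le_max_right _ _)).trans
              ((h2 ε hεG).2.mono (le_max_right _ _)).symm
          · rw [(h1 ε hεG).1, (h1 ε hεG).2]
            exact Eqn.refl _ _
        refine ⟨m, n, d, hn1.trans h4, h6, h9.symm.trans (h11.mono (h5.trans (Nat.le_succ M))),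
          ?_, ?_⟩
        · rw [h8, zβ, upd_self]
        · rw [← h11 m (Nat.lt_succ_of_le h5), h10, vβ, upd_self]
      · have h4 : δ < β := hG δ hδ
        have h5 : g z δ = g z₁ δ := hg.low δ z hzu z₁ hz₁ fun ε hε =>
          zδ ε (hε.trans_lt h4).ne
        have h6 : g z' δ = g z₁' δ := hg.low δ z' hzu' z₁' hz₁' fun ε hε =>
          zδ' ε (hε.trans_lt h4).ne
        rw [h5, h6]
        obtain ⟨m, n', d, h7, h8⟩ := h3 δ hδ
        exact ⟨m, n', d, (le_max_left _ _).trans h7, h8⟩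

/-- digits with prescribed signs -/
theorem exists_digits (s₁ s₂ : Bool) : ∃ p q : ℕ × ℕ, Ok 0 p ∧ Ok 0 q ∧
    (s₁ = true → Lt1 p q) ∧ (s₁ = false → Lt1 q p) ∧ (s₂ = true → Lt2 p q) ∧
      (s₂ = false → Lt2 q p) := by
  cases s₁ <;> cases s₂
  · exact ⟨(1, 1), (0, 0), by simp [Ok], by simp [Ok], by simp, by simp [Lt1], by simp,
      by simp [Lt2]⟩
  · exact ⟨(1, 0), (0, 1), by simp [Ok], by simp [Ok], by simp, by simp [Lt1], by simp [Lt2],
      by simp⟩
  · exact ⟨(0, 1), (1, 0), by simp [Ok], by simp [Ok], by simp [Lt1], by simp, by simp,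
      by simp [Lt2]⟩
  · exact ⟨(0, 0), (1, 1), by simp [Ok], by simp [Ok], by simp [Lt1], by simp, by simp [Lt2],
      by simp⟩

end Pool.Agent.EN45
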